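import Pool.Agent.H960.IS.Stm

/-!
Project IS (helper960), step B1: growth of the magnetisation on the lattice (helper684).
-/

open MeasureTheory Filter Topology Finset H960FV H960IS

namespace Pool.Agent.H684.IS

variable {d : ℕ}

theorem ind_false {P : Prop} (h : ¬ P) : ind P = 0 := by
  unfold ind
  rw [if_neg h]

theorem mem_Ed_left {S : Finset (Z d)} {e : Z d × Fin d} (h : e.1 ∈ S) : e ∈ Ed S := by
  unfold Ed
  rw [Finset.mem_union]
  left
  rw [Finset.mem_product]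
  exact ⟨h, Finset.mem_univ _⟩

theorem mem_Ed_right {S : Finset (Z d)} {e : Z d × Fin d} (h : e.1 + un e.2 ∈ S) : e ∈ Ed S := by
  unfold Ed
  rw [Finset.mem_union]
  right
  rw [Finset.mem_image]
  refine ⟨(e.1 + un e.2, e.2), ?_, ?_⟩
  · rw [Finset.mem_product]
    exact ⟨h, Finset.mem_univ _⟩
  · simp

theorem Ed_mono {S Λ : Finset (Z d)} (h : S ⊆ Λ) : Ed S ⊆ Ed Λ := by
  unfold Ed
  apply Finset.union_subset_union
  · exact Finset.product_subset_product_left h
  · exact Finset.image_subset_image (Finset.product_subset_product_left h)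

/-- B1 -/
theorem B1 (h1 : S_growth) (h2 : S_link1) (h3 : S_link2) : S_B1 := by
  intro d β₁ β₂ c Λ hc hβ₁ hβ h0 hpsi
  rw [h2 d β₂ Λ 0]
  refine h1 (Option ↥Λ) ↥(Ed Λ) (pL Λ) (qL Λ) (vL Λ 0) none c β₁ β₂ hc hβ₁ hβ ?_
  intro β hb1 hb2 S' ho hg
  set S : Finset (Z d) := Λ.filter (fun x => vL Λ x ∈ S') with hS
  have hmem : ∀ x : Z d, vL Λ x ∈ S' ↔ x ∈ S := by
    intro x
    rw [hS, Finset.mem_filter]
    constructor
    · intro h
      refine ⟨?_, h⟩
      by_contra hx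
      apply hg
      have : vL Λ x = none := by
        unfold vL
        rw [dif_neg hx]
      rwa [this] at h
    · exact fun h => h.2
  have hSΛ : S ⊆ Λ := Finset.filter_subset _ _
  have h0S : (0 : Z d) ∈ S := (hmem 0).1 ho
  have himg : S.image (vL Λ) = S' := by
    ext v
    rw [Finset.mem_image]
    constructor
    · rintro ⟨x, hx, rfl⟩
      exact (hmem x).2 hx
    · intro hv
      rcases v with _ | ⟨x, hx⟩
      · exact absurd hv hg
      · have hvx : vL Λ x = some ⟨x, hx⟩ := by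
          unfold vL
          rw [dif_pos hx]
        refine ⟨x, (hmem x).1 ?_, hvx⟩
        rw [hvx]
        exact hv
  refine le_trans (hpsi β hb1 hb2 S hSΛ h0S) (le_of_eq ?_)
  unfold psi
  set F : Z d × Fin d → ℝ := fun e =>
    ind (e.1 ∈ S ∧ e.1 + un e.2 ∉ S) * fre β S 0 e.1 +
      ind (e.1 + un e.2 ∈ S ∧ e.1 ∉ S) * fre β S 0 (e.1 + un e.2) with hF
  have hsum : ∑ e ∈ Ed S, F e = ∑ e ∈ Ed Λ, F e := by
    refine Finset.sum_subset (Ed_mono hSΛ) ?_
    intro e _ he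
    have e1 : e.1 ∉ S := fun h => he (mem_Ed_left h)
    have e2 : e.1 + un e.2 ∉ S := fun h => he (mem_Ed_right h)
    simp only [hF]
    rw [ind_false (fun h => e1 h.1), ind_false (fun h => e2 h.1), zero_mul, zero_mul, add_zero]
  rw [hsum, ← Finset.sum_coe_sort (Ed Λ) F]
  refine Finset.sum_congr rfl fun e _ => ?_
  have hp : pL Λ e = vL Λ e.1.1 := rfl
  have hq : qL Λ e = vL Λ (e.1.1 + un e.1.2) := rfl
  simp only [hF]
  rw [hp, hq, hmem, hmem]
  congr 1
  · by_cases h : e.1.1 ∈ S ∧ e.1.1 + un e.1.2 ∉ S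
    · rw [← h3 d β Λ S hSΛ 0 h0S e.1.1 h.1, himg]
    · rw [ind_false h, zero_mul, zero_mul]
  · by_cases h : e.1.1 + un e.1.2 ∈ S ∧ e.1.1 ∉ S
    · rw [← h3 d β Λ S hSΛ 0 h0S (e.1.1 + un e.1.2) h.1, himg]
    · rw [ind_false h, zero_mul, zero_mul]

end Pool.Agent.H684.IS
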