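import Pool.Agent.H960.IS.Stm

/-! Monotonicity of the boundary sum (helper747). -/

open Finset H960FV H960IS

namespace Pool.Agent.H747.IS

theorem ind_nonneg (P : Prop) : 0 ≤ ind P := by
  unfold ind
  split_ifs
  · exact zero_le_one
  · exact le_refl _

theorem ind_mul_le (P : Prop) (a b : ℝ) (h : P → a ≤ b) : ind P * a ≤ ind P * b := by
  by_cases hP : P
  · exact mul_le_mul_of_nonneg_left (h hP) (ind_nonneg P)
  · unfold ind
    rw [if_neg hP, zero_mul, zero_mul]

theorem fre_mono (h1 : S_gksmono) (h2 : S_link2) (d : ℕ) (β β' : ℝ) (S : Finset (Z d))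
    (hβ : 0 ≤ β) (hββ : β ≤ β') (h0 : (0 : Z d) ∈ S) (x : Z d) (hx : x ∈ S) :
    fre β S 0 x ≤ fre β' S 0 x := by
  rw [← h2 d β S S (Finset.Subset.refl S) 0 h0 x hx,
    ← h2 d β' S S (Finset.Subset.refl S) 0 h0 x hx]
  unfold corS
  apply h1
  · intro e
    unfold res
    split_ifs
    · exact hβ
    · exact le_refl _
  · intro e
    unfold res
    split_ifs
    · exact hββ
    · exact le_refl _

theorem B2 (h1 : S_gksmono) (h2 : S_link2) : S_B2 := by
  intro d β β' S hβ hββ h0
  unfold psi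
  apply Finset.sum_le_sum
  intro e _
  apply add_le_add
  · apply ind_mul_le
    intro h
    exact fre_mono h1 h2 d β β' S hβ hββ h0 _ h.1
  · apply ind_mul_le
    intro h
    exact fre_mono h1 h2 d β β' S hβ hββ h0 _ h.1

end Pool.Agent.H747.IS
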