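import Pool.Agent.H960.IS.Stm

/-!
Project IS (helper960), step B4: the Simon - Lieb inequality on the lattice.
-/

open MeasureTheory Filter Topology Finset H960FV H960IS

namespace Pool.Agent.H124.IS

theorem ind_nonneg (P : Prop) : 0 ≤ ind P := by
  unfold ind
  split
  · exact zero_le_one
  · exact le_rfl

theorem ind_mul_congr {P : Prop} {x y : ℝ} (h : P → x = y) : ind P * x = ind P * y := by
  unfold ind
  split
  · rename_i hp
    rw [h hp]
  · rw [zero_mul, zero_mul]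

theorem ind_mul_le {P : Prop} {x y : ℝ} (h : P → x ≤ y) : ind P * x ≤ ind P * y := by
  unfold ind
  split
  · rename_i hp
    rw [one_mul, one_mul]
    exact h hp
  · rw [zero_mul, zero_mul]

theorem ind_mul_nonneg {P : Prop} {x : ℝ} (h : P → 0 ≤ x) : 0 ≤ ind P * x := by
  unfold ind
  split
  · rename_i hp
    rw [one_mul]
    exact h hp
  · rw [zero_mul]

theorem ind_false {P : Prop} (h : ¬ P) : ind P = 0 := by
  unfold ind
  rw [if_neg h]

variable {d : ℕ}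

theorem mem_Ed {Λ : Finset (Z d)} {e : Z d × Fin d} :
    e ∈ Ed Λ ↔ e.1 ∈ Λ ∨ e.1 + un e.2 ∈ Λ := by
  unfold Ed
  rw [mem_union, mem_product, mem_image]
  constructor
  · rintro (h | ⟨f, hf, rfl⟩)
    · exact Or.inl h.1
    · right
      rw [mem_product] at hf
      show f.1 - un f.2 + un f.2 ∈ Λ
      rw [sub_add_cancel]
      exact hf.1
  · rintro (h | h)
    · exact Or.inl ⟨h, mem_univ _⟩
    · right
      refine ⟨(e.1 + un e.2, e.2), mem_product.2 ⟨h, mem_univ _⟩, ?_⟩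
      show (e.1 + un e.2 - un e.2, e.2) = e
      rw [add_sub_cancel_right]

theorem Ed_mono {Λ S : Finset (Z d)} (h : S ⊆ Λ) : Ed S ⊆ Ed Λ := by
  intro e he
  rw [mem_Ed] at he ⊢
  exact he.imp (fun h' => h h') (fun h' => h h')

theorem vL_mem {Λ S : Finset (Z d)} (h : S ⊆ Λ) (x : Z d) :
    vL Λ x ∈ S.image (vL Λ) ↔ x ∈ S := by
  constructor
  · intro hx
    obtain ⟨s, hs, hsx⟩ := mem_image.1 hx
    unfold vL at hsx
    rw [dif_pos (h hs)] at hsx
    split at hsx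
    · rename_i hxΛ
      have := Option.some.inj hsx
      have h2 : s = x := congrArg Subtype.val this
      rw [← h2]
      exact hs
    · exact absurd hsx (by simp)
  · intro hx
    exact mem_image_of_mem _ hx

theorem none_notMem {Λ S : Finset (Z d)} (h : S ⊆ Λ) : (none : Option ↥Λ) ∉ S.image (vL Λ) := by
  intro hx
  obtain ⟨s, hs, hsx⟩ := mem_image.1 hx
  unfold vL at hsx
  rw [dif_pos (h hs)] at hsx
  exact absurd hsx (by simp)

theorem fre_nonneg (h3 : S_link2) (h4 : S_gks) {β : ℝ} (hβ : 0 ≤ β) {S : Finset (Z d)}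
    {x y : Z d} (hx : x ∈ S) (hy : y ∈ S) : 0 ≤ fre β S x y := by
  rw [← h3 d β S S (Subset.refl S) x hx y hy]
  unfold corS
  refine (h4 _ _ _ _ _ (fun e => ?_) _ ∅).1
  unfold res
  split
  · exact hβ
  · exact le_rfl

theorem B4 (h1 : S_simon) (h2 : S_link1) (h3 : S_link2) (h4 : S_gks) : S_B4 := by
  intro d β M Λ S hβ hSΛ h0 hM1 hM2
  have hfre : ∀ x ∈ S, 0 ≤ fre β S 0 x := fun x hx => fre_nonneg h3 h4 hβ h0 hx
  refine ⟨?_, ?_⟩
  · unfold psi
    refine sum_nonneg fun e _ => add_nonneg (ind_mul_nonneg fun h => hfre _ h.1)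
      (ind_mul_nonneg fun h => hfre _ h.1)
  have hth : 0 ≤ Real.tanh β := by
    rw [Real.tanh_eq_sinh_div_cosh]
    exact div_nonneg (Real.sinh_nonneg_iff.2 hβ) (Real.cosh_pos β).le
  have hS := h1 (Option ↥Λ) (↥(Ed Λ)) (pL Λ) (qL Λ) (fun _ => β) (fun _ => hβ) (vL Λ 0) none
    (S.image (vL Λ)) (mem_image_of_mem _ h0) (none_notMem hSΛ)
  rw [← h2 d β Λ 0] at hS
  set t : Z d × Fin d → ℝ := fun e =>
    ind (e.1 ∈ S ∧ e.1 + un e.2 ∉ S) * (fre β S 0 e.1 * mag β Λ (e.1 + un e.2)) +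
      ind (e.1 + un e.2 ∈ S ∧ e.1 ∉ S) * (fre β S 0 (e.1 + un e.2) * mag β Λ e.1) with ht
  have hterm : ∀ e : ↥(Ed Λ), Real.tanh β *
      (ind (pL Λ e ∈ S.image (vL Λ) ∧ qL Λ e ∉ S.image (vL Λ)) *
        (corS (pL Λ) (qL Λ) (fun _ => β) (S.image (vL Λ)) (symmDiff {vL Λ 0} {pL Λ e}) *
          cor (pL Λ) (qL Λ) (fun _ => β) (symmDiff {qL Λ e} {none})) +
      ind (qL Λ e ∈ S.image (vL Λ) ∧ pL Λ e ∉ S.image (vL Λ)) *
        (corS (pL Λ) (qL Λ) (fun _ => β) (S.image (vL Λ)) (symmDiff {vL Λ 0} {qL Λ e}) *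
          cor (pL Λ) (qL Λ) (fun _ => β) (symmDiff {pL Λ e} {none}))) = Real.tanh β * t e.1 := by
    intro e
    have ep : pL Λ e = vL Λ e.1.1 := rfl
    have eq : qL Λ e = vL Λ (e.1.1 + un e.1.2) := rfl
    rw [ep, eq, ← h2 d β Λ (e.1.1 + un e.1.2), ← h2 d β Λ e.1.1, vL_mem hSΛ, vL_mem hSΛ, ht]
    have a1 : ind (e.1.1 ∈ S ∧ e.1.1 + un e.1.2 ∉ S) *
        (corS (pL Λ) (qL Λ) (fun _ => β) (S.image (vL Λ)) (symmDiff {vL Λ 0} {vL Λ e.1.1}) *
          mag β Λ (e.1.1 + un e.1.2)) = ind (e.1.1 ∈ S ∧ e.1.1 + un e.1.2 ∉ S) *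
        (fre β S 0 e.1.1 * mag β Λ (e.1.1 + un e.1.2)) :=
      ind_mul_congr fun h => by rw [h3 d β Λ S hSΛ 0 h0 _ h.1]
    have a2 : ind (e.1.1 + un e.1.2 ∈ S ∧ e.1.1 ∉ S) *
        (corS (pL Λ) (qL Λ) (fun _ => β) (S.image (vL Λ))
          (symmDiff {vL Λ 0} {vL Λ (e.1.1 + un e.1.2)}) * mag β Λ e.1.1) =
        ind (e.1.1 + un e.1.2 ∈ S ∧ e.1.1 ∉ S) *
        (fre β S 0 (e.1.1 + un e.1.2) * mag β Λ e.1.1) :=
      ind_mul_congr fun h => by rw [h3 d β Λ S hSΛ 0 h0 _ h.1]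
    rw [a1, a2]
  rw [sum_congr rfl fun e _ => hterm e] at hS
  refine hS.trans ?_
  rw [sum_coe_sort (Ed Λ) (fun e => Real.tanh β * t e), ← mul_sum]
  have h5 : ∑ e ∈ Ed Λ, t e = ∑ e ∈ Ed S, t e := by
    refine (sum_subset (Ed_mono hSΛ) fun e _ he => ?_).symm
    rw [mem_Ed, not_or] at he
    rw [ht]
    show ind _ * _ + ind _ * _ = 0
    rw [ind_false fun h => he.1 h.1, ind_false fun h => he.2 h.1, zero_mul, zero_mul, add_zero]
  rw [h5, mul_assoc]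
  refine mul_le_mul_of_nonneg_left ?_ hth
  unfold psi
  rw [sum_mul]
  refine sum_le_sum fun e he => ?_
  rw [ht]
  show ind _ * _ + ind _ * _ ≤ _
  rw [add_mul, mul_assoc, mul_assoc]
  refine add_le_add (ind_mul_le fun h => ?_) (ind_mul_le fun h => ?_)
  · exact mul_le_mul_of_nonneg_left ((hM2 e he).resolve_right h.2) (hfre _ h.1)
  · exact mul_le_mul_of_nonneg_left ((hM1 e he).resolve_right h.2) (hfre _ h.1)

end Pool.Agent.H124.IS
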