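import Pool.Agent.H960.IS.Stm

/-!
Project IS (helper960): the censoring inequality for heat bath updates (helper252).
-/

set_option autoImplicit false

open MeasureTheory Filter Topology Finset H960FV H960IS

namespace Pool.Agent.H252.IS

variable {d : ℕ}

theorem Zn_pos (β : ℝ) (Λ : Finset (Z d)) (η : Z d → Bool) : 0 < Zn β Λ η := by
  unfold Zn
  exact Finset.sum_pos (fun τ _ => Real.exp_pos _) univ_nonempty

theorem Kop_le (β : ℝ) (Λ : Finset (Z d)) (η : Z d → Bool) (f g : (Z d → Bool) → ℝ)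
    (h : ∀ σ, f σ ≤ g σ) : Kop β Λ f η ≤ Kop β Λ g η := by
  unfold Kop
  refine div_le_div_of_nonneg_right ?_ (Zn_pos β Λ η).le
  exact Finset.sum_le_sum fun τ _ => mul_le_mul_of_nonneg_left (h _) (Real.exp_pos _).le

theorem Kop_congr (β : ℝ) (Λ : Finset (Z d)) (η : Z d → Bool) (f g : (Z d → Bool) → ℝ)
    (h : ∀ τ : ↥Λ → Bool, f (gl Λ τ η) = g (gl Λ τ η)) : Kop β Λ f η = Kop β Λ g η := by
  unfold Kop
  congr 1
  exact Finset.sum_congr rfl fun τ _ => by rw [h τ]

theorem Kop_mul (β : ℝ) (Λ : Finset (Z d)) (η : Z d → Bool) (f : (Z d → Bool) → ℝ) (c : ℝ) :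
    Kop β Λ (fun σ => f σ * c) η = Kop β Λ f η * c := by
  unfold Kop
  rw [div_mul_eq_mul_div, Finset.sum_mul]
  congr 1
  exact Finset.sum_congr rfl fun τ _ => by ring

theorem Kop_one (β : ℝ) (Λ : Finset (Z d)) (η : Z d → Bool) : Kop β Λ (fun _ => 1) η = 1 := by
  unfold Kop
  simp_rw [mul_one]
  exact div_self (Zn_pos β Λ η).ne'

theorem Kop_nonneg (β : ℝ) (Λ : Finset (Z d)) (η : Z d → Bool) (f : (Z d → Bool) → ℝ)
    (h : ∀ σ, 0 ≤ f σ) : 0 ≤ Kop β Λ f η := by
  unfold Kop
  refine div_nonneg ?_ (Zn_pos β Λ η).le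
  exact Finset.sum_nonneg fun τ _ => mul_nonneg (Real.exp_pos _).le (h _)

/-- a heat bath update can be moved to the other factor (both factors averaged) -/
theorem sym (h3 : S_tower) (h4 : S_out) (β : ℝ) (B De : Finset (Z d)) (hB : B ⊆ De)
    (f h : (Z d → Bool) → ℝ) (η : Z d → Bool) :
    Kop β De (fun σ => f σ * Kop β B h σ) η =
      Kop β De (fun σ => Kop β B f σ * Kop β B h σ) η := by
  rw [← h3 d β B De (fun σ => f σ * Kop β B h σ) hB]
  congr 1
  funext σ
  have h5 := (h4 d β B f (Kop β B h)).2 (h4 d β B h h).1 σ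
  rw [mul_comm (Kop β B f σ)]
  rw [← h5]
  congr 1
  funext ξ
  ring

theorem sym2 (h3 : S_tower) (h4 : S_out) (β : ℝ) (B De : Finset (Z d)) (hB : B ⊆ De)
    (f h : (Z d → Bool) → ℝ) (η : Z d → Bool) :
    Kop β De (fun σ => f σ * Kop β B h σ) η =
      Kop β De (fun σ => Kop β B f σ * h σ) η := by
  rw [sym h3 h4 β B De hB f h η]
  have h5 := sym h3 h4 β B De hB h f η
  have e1 : (fun σ => Kop β B f σ * h σ) = fun σ => h σ * Kop β B f σ := by
    funext σ
    ring
  have e2 : (fun σ => Kop β B f σ * Kop β B h σ) = fun σ => Kop β B h σ * Kop β B f σ := by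
    funext σ
    ring
  rw [e1, e2, h5]

theorem drop1 (h1 : S_fkg) (h3 : S_tower) (h4 : S_out) (β : ℝ) (hβ : 0 ≤ β)
    (B De : Finset (Z d)) (hB : B ⊆ De) (f h : (Z d → Bool) → ℝ) (hf : Monotone f)
    (hh : Monotone h) (η : Z d → Bool) :
    Kop β De (fun σ => f σ * Kop β B h σ) η ≤ Kop β De (fun σ => f σ * h σ) η := by
  rw [sym h3 h4 β B De hB f h η, ← h3 d β B De (fun σ => f σ * h σ) hB]
  exact Kop_le β De η _ _ fun σ => h1 d β B σ f h hβ hf hh

theorem Kl_mono (h2 : S_mono) (β : ℝ) (hβ : 0 ≤ β) (g : (Z d → Bool) → ℝ) (hg : Monotone g)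
    (l : List (Finset (Z d))) : Monotone (Kl β l g) := by
  induction l with
  | nil => exact hg
  | cons B l ih => exact h2 d β B _ hβ ih

theorem dropl (h1 : S_fkg) (h2 : S_mono) (h3 : S_tower) (h4 : S_out) (β : ℝ) (hβ : 0 ≤ β)
    (De : Finset (Z d)) (f g : (Z d → Bool) → ℝ) (hf : Monotone f) (hg : Monotone g)
    (η : Z d → Bool) (l : List (Finset (Z d))) (hl : ∀ B ∈ l, B ⊆ De) :
    Kop β De (fun σ => f σ * Kl β l g σ) η ≤ Kop β De (fun σ => f σ * g σ) η := by
  induction l with
  | nil => exact le_rfl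
  | cons B l ih =>
    refine le_trans ?_ (ih fun B' hB' => hl B' (List.mem_cons_of_mem _ hB'))
    exact drop1 h1 h3 h4 β hβ B De (hl B List.mem_cons_self) f (Kl β l g) hf
      (Kl_mono h2 β hβ g hg l) η

theorem main (h1 : S_fkg) (h2 : S_mono) (h3 : S_tower) (h4 : S_out) (β : ℝ) (hβ : 0 ≤ β)
    (De B : Finset (Z d)) (g : (Z d → Bool) → ℝ) (hg : Monotone g)
    (l : List (Finset (Z d))) : ∀ f : (Z d → Bool) → ℝ, Monotone f → (∀ σ, 0 ≤ f σ) →
    Kop β De f (fun _ => true) = 1 → (∀ B' ∈ l, B' ⊆ De) → B ∈ l →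
    Kop β De (fun σ => f σ * Kl β l g σ) (fun _ => true) ≤ Kop β B g (fun _ => true) := by
  induction l with
  | nil =>
    intro f _ _ _ _ hB
    simp at hB
  | cons B' l ih =>
    intro f hf hf0 hf1 hl hB
    have hB' := hl B' List.mem_cons_self
    have hl' : ∀ B'' ∈ l, B'' ⊆ De := fun B'' h => hl B'' (List.mem_cons_of_mem _ h)
    have e1 : Kop β De (fun σ => f σ * Kl β (B' :: l) g σ) (fun _ => true) =
        Kop β De (fun σ => Kop β B' f σ * Kl β l g σ) (fun _ => true) :=
      sym2 h3 h4 β B' De hB' f (Kl β l g) _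
    rw [e1]
    rcases List.mem_cons.1 hB with rfl | hB
    · refine (dropl h1 h2 h3 h4 β hβ De (Kop β B f) g (h2 d β B f hβ hf) hg _ l hl').trans ?_
      rw [← sym2 h3 h4 β B De hB' f g]
      calc Kop β De (fun σ => f σ * Kop β B g σ) (fun _ => true)
          ≤ Kop β De (fun σ => f σ * Kop β B g (fun _ => true)) (fun _ => true) := by
            refine Kop_le β De _ _ _ fun σ => mul_le_mul_of_nonneg_left ?_ (hf0 σ)
            exact h2 d β B g hβ hg fun x => Bool.le_true _
        _ = Kop β B g (fun _ => true) := by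
            rw [Kop_mul, hf1, one_mul]
    · refine ih (Kop β B' f) (h2 d β B' f hβ hf) (fun σ => Kop_nonneg β B' σ f hf0) ?_ hl' hB
      rw [h3 d β B' De f hB', hf1]

/-- indicator of the configurations which are plus on `De` -/
noncomputable def f1 (De : Finset (Z d)) (σ : Z d → Bool) : ℝ :=
  if ∀ x ∈ De, σ x = true then 1 else 0

theorem cens (h1 : S_fkg) (h2 : S_mono) (h3 : S_tower) (h4 : S_out) (h5 : S_magmono) :
    S_cens := by
  classical
  intro d β l Λ B hβ hB hΛ
  have hg : Monotone (fun σ : Z d → Bool => sp (σ 0)) := by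
    intro σ σ' h
    have h6 := h 0
    unfold sp
    simp only
    cases h7 : σ 0 <;> cases h8 : σ' 0
    · exact le_rfl
    · norm_num
    · rw [h7, h8] at h6
      exact absurd (Bool.eq_true_of_true_le h6) Bool.false_ne_true
    · exact le_rfl
  refine le_trans ?_ (h5 d β Λ B 0 hβ hΛ)
  set De : Finset (Z d) := l.toFinset.biUnion id with hDe
  have hl : ∀ B' ∈ l, B' ⊆ De := by
    intro B' h x hx
    rw [hDe, Finset.mem_biUnion]
    exact ⟨B', List.mem_toFinset.2 h, hx⟩
  -- the density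
  set w := Kop β De (f1 De) (fun _ => true) with hw
  have hone : f1 De (gl De (fun _ => true) (fun _ => true)) = 1 := by
    unfold f1
    rw [if_pos]
    intro x hx
    unfold gl
    rw [dif_pos hx]
  have hwpos : 0 < w := by
    rw [hw]
    unfold Kop
    refine div_pos ?_ (Zn_pos β De _)
    refine Finset.sum_pos' (fun τ _ => mul_nonneg (Real.exp_pos _).le ?_)
      ⟨fun _ => true, mem_univ _, ?_⟩
    · unfold f1
      split_ifs <;> norm_num
    · rw [hone, mul_one]
      exact Real.exp_pos _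
  have hf0 : ∀ σ, 0 ≤ f1 De σ * w⁻¹ := by
    intro σ
    refine mul_nonneg ?_ (inv_pos.2 hwpos).le
    unfold f1
    split_ifs <;> norm_num
  have hfm : Monotone fun σ => f1 De σ * w⁻¹ := by
    intro σ σ' h
    refine mul_le_mul_of_nonneg_right ?_ (inv_pos.2 hwpos).le
    unfold f1
    split_ifs with h6 h7
    · exact le_rfl
    · exfalso
      apply h7
      intro x hx
      have h8 := h x
      rw [h6 x hx] at h8
      exact Bool.eq_true_of_true_le h8
    · norm_num
    · exact le_rfl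
  have hf1 : Kop β De (fun σ => f1 De σ * w⁻¹) (fun _ => true) = 1 := by
    rw [Kop_mul, ← hw]
    exact mul_inv_cancel₀ hwpos.ne'
  have hpt : Kl β l (fun σ => sp (σ 0)) (fun _ => true) =
      Kop β De (fun σ => f1 De σ * w⁻¹ * Kl β l (fun σ => sp (σ 0)) σ) (fun _ => true) := by
    have e1 : Kop β De (fun σ => f1 De σ * w⁻¹ * Kl β l (fun σ => sp (σ 0)) σ) (fun _ => true) =
        Kop β De (fun σ => f1 De σ * w⁻¹ * Kl β l (fun σ => sp (σ 0)) (fun _ => true))
          (fun _ => true) := by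
      refine Kop_congr β De _ _ _ fun τ => ?_
      by_cases h6 : ∀ x ∈ De, gl De τ (fun _ => true) x = true
      · have h7 : gl De τ (fun _ => true) = fun _ => true := by
          funext x
          by_cases hx : x ∈ De
          · exact h6 x hx
          · unfold gl
            rw [dif_neg hx]
        rw [h7]
      · have h7 : f1 De (gl De τ (fun _ => true)) = 0 := by
          unfold f1
          rw [if_neg h6]
        rw [h7]
        ring
    rw [e1, Kop_mul, hf1, one_mul]
  rw [hpt]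
  exact main h1 h2 h3 h4 β hβ De B _ hg l _ hfm hf0 hf1 hl hB

end Pool.Agent.H252.IS
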