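import Pool.Agent.H960.IS.Stm
import Pool.Agent.H960.FV.Bas

/-!
Project IS (helper960), piece CONV (helper234): invariance and the tail imply convergence.
-/

open MeasureTheory Filter Topology H960FV H960IS

namespace Pool.Agent.H234.IS

/-- sets which depend on finitely many coordinates are measurable -/
theorem meas_of_dep {I Sg : Type} [Finite Sg] [MeasurableSpace Sg] [MeasurableSingletonClass Sg]
    (S : Set (I → Sg)) (K : Finset I)
    (h : ∀ ω ω' : I → Sg, (∀ k ∈ K, ω k = ω' k) → (ω ∈ S ↔ ω' ∈ S)) : MeasurableSet S := by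
  have e : S = K.restrict ⁻¹' (K.restrict '' S) := by
    ext ω
    constructor
    · intro hω
      exact ⟨ω, hω, rfl⟩
    · rintro ⟨ω', hω', he⟩
      refine (h ω' ω ?_).1 hω'
      intro k hk
      exact congrFun he ⟨k, hk⟩
  rw [e]
  exact (Finset.measurable_restrict K) (Set.toFinite _).measurableSet

theorem ti_inj {d : ℕ} (w : Z d) : Function.Injective (ti w : Ix d → Ix d) := by
  rintro (⟨x, j⟩ | x) (⟨y, k⟩ | y) h
  · simp only [ti, Sum.inl.injEq, Prod.mk.injEq, add_left_inj] at h
    rw [h.1, h.2]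
  · simp [ti] at h
  · simp [ti] at h
  · simp only [ti, Sum.inr.injEq, add_left_inj] at h
    rw [h]

/-- the output after `t` swaps is measurable -/
theorem dt_meas (h1 : S_dloc) {d : ℕ} [NeZero d] {Sg St : Type} [Finite Sg] [MeasurableSpace Sg]
    [MeasurableSingletonClass Sg] {G : (Z d → Sg) → (Z d → St) → St} {ρ : ℕ} (hG : IsLoc ρ G)
    (t : ℕ) (v : Z d) (a : St) : MeasurableSet {ω : Ix d → Sg | Dt G ρ ω t v a} := by
  classical
  let R := (4 * ρ + 1) * (t + 1)
  let K : Finset (Ix d) := ((bx d R).image fun y => (Sum.inl (y + v, 0) : Ix d)) ∪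
    ((bx d R).image fun y => (Sum.inr (y + v) : Ix d))
  refine meas_of_dep _ K fun ω ω' hK => ?_
  refine h1 d Sg St G ρ hG ω ω' t v a fun y hy => ⟨?_, ?_⟩
  · refine hK _ (Finset.mem_union_left _ (Finset.mem_image.2 ⟨y - v, hy, ?_⟩))
    simp
  · refine hK _ (Finset.mem_union_right _ (Finset.mem_image.2 ⟨y - v, hy, ?_⟩))
    simp

/-- the evaluation depends on finitely many coordinates of the noise and of the initial state -/
theorem ev_dep {d : ℕ} {Sg St : Type} {G : (Z d → Sg) → (Z d → St) → St} {ρ : ℕ}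
    (hG : IsLoc ρ G) (k : ℕ) : ∀ (j : ℕ) (v : Z d), ∃ (K : Finset (Z d × ℕ)) (L : Finset (Z d)),
      ∀ (B B' : Z d × ℕ → Sg) (s s' : Z d → St), (∀ b ∈ K, B b = B' b) → (∀ x ∈ L, s x = s' x) →
        ev G B s k j v = ev G B' s' k j v := by
  classical
  induction k with
  | zero =>
    intro j v
    exact ⟨∅, {v}, fun _ _ _ _ _ h => h v (Finset.mem_singleton_self v)⟩
  | succ k ih =>
    intro j v
    choose K L hK using fun x : Z d => ih (j + 1) (v + x)
    refine ⟨((bx d ρ).image fun x => (v + x, j)) ∪ (bx d ρ).biUnion K, (bx d ρ).biUnion L,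
      fun B B' s s' hB hs => ?_⟩
    simp only [ev]
    refine hG _ _ _ _ (fun x hx => ?_) (fun x hx => ?_)
    · exact hB _ (Finset.mem_union_left _ (Finset.mem_image.2 ⟨x, hx, rfl⟩))
    · exact hK x B B' s s'
        (fun b hb => hB b (Finset.mem_union_right _ (Finset.mem_biUnion.2 ⟨x, hx, hb⟩)))
        (fun y hy => hs y (Finset.mem_biUnion.2 ⟨x, hx, hy⟩))

/-- the event that the evaluation does not depend on the initial state is measurable -/
theorem ev_meas {d : ℕ} {Sg St : Type} [Finite Sg] [MeasurableSpace Sg]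
    [MeasurableSingletonClass Sg] {G : (Z d → Sg) → (Z d → St) → St} {ρ : ℕ}
    (hG : IsLoc ρ G) (k j : ℕ) (v : Z d) (a : St) :
    MeasurableSet {B : Z d × ℕ → Sg | ∀ s, ev G B s k j v = a} := by
  obtain ⟨K, L, hK⟩ := ev_dep hG k j v
  refine meas_of_dep _ K fun B B' h => ?_
  show (∀ s, ev G B s k j v = a) ↔ ∀ s, ev G B' s k j v = a
  have e : ∀ s, ev G B s k j v = ev G B' s k j v := fun s => hK B B' s s h fun _ _ => rfl
  simp only [e]

/-- cylinder events of the evaluation are measurable -/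
theorem cyl_meas {d : ℕ} {Sg St : Type} [Finite Sg] [MeasurableSpace Sg]
    [MeasurableSingletonClass Sg] {G : (Z d → Sg) → (Z d → St) → St} {ρ : ℕ}
    (hG : IsLoc ρ G) (s : Z d → St) (k : ℕ) (Λ : Finset (Z d)) (η : Z d → St) :
    MeasurableSet {B : Z d × ℕ → Sg | ∀ v ∈ Λ, ev G B s k 0 v = η v} := by
  have e : {B : Z d × ℕ → Sg | ∀ v ∈ Λ, ev G B s k 0 v = η v} =
      ⋂ v ∈ Λ, {B : Z d × ℕ → Sg | ev G B s k 0 v = η v} := by
    ext B; simp
  rw [e]
  refine Finset.measurableSet_biInter _ fun v _ => ?_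
  obtain ⟨K, L, hK⟩ := ev_dep hG k 0 v
  refine meas_of_dep _ K fun B B' h => ?_
  show ev G B s k 0 v = η v ↔ ev G B' s k 0 v = η v
  rw [hK B B' s s h fun _ _ => rfl]

/-- the law of the evaluation is a measurable function of the initial state -/
theorem law_meas {d : ℕ} {Sg St : Type} [MeasurableSpace Sg] [Finite St] [MeasurableSpace St]
    [MeasurableSingletonClass St] (P : Measure (Z d × ℕ → Sg))
    {G : (Z d → Sg) → (Z d → St) → St} {ρ : ℕ}
    (hG : IsLoc ρ G) (k : ℕ) (Λ : Finset (Z d)) (η : Z d → St) :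
    Measurable fun s : Z d → St => P.real {B : Z d × ℕ → Sg | ∀ v ∈ Λ, ev G B s k 0 v = η v} := by
  classical
  choose K L hK using fun v : Z d => ev_dep hG k 0 v
  intro S _
  refine meas_of_dep _ (Λ.biUnion L) fun s s' h => ?_
  have e : {B : Z d × ℕ → Sg | ∀ v ∈ Λ, ev G B s k 0 v = η v} =
      {B : Z d × ℕ → Sg | ∀ v ∈ Λ, ev G B s' k 0 v = η v} := by
    ext B
    have e1 : ∀ v ∈ Λ, ev G B s k 0 v = ev G B s' k 0 v := fun v hv =>
      hK v B B s s' (fun _ _ => rfl) fun x hx => h x (Finset.mem_biUnion.2 ⟨v, hv, hx⟩)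
    constructor
    · intro hB v hv
      rw [← e1 v hv]; exact hB v hv
    · intro hB v hv
      rw [e1 v hv]; exact hB v hv
  simp only [Set.mem_preimage, e]

/-- **invariance and the tail imply convergence** -/
theorem conv (g1 : S_mp) (g2 : S_cftp) (g3 : S_trans) (g4 : S_reidx) (g5 : S_dloc) : S_conv := by
  classical
  intro d _ Sg St _ _ _ ν _ _ _ _ _ G ρ hG hTail m _ hinv s0 Λ η
  obtain ⟨C, c, hc, hT⟩ := hTail
  set M : Measure (Ix d → Sg) := Measure.infinitePi fun _ : Ix d => ν with hM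
  set P : Measure (Z d × ℕ → Sg) := Measure.infinitePi fun _ : Z d × ℕ => ν with hP
  let p : (Z d → St) → ℕ → ℝ := fun s k => P.real {B | ∀ v ∈ Λ, ev G B s k 0 v = η v}
  -- the main estimate
  have main : ∀ t : ℕ, ∃ δ : ℕ → ℝ, (∀ k, |m.real {ξ : Z d → St | ∀ v ∈ Λ, ξ v = η v} - p s0 k| ≤ δ k) ∧
      ∃ l : ℝ, Tendsto δ atTop (𝓝 l) ∧ l ≤ Λ.card * (C * Real.exp (-c * t)) := by
    intro t
    let B : (Ix d → Sg) → (Z d × ℕ → Sg) := fun ω b => Psi G ρ ω t (Sum.inl b)
    have hB : MeasurePreserving B M P :=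
      (g4 (Ix d) (Z d × ℕ) Sg ν Sum.inl Sum.inl_injective).comp (g1 d Sg St ν G ρ hG t)
    let U : ℕ → Set (Ix d → Sg) := fun k =>
      {ω | ∀ v ∈ Λ, ∃ a, Dt G ρ ω t v a ∧ ∀ k' ≥ k, ∀ s, ev G (B ω) s k' 0 v = a}
    let E : Set (Ix d → Sg) := {ω | ∀ v ∈ Λ, ∃ a, Dt G ρ ω t v a}
    have hpA : ∀ s k, p s k = M.real {ω | ∀ v ∈ Λ, ev G (B ω) s k 0 v = η v} := by
      intro s k
      show P.real _ = _
      unfold Measure.real
      rw [← hB.measure_preimage (cyl_meas hG s k Λ η).nullMeasurableSet]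
      rfl
    have hUm : ∀ k, MeasurableSet (U k) := by
      intro k
      have e : U k = ⋂ v ∈ Λ, ⋃ a : St, ({ω : Ix d → Sg | Dt G ρ ω t v a} ∩
          ⋂ k' : ℕ, ⋂ _ : k' ≥ k, B ⁻¹' {B : Z d × ℕ → Sg | ∀ s, ev G B s k' 0 v = a}) := by
        ext ω
        simp only [U, Set.mem_ofPred_eq, Set.mem_iInter, Set.mem_iUnion, Set.mem_inter_iff,
          Set.mem_preimage]
      rw [e]
      have : Countable St := Finite.to_countable
      exact Finset.measurableSet_biInter _ fun v _ => MeasurableSet.iUnion fun a =>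
        (dt_meas g5 hG t v a).inter (MeasurableSet.iInter fun k' => MeasurableSet.iInter fun _ =>
          hB.measurable (ev_meas hG k' 0 v a))
    have hmono : Monotone U := by
      intro k l hkl ω hω v hv
      obtain ⟨a, ha, hk⟩ := hω v hv
      exact ⟨a, ha, fun k' hk' => hk k' (hkl.trans hk')⟩
    have hUE : ⋃ k, U k = E := by
      ext ω
      simp only [Set.mem_iUnion]
      constructor
      · rintro ⟨k, hk⟩ v hv
        obtain ⟨a, ha, -⟩ := hk v hv
        exact ⟨a, ha⟩
      · intro hω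
        have h9 : ∀ v : Z d, ∃ K : ℕ, v ∈ Λ → ∃ a, Dt G ρ ω t v a ∧
            ∀ k' ≥ K, ∀ s, ev G (B ω) s k' 0 v = a := by
          intro v
          by_cases hv : v ∈ Λ
          · obtain ⟨a, ha⟩ := hω v hv
            obtain ⟨K, hK⟩ := g2 d Sg St G ρ hG _ _ v 0 a ha
            exact ⟨K, fun _ => ⟨a, ha, fun k' hk' s => hK k' hk' s⟩⟩
          · exact ⟨0, fun h => absurd h hv⟩
        choose K hK using h9
        refine ⟨Λ.sup K, fun v hv => ?_⟩
        obtain ⟨a, ha, hk⟩ := hK v hv
        exact ⟨a, ha, fun k' hk' => hk k' ((Finset.le_sup hv).trans hk')⟩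
    have hlim : Tendsto (fun k => M.real (U k)) atTop (𝓝 (M.real E)) := by
      have := tendsto_measure_iUnion_atTop (μ := M) hmono
      rw [hUE] at this
      exact (ENNReal.tendsto_toReal (measure_ne_top M E)).comp this
    have hineq : ∀ s k, |p s k - p s0 k| ≤ 1 - M.real (U k) := by
      intro s k
      have hc1 : M.real (U k)ᶜ = 1 - M.real (U k) := probReal_compl_eq_one_sub (hUm k)
      rw [hpA s k, hpA s0 k]
      set A : Set (Ix d → Sg) := {ω | ∀ v ∈ Λ, ev G (B ω) s k 0 v = η v} with hA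
      set A0 : Set (Ix d → Sg) := {ω | ∀ v ∈ Λ, ev G (B ω) s0 k 0 v = η v} with hA0
      have hsame : ∀ ω ∈ U k, (ω ∈ A ↔ ω ∈ A0) := by
        intro ω hω
        have h10 : ∀ v ∈ Λ, ev G (B ω) s k 0 v = ev G (B ω) s0 k 0 v := by
          intro v hv
          obtain ⟨a, ha, hk⟩ := hω v hv
          rw [hk k le_rfl s, hk k le_rfl s0]
        constructor
        · intro h v hv
          rw [← h10 v hv]; exact h v hv
        · intro h v hv
          rw [h10 v hv]; exact h v hv
      have i1 : M.real A ≤ M.real A0 + M.real (U k)ᶜ := by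
        refine (measureReal_mono (s₂ := A0 ∪ (U k)ᶜ) ?_ (measure_ne_top _ _)).trans
          (measureReal_union_le _ _)
        intro ω hω
        by_cases h : ω ∈ U k
        · exact Or.inl ((hsame ω h).1 hω)
        · exact Or.inr h
      have i2 : M.real A0 ≤ M.real A + M.real (U k)ᶜ := by
        refine (measureReal_mono (s₂ := A ∪ (U k)ᶜ) ?_ (measure_ne_top _ _)).trans
          (measureReal_union_le _ _)
        intro ω hω
        by_cases h : ω ∈ U k
        · exact Or.inl ((hsame ω h).2 hω)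
        · exact Or.inr h
      rw [abs_le]
      constructor <;> linarith
    refine ⟨fun k => 1 - M.real (U k), fun k => ?_, 1 - M.real E, hlim.const_sub 1, ?_⟩
    · -- integrate over the initial state
      have hint : Integrable (fun s => p s k) m := by
        refine Integrable.of_bound (law_meas P hG k Λ η).aestronglyMeasurable 1
          (Filter.Eventually.of_forall fun s => ?_)
        rw [Real.norm_of_nonneg measureReal_nonneg]
        exact measureReal_le_one
      have e1 : m.real {ξ : Z d → St | ∀ v ∈ Λ, ξ v = η v} - p s0 k = ∫ s, (p s k - p s0 k) ∂m := by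
        rw [integral_sub hint (integrable_const _), integral_const, probReal_univ, one_smul,
          ← hinv k Λ η]
      rw [e1, ← Real.norm_eq_abs]
      have h12 := norm_integral_le_of_norm_le_const (μ := m) (f := fun s => p s k - p s0 k)
        (C := 1 - M.real (U k)) (Filter.Eventually.of_forall fun s => by
          rw [Real.norm_eq_abs]; exact hineq s k)
      rwa [probReal_univ, mul_one] at h12
    · have hEm : MeasurableSet E := by
        rw [← hUE]; exact MeasurableSet.iUnion hUm
      rw [← probReal_compl_eq_one_sub hEm]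
      have hsub : Eᶜ ⊆ ⋃ v ∈ Λ, {ω : Ix d → Sg | ¬ ∃ a, Dt G ρ ω t v a} := by
        intro ω hω
        simp only [E, Set.mem_compl_iff, Set.mem_ofPred_eq, not_forall] at hω
        obtain ⟨v, hv, h⟩ := hω
        exact Set.mem_biUnion hv h
      refine (measureReal_mono hsub (measure_ne_top _ _)).trans
        ((measureReal_biUnion_finset_le Λ _).trans ?_)
      calc ∑ v ∈ Λ, M.real {ω : Ix d → Sg | ¬ ∃ a, Dt G ρ ω t v a}
          ≤ ∑ _v ∈ Λ, C * Real.exp (-c * t) := by
            refine Finset.sum_le_sum fun v _ => ?_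
            refine le_trans (le_of_eq ?_) (hT t)
            have hmp : MeasurePreserving (fun (W : Ix d → Sg) (i : Ix d) => W (ti v i)) M M :=
              g4 (Ix d) (Ix d) Sg ν (ti v) (ti_inj v)
            have hme : MeasurableSet {ω : Ix d → Sg | ¬ ∃ a, Dt G ρ ω t 0 a} := by
              have : Countable St := Finite.to_countable
              have e : {ω : Ix d → Sg | ¬ ∃ a, Dt G ρ ω t 0 a} =
                  (⋃ a : St, {ω : Ix d → Sg | Dt G ρ ω t 0 a})ᶜ := by
                ext ω; simp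
              rw [e]
              exact (MeasurableSet.iUnion fun a => dt_meas g5 hG t 0 a).compl
            unfold Measure.real
            rw [← hmp.measure_preimage hme.nullMeasurableSet]
            congr 2
            ext ω
            simp only [Set.mem_ofPred_eq, Set.mem_preimage, g3 d Sg St G ρ ω t v 0, zero_add]
        _ = Λ.card * (C * Real.exp (-c * t)) := by
            rw [Finset.sum_const, nsmul_eq_mul]
  -- conclusion
  have hzero : Tendsto (fun t : ℕ => (Λ.card : ℝ) * (C * Real.exp (-c * t))) atTop (𝓝 0) := by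
    have h11 : Tendsto (fun t : ℕ => Real.exp (-c * t)) atTop (𝓝 0) := by
      refine Real.tendsto_exp_atBot.comp ?_
      refine (tendsto_natCast_atTop_atTop.const_mul_atTop_of_neg ?_)
      linarith
    have := (h11.const_mul C).const_mul (Λ.card : ℝ)
    simpa using this
  rw [Metric.tendsto_atTop]
  intro ε hε
  obtain ⟨t, ht⟩ := ((hzero.eventually (gt_mem_nhds hε))).exists
  obtain ⟨δ, hδ, l, hl, hlt⟩ := main t
  obtain ⟨k0, hk0⟩ := eventually_atTop.1 (hl.eventually (gt_mem_nhds (lt_of_le_of_lt hlt ht)))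
  refine ⟨k0, fun k hk => ?_⟩
  rw [Real.dist_eq, abs_sub_comm]
  exact lt_of_le_of_lt (hδ k) (hk0 k hk)

end Pool.Agent.H234.IS
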