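import Pool.Agent.H960.IS.Stm

/-!
Project IS (helper960), MP_600500_pr: the monotone coupling of the Gibbs measures in a box for all
boundary conditions (by helper52).
-/

open MeasureTheory Filter Topology Finset H960FV H960IS

namespace Pool.Agent.H52.IS

/-- a monotone function into `[0,1]` is a mixture of monotone indicators -/
theorem thr {I : Type} [Fintype I] [DecidableEq I] [Preorder I] (a : I → ℝ) (hmono : Monotone a)
    (h0 : ∀ i, 0 ≤ a i) (h1 : ∀ i, a i ≤ 1) :
    ∃ w : (I → Bool) → ℝ, (∀ b, 0 ≤ w b) ∧ (∀ b, w b ≠ 0 → Monotone b) ∧ ∑ b, w b = 1 ∧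
      ∀ i, ∑ b, w b * (if b i = true then 1 else 0) = a i := by
  classical
  set μ : Measure ℝ := volume.restrict (Set.Icc 0 1) with hμ
  have : IsProbabilityMeasure μ := ⟨by rw [hμ, Measure.restrict_apply_univ, Real.volume_Icc]; simp⟩
  set T : ℝ → I → Bool := fun u i => decide (u < a i) with hT
  have hTm : Measurable T := by
    rw [measurable_pi_iff]
    intro i
    refine measurable_to_bool ?_
    have : (fun u => T u i) ⁻¹' {true} = Set.Iio (a i) := by
      ext u
      simp [hT]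
    rw [this]
    exact measurableSet_Iio
  have : IsProbabilityMeasure (μ.map T) := Measure.isProbabilityMeasure_map hTm.aemeasurable
  refine ⟨fun b => (μ.map T).real {b}, fun b => measureReal_nonneg, ?_, ?_, ?_⟩
  · intro b hb i j hij
    have h2 : (T ⁻¹' {b}).Nonempty := by
      by_contra h
      rw [Set.not_nonempty_iff_eq_empty] at h
      apply hb
      show (μ.map T).real {b} = 0
      rw [map_measureReal_apply hTm MeasurableSet.of_discrete, h, measureReal_empty]
    obtain ⟨u, hu⟩ := h2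
    have hu : T u = b := hu
    rw [← hu]
    show decide (u < a i) ≤ decide (u < a j)
    by_cases h : u < a i
    · have h3 : u < a j := h.trans_le (hmono hij)
      rw [decide_eq_true h, decide_eq_true h3]
    · rw [decide_eq_false h]
      exact Bool.false_le _
  · rw [sum_measureReal_singleton, Finset.coe_univ, probReal_univ]
  · intro i
    have e1 : ∑ b, (μ.map T).real {b} * (if b i = true then 1 else 0) =
        ∑ b ∈ univ.filter (fun b : I → Bool => b i = true), (μ.map T).real {b} := by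
      rw [Finset.sum_filter]
      refine Finset.sum_congr rfl fun b _ => ?_
      split_ifs <;> simp
    have e2 : T ⁻¹' ↑(univ.filter (fun b : I → Bool => b i = true)) = Set.Iio (a i) := by
      ext u
      simp [hT]
    have e3 : Set.Iio (a i) ∩ Set.Icc 0 1 = Set.Ico 0 (a i) := by
      ext u
      constructor
      · rintro ⟨k1, k2⟩
        exact ⟨k2.1, k1⟩
      · rintro ⟨k1, k2⟩
        exact ⟨k2, k1, (le_of_lt k2).trans (h1 i)⟩
    rw [e1, sum_measureReal_singleton, map_measureReal_apply hTm MeasurableSet.of_discrete, e2, measureReal_def,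
      hμ, Measure.restrict_apply measurableSet_Iio, e3, Real.volume_Ico, sub_zero, ENNReal.toReal_ofReal (h0 i)]

variable {d : ℕ}

theorem gl_in {Λ : Finset (Z d)} {τ : ↥Λ → Bool} {η : Z d → Bool} {x : Z d} (h : x ∈ Λ) :
    gl Λ τ η x = τ ⟨x, h⟩ := dif_pos h

theorem gl_out {Λ : Finset (Z d)} {τ : ↥Λ → Bool} {η : Z d → Bool} {x : Z d} (h : x ∉ Λ) :
    gl Λ τ η x = η x := dif_neg h

theorem Zn_pos (β : ℝ) (Λ : Finset (Z d)) (η : Z d → Bool) : 0 < Zn β Λ η := by
  unfold Zn
  exact Finset.sum_pos (fun _ _ => Real.exp_pos _) Finset.univ_nonempty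

/-- affine functions of an indicator -/
theorem Kop_aff (β : ℝ) (Λ : Finset (Z d)) (F A : (Z d → Bool) → ℝ) (η : Z d → Bool) (c₁ c₂ : ℝ)
    (h : ∀ τ : ↥Λ → Bool, F (gl Λ τ η) = c₁ * A (gl Λ τ η) + c₂ * (1 - A (gl Λ τ η))) :
    Kop β Λ F η = c₁ * Kop β Λ A η + c₂ * (1 - Kop β Λ A η) := by
  have hz := (Zn_pos β Λ η).ne'
  unfold Kop
  have e1 : ∑ τ : ↥Λ → Bool, Real.exp (β * En Λ (gl Λ τ η)) * F (gl Λ τ η) =
      c₁ * (∑ τ : ↥Λ → Bool, Real.exp (β * En Λ (gl Λ τ η)) * A (gl Λ τ η)) +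
      c₂ * (Zn β Λ η - ∑ τ : ↥Λ → Bool, Real.exp (β * En Λ (gl Λ τ η)) * A (gl Λ τ η)) := by
    unfold Zn
    rw [← Finset.sum_sub_distrib, Finset.mul_sum, Finset.mul_sum, ← Finset.sum_add_distrib]
    refine Finset.sum_congr rfl fun τ _ => ?_
    rw [h τ]
    ring
  rw [e1]
  field_simp

theorem Kop_nonneg (β : ℝ) (Λ : Finset (Z d)) (A : (Z d → Bool) → ℝ) (η : Z d → Bool)
    (h : ∀ σ, 0 ≤ A σ) : 0 ≤ Kop β Λ A η := by
  unfold Kop
  exact div_nonneg (Finset.sum_nonneg fun τ _ => mul_nonneg (Real.exp_pos _).le (h _)) (Zn_pos β Λ η).le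

theorem Kop_le_one (β : ℝ) (Λ : Finset (Z d)) (A : (Z d → Bool) → ℝ) (η : Z d → Bool)
    (h : ∀ σ, A σ ≤ 1) : Kop β Λ A η ≤ 1 := by
  unfold Kop
  rw [div_le_one (Zn_pos β Λ η)]
  unfold Zn
  refine Finset.sum_le_sum fun τ _ => ?_
  exact mul_le_of_le_one_right (Real.exp_pos _).le (h _)

theorem Kop_empty (β : ℝ) (g : (Z d → Bool) → ℝ) (η : Z d → Bool) : Kop β ∅ g η = g η := by
  have h : ∀ τ : ↥(∅ : Finset (Z d)) → Bool, gl ∅ τ η = η := by
    intro τ
    funext x
    exact gl_out (Finset.notMem_empty x)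
  have hz := (Zn_pos β ∅ η).ne'
  have e : ∑ τ : ↥(∅ : Finset (Z d)) → Bool, Real.exp (β * En ∅ (gl ∅ τ η)) * g (gl ∅ τ η) = Zn β ∅ η * g η := by
    unfold Zn
    rw [Finset.sum_mul]
    refine Finset.sum_congr rfl fun τ _ => ?_
    rw [h τ]
  unfold Kop
  rw [e, mul_div_assoc, mul_comm, div_mul_cancel₀ _ hz]

/-- monotone representation of the kernel of `Λ` on the configurations which are plus outside `B` -/
def Rp (β : ℝ) (B Λ : Finset (Z d)) : Prop :=
  ∃ (Ω : Type) (_ : Fintype Ω) (p : Ω → ℝ) (Φ : Ω → (↥B → Bool) → (↥B → Bool)),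
    (∀ ω, 0 ≤ p ω) ∧ (∀ ω, p ω ≠ 0 → Monotone (Φ ω)) ∧ ∑ ω, p ω = 1 ∧
    ∀ (ζ : ↥B → Bool) (g : (Z d → Bool) → ℝ),
      ∑ ω, p ω * g (gl B (Φ ω ζ) (fun _ => true)) = Kop β Λ g (gl B ζ (fun _ => true))

theorem rp_empty (β : ℝ) (B : Finset (Z d)) : Rp β B ∅ := by
  refine ⟨Unit, inferInstance, fun _ => 1, fun _ => id, fun _ => zero_le_one, fun _ _ => monotone_id, by simp, ?_⟩
  intro ζ g
  rw [Kop_empty]
  simp

theorem gl_mono {B : Finset (Z d)} {ζ ζ' : ↥B → Bool} (h : ζ ≤ ζ') (η : Z d → Bool) : gl B ζ η ≤ gl B ζ' η := by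
  intro x
  by_cases hx : x ∈ B
  · rw [gl_in hx, gl_in hx]
    exact h _
  · rw [gl_out hx, gl_out hx]

theorem gl_update {B : Finset (Z d)} (ζ : ↥B → Bool) (η : Z d → Bool) {x : Z d} (hx : x ∈ B) (v : Bool) :
    gl B (Function.update ζ ⟨x, hx⟩ v) η = Function.update (gl B ζ η) x v := by
  funext y
  by_cases hy : y ∈ B
  · rw [gl_in hy]
    by_cases hxy : y = x
    · subst hxy
      rw [Function.update_self, Function.update_self]
    · rw [Function.update_of_ne hxy, Function.update_of_ne, gl_in hy]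
      intro h
      exact hxy (congrArg Subtype.val h)
  · have hxy : y ≠ x := fun h => hy (h ▸ hx)
    rw [gl_out hy, Function.update_of_ne hxy, gl_out hy]

theorem upd_mono {J : Type} [DecidableEq J] {ζ ζ' : J → Bool} (h : ζ ≤ ζ') {v v' : Bool} (hv : v ≤ v') (x : J) :
    Function.update ζ x v ≤ Function.update ζ' x v' := by
  intro y
  by_cases hy : y = x
  · subst hy
    rw [Function.update_self, Function.update_self]
    exact hv
  · rw [Function.update_of_ne hy, Function.update_of_ne hy]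
    exact h y

/-- the indicator of plus at `x` -/
def inx (x : Z d) (σ : Z d → Bool) : ℝ := if σ x = true then 1 else 0

theorem inx_mono (x : Z d) : Monotone (inx x) := by
  intro σ σ' h
  unfold inx
  by_cases h1 : σ x = true
  · have h2 : σ' x = true := by
      have h3 := h x
      rw [h1] at h3
      exact top_le_iff.1 h3
    rw [if_pos h1, if_pos h2]
  · rw [if_neg h1]
    split_ifs
    · exact zero_le_one
    · exact le_refl _

theorem rp_step (h1 : S_mono) (h2 : S_tower) (h3 : S_out) {β : ℝ} (hβ : 0 ≤ β) {B Λ : Finset (Z d)} {x : Z d}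
    (hx : x ∉ Λ) (hxB : x ∈ B) (hr : Rp β B Λ) : Rp β B (insert x Λ) := by
  classical
  obtain ⟨Ω, hΩ, p, Φ, p0, pm, p1, pe⟩ := hr
  have am : Monotone fun ζ : ↥B → Bool => Kop β (insert x Λ) (inx x) (gl B ζ (fun _ => true)) := by
    intro ζ ζ' h
    exact h1 d β (insert x Λ) (inx x) hβ (inx_mono x) (gl_mono h _)
  obtain ⟨w, w0, wm, w1, we⟩ := thr (fun ζ : ↥B → Bool => Kop β (insert x Λ) (inx x) (gl B ζ (fun _ => true))) am
    (fun ζ => Kop_nonneg _ _ _ _ fun σ => by unfold inx; split_ifs <;> norm_num)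
    (fun ζ => Kop_le_one _ _ _ _ fun σ => by unfold inx; split_ifs <;> norm_num)
  refine ⟨((↥B → Bool) → Bool) × Ω, inferInstance, fun z => w z.1 * p z.2,
    fun z ζ => Φ z.2 (Function.update ζ ⟨x, hxB⟩ (z.1 ζ)), ?_, ?_, ?_, ?_⟩
  · intro z
    exact mul_nonneg (w0 _) (p0 _)
  · intro z hz ζ ζ' h
    have k1 : w z.1 ≠ 0 := left_ne_zero_of_mul hz
    have k2 : p z.2 ≠ 0 := right_ne_zero_of_mul hz
    exact pm _ k2 (upd_mono h (wm _ k1 h) _)
  · rw [Fintype.sum_prod_type]
    have : ∀ b : (↥B → Bool) → Bool, ∑ ω, w b * p ω = w b := by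
      intro b
      rw [← Finset.mul_sum, p1, mul_one]
    rw [Finset.sum_congr rfl fun b _ => this b, w1]
  · intro ζ g
    set η : Z d → Bool := gl B ζ (fun _ => true) with hη
    rw [Fintype.sum_prod_type]
    have e1 : ∀ b : (↥B → Bool) → Bool, ∑ ω, w b * p ω * g (gl B (Φ ω (Function.update ζ ⟨x, hxB⟩ (b ζ))) (fun _ => true)) =
        Kop β Λ g (Function.update η x true) * (w b * (if b ζ = true then 1 else 0)) +
        Kop β Λ g (Function.update η x false) * (w b - w b * (if b ζ = true then 1 else 0)) := by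
      intro b
      have e2 := pe (Function.update ζ ⟨x, hxB⟩ (b ζ)) g
      rw [gl_update, ← hη] at e2
      have e3 : ∑ ω, w b * p ω * g (gl B (Φ ω (Function.update ζ ⟨x, hxB⟩ (b ζ))) (fun _ => true)) =
          w b * Kop β Λ g (Function.update η x (b ζ)) := by
        rw [← e2, Finset.mul_sum]
        refine Finset.sum_congr rfl fun ω _ => ?_
        ring
      rw [e3]
      by_cases hb : b ζ = true
      · rw [if_pos hb, hb]
        ring
      · rw [if_neg hb, Bool.eq_false_iff.2 hb]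
        ring
    have e4 : ∑ b : (↥B → Bool) → Bool, ∑ ω, w b * p ω * g (gl B (Φ ω (Function.update ζ ⟨x, hxB⟩ (b ζ))) (fun _ => true)) =
        Kop β Λ g (Function.update η x true) * Kop β (insert x Λ) (inx x) η +
        Kop β Λ g (Function.update η x false) * (1 - Kop β (insert x Λ) (inx x) η) := by
      rw [Finset.sum_congr rfl fun b _ => e1 b, Finset.sum_add_distrib, ← Finset.mul_sum, ← Finset.mul_sum,
        Finset.sum_sub_distrib, w1, we ζ]
    show ∑ b : (↥B → Bool) → Bool, ∑ ω, w b * p ω * g (gl B (Φ ω (Function.update ζ ⟨x, hxB⟩ (b ζ))) (fun _ => true)) = _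
    rw [e4, ← h2 d β Λ (insert x Λ) g (Finset.subset_insert x Λ)]
    symm
    apply Kop_aff
    intro τ
    have e5 : Kop β Λ g (gl (insert x Λ) τ η) = Kop β Λ g (Function.update η x (gl (insert x Λ) τ η x)) := by
      refine (h3 d β Λ g g).1 _ _ fun y hy => ?_
      by_cases hyx : y = x
      · subst hyx
        rw [Function.update_self]
      · rw [Function.update_of_ne hyx, gl_out]
        rw [Finset.mem_insert, not_or]
        exact ⟨hyx, hy⟩
    rw [e5]
    unfold inx
    by_cases hb : gl (insert x Λ) τ η x = true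
    · rw [if_pos hb, hb]
      ring
    · rw [if_neg hb, Bool.eq_false_iff.2 hb]
      ring

theorem rp_all (h1 : S_mono) (h2 : S_tower) (h3 : S_out) {β : ℝ} (hβ : 0 ≤ β) {B : Finset (Z d)}
    (Λ : Finset (Z d)) (hΛ : Λ ⊆ B) : Rp β B Λ := by
  induction Λ using Finset.induction_on with
  | empty => exact rp_empty β B
  | insert x Λ hx ih =>
    rw [Finset.insert_subset_iff] at hΛ
    exact rp_step h1 h2 h3 hβ hx hΛ.1 (ih hΛ.2)

theorem Kop_ind (β : ℝ) (Λ : Finset (Z d)) (η : Z d → Bool) (τ : ↥Λ → Bool) [DecidableEq (↥Λ → Bool)] :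
    Kop β Λ (fun σ => if (fun y : ↥Λ => σ y.1) = τ then 1 else 0) η =
      Real.exp (β * En Λ (gl Λ τ η)) / Zn β Λ η := by
  unfold Kop
  congr 1
  rw [Finset.sum_eq_single τ]
  · have h : (fun y : ↥Λ => gl Λ τ η y.1) = τ := by
      funext y
      exact gl_in y.2
    simp only [h, if_true, mul_one]
  · intro τ' _ hτ
    have h : (fun y : ↥Λ => gl Λ τ' η y.1) = τ' := by
      funext y
      exact gl_in y.2
    simp only [h, hτ, if_false, mul_zero]
  · intro h
    exact absurd (Finset.mem_univ _) h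

/-- monotone coupling of the Gibbs measures in the box for all boundary conditions -/
theorem coup (h1 : S_mono) (h2 : S_tower) (h3 : S_out) : S_coup := by
  classical
  intro d L β hβ
  have hsub : bx d L ⊆ bx d (L + 1) := fun x hx => bx_mono (Nat.le_succ L) hx
  obtain ⟨Ω, hΩ, p, Φ, p0, pm, p1, pe⟩ := rp_all h1 h2 h3 hβ (B := bx d (L + 1)) (bx d L) hsub
  set κ : Ω → (↥(bx d (L + 1)) → Bool) → (↥(bx d L) → Bool) := fun ω ζ y => Φ ω ζ ⟨y.1, hsub y.2⟩ with hκ
  set ν : Measure ((↥(bx d (L + 1)) → Bool) → (↥(bx d L) → Bool)) :=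
    ∑ ω, ENNReal.ofReal (p ω) • Measure.dirac (κ ω) with hν
  have happ : ∀ S : Set ((↥(bx d (L + 1)) → Bool) → (↥(bx d L) → Bool)),
      ν S = ∑ ω, ENNReal.ofReal (p ω) * S.indicator 1 (κ ω) := by
    intro S
    rw [hν, Measure.finsetSum_apply]
    refine Finset.sum_congr rfl fun ω _ => ?_
    rw [Measure.smul_apply, Measure.dirac_apply, smul_eq_mul]
  have huniv : ν Set.univ = 1 := by
    rw [happ]
    have : ∀ ω, ENNReal.ofReal (p ω) * (Set.univ : Set ((↥(bx d (L + 1)) → Bool) → (↥(bx d L) → Bool))).indicator 1 (κ ω) =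
        ENNReal.ofReal (p ω) := by
      intro ω
      rw [Set.indicator_univ, Pi.one_apply, mul_one]
    rw [Finset.sum_congr rfl fun ω _ => this ω, ← ENNReal.ofReal_sum_of_nonneg fun ω _ => p0 ω, p1,
      ENNReal.ofReal_one]
  refine ⟨ν, ⟨huniv⟩, ?_, ?_⟩
  · intro k hk
    rw [happ] at hk
    obtain ⟨ω, _, hω⟩ := Finset.exists_ne_zero_of_sum_ne_zero hk
    have k1 : ENNReal.ofReal (p ω) ≠ 0 := left_ne_zero_of_mul hω
    have k2 : ({k} : Set ((↥(bx d (L + 1)) → Bool) → (↥(bx d L) → Bool))).indicator 1 (κ ω) ≠ (0 : ENNReal) :=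
      right_ne_zero_of_mul hω
    have k3 : κ ω = k := by
      by_contra h
      exact k2 (Set.indicator_of_notMem (show κ ω ∉ ({k} : Set _) from h) _)
    have k4 : p ω ≠ 0 := by
      intro h
      rw [h, ENNReal.ofReal_zero] at k1
      exact k1 rfl
    rw [← k3]
    intro ζ ζ' h y
    exact pm ω k4 h _
  · intro ζ τ
    have e1 := pe ζ (fun σ => if (fun y : ↥(bx d L) => σ y.1) = τ then 1 else 0)
    rw [Kop_ind] at e1
    have e2 : ν.real {k | k ζ = τ} =
        ∑ ω, p ω * (if (fun y : ↥(bx d L) => gl (bx d (L + 1)) (Φ ω ζ) (fun _ => true) y.1) = τ then 1 else 0) := by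
      rw [measureReal_def, happ, ENNReal.toReal_sum]
      · refine Finset.sum_congr rfl fun ω _ => ?_
        have h5 : (fun y : ↥(bx d L) => gl (bx d (L + 1)) (Φ ω ζ) (fun _ => true) y.1) = κ ω ζ := by
          funext y
          exact gl_in (hsub y.2)
        rw [h5, ENNReal.toReal_mul, ENNReal.toReal_ofReal (p0 ω)]
        by_cases h6 : κ ω ζ = τ
        · rw [if_pos h6, Set.indicator_of_mem (show κ ω ∈ {k | k ζ = τ} from h6), Pi.one_apply, ENNReal.toReal_one]
        · rw [if_neg h6, Set.indicator_of_notMem (show κ ω ∉ {k | k ζ = τ} from h6), ENNReal.toReal_zero]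
      · intro ω _
        refine ENNReal.mul_ne_top ENNReal.ofReal_ne_top ?_
        by_cases h6 : κ ω ∈ {k | k ζ = τ}
        · rw [Set.indicator_of_mem h6]
          exact ENNReal.one_ne_top
        · rw [Set.indicator_of_notMem h6]
          exact ENNReal.zero_ne_top
    rw [e2]
    exact e1

end Pool.Agent.H52.IS
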