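import Pool.Agent.H960.IS.Stm

/-!
Project IS (helper960): the criterion with one scale (helper353).
-/

set_option autoImplicit false

open MeasureTheory Filter Topology

namespace Pool.Agent.H353.IS

open H960FV H960IS

theorem crit (h1 : S_T5) (h2 : S_phimeas) (h3 : S_phieq) (h4 : S_phitail) (h5 : S_philaw)
    (h6 : S_pcaloc) (h7 : S_pcabad) (h8 : S_pcalaw) (h9 : S_conv) : S_crit := by
  intro d _
  obtain ⟨K, D, hKD⟩ := h1 d
  refine ⟨K, D, ?_⟩
  intro S A _ _ _ _ _ _ _ α _ F F' f μ _ r N hr hF hF' hinv hp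
  have hloc := h6 d S A F F' f r N hF hF'
  have hbad := h7 d S A α F F' f N
  have hρ : 1 ≤ r * (N + 1) := Nat.one_le_iff_ne_zero.2 (by positivity)
  have hp' : (Measure.infinitePi fun _ : Z d × ℤ => α).real
      {W | ∀ i : ℕ, i ≤ N + 1 → ∃ ξ ξ' : Z d → S,
        evo f W ξ (-(i : ℤ)) i 0 ≠ evo f W ξ' (-(i : ℤ)) i 0} * K *
      (((r * (N + 1) : ℕ) : ℝ)) ^ D ≤ 1 := by
    push_cast
    exact hp
  have htail := hKD (Fin (N + 1) → A) S (Measure.pi fun _ : Fin (N + 1) => α) (blk f N)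
    (r * (N + 1)) hρ hloc _ measureReal_nonneg hbad hp'
  have hconv := h9 d (Fin (N + 1) → A) S (Measure.pi fun _ : Fin (N + 1) => α) (blk f N)
    (r * (N + 1)) hloc htail μ (fun k Λ η => by
      rw [← hinv (k * (N + 1)) Λ η]
      refine integral_congr_ae (Filter.Eventually.of_forall fun s => ?_)
      exact h8 d S A α F F' f N k s Λ η)
  refine ⟨(Fin (N + 1) → A) × (Fin (N + 1) → A), inferInstance, inferInstance, inferInstance,
    (Measure.pi fun _ : Fin (N + 1) => α).prod (Measure.pi fun _ : Fin (N + 1) => α),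
    inferInstance, phi (blk f N) (r * (N + 1)),
    h2 d (Fin (N + 1) → A) S (blk f N) _ hloc, ?_, ?_,
    h4 d (Fin (N + 1) → A) S (Measure.pi fun _ : Fin (N + 1) => α) (blk f N) _ hloc htail⟩
  · intro x w v
    exact h3 d (Fin (N + 1) → A) S (blk f N) _ x w v
  · exact h5 d (Fin (N + 1) → A) S (Measure.pi fun _ : Fin (N + 1) => α) (blk f N) _ hloc htail
      μ hconv

end Pool.Agent.H353.IS
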