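import Pool.Agent.H960.IS.Stm

/-! IS-DD1: the product formula for double currents -/

set_option autoImplicit false

open Finset H960FV H960IS

namespace Pool.Agent.H169.IS

section
variable {E : Type} [Fintype E] [DecidableEq E]

/-- sums over sets of products -/
theorem sum_sets (f g : E → ℝ) :
    ∑ w : Finset E, ∏ e, (if e ∈ w then f e else g e) = ∏ e, (f e + g e) := by
  rw [Finset.prod_add f g univ, Finset.powerset_univ]
  refine Finset.sum_congr rfl fun w _ => ?_
  rw [Finset.prod_ite]
  congr 1
  · refine Finset.prod_congr ?_ fun _ _ => rfl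
    ext e
    simp
  · refine Finset.prod_congr ?_ fun _ _ => rfl
    ext e
    simp

/-- weight of an open edge -/
noncomputable def fo (K : E → ℝ) (E' a b : Finset E) (e : E) : ℝ :=
  if e ∈ E' then (if (e ∈ a ↔ e ∈ b) then Real.sinh (K e) ^ 2
    else Real.sinh (K e) * Real.cosh (K e)) else 0

/-- weight of a closed edge -/
noncomputable def gc (K : E → ℝ) (E' a b : Finset E) (e : E) : ℝ :=
  if e ∈ E' then (if e ∈ a ∨ e ∈ b then 0 else 1)
    else (if e ∈ a then Real.sinh (K e) else Real.cosh (K e))

theorem fac (K : E → ℝ) (E' a b w : Finset E) (hb : b ⊆ E') :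
    ∏ e, (if e ∈ w then fo K E' a b e else gc K E' a b e) =
      if (a ∩ E' ⊆ w ∧ b ⊆ w ∧ w ⊆ E') then W2 K E' a b w else 0 := by
  by_cases h : a ∩ E' ⊆ w ∧ b ⊆ w ∧ w ⊆ E'
  · rw [if_pos h]
    obtain ⟨h1, h2, h3⟩ := h
    unfold W2
    refine Finset.prod_congr rfl fun e _ => ?_
    unfold fo gc
    by_cases hE : e ∈ E'
    · by_cases hw : e ∈ w
      · simp only [if_pos hE, if_pos hw]
      · have ha : e ∉ a := fun h' => hw (h1 (Finset.mem_inter.2 ⟨h', hE⟩))
        have hb' : e ∉ b := fun h' => hw (h2 h')
        have hor : ¬ (e ∈ a ∨ e ∈ b) := fun h' => h'.elim ha hb'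
        simp only [if_pos hE, if_neg hw, if_neg hor]
    · have hw : e ∉ w := fun h' => hE (h3 h')
      simp only [if_neg hE, if_neg hw]
  · rw [if_neg h]
    have hex : ∃ e, (if e ∈ w then fo K E' a b e else gc K E' a b e) = 0 := by
      by_contra hcon
      apply h
      have hall : ∀ e, (if e ∈ w then fo K E' a b e else gc K E' a b e) ≠ 0 :=
        fun e he => hcon ⟨e, he⟩
      refine ⟨fun e he => ?_, fun e he => ?_, fun e he => ?_⟩
      · by_contra hw
        obtain ⟨ha, hE⟩ := Finset.mem_inter.1 he
        apply hall e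
        rw [if_neg hw]
        unfold gc
        rw [if_pos hE, if_pos (Or.inl ha)]
      · by_contra hw
        apply hall e
        rw [if_neg hw]
        unfold gc
        rw [if_pos (hb he), if_pos (Or.inr he)]
      · by_contra hE
        apply hall e
        rw [if_pos he]
        unfold fo
        rw [if_neg hE]
    obtain ⟨e, he⟩ := hex
    exact Finset.prod_eq_zero (Finset.mem_univ e) he

theorem edge (K : E → ℝ) (E' a b : Finset E) (hb : b ⊆ E') (e : E) :
    fo K E' a b e + gc K E' a b e =
      (if e ∈ a then Real.sinh (K e) else Real.cosh (K e)) *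
        (if e ∈ b then Real.sinh (res K E' e) else Real.cosh (res K E' e)) := by
  unfold fo gc res
  by_cases hE : e ∈ E'
  · by_cases ha : e ∈ a
    · by_cases hb' : e ∈ b
      · simp only [if_pos hE, if_pos ha, if_pos hb', ha, hb', iff_true, or_true, if_true]
        ring
      · simp only [if_pos hE, if_pos ha, ha, hb', true_or, if_true, if_false, iff_false,
          not_true_eq_false]
        ring
    · by_cases hb' : e ∈ b
      · simp only [if_pos hE, ha, hb', or_true, if_true, if_false, iff_true]
        ring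
      · simp only [if_pos hE, ha, hb', or_false, if_true, if_false, iff_false,
          not_false_eq_true]
        have := Real.cosh_sq (K e)
        linarith [this, sq (Real.cosh (K e))]
  · have hb' : e ∉ b := fun h' => hE (hb h')
    simp only [if_neg hE, if_neg hb', Real.cosh_zero]
    ring

theorem sum_w (K : E → ℝ) (E' a b : Finset E) (hb : b ⊆ E') :
    ∑ w ∈ univ.filter (fun w : Finset E => a ∩ E' ⊆ w ∧ b ⊆ w ∧ w ⊆ E'), W2 K E' a b w * 1 =
      wt K a * wt (res K E') b := by
  have h1 : ∑ w ∈ univ.filter (fun w : Finset E => a ∩ E' ⊆ w ∧ b ⊆ w ∧ w ⊆ E'),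
      W2 K E' a b w * 1 = ∑ w : Finset E,
        ∏ e, (if e ∈ w then fo K E' a b e else gc K E' a b e) := by
    rw [Finset.sum_filter]
    refine Finset.sum_congr rfl fun w _ => ?_
    rw [fac K E' a b w hb, mul_one]
  rw [h1, sum_sets]
  unfold wt
  rw [← Finset.prod_mul_distrib]
  exact Finset.prod_congr rfl fun e _ => edge K E' a b hb e

theorem wt_zero (K : E → ℝ) (E' b : Finset E) (hb : ¬ b ⊆ E') : wt (res K E') b = 0 := by
  obtain ⟨e, he, hE⟩ := Finset.not_subset.1 hb
  unfold wt
  apply Finset.prod_eq_zero (Finset.mem_univ e)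
  rw [if_pos he]
  unfold res
  rw [if_neg hE, Real.sinh_zero]

end

theorem dd1 : S_dd1 := by
  intro V E _ _ _ _ p q K E' A B
  unfold DD Y
  rw [Finset.sum_mul_sum]
  refine Finset.sum_congr rfl fun a _ => ?_
  have h1 : ∑ b ∈ univ.filter (fun b : Finset E => bdr p q b = B), wt K a * wt (res K E') b =
      ∑ b ∈ univ.filter (fun b : Finset E => bdr p q b = B ∧ b ⊆ E'),
        wt K a * wt (res K E') b := by
    symm
    apply Finset.sum_subset
    · intro b hb
      rw [Finset.mem_filter] at hb ⊢
      exact ⟨hb.1, hb.2.1⟩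
    · intro b hb hb'
      rw [Finset.mem_filter] at hb hb'
      have h2 : ¬ b ⊆ E' := fun h => hb' ⟨hb.1, hb.2, h⟩
      rw [wt_zero K E' b h2, mul_zero]
  rw [h1]
  refine Finset.sum_congr rfl fun b hb => ?_
  exact sum_w K E' a b (Finset.mem_filter.1 hb).2.2

end Pool.Agent.H169.IS
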