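import Pool.Agent.H960.IS.Stm

/-!
Project IS (helper960), MP_600500_pr, statement S_deep (helper721): deep updates happen soon.
-/

open MeasureTheory Filter Topology Finset H960FV H960IS ProbabilityTheory

namespace Pool.Agent.H721.IS

/-- the Bernoulli measure is a probability measure -/
theorem ber_prob {θ : ℝ} (h0 : 0 ≤ θ) (h1 : θ ≤ 1) : IsProbabilityMeasure (ber θ) := by
  constructor
  unfold ber
  simp only [Measure.coe_add, Measure.coe_smul, Pi.add_apply, Pi.smul_apply, measure_univ,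
    smul_eq_mul, mul_one]
  rw [← ENNReal.ofReal_add h0 (by linarith)]
  simp

theorem ber_true {θ : ℝ} (h0 : 0 ≤ θ) : (ber θ).real {true} = θ := by
  unfold ber Measure.real
  simp [h0]

theorem ber_false {θ : ℝ} (h1 : θ ≤ 1) : (ber θ).real {false} = 1 - θ := by
  unfold ber Measure.real
  simp [h1]

/-- events looking at disjoint finite sets of coordinates are independent -/
theorem indep_sets {I Ω : Type} [MeasurableSpace Ω] [Finite Ω]
    [MeasurableSingletonClass Ω] (ν : Measure Ω) [IsProbabilityMeasure ν] (S T : Finset I)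
    (hST : Disjoint S T) (A B : Set (I → Ω))
    (hA : ∀ x y : I → Ω, (∀ i ∈ S, x i = y i) → x ∈ A → y ∈ A)
    (hB : ∀ x y : I → Ω, (∀ i ∈ T, x i = y i) → x ∈ B → y ∈ B) :
    (Measure.infinitePi fun _ : I => ν).real (A ∩ B) =
      (Measure.infinitePi fun _ : I => ν).real A *
        (Measure.infinitePi fun _ : I => ν).real B := by
  have hA' : A = (fun (a : I → Ω) (i : S) => a i) ⁻¹' {z | ∃ x ∈ A, ∀ i : S, x i = z i} := by
    ext a
    constructor
    · intro h
      exact ⟨a, h, fun _ => rfl⟩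
    · rintro ⟨x, hx, h⟩
      exact hA x a (fun i hi => h ⟨i, hi⟩) hx
  have hB' : B = (fun (a : I → Ω) (i : T) => a i) ⁻¹' {z | ∃ x ∈ B, ∀ i : T, x i = z i} := by
    ext a
    constructor
    · intro h
      exact ⟨a, h, fun _ => rfl⟩
    · rintro ⟨x, hx, h⟩
      exact hB x a (fun i hi => h ⟨i, hi⟩) hx
  have hi : iIndepFun (fun (i : I) (ω : I → Ω) => ω i) (Measure.infinitePi fun _ : I => ν) :=
    iIndepFun_infinitePi (X := fun _ x => x) (fun _ => measurable_id)
  have h := hi.indepFun_finset S T hST (fun i => measurable_pi_apply i)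
  have h2 := h.measure_inter_preimage_eq_mul {z | ∃ x ∈ A, ∀ i : S, x i = z i}
    {z | ∃ x ∈ B, ∀ i : T, x i = z i} (Set.toFinite _).measurableSet
    (Set.toFinite _).measurableSet
  rw [← hA', ← hB'] at h2
  unfold Measure.real
  rw [h2, ENNReal.toReal_mul]

theorem iso_iff {d l : ℕ} (a : Z d → Bool) (w : Z d) :
    iso l a w ↔ ∀ x ∈ bx d (2 * l + 2), a (x + w) = decide (x = 0) := by
  unfold iso
  constructor
  · rintro ⟨h1, h2⟩ x hx
    by_cases h : x = 0
    · subst h
      simpa using h1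
    · rw [h2 (x + w) (by simpa using h) (by simpa using hx)]
      simp [h]
  · intro h
    refine ⟨by simpa using h 0 zero_mem_bx, fun w' h1 h2 => ?_⟩
    have := h (w' - w) h2
    simpa [sub_eq_zero, h1] using this

theorem iso_congr {d l : ℕ} {a b : Z d → Bool} {w : Z d} (hw : w ∈ bx d l)
    (h : ∀ x ∈ bx d (5 * l + 2), a x = b x) (ha : iso (2 * l) a w) : iso (2 * l) b w := by
  rw [iso_iff] at *
  intro x hx
  rw [← ha x hx, h (x + w)]
  exact bx_mono (by omega) (bx_add hx hw)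

theorem iso_set (d l : ℕ) (t : ℤ) (w : Z d) :
    {a : Z d × ℤ → Bool | iso (2 * l) (fun x => a (x, t)) w} =
      Set.pi (↑((bx d (2 * (2 * l) + 2)).image fun x => (x + w, t)) : Set (Z d × ℤ))
        (fun p => {decide (p.1 = w)}) := by
  ext a
  simp only [Set.mem_setOf_eq, iso_iff, Set.mem_pi, Finset.mem_coe, Finset.mem_image,
    Set.mem_singleton_iff]
  constructor
  · rintro h i ⟨x, hx, rfl⟩
    rw [h x hx]
    simp
  · intro h x hx
    rw [h (x + w, t) ⟨x, hx, rfl⟩]
    simp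

theorem iso_meas (d l : ℕ) (t : ℤ) (w : Z d) :
    MeasurableSet {a : Z d × ℤ → Bool | iso (2 * l) (fun x => a (x, t)) w} := by
  rw [iso_set]
  exact MeasurableSet.pi (Finset.countable_toSet _) (fun _ _ => MeasurableSet.singleton _)

theorem P_iso (d l : ℕ) {θ : ℝ} (h0 : 0 ≤ θ) (h1 : θ ≤ 1) (t : ℤ) (w : Z d) :
    (Measure.infinitePi fun _ : Z d × ℤ => ber θ).real
      {a | iso (2 * l) (fun x => a (x, t)) w} = θ * (1 - θ) ^ ((8 * l + 5) ^ d - 1) := by
  classical
  haveI := ber_prob h0 h1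
  rw [iso_set]
  unfold Measure.real
  rw [Measure.infinitePi_pi _ (fun _ _ => MeasurableSet.singleton _), ENNReal.toReal_prod,
    Finset.prod_image (by
      intro x _ y _ hxy
      simpa using hxy)]
  rw [← Finset.mul_prod_erase _ _ (zero_mem_bx : (0 : Z d) ∈ bx d (2 * (2 * l) + 2))]
  have e1 : ∀ x ∈ (bx d (2 * (2 * l) + 2)).erase 0,
      ((ber θ) {decide (((x + w, t) : Z d × ℤ).1 = w)}).toReal = 1 - θ := by
    intro x hx
    have hx0 : x ≠ 0 := Finset.ne_of_mem_erase hx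
    have : decide (((x + w, t) : Z d × ℤ).1 = w) = false := by simpa using hx0
    rw [this]
    exact ber_false h1
  rw [Finset.prod_congr rfl e1, Finset.prod_const, Finset.card_erase_of_mem zero_mem_bx, card_bx]
  have e2 : decide (((0 + w, t) : Z d × ℤ).1 = w) = true := by simp
  rw [e2]
  have e3 : ((ber θ) {true}).toReal = θ := ber_true h0
  rw [e3]
  have e4 : 2 * (2 * (2 * l) + 2) + 1 = 8 * l + 5 := by ring
  rw [e4]

/-- there is an isolated active site deep inside -/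
def Dp (d l : ℕ) (t : ℤ) : Set (Z d × ℤ → Bool) :=
  {a | ∃ w ∈ bx d l, iso (2 * l) (fun x => a (x, t)) w}

theorem Dp_eq (d l : ℕ) (t : ℤ) : Dp d l t =
    ⋃ w ∈ bx d l, {a : Z d × ℤ → Bool | iso (2 * l) (fun x => a (x, t)) w} := by
  ext a
  simp [Dp]

theorem Dp_meas (d l : ℕ) (t : ℤ) : MeasurableSet (Dp d l t) := by
  rw [Dp_eq]
  exact Finset.measurableSet_biUnion _ (fun w _ => iso_meas d l t w)

theorem P_Dp (d l : ℕ) {θ : ℝ} (h0 : 0 ≤ θ) (h1 : θ ≤ 1) (t : ℤ) :
    (Measure.infinitePi fun _ : Z d × ℤ => ber θ).real (Dp d l t) =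
      (2 * (l : ℝ) + 1) ^ d * (θ * (1 - θ) ^ ((8 * l + 5) ^ d - 1)) := by
  haveI := ber_prob h0 h1
  rw [Dp_eq, measureReal_biUnion_finset]
  · rw [Finset.sum_congr rfl (fun w _ => P_iso d l h0 h1 t w), Finset.sum_const, card_bx,
      nsmul_eq_mul]
    push_cast
    ring
  · intro w hw w' hw' hne
    simp only [Function.onFun]
    rw [Set.disjoint_left]
    intro a ha ha'
    simp only [Set.mem_setOf_eq] at ha ha'
    have h2 : w' - w ∈ bx d (2 * (2 * l) + 2) :=
      bx_mono (by omega) (bx_sub (Finset.mem_coe.1 hw') (Finset.mem_coe.1 hw))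
    have h3 := ha.2 w' (Ne.symm hne) h2
    have h4 := ha'.1
    rw [h3] at h4
    exact absurd h4 (by simp)
  · intro w _
    exact iso_meas d l t w

theorem quarter (M : ℕ) (hM : 1 ≤ M) : (1 : ℝ) / 4 ≤ (1 - 1 / (M : ℝ)) ^ (M - 1) := by
  obtain ⟨k, rfl⟩ : ∃ k, M = k + 1 := ⟨M - 1, by omega⟩
  rcases Nat.eq_zero_or_pos k with rfl | hk
  · norm_num
  · have hk' : (0 : ℝ) < k := by exact_mod_cast hk
    have e1 : (1 - 1 / ((k + 1 : ℕ) : ℝ)) = (1 + 1 / (k : ℝ))⁻¹ := by
      push_cast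
      field_simp
      ring
    rw [e1, inv_pow, Nat.add_sub_cancel]
    have h2 : (1 + 1 / (k : ℝ)) ^ k ≤ Real.exp 1 := by
      have h3 : 1 + 1 / (k : ℝ) ≤ Real.exp (1 / (k : ℝ)) := by
        have := Real.add_one_le_exp (1 / (k : ℝ))
        linarith
      calc (1 + 1 / (k : ℝ)) ^ k ≤ (Real.exp (1 / (k : ℝ))) ^ k :=
            pow_le_pow_left₀ (by positivity) h3 k
        _ = Real.exp 1 := by
            rw [← Real.exp_nat_mul]
            congr 1
            field_simp
    have h4 : (1 + 1 / (k : ℝ)) ^ k ≤ 4 := by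
      have := Real.exp_one_lt_d9
      linarith
    rw [one_div]
    exact inv_anti₀ (by positivity) h4

theorem num (d l : ℕ) : 1 / (4 * 5 ^ d) ≤ (2 * (l : ℝ) + 1) ^ d *
    (1 / (8 * (l : ℝ) + 5) ^ d * (1 - 1 / (8 * (l : ℝ) + 5) ^ d) ^ ((8 * l + 5) ^ d - 1)) := by
  have hM : 1 ≤ (8 * l + 5) ^ d := Nat.one_le_pow _ _ (by omega)
  have h1 := quarter _ hM
  push_cast at h1
  have h2 : (1 / 5 : ℝ) ^ d ≤ ((2 * (l : ℝ) + 1) / (8 * (l : ℝ) + 5)) ^ d := by
    apply pow_le_pow_left₀ (by norm_num)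
    rw [div_le_div_iff₀ (by norm_num) (by positivity)]
    have : (0 : ℝ) ≤ l := by positivity
    linarith
  calc (1 : ℝ) / (4 * 5 ^ d) = (1 / 5) ^ d * (1 / 4) := by
        rw [div_pow, one_pow, one_div_mul_one_div, mul_comm]
    _ ≤ ((2 * (l : ℝ) + 1) / (8 * (l : ℝ) + 5)) ^ d *
        (1 - 1 / (8 * (l : ℝ) + 5) ^ d) ^ ((8 * l + 5) ^ d - 1) := by
        apply mul_le_mul h2 h1 (by norm_num) (by positivity)
    _ = _ := by
        rw [div_pow]
        ring

theorem deep : S_deep := by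
  intro d l n
  set θ : ℝ := 1 / (8 * (l : ℝ) + 5) ^ d with hθ
  have hb : (1 : ℝ) ≤ (8 * (l : ℝ) + 5) ^ d := one_le_pow₀ (by
    have : (0 : ℝ) ≤ l := by positivity
    linarith)
  have h0 : 0 ≤ θ := by positivity
  have h1 : θ ≤ 1 := by
    rw [hθ, div_le_one (by positivity)]
    exact hb
  haveI := ber_prob h0 h1
  set μ := Measure.infinitePi fun _ : Z d × ℤ => ber θ with hμ
  have hset : ∀ n : ℕ, {a : Z d × ℤ → Bool | ∀ t : ℕ, t < n →
      ¬ ∃ w ∈ bx d l, iso (2 * l) (fun x => a (x, (t : ℤ))) w} =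
      {a | ∀ t : ℕ, t < n → a ∉ Dp d l (t : ℤ)} := fun n => rfl
  rw [hset]
  have hP : ∀ t : ℤ, μ.real (Dp d l t)ᶜ ≤ 1 - 1 / (4 * 5 ^ d) := by
    intro t
    rw [probReal_compl_eq_one_sub (Dp_meas d l t), hμ, P_Dp d l h0 h1 t]
    have := num d l
    linarith
  have hq : (0 : ℝ) ≤ 1 - 1 / (4 * 5 ^ d) := le_trans measureReal_nonneg (hP 0)
  induction n with
  | zero => simpa using measureReal_le_one
  | succ n ih =>
    have hsplit : {a : Z d × ℤ → Bool | ∀ t : ℕ, t < n + 1 → a ∉ Dp d l (t : ℤ)} =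
        {a | ∀ t : ℕ, t < n → a ∉ Dp d l (t : ℤ)} ∩ (Dp d l (n : ℤ))ᶜ := by
      ext a
      simp only [Set.mem_setOf_eq, Set.mem_inter_iff, Set.mem_compl_iff]
      constructor
      · intro h
        exact ⟨fun t ht => h t (by omega), h n (by omega)⟩
      · rintro ⟨h, h'⟩ t ht
        rcases Nat.lt_succ_iff_lt_or_eq.1 ht with h3 | h3
        · exact h t h3
        · rw [h3]; exact h'
    rw [hsplit, hμ, indep_sets (ber θ) (bx d (5 * l + 2) ×ˢ Finset.Ico (0 : ℤ) n)
      (bx d (5 * l + 2) ×ˢ {(n : ℤ)})]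
    · rw [pow_succ]
      exact mul_le_mul (ih) (hP _) measureReal_nonneg (by positivity)
    · rw [Finset.disjoint_left]
      rintro ⟨x, t⟩ h h'
      simp only [Finset.mem_product, Finset.mem_Ico, Finset.mem_singleton] at h h'
      omega
    · intro x y hxy hx t ht hy
      apply hx t ht
      obtain ⟨w, hw, hi⟩ := hy
      refine ⟨w, hw, iso_congr hw (fun z hz => ?_) hi⟩
      exact (hxy (z, (t : ℤ)) (by
        simp only [Finset.mem_product, Finset.mem_Ico]
        refine ⟨hz, by omega, by omega⟩)).symm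
    · intro x y hxy hx hy
      apply hx
      obtain ⟨w, hw, hi⟩ := hy
      refine ⟨w, hw, iso_congr hw (fun z hz => ?_) hi⟩
      exact (hxy (z, (n : ℤ)) (by
        simp only [Finset.mem_product, Finset.mem_singleton]
        exact ⟨hz, trivial⟩)).symm

end Pool.Agent.H721.IS
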