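import Pool.Agent.H960.IS.Stm

/-! Derivative of Ising correlations in the inverse temperature (project IS, task DIFF). -/

set_option linter.all false

namespace Pool.Agent.H782.IS

open Finset H960FV H960IS

variable {V E : Type} [Fintype V] [DecidableEq V] [Fintype E] [DecidableEq E]

theorem sp_sq (b : Bool) : sp b * sp b = 1 := by
  cases b <;> simp [sp]

/-- products of signs over symmetric differences -/
theorem prod_symmDiff (f : V → ℝ) (hf : ∀ v, f v * f v = 1) (A B : Finset V) :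
    (∏ v ∈ A, f v) * ∏ v ∈ B, f v = ∏ v ∈ symmDiff A B, f v := by
  have h1 : ∏ v ∈ symmDiff A B, f v = (∏ v ∈ A \ B, f v) * ∏ v ∈ B \ A, f v := by
    have h2 : symmDiff A B = (A \ B) ∪ (B \ A) := rfl
    rw [h2, prod_union]
    exact disjoint_sdiff_sdiff
  have h3 : ∏ v ∈ A, f v = (∏ v ∈ A \ B, f v) * ∏ v ∈ A ∩ B, f v := by
    rw [← prod_sdiff (inter_subset_left : A ∩ B ⊆ A), sdiff_inter_self_left]
  have h4 : ∏ v ∈ B, f v = (∏ v ∈ B \ A, f v) * ∏ v ∈ A ∩ B, f v := by
    rw [← prod_sdiff (inter_subset_right : A ∩ B ⊆ B), sdiff_inter_self_right]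
  have h5 : (∏ v ∈ A ∩ B, f v) * ∏ v ∈ A ∩ B, f v = 1 := by
    rw [← prod_mul_distrib]
    exact prod_eq_one fun v _ => hf v
  rw [h1, h3, h4]
  calc _ = ((∏ v ∈ A \ B, f v) * ∏ v ∈ B \ A, f v) *
        ((∏ v ∈ A ∩ B, f v) * ∏ v ∈ A ∩ B, f v) := by ring
    _ = _ := by rw [h5, mul_one]

theorem prod_edge (σ : V → Bool) (A : Finset V) (x y : V) :
    (∏ v ∈ A, sp (σ v)) * (sp (σ x) * sp (σ y)) =
      ∏ v ∈ symmDiff A (symmDiff {x} {y}), sp (σ v) := by
  have hf : ∀ v, sp (σ v) * sp (σ v) = 1 := fun v => sp_sq _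
  rw [← prod_symmDiff (fun v => sp (σ v)) hf, ← prod_symmDiff (fun v => sp (σ v)) hf,
    prod_singleton, prod_singleton]

theorem Zs_pos (p q : E → V) (K : E → ℝ) : 0 < Zs p q K ∅ := by
  unfold Zs
  refine sum_pos (fun σ _ => ?_) univ_nonempty
  rw [prod_empty, one_mul]
  exact Real.exp_pos _

/-- derivative of the spin sums -/
theorem Zs_deriv (p q : E → V) (K J : E → ℝ) (A : Finset V) (β : ℝ) :
    HasDerivAt (fun β : ℝ => Zs p q (fun e => K e + β * J e) A)
      (∑ e, J e * Zs p q (fun e => K e + β * J e) (symmDiff A (symmDiff {p e} {q e}))) β := by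
  have h1 : ∀ σ : V → Bool, HasDerivAt (fun β : ℝ => (∏ v ∈ A, sp (σ v)) *
      Real.exp (∑ e, (K e + β * J e) * (sp (σ (p e)) * sp (σ (q e)))))
      ((∏ v ∈ A, sp (σ v)) *
        (Real.exp (∑ e, (K e + β * J e) * (sp (σ (p e)) * sp (σ (q e)))) *
          ∑ e, J e * (sp (σ (p e)) * sp (σ (q e))))) β := by
    intro σ
    have h2 : HasDerivAt (fun β : ℝ => ∑ e, (K e + β * J e) * (sp (σ (p e)) * sp (σ (q e))))
        (∑ e, J e * (sp (σ (p e)) * sp (σ (q e)))) β := by
      have h3 : ∀ e ∈ (univ : Finset E), HasDerivAt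
          (fun β : ℝ => (K e + β * J e) * (sp (σ (p e)) * sp (σ (q e))))
          (J e * (sp (σ (p e)) * sp (σ (q e)))) β := by
        intro e _
        have h4 : HasDerivAt (fun β : ℝ => K e + β * J e) (J e) β := by
          have h5 := ((hasDerivAt_id β).mul_const (J e)).const_add (K e)
          rw [one_mul] at h5
          exact h5
        exact h4.mul_const _
      exact HasDerivAt.fun_sum h3
    exact (h2.exp).const_mul _
  have h6 := HasDerivAt.fun_sum (u := (univ : Finset (V → Bool))) fun σ _ => h1 σ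
  have h7 : (∑ e, J e * Zs p q (fun e => K e + β * J e) (symmDiff A (symmDiff {p e} {q e}))) =
      ∑ σ : V → Bool, ((∏ v ∈ A, sp (σ v)) *
        (Real.exp (∑ e, (K e + β * J e) * (sp (σ (p e)) * sp (σ (q e)))) *
          ∑ e, J e * (sp (σ (p e)) * sp (σ (q e))))) := by
    unfold Zs
    simp_rw [mul_sum]
    rw [sum_comm]
    refine sum_congr rfl fun σ _ => sum_congr rfl fun e _ => ?_
    rw [← prod_edge]
    ring
  rw [h7]
  exact h6

/-- derivative of correlations in the inverse temperature -/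
theorem diff : S_diff := by
  intro V E _ _ _ _ p q K J A β
  have h0 : Zs p q (fun e => K e + β * J e) ∅ ≠ 0 := (Zs_pos p q _).ne'
  have h1 := (Zs_deriv p q K J A β).fun_div (Zs_deriv p q K J ∅ β) h0
  have h2 : (∑ e, J e * (cor p q (fun e => K e + β * J e) (symmDiff A (symmDiff {p e} {q e})) -
      cor p q (fun e => K e + β * J e) A *
        cor p q (fun e => K e + β * J e) (symmDiff {p e} {q e}))) =
      ((∑ e, J e * Zs p q (fun e => K e + β * J e) (symmDiff A (symmDiff {p e} {q e}))) *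
          Zs p q (fun e => K e + β * J e) ∅ - Zs p q (fun e => K e + β * J e) A *
        (∑ e, J e * Zs p q (fun e => K e + β * J e) (symmDiff ∅ (symmDiff {p e} {q e})))) /
          Zs p q (fun e => K e + β * J e) ∅ ^ 2 := by
    have h3 : ∀ e, symmDiff (∅ : Finset V) (symmDiff {p e} {q e}) = symmDiff {p e} {q e} :=
      fun e => bot_symmDiff _
    simp_rw [h3]
    unfold cor
    rw [sum_mul, mul_sum, ← sum_sub_distrib, sum_div]
    refine sum_congr rfl fun e _ => ?_
    field_simp
  rw [h2]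
  exact h1

end Pool.Agent.H782.IS

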