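import Pool.Agent.H960.IS.Stm

set_option autoImplicit false

open MeasureTheory Filter Topology Finset H960FV H960IS

namespace Pool.Agent.H588.IS

theorem sp_not (b : Bool) : sp (!b) = -sp b := by
  cases b <;> simp [sp]

theorem gl_not {d : ℕ} (Λ : Finset (Z d)) (τ : ↥Λ → Bool) (η : Z d → Bool) :
    gl Λ (fun i => !τ i) (fun x => !η x) = fun x => !gl Λ τ η x := by
  funext x
  unfold gl
  by_cases h : x ∈ Λ
  · rw [dif_pos h, dif_pos h]
  · rw [dif_neg h, dif_neg h]

theorem En_not {d : ℕ} (Λ : Finset (Z d)) (σ : Z d → Bool) :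
    En Λ (fun x => !σ x) = En Λ σ := by
  unfold En
  refine Finset.sum_congr rfl fun e _ => ?_
  rw [sp_not, sp_not, neg_mul_neg]

theorem sum_not {d : ℕ} (Λ : Finset (Z d)) (f : (↥Λ → Bool) → ℝ) :
    ∑ τ : ↥Λ → Bool, f (fun i => !τ i) = ∑ τ : ↥Λ → Bool, f τ := by
  have hinv : Function.Involutive (fun (τ : ↥Λ → Bool) => fun i => !τ i) := by
    intro τ
    funext i
    exact Bool.not_not (τ i)
  exact Equiv.sum_comp hinv.toPerm f

theorem Zn_not {d : ℕ} (β : ℝ) (Λ : Finset (Z d)) (η : Z d → Bool) :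
    Zn β Λ (fun x => !η x) = Zn β Λ η := by
  unfold Zn
  rw [← sum_not]
  refine Finset.sum_congr rfl fun τ _ => ?_
  rw [gl_not, En_not]

theorem flip : S_flip := by
  intro d β Λ g η
  unfold Kop
  rw [Zn_not]
  congr 1
  rw [← sum_not Λ fun τ => Real.exp (β * En Λ (gl Λ τ (fun x => !η x))) *
    g (gl Λ τ (fun x => !η x))]
  refine Finset.sum_congr rfl fun τ _ => ?_
  rw [gl_not, En_not]

end Pool.Agent.H588.IS
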