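import Pool.Agent.H960.IS.Stm

/-! Subtask 16641 (IS-GIBBSK, helper960): Gibbs measures are invariant under the kernels. -/

open MeasureTheory Filter Topology Finset H960FV H960IS

namespace Pool.Agent.H280.IS

variable {d : ℕ}

/-- cylinder -/
def cyl (D : Finset (Z d)) (ζ : ↥D → Bool) : Set (Z d → Bool) := {σ | ∀ x : ↥D, σ x = ζ x}

lemma cyl_meas (D : Finset (Z d)) (ζ : ↥D → Bool) : MeasurableSet (cyl D ζ) := by
  have : cyl D ζ = ⋂ x : ↥D, (fun σ : Z d → Bool => σ x) ⁻¹' {ζ x} := by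
    ext σ
    simp [cyl]
  rw [this]
  exact MeasurableSet.iInter fun x => measurable_pi_apply _ (measurableSet_singleton _)

lemma gl_in (Λ : Finset (Z d)) (τ : ↥Λ → Bool) (η : Z d → Bool) (x : Z d) (hx : x ∈ Λ) :
    gl Λ τ η x = τ ⟨x, hx⟩ := by
  simp [gl, hx]

lemma gl_out (Λ : Finset (Z d)) (τ : ↥Λ → Bool) (η : Z d → Bool) (x : Z d) (hx : x ∉ Λ) :
    gl Λ τ η x = η x := by
  simp [gl, hx]

/-- extension by plus -/
noncomputable def ex0 (D : Finset (Z d)) (ζ : ↥D → Bool) : Z d → Bool := gl D ζ (fun _ => true)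

lemma expand (D : Finset (Z d)) (h : (Z d → Bool) → ℝ)
    (hl : ∀ σ σ' : Z d → Bool, (∀ x ∈ D, σ x = σ' x) → h σ = h σ') (σ : Z d → Bool) :
    h σ = ∑ ζ : ↥D → Bool, (cyl D ζ).indicator (fun _ => h (ex0 D ζ)) σ := by
  rw [Finset.sum_eq_single (fun x : ↥D => σ x)]
  · rw [Set.indicator_of_mem (by intro x; rfl)]
    apply hl
    intro x hx
    rw [ex0, gl_in _ _ _ _ hx]
  · intro ζ _ hζ
    apply Set.indicator_of_notMem
    intro hmem
    exact hζ (funext fun x => (hmem x).symm)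
  · intro hn
    exact absurd (Finset.mem_univ _) hn

lemma expand_int (μ : Measure (Z d → Bool)) [IsProbabilityMeasure μ] (D : Finset (Z d))
    (h : (Z d → Bool) → ℝ)
    (hl : ∀ σ σ' : Z d → Bool, (∀ x ∈ D, σ x = σ' x) → h σ = h σ') (T : Set (Z d → Bool))
    (hT : MeasurableSet T) :
    Integrable (T.indicator h) μ ∧
      ∫ σ, T.indicator h σ ∂μ = ∑ ζ : ↥D → Bool, μ.real (T ∩ cyl D ζ) * h (ex0 D ζ) := by
  have h1 : T.indicator h = fun σ => ∑ ζ : ↥D → Bool,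
      (T ∩ cyl D ζ).indicator (fun _ => h (ex0 D ζ)) σ := by
    funext σ
    by_cases hσ : σ ∈ T
    · rw [Set.indicator_of_mem hσ, expand D h hl σ]
      refine Finset.sum_congr rfl fun ζ _ => ?_
      by_cases h2 : σ ∈ cyl D ζ
      · rw [Set.indicator_of_mem h2, Set.indicator_of_mem (show σ ∈ T ∩ cyl D ζ from ⟨hσ, h2⟩)]
      · rw [Set.indicator_of_notMem h2, Set.indicator_of_notMem (fun h3 => h2 h3.2)]
    · rw [Set.indicator_of_notMem hσ]
      symm
      exact Finset.sum_eq_zero fun ζ _ => Set.indicator_of_notMem (fun h3 => hσ h3.1) _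
  have h2 : ∀ ζ : ↥D → Bool, Integrable ((T ∩ cyl D ζ).indicator (fun _ => h (ex0 D ζ))) μ :=
    fun ζ => (integrable_const _).indicator (hT.inter (cyl_meas D ζ))
  constructor
  · rw [h1]
    exact integrable_finsetSum _ (fun ζ _ => h2 ζ)
  · rw [h1, integral_finsetSum _ (fun ζ _ => h2 ζ)]
    refine Finset.sum_congr rfl fun ζ _ => ?_
    rw [integral_indicator_const _ (hT.inter (cyl_meas D ζ)), smul_eq_mul]

/-- the finite window -/
noncomputable def Dl (B : Finset (Z d)) (m : ℕ) : Finset (Z d) :=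
  bx d m ∪ B ∪ (B ×ˢ (univ : Finset (Fin d))).image (fun p => p.1 + un p.2) ∪
    (B ×ˢ (univ : Finset (Fin d))).image (fun p => p.1 - un p.2)

lemma bx_Dl (B : Finset (Z d)) (m : ℕ) {x : Z d} (hx : x ∈ bx d m) : x ∈ Dl B m := by
  unfold Dl
  simp only [Finset.mem_union]
  exact Or.inl (Or.inl (Or.inl hx))

lemma B_Dl (B : Finset (Z d)) (m : ℕ) {x : Z d} (hx : x ∈ B) : x ∈ Dl B m := by
  unfold Dl
  simp only [Finset.mem_union]
  exact Or.inl (Or.inl (Or.inr hx))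

lemma add_Dl (B : Finset (Z d)) (m : ℕ) {x : Z d} (i : Fin d) (hx : x ∈ B) :
    x + un i ∈ Dl B m := by
  unfold Dl
  simp only [Finset.mem_union]
  refine Or.inl (Or.inr ?_)
  exact Finset.mem_image.mpr ⟨(x, i), Finset.mem_product.mpr ⟨hx, Finset.mem_univ _⟩, rfl⟩

lemma sub_Dl (B : Finset (Z d)) (m : ℕ) {x : Z d} (i : Fin d) (hx : x ∈ B) :
    x - un i ∈ Dl B m := by
  unfold Dl
  simp only [Finset.mem_union]
  refine Or.inr ?_
  exact Finset.mem_image.mpr ⟨(x, i), Finset.mem_product.mpr ⟨hx, Finset.mem_univ _⟩, rfl⟩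

lemma En_loc (B : Finset (Z d)) (m : ℕ) (σ σ' : Z d → Bool) (h : ∀ x ∈ Dl B m, σ x = σ' x) :
    En B σ = En B σ' := by
  unfold En
  refine Finset.sum_congr rfl fun e he => ?_
  unfold Ed at he
  rcases Finset.mem_union.mp he with h1 | h1
  · have h2 := (Finset.mem_product.mp h1).1
    rw [h _ (B_Dl B m h2), h _ (add_Dl B m e.2 h2)]
  · obtain ⟨e', he', rfl⟩ := Finset.mem_image.mp h1
    have h2 := (Finset.mem_product.mp he').1
    have h3 : e'.1 - un e'.2 + un e'.2 = e'.1 := by abel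
    simp only [h3]
    rw [h _ (B_Dl B m h2), h _ (sub_Dl B m e'.2 h2)]

lemma gl_loc (B : Finset (Z d)) (m : ℕ) (τ : ↥B → Bool) (σ σ' : Z d → Bool)
    (h : ∀ x ∈ Dl B m \ B, σ x = σ' x) : ∀ x ∈ Dl B m, gl B τ σ x = gl B τ σ' x := by
  intro x hx
  by_cases hB : x ∈ B
  · rw [gl_in _ _ _ _ hB, gl_in _ _ _ _ hB]
  · rw [gl_out _ _ _ _ hB, gl_out _ _ _ _ hB]
    exact h x (Finset.mem_sdiff.mpr ⟨hx, hB⟩)

lemma gl_gl (B : Finset (Z d)) (τ τ' : ↥B → Bool) (η : Z d → Bool) :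
    gl B τ' (gl B τ η) = gl B τ' η := by
  funext x
  by_cases hB : x ∈ B
  · rw [gl_in _ _ _ _ hB, gl_in _ _ _ _ hB]
  · rw [gl_out _ _ _ _ hB, gl_out _ _ _ _ hB, gl_out _ _ _ _ hB]

lemma Zn_gl (β : ℝ) (B : Finset (Z d)) (τ : ↥B → Bool) (η : Z d → Bool) :
    Zn β B (gl B τ η) = Zn β B η := by
  unfold Zn
  refine Finset.sum_congr rfl fun τ' _ => ?_
  rw [gl_gl]

lemma Kop_loc (β : ℝ) (B : Finset (Z d)) (m : ℕ) (g : (Z d → Bool) → ℝ)
    (hg : ∀ σ σ' : Z d → Bool, (∀ x ∈ bx d m, σ x = σ' x) → g σ = g σ')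
    (σ σ' : Z d → Bool) (h : ∀ x ∈ Dl B m \ B, σ x = σ' x) : Kop β B g σ = Kop β B g σ' := by
  have h1 : ∀ τ : ↥B → Bool, En B (gl B τ σ) = En B (gl B τ σ') := fun τ =>
    En_loc B m _ _ (gl_loc B m τ σ σ' h)
  have h2 : ∀ τ : ↥B → Bool, g (gl B τ σ) = g (gl B τ σ') := fun τ =>
    hg _ _ (fun x hx => gl_loc B m τ σ σ' h x (bx_Dl B m hx))
  unfold Kop Zn
  simp only [h1, h2]

/-- Gibbs measures are invariant under the kernels -/
theorem gibbsK : S_gibbsK := by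
  intro d β μ _ hG B m g hg
  classical
  set De := Dl B m with hDe
  set D' := De \ B with hD'
  have hBD : B ⊆ De := fun x hx => B_Dl B m hx
  have key : ∀ (τ : ↥B → Bool) (ζ : ↥D' → Bool), μ.real (cyl B τ ∩ cyl D' ζ) =
      Real.exp (β * En B (gl B τ (ex0 D' ζ))) / Zn β B (ex0 D' ζ) * μ.real (cyl D' ζ) := by
    intro τ ζ
    have h1 := hG B De hBD (fun x hx i => ⟨add_Dl B m i hx, sub_Dl B m i hx⟩)
      (gl B τ (ex0 D' ζ))
    have h2 : {σ : Z d → Bool | ∀ x ∈ De, σ x = gl B τ (ex0 D' ζ) x} = cyl B τ ∩ cyl D' ζ := by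
      ext σ
      constructor
      · intro h
        refine ⟨fun x => ?_, fun x => ?_⟩
        · rw [h x (hBD x.2), gl_in _ _ _ _ x.2]
        · have hx' := Finset.mem_sdiff.mp x.2
          rw [h x hx'.1, gl_out _ _ _ _ hx'.2, ex0, gl_in _ _ _ _ x.2]
      · rintro ⟨ha, hb⟩ x hx
        by_cases hB : x ∈ B
        · rw [gl_in _ _ _ _ hB]
          exact ha ⟨x, hB⟩
        · have hx' : x ∈ D' := by
            rw [hD']
            exact Finset.mem_sdiff.mpr ⟨hx, hB⟩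
          rw [gl_out _ _ _ _ hB, ex0, gl_in _ _ _ _ hx']
          exact hb ⟨x, hx'⟩
    have h3 : {σ : Z d → Bool | ∀ x ∈ De \ B, σ x = gl B τ (ex0 D' ζ) x} = cyl D' ζ := by
      ext σ
      constructor
      · intro h x
        have hx := x.2
        have hx' := Finset.mem_sdiff.mp hx
        rw [h x hx, gl_out _ _ _ _ hx'.2, ex0, gl_in _ _ _ _ x.2]
      · intro hb x hx
        have hx' := Finset.mem_sdiff.mp hx
        rw [gl_out _ _ _ _ hx'.2, ex0, gl_in _ _ _ _ hx]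
        exact hb ⟨x, hx⟩
    rw [h2, h3, Zn_gl] at h1
    exact h1
  -- the right hand side
  have hr : ∀ σ, g σ = ∑ τ : ↥B → Bool, (cyl B τ).indicator (fun σ => g (gl B τ σ)) σ := by
    intro σ
    rw [Finset.sum_eq_single (fun x : ↥B => σ x)]
    · rw [Set.indicator_of_mem (by intro x; rfl)]
      have : gl B (fun x : ↥B => σ x) σ = σ := by
        funext x
        by_cases hB : x ∈ B
        · rw [gl_in _ _ _ _ hB]
        · rw [gl_out _ _ _ _ hB]
      rw [this]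
    · intro ζ _ hζ
      apply Set.indicator_of_notMem
      intro hmem
      exact hζ (funext fun x => (hmem x).symm)
    · intro hn
      exact absurd (Finset.mem_univ _) hn
  have hloc : ∀ τ : ↥B → Bool, ∀ σ σ' : Z d → Bool, (∀ x ∈ D', σ x = σ' x) →
      g (gl B τ σ) = g (gl B τ σ') := fun τ σ σ' h =>
    hg _ _ (fun x hx => gl_loc B m τ σ σ' h x (bx_Dl B m hx))
  have hR : ∫ σ, g σ ∂μ = ∑ τ : ↥B → Bool, ∑ ζ : ↥D' → Bool,
      μ.real (cyl B τ ∩ cyl D' ζ) * g (gl B τ (ex0 D' ζ)) := by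
    have h1 : ∫ σ, g σ ∂μ = ∫ σ, ∑ τ : ↥B → Bool,
        (cyl B τ).indicator (fun σ => g (gl B τ σ)) σ ∂μ := integral_congr_ae
        (Filter.Eventually.of_forall hr)
    rw [h1, integral_finsetSum _ (fun τ _ =>
      (expand_int μ D' (fun σ => g (gl B τ σ)) (hloc τ) (cyl B τ) (cyl_meas B τ)).1)]
    refine Finset.sum_congr rfl fun τ _ => ?_
    exact (expand_int μ D' (fun σ => g (gl B τ σ)) (hloc τ) (cyl B τ) (cyl_meas B τ)).2
  have hL : ∫ σ, Kop β B g σ ∂μ = ∑ ζ : ↥D' → Bool, μ.real (cyl D' ζ) *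
      Kop β B g (ex0 D' ζ) := by
    have h1 := (expand_int μ D' (Kop β B g) (fun σ σ' h => Kop_loc β B m g hg σ σ' h) Set.univ
      MeasurableSet.univ).2
    simp only [Set.indicator_univ, Set.univ_inter] at h1
    exact h1
  rw [hL, hR, Finset.sum_comm]
  refine Finset.sum_congr rfl fun ζ _ => ?_
  unfold Kop
  rw [Finset.sum_div, Finset.mul_sum]
  refine Finset.sum_congr rfl fun τ _ => ?_
  rw [key τ ζ]
  ring

end Pool.Agent.H280.IS
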