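import Pool.Agent.H960.IS.Stm

/-!
Project IS (helper960), MP_600500_pr: Griffiths inequalities from the high temperature expansion and
the switching lemma.
-/

open MeasureTheory Filter Topology Finset H960FV H960IS

namespace Pool.Agent.H48.IS

section aux

variable {V E : Type} [Fintype V] [DecidableEq V] [Fintype E] [DecidableEq E]

/-- weights are nonnegative -/
lemma wt_nonneg (K : E → ℝ) (hK : ∀ e, 0 ≤ K e) (a : Finset E) : 0 ≤ wt K a := by
  unfold wt
  refine Finset.prod_nonneg fun e _ => ?_
  split_ifs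
  · exact Real.sinh_nonneg_iff.2 (hK e)
  · exact (Real.cosh_pos _).le

/-- the expansion is nonnegative -/
lemma Y_nonneg (p q : E → V) (K : E → ℝ) (hK : ∀ e, 0 ≤ K e) (A : Finset V) :
    0 ≤ Y p q K A := by
  unfold Y
  exact Finset.sum_nonneg fun a _ => wt_nonneg K hK a

/-- boundary of the empty set -/
lemma bdr_empty (p q : E → V) : bdr p q ∅ = ∅ := by
  unfold bdr
  ext v
  simp

/-- positivity of the partition function -/
lemma Y_pos (p q : E → V) (K : E → ℝ) (hK : ∀ e, 0 ≤ K e) : 0 < Y p q K ∅ := by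
  have h : wt K ∅ ≤ Y p q K ∅ := by
    unfold Y
    exact Finset.single_le_sum (f := fun a => wt K a) (fun a _ => wt_nonneg K hK a)
      (Finset.mem_filter.2 ⟨Finset.mem_univ _, bdr_empty p q⟩)
  have h2 : 0 < wt K (∅ : Finset E) := by
    unfold wt
    refine Finset.prod_pos fun e _ => ?_
    rw [if_neg (Finset.notMem_empty e)]
    exact Real.cosh_pos _
  linarith

/-- double weights are nonnegative -/
lemma W2_nonneg (K : E → ℝ) (hK : ∀ e, 0 ≤ K e) (E' a b w : Finset E) :
    0 ≤ W2 K E' a b w := by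
  unfold W2
  refine Finset.prod_nonneg fun e _ => ?_
  have hs : 0 ≤ Real.sinh (K e) := Real.sinh_nonneg_iff.2 (hK e)
  have hc : 0 ≤ Real.cosh (K e) := (Real.cosh_pos (K e)).le
  split_ifs
  · exact pow_nonneg hs 2
  · exact mul_nonneg hs hc
  · exact zero_le_one
  · exact hs
  · exact hc

/-- monotonicity of the double current sum -/
lemma DD_mono (p q : E → V) (K : E → ℝ) (hK : ∀ e, 0 ≤ K e) (E' : Finset E) (A B : Finset V)
    (F G : Finset E → ℝ) (h : ∀ w, F w ≤ G w) : DD p q K E' A B F ≤ DD p q K E' A B G := by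
  unfold DD
  refine Finset.sum_le_sum fun a _ => Finset.sum_le_sum fun b _ => Finset.sum_le_sum fun w _ => ?_
  exact mul_le_mul_of_nonneg_left (h w) (W2_nonneg K hK E' a b w)

/-- indicators are at most one -/
lemma ind_le_one (P : Prop) : ind P ≤ 1 := by
  unfold ind
  split_ifs
  · exact le_rfl
  · exact zero_le_one

/-- all couplings are kept -/
lemma res_univ (K : E → ℝ) : res K univ = K := by
  funext e
  unfold res
  rw [if_pos (Finset.mem_univ e)]

/-- absolute value of spins -/
lemma abs_sp (b : Bool) : |sp b| = 1 := by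
  unfold sp
  cases b <;> simp

/-- spin sums are bounded by the partition function -/
lemma Zs_le (p q : E → V) (K : E → ℝ) (A : Finset V) : Zs p q K A ≤ Zs p q K ∅ := by
  unfold Zs
  refine Finset.sum_le_sum fun σ _ => ?_
  refine mul_le_mul_of_nonneg_right ?_ (Real.exp_pos _).le
  rw [Finset.prod_empty]
  refine le_trans (le_abs_self _) ?_
  rw [Finset.abs_prod]
  refine le_of_eq ?_
  exact Finset.prod_eq_one fun v _ => abs_sp _

/-- the partition function is positive -/
lemma Zs_pos (p q : E → V) (K : E → ℝ) : 0 < Zs p q K ∅ := by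
  unfold Zs
  refine Finset.sum_pos (fun σ _ => ?_) Finset.univ_nonempty
  rw [Finset.prod_empty, one_mul]
  exact Real.exp_pos _

end aux

/-- Griffiths inequalities -/
theorem gks (h1 : S_ht) (h2 : S_dd1) (h3 : S_switch) : S_gks := by
  intro V E _ _ _ _ p q K hK A B
  have hY0 : 0 < Y p q K ∅ := Y_pos p q K hK
  have hcor : ∀ C : Finset V, cor p q K C = Y p q K C / Y p q K ∅ := by
    intro C
    unfold cor
    rw [h1 V E p q K C, h1 V E p q K ∅]
    have h2c : (2 : ℝ) ^ Fintype.card V ≠ 0 := pow_ne_zero _ two_ne_zero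
    rw [mul_div_mul_left _ _ h2c]
  refine ⟨?_, ?_, ?_⟩
  · rw [hcor]
    exact div_nonneg (Y_nonneg p q K hK A) hY0.le
  · unfold cor
    exact (div_le_one (Zs_pos p q K)).2 (Zs_le p q K A)
  · rw [hcor, hcor, hcor]
    have hAB : Y p q K A * Y p q K B ≤ Y p q K (symmDiff A B) * Y p q K ∅ := by
      have e1 := h2 V E p q K univ A B
      have e2 := h2 V E p q K univ (symmDiff A B) ∅
      rw [res_univ] at e1 e2
      rw [← e1, ← e2, h3 V E p q K univ A B (fun _ => 1)]
      refine DD_mono p q K hK _ _ _ _ _ fun w => ?_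
      rw [mul_one]
      exact ind_le_one _
    rw [div_mul_div_comm, div_le_div_iff₀ (mul_pos hY0 hY0) hY0]
    nlinarith [mul_le_mul_of_nonneg_right hAB hY0.le]

end Pool.Agent.H48.IS
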