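import Pool.Agent.H960.IS.Stm

/-!
Monotonicity of the correlations of ferromagnetic Ising models in the couplings, from the second Griffiths inequality and
the derivative of correlations.
-/

set_option autoImplicit false

namespace Pool.Agent.H261.IS

open H960FV H960IS

theorem gksmono (h1 : S_gks) (h2 : S_diff) : S_gksmono := by
  intro V E _ _ _ _ p q K K' hK hKK A
  have hJ0 : ∀ e, 0 ≤ K' e - K e := fun e => sub_nonneg.mpr (hKK e)
  have hd := fun β => h2 V E p q K (fun e => K' e - K e) A β
  have hmono : MonotoneOn (fun β : ℝ => cor p q (fun e => K e + β * (K' e - K e)) A) (Set.Icc 0 1) := by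
    refine monotoneOn_of_deriv_nonneg (convex_Icc 0 1)
      (fun β _ => (hd β).continuousAt.continuousWithinAt)
      (fun β _ => (hd β).differentiableAt.differentiableWithinAt) fun β hβ => ?_
    rw [(hd β).deriv]
    refine Finset.sum_nonneg fun e _ => mul_nonneg (hJ0 e) (sub_nonneg.mpr ?_)
    have hβ0 : 0 ≤ β := (interior_subset hβ : β ∈ Set.Icc (0 : ℝ) 1).1
    exact (h1 V E p q (fun e => K e + β * (K' e - K e))
      (fun e => add_nonneg (hK e) (mul_nonneg hβ0 (hJ0 e))) A (symmDiff {p e} {q e})).2.2
  have h := hmono (Set.left_mem_Icc.mpr zero_le_one) (Set.right_mem_Icc.mpr zero_le_one) zero_le_one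
  have e0 : (fun e => K e + 0 * (K' e - K e)) = K := by
    funext e
    ring
  have e1 : (fun e => K e + 1 * (K' e - K e)) = K' := by
    funext e
    ring
  simpa only [e0, e1] using h

end Pool.Agent.H261.IS
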