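import Pool.Agent.H960.IS.Stm

/-! High temperature expansion of the Ising model on a finite graph (project IS of helper960). -/

set_option linter.unusedSectionVars false

open Finset H960IS

namespace Pool.Agent.H315.IS

theorem exp_sp (k : ℝ) (s t : Bool) :
    Real.exp (k * (sp s * sp t)) = Real.sinh k * (sp s * sp t) + Real.cosh k := by
  cases s <;> cases t <;> simp [sp, Real.sinh_eq, Real.cosh_eq] <;> ring

section

variable {V E : Type} [Fintype V] [DecidableEq V] [Fintype E] [DecidableEq E]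

theorem wt_eq (K : E → ℝ) (a : Finset E) :
    wt K a = (∏ e ∈ a, Real.sinh (K e)) * ∏ e ∈ univ \ a, Real.cosh (K e) := by
  unfold wt
  rw [Finset.prod_ite]
  congr 1
  · apply Finset.prod_congr _ (fun _ _ => rfl)
    ext e; simp
  · apply Finset.prod_congr _ (fun _ _ => rfl)
    ext e; simp

theorem exp_expand (p q : E → V) (K : E → ℝ) (σ : V → Bool) :
    Real.exp (∑ e, K e * (sp (σ (p e)) * sp (σ (q e)))) =
      ∑ a : Finset E, wt K a * ∏ e ∈ a, (sp (σ (p e)) * sp (σ (q e))) := by
  rw [Real.exp_sum]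
  simp_rw [exp_sp]
  rw [Finset.prod_add, Finset.powerset_univ]
  apply Finset.sum_congr rfl
  intro a _
  rw [wt_eq, Finset.prod_mul_distrib]
  ring

theorem prod_fib (f : V → ℝ) (g : E → V) (a : Finset E) :
    ∏ e ∈ a, f (g e) = ∏ v, f v ^ (a.filter fun e => g e = v).card := by
  rw [← Finset.prod_fiberwise a g (fun e => f (g e))]
  apply Finset.prod_congr rfl
  intro v _
  rw [Finset.prod_congr rfl (g := fun _ => f v)
    (fun e he => by rw [(Finset.mem_filter.mp he).2]), Finset.prod_const]

theorem sum_sp (d : ℕ) : ∑ b : Bool, sp b ^ d = if Even d then 2 else 0 := by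
  rw [Fintype.sum_bool]
  by_cases h : Even d
  · simp [sp, h, h.neg_one_pow]; norm_num
  · have h' := Nat.not_even_iff_odd.mp h
    simp [sp, h, h'.neg_one_pow]

theorem sum_spin (p q : E → V) (A : Finset V) (a : Finset E) :
    ∑ σ : V → Bool, (∏ v ∈ A, sp (σ v)) * ∏ e ∈ a, (sp (σ (p e)) * sp (σ (q e))) =
      if bdr p q a = A then 2 ^ Fintype.card V else 0 := by
  set d : V → ℕ := fun v => (if v ∈ A then 1 else 0) +
    ((a.filter fun e => p e = v).card + (a.filter fun e => q e = v).card) with hd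
  have h1 : ∀ σ : V → Bool, (∏ v ∈ A, sp (σ v)) * ∏ e ∈ a, (sp (σ (p e)) * sp (σ (q e))) =
      ∏ v, sp (σ v) ^ d v := by
    intro σ
    rw [Finset.prod_mul_distrib, prod_fib (fun v => sp (σ v)) p a,
      prod_fib (fun v => sp (σ v)) q a]
    have hA : ∏ v ∈ A, sp (σ v) = ∏ v, sp (σ v) ^ (if v ∈ A then 1 else 0) := by
      have e1 : (univ.filter fun v => v ∈ A) = A := by ext v; simp
      have e2 : ∀ v, sp (σ v) ^ (if v ∈ A then 1 else 0) = if v ∈ A then sp (σ v) else 1 := by
        intro v
        by_cases hv : v ∈ A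
        · rw [if_pos hv, if_pos hv, pow_one]
        · rw [if_neg hv, if_neg hv, pow_zero]
      simp_rw [e2]
      rw [← Finset.prod_filter, e1]
    rw [hA, ← Finset.prod_mul_distrib, ← Finset.prod_mul_distrib]
    apply Finset.prod_congr rfl
    intro v _
    rw [hd]
    simp only [pow_add]
  simp_rw [h1]
  have h2 := Finset.prod_univ_sum (fun _ : V => (univ : Finset Bool)) (fun v b => sp b ^ d v)
  rw [Fintype.piFinset_univ] at h2
  rw [← h2]
  simp_rw [sum_sp]
  have h3 : bdr p q a = A ↔ ∀ v, Even (d v) := by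
    rw [Finset.ext_iff]
    apply forall_congr'
    intro v
    rw [hd]
    simp only [bdr, Finset.mem_filter, Finset.mem_univ, true_and]
    by_cases hv : v ∈ A
    · simp only [hv, if_true, iff_true]
      rw [Nat.even_add]
      simp
    · simp only [hv, if_false, iff_false, zero_add]
      rw [Nat.not_odd_iff_even]
  by_cases h : bdr p q a = A
  · rw [if_pos h]
    rw [Finset.prod_congr rfl (g := fun _ => (2 : ℝ)) (fun v _ => by rw [if_pos (h3.mp h v)])]
    rw [Finset.prod_const, Finset.card_univ]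
  · rw [if_neg h]
    rw [h3] at h
    push Not at h
    obtain ⟨v, hv⟩ := h
    exact Finset.prod_eq_zero (Finset.mem_univ v) (if_neg hv)

end

theorem ht : S_ht := by
  intro V E _ _ _ _ p q K A
  unfold Zs Y
  simp_rw [exp_expand, Finset.mul_sum]
  rw [Finset.sum_comm, Finset.sum_filter]
  apply Finset.sum_congr rfl
  intro a _
  have h := sum_spin p q A a
  have h4 : ∀ σ : V → Bool, (∏ v ∈ A, sp (σ v)) * (wt K a * ∏ e ∈ a, (sp (σ (p e)) * sp (σ (q e)))) =
      wt K a * ((∏ v ∈ A, sp (σ v)) * ∏ e ∈ a, (sp (σ (p e)) * sp (σ (q e)))) := by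
    intro σ; ring
  simp_rw [h4]
  rw [← Finset.mul_sum, h]
  by_cases hb : bdr p q a = A
  · rw [if_pos hb, if_pos hb]; ring
  · rw [if_neg hb, if_neg hb]; ring

end Pool.Agent.H315.IS
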