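import Pool.Agent.H960.IS.Stm

/-!
Helper file for project IS of helper960: Gibbs measures are invariant under the dynamics.
-/

open MeasureTheory Filter Topology Finset H960FV H960IS

namespace Pool.Agent.H260.IS

/-- locality -/
def Lc {d : ℕ} (m : ℕ) (g : (Z d → Bool) → ℝ) : Prop :=
  ∀ σ σ' : Z d → Bool, (∀ x ∈ bx d m, σ x = σ' x) → g σ = g σ'

theorem exists_bx {d : ℕ} (S : Finset (Z d)) : ∃ m, ∀ x ∈ S, x ∈ bx d m := by
  classical
  induction S using Finset.induction_on with
  | empty => exact ⟨0, by simp⟩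
  | insert a s ha ih =>
    obtain ⟨m, hm⟩ := ih
    refine ⟨m + ∑ i, (a i).natAbs, fun x hx => ?_⟩
    rcases Finset.mem_insert.1 hx with rfl | hx
    · rw [mem_bx]
      intro i
      have h : (x i).natAbs ≤ ∑ i, (x i).natAbs :=
        Finset.single_le_sum (f := fun i => (x i).natAbs) (fun _ _ => Nat.zero_le _)
          (Finset.mem_univ i)
      have h' : ((x i).natAbs : ℤ) ≤ ((m + ∑ i, (x i).natAbs : ℕ) : ℤ) := by
        exact_mod_cast h.trans (Nat.le_add_left _ _)
      rwa [Int.natCast_natAbs] at h'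
    · exact bx_mono (Nat.le_add_right _ _) (hm x hx)

theorem Kop_loc {d : ℕ} (β : ℝ) (B : Finset (Z d)) {m : ℕ} {g : (Z d → Bool) → ℝ}
    (hg : Lc m g) : ∃ m', Lc m' (Kop β B g) := by
  classical
  obtain ⟨k, hk⟩ := exists_bx ((Ed B).image (fun e => e.1) ∪
    (Ed B).image (fun e => e.1 + un e.2))
  refine ⟨max m k, fun σ σ' h => ?_⟩
  have hgl : ∀ τ : ↥B → Bool, ∀ x ∈ bx d (max m k), gl B τ σ x = gl B τ σ' x := by
    intro τ x hx
    unfold gl
    split_ifs
    · rfl
    · exact h x hx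
  have hE : ∀ τ : ↥B → Bool, En B (gl B τ σ) = En B (gl B τ σ') := by
    intro τ
    unfold En
    refine Finset.sum_congr rfl fun e he => ?_
    rw [hgl τ e.1 (bx_mono (le_max_right _ _) (hk _ (Finset.mem_union_left _
        (Finset.mem_image_of_mem _ he)))),
      hgl τ (e.1 + un e.2) (bx_mono (le_max_right _ _) (hk _ (Finset.mem_union_right _
        (Finset.mem_image_of_mem (fun e : Z d × Fin d => e.1 + un e.2) he))))]
  have hG : ∀ τ : ↥B → Bool, g (gl B τ σ) = g (gl B τ σ') :=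
    fun τ => hg _ _ fun x hx => hgl τ x (bx_mono (le_max_left _ _) hx)
  unfold Kop Zn
  simp only [hE, hG]

theorem Kop_bd {d : ℕ} (β : ℝ) (B : Finset (Z d)) {g : (Z d → Bool) → ℝ}
    (hg : ∀ σ, |g σ| ≤ 1) (η : Z d → Bool) : |Kop β B g η| ≤ 1 := by
  have hZ : 0 < Zn β B η := Finset.sum_pos (fun _ _ => Real.exp_pos _) univ_nonempty
  unfold Kop
  rw [abs_div, abs_of_pos hZ, div_le_one hZ]
  refine (Finset.abs_sum_le_sum_abs _ _).trans ?_
  unfold Zn
  refine Finset.sum_le_sum fun τ _ => ?_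
  rw [abs_mul, abs_of_pos (Real.exp_pos _)]
  exact mul_le_of_le_one_right (Real.exp_pos _).le (hg _)

theorem Kl_loc {d : ℕ} (β : ℝ) (l : List (Finset (Z d))) {m : ℕ} {g : (Z d → Bool) → ℝ}
    (hg : Lc m g) : ∃ m', Lc m' (Kl β l g) := by
  induction l with
  | nil => exact ⟨m, hg⟩
  | cons B l ih =>
    obtain ⟨m', h⟩ := ih
    exact Kop_loc β B h

theorem Kl_bd {d : ℕ} (β : ℝ) (l : List (Finset (Z d))) {g : (Z d → Bool) → ℝ}
    (hg : ∀ σ, |g σ| ≤ 1) (η : Z d → Bool) : |Kl β l g η| ≤ 1 := by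
  induction l generalizing η with
  | nil => exact hg η
  | cons B l ih => exact Kop_bd β B ih η

theorem Lc_meas {d m : ℕ} {g : (Z d → Bool) → ℝ} (hg : Lc m g) : Measurable g := by
  classical
  have h : g = (fun s : ↥(bx d m) → Bool => g (fun x => if h : x ∈ bx d m then s ⟨x, h⟩
      else true)) ∘ (fun (σ : Z d → Bool) (x : ↥(bx d m)) => σ x) := by
    funext σ
    exact hg _ _ fun x hx => by simp [hx]
  rw [h]
  exact (measurable_of_finite _).comp (measurable_pi_lambda _ fun x => measurable_pi_apply _)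

theorem ls_congr {d L R : ℕ} {a a' : Z d → Bool}
    (h : ∀ x ∈ bx d (R + (2 * L + 2)), a x = a' x) : ls L R a = ls L R a' := by
  have h0 : ∀ w ∈ bx d R, (iso L a w ↔ iso L a' w) := by
    intro w hw
    unfold iso
    rw [h w (bx_mono (Nat.le_add_right _ _) hw)]
    refine and_congr_right fun _ => forall_congr' fun w' => forall_congr' fun _ =>
      forall_congr' fun hw' => ?_
    have h3 := bx_add hw hw'
    rw [add_sub_cancel] at h3
    rw [h w' h3]
  unfold ls
  congr 2
  ext w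
  simp only [Finset.mem_filter]
  exact and_congr_right (h0 w)

theorem LL_congr {d L R n : ℕ} {a a' : Z d × ℤ → Bool}
    (h : ∀ p ∈ bx d (R + (2 * L + 2)) ×ˢ (Finset.range n).image (fun t : ℕ => (t : ℤ)),
      a p = a' p) : LL L R a n = LL L R a' n := by
  unfold LL
  rw [List.flatMap_def, List.flatMap_def]
  congr 1
  refine List.map_congr_left fun t ht => ?_
  simp only [List.bind_eq_flatMap, List.pure_def, List.mem_flatMap, List.mem_range,
    List.mem_singleton] at ht
  obtain ⟨k, hk, rfl⟩ := ht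
  refine ls_congr fun x hx => h _ ?_
  rw [Finset.mem_product]
  exact ⟨hx, Finset.mem_image.2 ⟨k, Finset.mem_range.2 hk, rfl⟩⟩

theorem LL_meas (d L R n : ℕ) :
    @Measurable (Z d × ℤ → Bool) (List (Finset (Z d))) _ ⊤ (fun a => LL L R a n) := by
  classical
  let _ : MeasurableSpace (List (Finset (Z d))) := ⊤
  have h : (fun a : Z d × ℤ → Bool => LL L R a n) =
      (fun s : ↥(bx d (R + (2 * L + 2)) ×ˢ (Finset.range n).image (fun t : ℕ => (t : ℤ))) → Bool =>
        LL L R (fun p => if h : p ∈ bx d (R + (2 * L + 2)) ×ˢ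
          (Finset.range n).image (fun t : ℕ => (t : ℤ)) then s ⟨p, h⟩ else true) n) ∘
      (fun (a : Z d × ℤ → Bool) (p : ↥(bx d (R + (2 * L + 2)) ×ˢ
        (Finset.range n).image (fun t : ℕ => (t : ℤ)))) => a p) := by
    funext a
    simp only [Function.comp_apply]
    refine LL_congr fun p hp => ?_
    rw [dif_pos hp]
  rw [h]
  exact (measurable_of_finite _).comp (measurable_pi_lambda _ fun x => measurable_pi_apply _)

theorem joint_meas {d : ℕ} (L R n : ℕ) (β : ℝ) {m : ℕ} {g : (Z d → Bool) → ℝ} (hg : Lc m g) :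
    Measurable (Function.uncurry fun (ξ : Z d → Bool) (a : Z d × ℤ → Bool) =>
      Kl β (LL L R a n) g ξ) := by
  let _ : MeasurableSpace (List (Finset (Z d))) := ⊤
  have : DiscreteMeasurableSpace (List (Finset (Z d))) := ⟨fun _ => trivial⟩
  have h1 : Measurable (fun p : (Z d → Bool) × List (Finset (Z d)) => Kl β p.2 g p.1) := by
    refine measurable_from_prod_countable_left fun l => ?_
    obtain ⟨m', h⟩ := Kl_loc β l hg
    exact Lc_meas h
  exact h1.comp (measurable_fst.prodMk ((LL_meas d L R n).comp measurable_snd))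

theorem Kl_int (h2 : S_gibbsK) {d : ℕ} (β : ℝ) (μ : Measure (Z d → Bool))
    [IsProbabilityMeasure μ] (hμ : IsGibbs β μ) (l : List (Finset (Z d))) {m : ℕ}
    {g : (Z d → Bool) → ℝ} (hg : Lc m g) : ∫ ξ, Kl β l g ξ ∂μ = ∫ ξ, g ξ ∂μ := by
  induction l with
  | nil => rfl
  | cons B l ih =>
    obtain ⟨m', h⟩ := Kl_loc β l hg
    exact (h2 d β μ hμ B m' (Kl β l g) h).trans ih

theorem al_sing (d L : ℕ) : MeasurableSingletonClass (Al d L) := inferInstance

theorem win_sing (d L : ℕ) : MeasurableSingletonClass (↥(bx d (3 * L + 3)) → Al d L) :=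
  inferInstance

theorem evo_meas {d L : ℕ} (ξ : Z d → Bool) (n : ℕ) (v : Z d) :
    Measurable fun W : Z d × ℤ → Al d L => evo (rule d L) W ξ 0 n v := by
  induction n generalizing v with
  | zero => exact measurable_const
  | succ n ih =>
    have h : (fun W : Z d × ℤ → Al d L => evo (rule d L) W ξ 0 (n + 1) v) =
        (fun p : (↥(bx d (3 * L + 3)) → Bool) × (↥(bx d (3 * L + 3)) → Al d L) =>
          rule d L p.1 p.2) ∘ (fun W => ((fun u : ↥(bx d (3 * L + 3)) =>
            evo (rule d L) W ξ 0 n (v + u)), fun u : ↥(bx d (3 * L + 3)) =>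
              W (v + u, 0 + (n : ℤ)))) := rfl
    rw [h]
    have := win_sing d L
    have h7 : MeasurableSingletonClass ((↥(bx d (3 * L + 3)) → Bool) ×
        (↥(bx d (3 * L + 3)) → Al d L)) := Prod.instMeasurableSingletonClass
    exact (measurable_of_finite _).comp ((measurable_pi_lambda _ fun u => ih _).prodMk
      (measurable_pi_lambda _ fun u => measurable_pi_apply _))

theorem ber_prob {θ : ℝ} (h0 : 0 ≤ θ) (h1 : θ ≤ 1) : IsProbabilityMeasure (ber θ) := by
  refine ⟨?_⟩
  unfold ber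
  simp only [Measure.coe_add, Measure.coe_smul, Pi.add_apply, Pi.smul_apply, measure_univ,
    smul_eq_mul, mul_one]
  rw [← ENNReal.ofReal_add h0 (by linarith)]
  simp

theorem inv (h1 : S_rep) (h2 : S_gibbsK) (_h3 : S_out) : S_inv := by
  classical
  intro d L β θ ν _ hC hθ0 hθ1 μ _ hμ n Λ η
  obtain ⟨m, hm⟩ := exists_bx Λ
  let g : (Z d → Bool) → ℝ := fun σ => if ∀ v ∈ Λ, σ v = η v then 1 else 0
  have hg : Lc m g := by
    intro σ σ' h
    have h4 : (∀ v ∈ Λ, σ v = η v) ↔ (∀ v ∈ Λ, σ' v = η v) :=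
      forall_congr' fun v => forall_congr' fun hv => by rw [h v (hm v hv)]
    simp only [g, h4]
  have hgb : ∀ σ, |g σ| ≤ 1 := by
    intro σ
    simp only [g]
    split_ifs <;> simp
  have : IsProbabilityMeasure (ber θ) := ber_prob hθ0 hθ1
  have e1 : ∀ ξ, (Measure.infinitePi fun _ : Z d × ℤ => (ber θ).prod ν).real
      {W | ∀ v ∈ Λ, evo (rule d L) W ξ 0 n v = η v} =
      ∫ a, Kl β (LL L (m + (3 * L + 3) * n) a n) g ξ
        ∂(Measure.infinitePi fun _ : Z d × ℤ => ber θ) := by
    intro ξ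
    rw [← h1 d L β θ ν hC hθ0 hθ1 m n _ g hg le_rfl ξ]
    have hmeas : MeasurableSet {W : Z d × ℤ → Al d L |
        ∀ v ∈ Λ, evo (rule d L) W ξ 0 n v = η v} := by
      have h5 : {W : Z d × ℤ → Al d L | ∀ v ∈ Λ, evo (rule d L) W ξ 0 n v = η v} =
          ⋂ v ∈ Λ, (fun W : Z d × ℤ → Al d L => evo (rule d L) W ξ 0 n v) ⁻¹' {η v} := by
        ext W
        simp
      rw [h5]
      exact Finset.measurableSet_biInter _ fun v _ => evo_meas ξ n v (measurableSet_singleton _)
    rw [← integral_indicator_one hmeas]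
    refine integral_congr_ae (ae_of_all _ fun W => ?_)
    simp [g, Set.indicator]
  have e2 : ∫ ξ, g ξ ∂μ = μ.real {x | ∀ v ∈ Λ, x v = η v} := by
    have hmeas : MeasurableSet {x : Z d → Bool | ∀ v ∈ Λ, x v = η v} := by
      have h5 : {x : Z d → Bool | ∀ v ∈ Λ, x v = η v} =
          ⋂ v ∈ Λ, (fun x : Z d → Bool => x v) ⁻¹' {η v} := by
        ext W
        simp
      rw [h5]
      exact Finset.measurableSet_biInter _ fun v _ =>
        measurable_pi_apply v (measurableSet_singleton _)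
    rw [← integral_indicator_one hmeas]
    refine integral_congr_ae (ae_of_all _ fun W => ?_)
    simp [g, Set.indicator]
  rw [← e2]
  simp only [e1]
  rw [integral_integral_swap]
  · have e3 : ∀ a : Z d × ℤ → Bool, ∫ ξ, Kl β (LL L (m + (3 * L + 3) * n) a n) g ξ ∂μ =
        ∫ ξ, g ξ ∂μ := fun a => Kl_int h2 β μ hμ _ hg
    simp only [e3]
    simp
  · refine Integrable.of_bound (joint_meas L _ n β hg).aestronglyMeasurable 1
      (ae_of_all _ fun p => ?_)
    exact Kl_bd β _ hgb _

end Pool.Agent.H260.IS
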