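import Pool.Agent.H960.IS.Stm

/-! # IS/ISING (helper333 for helper960): final assembly for the Ising model -/

set_option autoImplicit false

open MeasureTheory Filter Topology Finset H960FV H960IS

namespace Pool.Agent.H333.IS

theorem ber_prob {θ : ℝ} (h0 : 0 ≤ θ) (h1 : θ ≤ 1) : IsProbabilityMeasure (ber θ) := by
  constructor
  unfold ber
  rw [Measure.add_apply, Measure.smul_apply, Measure.smul_apply, measure_univ, measure_univ,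
    smul_eq_mul, smul_eq_mul, mul_one, mul_one, ← ENNReal.ofReal_add h0 (by linarith)]
  rw [add_sub_cancel, ENNReal.ofReal_one]

theorem scale (d K D : ℕ) (C c : ℝ) (hc : 0 < c) : ∃ n : ℕ,
    (|C| * Real.exp (-c * ((n + 1 : ℕ) : ℝ)) + (1 - 1 / (4 * 5 ^ d)) ^ (n + 1)) * K *
      (((3 * (2 * (n + 1)) + 3 : ℕ) : ℝ) * ((n : ℝ) + 1)) ^ D ≤ 1 := by
  have hq0 : (0 : ℝ) < 1 / (4 * 5 ^ d) := by positivity
  have hq1 : (1 : ℝ) / (4 * 5 ^ d) ≤ 1 := by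
    rw [div_le_one (by positivity)]
    have : (1 : ℝ) ≤ 5 ^ d := one_le_pow₀ (by norm_num)
    linarith
  have hq : |(1 : ℝ) - 1 / (4 * 5 ^ d)| < 1 := by
    rw [abs_lt]
    constructor <;> linarith
  have he : |Real.exp (-c)| < 1 := by
    rw [abs_of_pos (Real.exp_pos _)]
    exact Real.exp_lt_one_iff.2 (by linarith)
  have t1 := tendsto_pow_const_mul_const_pow_of_abs_lt_one (2 * D) hq
  have t2 := tendsto_pow_const_mul_const_pow_of_abs_lt_one (2 * D) he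
  have t3 : Tendsto (fun l : ℕ => (K * 9 ^ D : ℝ) * (|C| * ((l : ℝ) ^ (2 * D) * Real.exp (-c) ^ l) +
      (l : ℝ) ^ (2 * D) * (1 - 1 / (4 * 5 ^ d)) ^ l)) atTop (𝓝 0) := by
    have := ((t2.const_mul |C|).add t1).const_mul ((K * 9 ^ D : ℝ))
    rwa [mul_zero, add_zero, mul_zero] at this
  obtain ⟨l, hl, hl1⟩ := ((t3.eventually_le_const (by norm_num : (0 : ℝ) < 1)).and
    (eventually_ge_atTop 1)).exists
  obtain ⟨n, rfl⟩ : ∃ n, l = n + 1 := ⟨l - 1, by omega⟩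
  refine ⟨n, le_trans ?_ hl⟩
  have e1 : Real.exp (-c * ((n + 1 : ℕ) : ℝ)) = Real.exp (-c) ^ (n + 1) := by
    rw [← Real.exp_nat_mul, mul_comm]
  obtain ⟨x, hx⟩ : ∃ x : ℝ, x = ((n + 1 : ℕ) : ℝ) := ⟨_, rfl⟩
  have hx1 : 1 ≤ x := by
    rw [hx]
    exact_mod_cast Nat.succ_le_succ (Nat.zero_le n)
  have e2 : ((n : ℝ) + 1) = x := by rw [hx]; push_cast; ring
  have e3 : ((3 * (2 * (n + 1)) + 3 : ℕ) : ℝ) = 6 * x + 3 := by rw [hx]; push_cast; ring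
  rw [e1, e2, e3, ← hx]
  have hA : 0 ≤ |C| * Real.exp (-c) ^ (n + 1) + (1 - 1 / (4 * 5 ^ d)) ^ (n + 1) := by
    have h1 : 0 ≤ |C| * Real.exp (-c) ^ (n + 1) :=
      mul_nonneg (abs_nonneg _) (pow_nonneg (Real.exp_pos _).le _)
    have h2 : (0 : ℝ) ≤ (1 - 1 / (4 * 5 ^ d)) ^ (n + 1) := pow_nonneg (by linarith) _
    linarith
  have hP : ((6 * x + 3) * x) ^ D ≤ (9 * x ^ 2) ^ D := by
    refine pow_le_pow_left₀ (by positivity) ?_ D
    nlinarith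
  calc (|C| * Real.exp (-c) ^ (n + 1) + (1 - 1 / (4 * 5 ^ d)) ^ (n + 1)) * K *
        ((6 * x + 3) * x) ^ D
      ≤ (|C| * Real.exp (-c) ^ (n + 1) + (1 - 1 / (4 * 5 ^ d)) ^ (n + 1)) * K *
        (9 * x ^ 2) ^ D := mul_le_mul_of_nonneg_left hP (mul_nonneg hA (Nat.cast_nonneg K))
    _ = _ := by
        rw [mul_pow, ← pow_mul]
        ring

/-- final assembly -/
theorem ising (h1 : S_sharp) (h2 : S_coup) (h3 : S_inv) (h4 : S_tau) (h5 : S_crit) :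
    S_ising := by
  intro d _ β β' hβ hlt hNo μ _ hG
  obtain ⟨K, D, hcr⟩ := h5 d
  obtain ⟨C, c, hc0, hC⟩ := h1 d β β' hβ hlt hNo
  obtain ⟨n, hn⟩ := scale d K D C c hc0
  obtain ⟨ν, hν, hmon, hlaw⟩ := h2 d (2 * (n + 1)) β hβ
  have hCoup : Coup d (2 * (n + 1)) β ν := ⟨hmon, hlaw⟩
  have hden : (1 : ℝ) ≤ (8 * (((n + 1 : ℕ) : ℝ)) + 5) ^ d := by
    refine one_le_pow₀ ?_
    have : (0 : ℝ) ≤ ((n + 1 : ℕ) : ℝ) := Nat.cast_nonneg _
    linarith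
  have hθ0 : (0 : ℝ) ≤ 1 / (8 * (((n + 1 : ℕ) : ℝ)) + 5) ^ d := by positivity
  have hθ1 : (1 : ℝ) / (8 * (((n + 1 : ℕ) : ℝ)) + 5) ^ d ≤ 1 := by
    rw [div_le_one (by linarith)]
    exact hden
  have hber : IsProbabilityMeasure (ber (1 / (8 * (((n + 1 : ℕ) : ℝ)) + 5) ^ d)) :=
    ber_prob hθ0 hθ1
  refine hcr Bool (Al d (2 * (n + 1))) ((ber (1 / (8 * (((n + 1 : ℕ) : ℝ)) + 5) ^ d)).prod ν)
    (bx d (3 * (2 * (n + 1)) + 3)) (bx d (3 * (2 * (n + 1)) + 3)) (rule d (2 * (n + 1))) μ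
    (3 * (2 * (n + 1)) + 3) n (by omega) (Finset.Subset.refl _) (Finset.Subset.refl _)
    (h3 d (2 * (n + 1)) β _ ν hCoup hθ0 hθ1 μ hG) ?_
  have h6 := h4 d (n + 1) β hβ ν hCoup (n + 1)
  have h7 := hC (n + 1)
  have h8 : mag β (bx d (n + 1)) 0 ≤ |C| * Real.exp (-c * ((n + 1 : ℕ) : ℝ)) :=
    h7.trans (mul_le_mul_of_nonneg_right (le_abs_self C) (Real.exp_pos _).le)
  refine le_trans ?_ hn
  refine mul_le_mul_of_nonneg_right (mul_le_mul_of_nonneg_right (h6.trans ?_)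
    (Nat.cast_nonneg K)) (by positivity)
  exact add_le_add h8 le_rfl

end Pool.Agent.H333.IS
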