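import Pool.Agent.H960.IS.Stm

/-!
IS-LINK2: the correlations of the wired graph restricted to `S` are the free correlations of `S`.
-/

set_option autoImplicit false

open MeasureTheory Filter Topology Finset H960FV H960IS

namespace Pool.Agent.H195.IS

/-- summation over the spins outside of an injective image -/
theorem link2_sum {A V : Type} [Fintype A] [Fintype V] [DecidableEq A] [DecidableEq V]
    (φ : A → V) (hφ : Function.Injective φ) :
    ∃ c : ℝ, c ≠ 0 ∧ ∀ H : (A → Bool) → ℝ,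
      ∑ σ : V → Bool, H (fun a => σ (φ a)) = c * ∑ τ : A → Bool, H τ := by
  classical
  refine ⟨(Fintype.card ({v : V // ¬ v ∈ Set.range φ} → Bool) : ℝ), ?_, fun H => ?_⟩
  · have : 0 < Fintype.card ({v : V // ¬ v ∈ Set.range φ} → Bool) := Fintype.card_pos
    exact_mod_cast this.ne'
  · obtain ⟨e, he⟩ : ∃ e : (V → Bool) ≃ ({v : V // v ∈ Set.range φ} → Bool) ×
        ({v : V // ¬ v ∈ Set.range φ} → Bool),
        e = Equiv.piEquivPiSubtypeProd (fun v => v ∈ Set.range φ) (fun _ => Bool) := ⟨_, rfl⟩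
    have h1 : ∑ σ : V → Bool, H (fun a => σ (φ a)) =
        ∑ z : ({v : V // v ∈ Set.range φ} → Bool) × ({v : V // ¬ v ∈ Set.range φ} → Bool),
          H (fun a => z.1 ⟨φ a, Set.mem_range_self a⟩) := by
      refine Fintype.sum_equiv e _ _ fun σ => ?_
      rw [he]
      rfl
    have h2 : ∑ τ : A → Bool, H τ =
        ∑ z : {v : V // v ∈ Set.range φ} → Bool, H (fun a => z ⟨φ a, Set.mem_range_self a⟩) := by
      refine (Fintype.sum_equiv
        ((Equiv.ofInjective φ hφ).arrowCongr (Equiv.refl Bool)) _ _ fun τ => ?_)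
      congr 1
      funext a
      simp only [Equiv.arrowCongr_apply, Function.comp, Equiv.refl_apply]
      congr 1
      exact (Equiv.ofInjective_symm_apply hφ a).symm
    rw [h1, h2, Fintype.sum_prod_type]
    simp only [Finset.sum_const, Finset.card_univ, nsmul_eq_mul]
    rw [Finset.mul_sum]

theorem link2_sp (b : Bool) : sp b * sp b = 1 := by
  cases b <;> simp [sp]

theorem link2_prod {V : Type} [DecidableEq V] (σ : V → Bool) (a b : V) :
    ∏ v ∈ symmDiff ({a} : Finset V) {b}, sp (σ v) = sp (σ a) * sp (σ b) := by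
  by_cases h : a = b
  · subst h
    rw [symmDiff_self, link2_sp]
    exact Finset.prod_empty
  · have : symmDiff ({a} : Finset V) {b} = {a, b} := by
      ext v
      simp only [Finset.mem_symmDiff, Finset.mem_singleton, Finset.mem_insert]
      constructor
      · rintro (⟨h1, _⟩ | ⟨h1, _⟩)
        · exact Or.inl h1
        · exact Or.inr h1
      · rintro (rfl | rfl)
        · exact Or.inl ⟨rfl, h⟩
        · exact Or.inr ⟨rfl, fun h2 => h h2.symm⟩
    rw [this, Finset.prod_pair h]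

variable {d : ℕ}

theorem link2_mem {Λ S : Finset (Z d)} (hS : S ⊆ Λ) (w : Z d) :
    vL Λ w ∈ S.image (vL Λ) ↔ w ∈ S := by
  rw [Finset.mem_image]
  constructor
  · rintro ⟨z, hz, h⟩
    have hz' : z ∈ Λ := hS hz
    unfold vL at h
    rw [dif_pos hz'] at h
    by_cases hw : w ∈ Λ
    · rw [dif_pos hw] at h
      have h2 := congrArg Subtype.val (Option.some_injective _ h)
      have h3 : z = w := h2
      rw [← h3]
      exact hz
    · rw [dif_neg hw] at h
      exact absurd h (by simp)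
  · intro h
    exact ⟨w, h, rfl⟩

theorem link2_gl {Λ S : Finset (Z d)} (hS : S ⊆ Λ) (σ : Option ↥Λ → Bool) {w : Z d} (hw : w ∈ S) :
    gl S (fun s : ↥S => σ (some ⟨s.1, hS s.2⟩)) (fun _ => true) w = σ (vL Λ w) := by
  unfold gl vL
  rw [dif_pos hw, dif_pos (hS hw)]

theorem link2_ein {S : Finset (Z d)} (e : Z d × Fin d) :
    e ∈ Ein S ↔ e.1 ∈ S ∧ e.1 + un e.2 ∈ S := by
  rw [Ein, Finset.mem_filter, Finset.mem_product]
  constructor
  · rintro ⟨⟨h1, _⟩, h2⟩
    exact ⟨h1, h2⟩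
  · rintro ⟨h1, h2⟩
    exact ⟨⟨h1, Finset.mem_univ _⟩, h2⟩

theorem link2_ed {Λ S : Finset (Z d)} (hS : S ⊆ Λ) : Ein S ⊆ Ed Λ := by
  intro e he
  rw [link2_ein] at he
  rw [Ed]
  exact Finset.mem_union_left _ (Finset.mem_product.2 ⟨hS he.1, Finset.mem_univ _⟩)

theorem link2_exp {Λ S : Finset (Z d)} (hS : S ⊆ Λ) (β : ℝ) (σ : Option ↥Λ → Bool) :
    ∑ e, res (fun _ => β) (ins (pL Λ) (qL Λ) (S.image (vL Λ))) e *
        (sp (σ (pL Λ e)) * sp (σ (qL Λ e))) =
      β * ∑ e ∈ Ein S, sp (gl S (fun s : ↥S => σ (some ⟨s.1, hS s.2⟩)) (fun _ => true) e.1) *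
        sp (gl S (fun s : ↥S => σ (some ⟨s.1, hS s.2⟩)) (fun _ => true) (e.1 + un e.2)) := by
  classical
  obtain ⟨f, hf⟩ : ∃ f : Z d × Fin d → ℝ, f = fun e => if e ∈ Ein S then
    β * (sp (gl S (fun s : ↥S => σ (some ⟨s.1, hS s.2⟩)) (fun _ => true) e.1) *
        sp (gl S (fun s : ↥S => σ (some ⟨s.1, hS s.2⟩)) (fun _ => true) (e.1 + un e.2))) else 0 :=
    ⟨_, rfl⟩
  have h1 : ∀ e : ↥(Ed Λ), res (fun _ => β) (ins (pL Λ) (qL Λ) (S.image (vL Λ))) e *
        (sp (σ (pL Λ e)) * sp (σ (qL Λ e))) = f e.1 := by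
    intro e
    have hp : pL Λ e = vL Λ e.1.1 := rfl
    have hq : qL Λ e = vL Λ (e.1.1 + un e.1.2) := rfl
    have hi : e ∈ ins (pL Λ) (qL Λ) (S.image (vL Λ)) ↔ e.1 ∈ Ein S := by
      rw [ins, Finset.mem_filter, hp, hq, link2_mem hS, link2_mem hS, link2_ein]
      exact ⟨fun h => h.2, fun h => ⟨Finset.mem_univ _, h⟩⟩
    rw [hf, res]
    by_cases h : e.1 ∈ Ein S
    · have h' := (link2_ein _).1 h
      simp only [if_pos h, if_pos (hi.2 h)]
      rw [link2_gl hS σ h'.1, link2_gl hS σ h'.2, hp, hq]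
    · simp only [if_neg h, if_neg (fun h2 => h (hi.1 h2))]
      rw [zero_mul]
  rw [Finset.sum_congr rfl fun e _ => h1 e]
  have h2 : ∑ e : ↥(Ed Λ), f e.1 = ∑ e ∈ Ed Λ, f e := Finset.sum_coe_sort (Ed Λ) f
  rw [h2, ← Finset.sum_subset (link2_ed hS) fun e _ he => by rw [hf]; exact if_neg he,
    Finset.mul_sum]
  refine Finset.sum_congr rfl fun e he => ?_
  rw [hf]
  exact if_pos he

theorem link2 : S_link2 := by
  intro d β Λ S hS x hx y hy
  obtain ⟨c, hc, hsum⟩ := link2_sum (A := ↥S) (V := Option ↥Λ)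
    (fun s => some ⟨s.1, hS s.2⟩) (by
      intro s t h
      have h2 := congrArg Subtype.val (Option.some_injective _ h)
      exact Subtype.ext h2)
  have hN : Zs (pL Λ) (qL Λ) (res (fun _ => β) (ins (pL Λ) (qL Λ) (S.image (vL Λ))))
      (symmDiff {vL Λ x} {vL Λ y}) = c * ∑ τ : ↥S → Bool,
        sp (gl S τ (fun _ => true) x) * sp (gl S τ (fun _ => true) y) *
          Real.exp (β * ∑ e ∈ Ein S, sp (gl S τ (fun _ => true) e.1) *
            sp (gl S τ (fun _ => true) (e.1 + un e.2))) := by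
    rw [← hsum, Zs]
    refine Finset.sum_congr rfl fun σ _ => ?_
    rw [link2_prod, link2_exp hS β σ, link2_gl hS σ hx, link2_gl hS σ hy]
  have hD : Zs (pL Λ) (qL Λ) (res (fun _ => β) (ins (pL Λ) (qL Λ) (S.image (vL Λ))))
      ∅ = c * ∑ τ : ↥S → Bool,
          Real.exp (β * ∑ e ∈ Ein S, sp (gl S τ (fun _ => true) e.1) *
            sp (gl S τ (fun _ => true) (e.1 + un e.2))) := by
    rw [← hsum, Zs]
    refine Finset.sum_congr rfl fun σ _ => ?_
    rw [Finset.prod_empty, one_mul, link2_exp hS β σ]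
  rw [corS, cor, hN, hD, fre, mul_div_mul_left _ _ hc]

end Pool.Agent.H195.IS
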