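import Pool.Agent.H960.IS.Stm

/-!
# Project IS (helper960): the magnetisation decreases in the volume
-/

set_option autoImplicit false

open MeasureTheory Filter Topology Finset H960FV H960IS

namespace Pool.Agent.H155.IS

theorem Zn_pos {d : ℕ} (β : ℝ) (Λ : Finset (Z d)) (η : Z d → Bool) : 0 < Zn β Λ η := by
  unfold Zn
  exact Finset.sum_pos (fun τ _ => Real.exp_pos _) Finset.univ_nonempty

theorem Kop_le {d : ℕ} (β : ℝ) (Λ : Finset (Z d)) (f : (Z d → Bool) → ℝ) (M : ℝ)
    (h : ∀ σ, f σ ≤ M) (η : Z d → Bool) : Kop β Λ f η ≤ M := by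
  unfold Kop
  rw [div_le_iff₀ (Zn_pos β Λ η)]
  unfold Zn
  rw [Finset.mul_sum]
  refine Finset.sum_le_sum fun τ _ => ?_
  rw [mul_comm M]
  exact mul_le_mul_of_nonneg_left (h _) (Real.exp_pos _).le

theorem sp_mono {a b : Bool} (h : a ≤ b) : sp a ≤ sp b := by
  cases a
  · cases b
    · exact le_rfl
    · show (if false = true then (1 : ℝ) else -1) ≤ if true = true then (1 : ℝ) else -1
      norm_num
  · cases b
    · exact absurd h (by decide)
    · exact le_rfl

theorem magmono (h1 : S_mono) (h2 : S_tower) : S_magmono := by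
  intro d β Λ Δ y hβ hΛ
  have hg : Monotone (fun σ : Z d → Bool => sp (σ y)) := fun σ σ' h => sp_mono (h y)
  have hm := h1 d β Λ _ hβ hg
  have ht := h2 d β Λ Δ (fun σ : Z d → Bool => sp (σ y)) hΛ
  unfold mag
  rw [← ht]
  refine Kop_le β Δ _ _ (fun σ => ?_) _
  refine hm ?_
  intro x
  exact Bool.le_true _

end Pool.Agent.H155.IS
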