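import Pool.Agent.H960.IS.Stm

/-!
Project IS (helper960): translation invariance of the magnetisation
-/

open MeasureTheory Filter Topology Finset H960FV H960IS

namespace Pool.Agent.H412.IS

variable {d : ℕ}

theorem mem_sh (Λ : Finset (Z d)) (w x : Z d) : x + w ∈ Λ.image (fun x => x + w) ↔ x ∈ Λ := by
  rw [Finset.mem_image]
  constructor
  · rintro ⟨y, hy, h⟩
    have : y = x := add_right_cancel h
    rwa [← this]
  · intro h
    exact ⟨x, h, rfl⟩

theorem Ed_sh (Λ : Finset (Z d)) (w : Z d) :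
    Ed (Λ.image (fun x => x + w)) = (Ed Λ).image (fun e => (e.1 + w, e.2)) := by
  ext ⟨x, i⟩
  unfold Ed
  simp only [Finset.mem_union, Finset.mem_product, Finset.mem_image, Finset.mem_univ, and_true,
    Prod.exists, Prod.mk.injEq]
  constructor
  · rintro (⟨y, hy, rfl⟩ | ⟨z, j, ⟨y, hy, rfl⟩, h1, rfl⟩)
    · exact ⟨y, i, Or.inl hy, rfl, rfl⟩
    · refine ⟨y - un j, j, Or.inr ⟨y, j, hy, rfl, rfl⟩, ?_, rfl⟩
      rw [← h1]
      abel
  · rintro ⟨y, j, (hy | ⟨z, k, hz, h1, rfl⟩), h2, rfl⟩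
    · exact Or.inl ⟨y, hy, h2⟩
    · refine Or.inr ⟨z + w, k, ⟨z, hz, rfl⟩, ?_, rfl⟩
      rw [← h2, ← h1]
      abel

theorem En_sh (Λ : Finset (Z d)) (w : Z d) (σ : Z d → Bool) :
    En (Λ.image (fun x => x + w)) σ = En Λ (fun x => σ (x + w)) := by
  unfold En
  rw [Ed_sh, Finset.sum_image]
  · refine Finset.sum_congr rfl (fun e _ => ?_)
    have : e.1 + w + un e.2 = e.1 + un e.2 + w := by abel
    simp only
    rw [this]
  · intro a _ b _ h
    have h' : (a.1 + w, a.2) = (b.1 + w, b.2) := h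
    rw [Prod.mk.injEq] at h'
    exact Prod.ext (add_right_cancel h'.1) h'.2

/-- the translation of the sites -/
def eqv (Λ : Finset (Z d)) (w : Z d) : ↥Λ ≃ ↥(Λ.image (fun x => x + w)) where
  toFun x := ⟨x.1 + w, (mem_sh Λ w x.1).2 x.2⟩
  invFun x := ⟨x.1 - w, by
    have h := x.2
    rw [Finset.mem_image] at h
    obtain ⟨y, hy, h⟩ := h
    rw [← h, add_sub_cancel_right]
    exact hy⟩
  left_inv x := by
    apply Subtype.ext
    simp
  right_inv x := by
    apply Subtype.ext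
    simp

theorem gl_sh (Λ : Finset (Z d)) (w : Z d) (τ : ↥(Λ.image (fun x => x + w)) → Bool) :
    (fun x => gl (Λ.image (fun x => x + w)) τ (fun _ => true) (x + w)) =
      gl Λ (fun x => τ (eqv Λ w x)) (fun _ => true) := by
  funext x
  unfold gl
  by_cases h : x ∈ Λ
  · rw [dif_pos ((mem_sh Λ w x).2 h), dif_pos h]
    rfl
  · rw [dif_neg (fun h2 => h ((mem_sh Λ w x).1 h2)), dif_neg h]

theorem sum_sh (Λ : Finset (Z d)) (w : Z d) (F : (↥Λ → Bool) → ℝ) :
    ∑ τ : ↥(Λ.image (fun x => x + w)) → Bool, F (fun x => τ (eqv Λ w x)) =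
      ∑ τ : ↥Λ → Bool, F τ := by
  refine Fintype.sum_equiv ((eqv Λ w).arrowCongr (Equiv.refl Bool)).symm _ _ (fun τ => ?_)
  congr 1

theorem magtrans : S_magtrans := by
  intro d β Λ w y
  unfold mag Kop Zn
  have h1 : ∀ τ : ↥(Λ.image (fun x => x + w)) → Bool,
      En (Λ.image (fun x => x + w)) (gl (Λ.image (fun x => x + w)) τ (fun _ => true)) =
        En Λ (gl Λ (fun x => τ (eqv Λ w x)) (fun _ => true)) := by
    intro τ
    rw [En_sh, gl_sh]
  have h2 : ∀ τ : ↥(Λ.image (fun x => x + w)) → Bool,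
      gl (Λ.image (fun x => x + w)) τ (fun _ => true) (y + w) =
        gl Λ (fun x => τ (eqv Λ w x)) (fun _ => true) y := by
    intro τ
    exact congrFun (gl_sh Λ w τ) y
  congr 1
  · rw [← sum_sh Λ w (fun τ => Real.exp (β * En Λ (gl Λ τ fun _ => true)) *
      sp (gl Λ τ (fun _ => true) y))]
    refine Finset.sum_congr rfl (fun τ _ => ?_)
    simp only
    rw [h1, h2]
  · rw [← sum_sh Λ w (fun τ => Real.exp (β * En Λ (gl Λ τ fun _ => true)))]
    refine Finset.sum_congr rfl (fun τ _ => ?_)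
    rw [h1]

end Pool.Agent.H412.IS
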