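import Pool.Agent.H960.IS.Stm

open Finset H960FV H960IS

namespace Pool.Agent.H960.ISM

variable {d : ℕ}

theorem sp_mono : Monotone sp := by
  intro a b h
  cases a <;> cases b
  · simp [sp]
  · norm_num [sp]
  · exact absurd h (by decide)
  · simp [sp]

theorem gl_in (Λ : Finset (Z d)) (τ : ↥Λ → Bool) (η : Z d → Bool) {x : Z d} (h : x ∈ Λ) :
    gl Λ τ η x = τ ⟨x, h⟩ := by simp [gl, h]

theorem gl_out (Λ : Finset (Z d)) (τ : ↥Λ → Bool) (η : Z d → Bool) {x : Z d} (h : x ∉ Λ) :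
    gl Λ τ η x = η x := by simp [gl, h]

theorem Zn_pos (β : ℝ) (Λ : Finset (Z d)) (η : Z d → Bool) : 0 < Zn β Λ η := by
  unfold Zn
  exact Finset.sum_pos (fun _ _ => Real.exp_pos _) univ_nonempty

theorem gl_mono (Λ : Finset (Z d)) {τ τ' : ↥Λ → Bool} {η η' : Z d → Bool} (h : τ ≤ τ')
    (h' : η ≤ η') : gl Λ τ η ≤ gl Λ τ' η' := by
  intro x
  by_cases hx : x ∈ Λ
  · rw [gl_in _ _ _ hx, gl_in _ _ _ hx]; exact h _
  · rw [gl_out _ _ _ hx, gl_out _ _ _ hx]; exact h' _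

theorem bond_mono (Λ : Finset (Z d)) {τ τ' : ↥Λ → Bool} {η η' : Z d → Bool} (h : τ ≤ τ')
    (h' : η ≤ η') (x y : Z d) :
    sp (gl Λ τ η' x) * sp (gl Λ τ η' y) - sp (gl Λ τ η x) * sp (gl Λ τ η y) ≤
    sp (gl Λ τ' η' x) * sp (gl Λ τ' η' y) - sp (gl Λ τ' η x) * sp (gl Λ τ' η y) := by
  by_cases hx : x ∈ Λ <;> by_cases hy : y ∈ Λ
  · simp only [gl_in _ _ _ hx, gl_in _ _ _ hy]; linarith
  · simp only [gl_in _ _ _ hx, gl_out _ _ _ hy]
    have h1 := sp_mono (h ⟨x, hx⟩)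
    have h2 := sp_mono (h' y)
    nlinarith
  · simp only [gl_out _ _ _ hx, gl_in _ _ _ hy]
    have h1 := sp_mono (h ⟨y, hy⟩)
    have h2 := sp_mono (h' x)
    nlinarith
  · simp only [gl_out _ _ _ hx, gl_out _ _ _ hy]; linarith

theorem mono (hf : S_fkg) : S_mono := by
  intro d β Λ g hβ hg η η' hη
  set r : (Z d → Bool) → ↥Λ → Bool := fun σ x => σ x with hr
  have rgl : ∀ (τ : ↥Λ → Bool) (ζ : Z d → Bool), r (gl Λ τ ζ) = τ := by
    intro τ ζ; funext x; simp [hr, gl]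
  set H : (Z d → Bool) → ℝ := fun σ =>
    Real.exp (β * (En Λ (gl Λ (r σ) η') - En Λ (gl Λ (r σ) η))) with hH
  set g' : (Z d → Bool) → ℝ := fun σ => g (gl Λ (r σ) η') with hg'
  have rm : ∀ σ σ' : Z d → Bool, σ ≤ σ' → r σ ≤ r σ' := fun σ σ' h x => h x
  have Hm : Monotone H := by
    intro σ σ' h
    simp only [hH]
    apply Real.exp_le_exp.2
    apply mul_le_mul_of_nonneg_left _ hβ
    unfold En
    rw [← Finset.sum_sub_distrib, ← Finset.sum_sub_distrib]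
    exact Finset.sum_le_sum fun e _ => bond_mono Λ (rm _ _ h) hη _ _
  have gm : Monotone g' := fun σ σ' h => hg (gl_mono Λ (rm _ _ h) le_rfl)
  have key := hf d β Λ η H g' hβ Hm gm
  have e1 : Kop β Λ H η = Zn β Λ η' / Zn β Λ η := by
    unfold Kop
    congr 1
    unfold Zn
    refine Finset.sum_congr rfl fun τ _ => ?_
    simp only [hH, rgl]
    rw [← Real.exp_add]
    congr 1; ring
  have e2 : Kop β Λ (fun σ => H σ * g' σ) η = (Kop β Λ g η' * Zn β Λ η') / Zn β Λ η := by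
    unfold Kop
    congr 1
    rw [div_mul_cancel₀ _ (Zn_pos β Λ η').ne']
    refine Finset.sum_congr rfl fun τ _ => ?_
    simp only [hH, hg', rgl]
    rw [← mul_assoc, ← Real.exp_add]
    congr 2; ring
  have e3 : Kop β Λ g η ≤ Kop β Λ g' η := by
    unfold Kop
    apply div_le_div_of_nonneg_right _ (Zn_pos β Λ η).le
    refine Finset.sum_le_sum fun τ _ => mul_le_mul_of_nonneg_left ?_ (Real.exp_pos _).le
    simp only [hg', rgl]
    exact hg (gl_mono Λ le_rfl hη)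
  rw [e1, e2] at key
  have z1 := Zn_pos β Λ η
  have z2 := Zn_pos β Λ η'
  rw [div_mul_eq_mul_div, div_le_div_iff_of_pos_right z1] at key
  have : Kop β Λ g' η ≤ Kop β Λ g η' := by
    by_contra hc
    push Not at hc
    nlinarith
  exact e3.trans this

end Pool.Agent.H960.ISM
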