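import Pool.Agent.H960.IS.Stm

/-!
Project IS: parity and connection in finite graphs
-/

open Finset H960FV H960IS

namespace Pool.Agent.H632.IS

set_option linter.unusedSectionVars false

section

variable {V E : Type} [Fintype V] [DecidableEq V] [Fintype E] [DecidableEq E]

theorem card_sd {α : Type} [DecidableEq α] (s t : Finset α) :
    (symmDiff s t).card + 2 * (s ∩ t).card = s.card + t.card := by
  have h1 : (symmDiff s t).card = (s \ t).card + (t \ s).card := by
    rw [symmDiff_def, Finset.sup_eq_union, Finset.card_union_of_disjoint]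
    exact disjoint_sdiff_sdiff
  have h2 := Finset.card_sdiff_add_card_inter s t
  have h3 := Finset.card_sdiff_add_card_inter t s
  rw [Finset.inter_comm t s] at h3
  omega

theorem filter_sd {α : Type} [DecidableEq α] (s t : Finset α) (P : α → Prop) [DecidablePred P] :
    (symmDiff s t).filter P = symmDiff (s.filter P) (t.filter P) := by
  ext x
  simp only [Finset.mem_filter, Finset.mem_symmDiff]
  tauto

theorem mem_bdr (p q : E → V) (a : Finset E) (v : V) : v ∈ bdr p q a ↔
    Odd ((a.filter fun e => p e = v).card + (a.filter fun e => q e = v).card) := by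
  unfold bdr
  simp

theorem bdr_sd (p q : E → V) (a b : Finset E) :
    bdr p q (symmDiff a b) = symmDiff (bdr p q a) (bdr p q b) := by
  ext v
  rw [Finset.mem_symmDiff, mem_bdr, mem_bdr, mem_bdr, filter_sd, filter_sd]
  have h1 := card_sd (a.filter fun e => p e = v) (b.filter fun e => p e = v)
  have h2 := card_sd (a.filter fun e => q e = v) (b.filter fun e => q e = v)
  simp only [Nat.odd_iff]
  omega

theorem bdr_single (p q : E → V) (e : E) :
    bdr p q {e} = symmDiff ({p e} : Finset V) {q e} := by
  ext v
  rw [Finset.mem_symmDiff, mem_bdr, Finset.filter_singleton, Finset.filter_singleton,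
    Finset.mem_singleton, Finset.mem_singleton]
  by_cases h1 : p e = v <;> by_cases h2 : q e = v
  · simp [h1, h2]
  · simp [h1, h2, Ne.symm h2]
  · simp [h1, h2, Ne.symm h1]
  · simp [h1, h2, Ne.symm h1, Ne.symm h2]

theorem bdr_empty (p q : E → V) : bdr p q (∅ : Finset E) = ∅ := by
  ext v
  rw [mem_bdr]
  simp

theorem fib (f : E → V) (c : Finset E) (D : Finset V) :
    ∑ v ∈ D, (c.filter fun e => f e = v).card = (c.filter fun e => f e ∈ D).card := by
  rw [Finset.card_eq_sum_card_fiberwise (f := f) (s := c.filter fun e => f e ∈ D) (t := D)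
    (fun e he => (Finset.mem_filter.1 (Finset.mem_coe.1 he)).2)]
  refine Finset.sum_congr rfl fun v hv => ?_
  congr 1
  ext e
  simp only [Finset.mem_filter]
  constructor
  · rintro ⟨h1, h2⟩
    exact ⟨⟨h1, by rw [h2]; exact hv⟩, h2⟩
  · rintro ⟨⟨h1, _⟩, h2⟩
    exact ⟨h1, h2⟩

theorem con_symm (p q : E → V) (w : Finset E) (u v : V) (h : con p q w u v) : con p q w v u := by
  unfold con at h ⊢
  induction h with
  | refl => exact Relation.ReflTransGen.refl
  | tail _ hxy ih =>
    obtain ⟨e, he, h | h⟩ := hxy
    · exact Relation.ReflTransGen.head ⟨e, he, Or.inr h⟩ ih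
    · exact Relation.ReflTransGen.head ⟨e, he, Or.inl h⟩ ih

theorem even_part (p q : E → V) (w c : Finset E) (D : Finset V) (hc : c ⊆ w)
    (hD : ∀ u v, con p q w u v → (u ∈ D ↔ v ∈ D)) : Even ((bdr p q c) ∩ D).card := by
  have h1 : (bdr p q c) ∩ D = D.filter fun v =>
      Odd ((c.filter fun e => p e = v).card + (c.filter fun e => q e = v).card) := by
    ext v
    rw [Finset.mem_inter, mem_bdr, Finset.mem_filter, and_comm]
  rw [h1, ← Finset.even_sum_iff_even_card_odd, Finset.sum_add_distrib, fib, fib]
  have h2 : (c.filter fun e => p e ∈ D) = c.filter fun e => q e ∈ D := by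
    apply Finset.filter_congr
    intro e he
    exact hD _ _ (Relation.ReflTransGen.single ⟨e, hc he, Or.inl ⟨rfl, rfl⟩⟩)
  rw [h2]
  exact ⟨_, rfl⟩

end

theorem par : S_par := by
  classical
  intro V E _ _ _ _ p q w
  refine ⟨fun u v => ⟨?_, ?_⟩, fun c D hc hD => even_part p q w c D hc hD⟩
  · rintro ⟨c, hc, hb⟩
    by_contra hcon
    have hE := even_part p q w c (univ.filter fun x => con p q w u x) hc (by
      intro x y hxy
      simp only [Finset.mem_filter, Finset.mem_univ, true_and]
      exact ⟨fun h => h.trans hxy, fun h => h.trans (con_symm p q w x y hxy)⟩)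
    have hne : u ≠ v := by
      rintro rfl
      exact hcon Relation.ReflTransGen.refl
    have h1 : bdr p q c ∩ (univ.filter fun x => con p q w u x) = {u} := by
      rw [hb]
      ext x
      simp only [Finset.mem_inter, Finset.mem_symmDiff, Finset.mem_singleton, Finset.mem_filter,
        Finset.mem_univ, true_and]
      constructor
      · rintro ⟨⟨h, _⟩ | ⟨h, _⟩, h2⟩
        · exact h
        · rw [h] at h2
          exact absurd h2 hcon
      · rintro rfl
        exact ⟨Or.inl ⟨rfl, hne⟩, Relation.ReflTransGen.refl⟩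
    rw [h1, Finset.card_singleton] at hE
    exact absurd hE (by decide)
  · intro h
    induction h with
    | refl => exact ⟨∅, Finset.empty_subset _, by rw [bdr_empty, symmDiff_self]; rfl⟩
    | @tail x y _ hxy ih =>
      obtain ⟨c, hc, hb⟩ := ih
      obtain ⟨e, he, hpq⟩ := hxy
      have h1 : symmDiff ({p e} : Finset V) {q e} = symmDiff {x} {y} := by
        rcases hpq with ⟨h, h'⟩ | ⟨h, h'⟩
        · rw [h, h']
        · rw [h, h', symmDiff_comm]
      refine ⟨symmDiff c {e}, ?_, ?_⟩
      · intro z hz
        rw [Finset.mem_symmDiff, Finset.mem_singleton] at hz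
        rcases hz with ⟨h, _⟩ | ⟨h, _⟩
        · exact hc h
        · rw [h]; exact he
      · rw [bdr_sd, bdr_single, hb, h1, symmDiff_assoc, symmDiff_symmDiff_cancel_left]

end Pool.Agent.H632.IS
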