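import Pool.Agent.H960.IS.Stm

/-!
# The total weight of the clusters
-/

set_option autoImplicit false

namespace Pool.Agent.H903.IS

open Finset H960FV H960IS

section

variable {V E : Type} [Fintype V] [DecidableEq V] [Fintype E] [DecidableEq E]

theorem W2_nonneg (K : E → ℝ) (hK : ∀ e, 0 ≤ K e) (E' a b w : Finset E) :
    0 ≤ W2 K E' a b w := by
  unfold W2
  refine Finset.prod_nonneg fun e _ => ?_
  have h1 : 0 ≤ Real.sinh (K e) := Real.sinh_nonneg_iff.2 (hK e)
  have h2 : 0 ≤ Real.cosh (K e) := (Real.cosh_pos _).le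
  split_ifs <;> positivity

theorem wt_nonneg (K : E → ℝ) (hK : ∀ e, 0 ≤ K e) (a : Finset E) : 0 ≤ wt K a := by
  unfold wt
  refine Finset.prod_nonneg fun e _ => ?_
  have h1 : 0 ≤ Real.sinh (K e) := Real.sinh_nonneg_iff.2 (hK e)
  have h2 : 0 ≤ Real.cosh (K e) := (Real.cosh_pos _).le
  split_ifs <;> assumption

theorem Y_pos (p q : E → V) (K : E → ℝ) (hK : ∀ e, 0 ≤ K e) : 0 < Y p q K ∅ := by
  unfold Y
  refine Finset.sum_pos' (fun a _ => wt_nonneg K hK a) ⟨∅, ?_, ?_⟩
  · rw [Finset.mem_filter]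
    refine ⟨Finset.mem_univ _, ?_⟩
    unfold bdr
    rw [Finset.filter_eq_empty_iff]
    intro v _
    simp
  · unfold wt
    refine Finset.prod_pos fun e _ => ?_
    rw [if_neg (Finset.notMem_empty e)]
    exact Real.cosh_pos _

theorem ind_nonneg (P : Prop) : 0 ≤ ind P := by
  unfold ind
  split_ifs <;> norm_num

theorem ind_pos {P : Prop} (h : P) : ind P = 1 := if_pos h

theorem ind_neg {P : Prop} (h : ¬ P) : ind P = 0 := if_neg h

theorem DD_nonneg (p q : E → V) (K : E → ℝ) (hK : ∀ e, 0 ≤ K e) (E' : Finset E)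
    (A B : Finset V) (F : Finset E → ℝ) (hF : ∀ w, 0 ≤ F w) : 0 ≤ DD p q K E' A B F := by
  unfold DD
  exact Finset.sum_nonneg fun a _ => Finset.sum_nonneg fun b _ => Finset.sum_nonneg fun w _ =>
    mul_nonneg (W2_nonneg K hK _ _ _ _) (hF w)

theorem DD_sum (p q : E → V) (K : E → ℝ) (E' : Finset E) (A B : Finset V) {ι : Type}
    (s : Finset ι) (F : ι → Finset E → ℝ) :
    ∑ i ∈ s, DD p q K E' A B (F i) = DD p q K E' A B (fun w => ∑ i ∈ s, F i w) := by
  unfold DD
  rw [Finset.sum_comm]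
  refine Finset.sum_congr rfl fun a _ => ?_
  rw [Finset.sum_comm]
  refine Finset.sum_congr rfl fun b _ => ?_
  rw [Finset.sum_comm]
  refine Finset.sum_congr rfl fun w _ => ?_
  rw [Finset.mul_sum]

theorem DD_sub (p q : E → V) (K : E → ℝ) (E' : Finset E) (A B : Finset V)
    (F G : Finset E → ℝ) :
    DD p q K E' A B (fun w => F w - G w) = DD p q K E' A B F - DD p q K E' A B G := by
  unfold DD
  rw [← Finset.sum_sub_distrib]
  refine Finset.sum_congr rfl fun a _ => ?_
  rw [← Finset.sum_sub_distrib]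
  refine Finset.sum_congr rfl fun b _ => ?_
  rw [← Finset.sum_sub_distrib]
  refine Finset.sum_congr rfl fun w _ => ?_
  rw [mul_sub]

/-- exactly one set is the set of the vertices not connected to `g` -/
theorem sum_ind (p q : E → V) (w : Finset E) (o g : V) :
    ∑ S ∈ univ.filter (fun S : Finset V => o ∈ S ∧ g ∉ S),
      ind (∀ v, v ∈ S ↔ ¬ con p q w v g) = 1 - ind (con p q w o g) := by
  classical
  by_cases h : con p q w o g
  · rw [ind_pos h, sub_self]
    refine Finset.sum_eq_zero fun S hS => ind_neg fun h1 => ?_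
    exact (h1 o).1 (Finset.mem_filter.1 hS).2.1 h
  · rw [ind_neg h, sub_zero]
    obtain ⟨S0, hS0⟩ : ∃ S0 : Finset V, S0 = univ.filter fun v => ¬ con p q w v g := ⟨_, rfl⟩
    have hmem : ∀ v, v ∈ S0 ↔ ¬ con p q w v g := by
      intro v
      rw [hS0, Finset.mem_filter]
      exact ⟨fun h => h.2, fun h => ⟨Finset.mem_univ _, h⟩⟩
    rw [Finset.sum_eq_single S0]
    · exact ind_pos hmem
    · intro S _ hS
      refine ind_neg fun h1 => hS ?_
      ext v
      rw [h1 v, hmem v]
    · intro h2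
      exfalso
      apply h2
      rw [Finset.mem_filter]
      refine ⟨Finset.mem_univ _, (hmem o).2 h, fun h3 => (hmem g).1 h3 ?_⟩
      exact Relation.ReflTransGen.refl

theorem res_univ (K : E → ℝ) : res K univ = K := by
  funext e
  unfold res
  rw [if_pos (Finset.mem_univ e)]

end

theorem PSum (h1 : S_ht) (h2 : S_dd1) (h3 : S_switch) (h4 : S_par) : S_PS := by
  intro V E _ _ _ _ p q K hK o g
  have hY := Y_pos p q K hK
  refine ⟨fun S => ?_, ?_⟩
  · unfold PS
    exact div_nonneg (DD_nonneg p q K hK _ _ _ _ fun w => ind_nonneg _) (sq_nonneg _)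
  · unfold PS
    rw [← Finset.sum_div, DD_sum]
    have e1 : (fun w : Finset E => ∑ S ∈ univ.filter (fun S : Finset V => o ∈ S ∧ g ∉ S),
        ind (∀ v, v ∈ S ↔ ¬ con p q w v g)) =
        fun w => (fun _ : Finset E => (1 : ℝ)) w - (fun w => ind (con p q w o g)) w :=
      funext fun w => sum_ind p q w o g
    rw [e1, DD_sub]
    have e2 : DD p q K univ ∅ ∅ (fun _ => 1) = Y p q K ∅ ^ 2 := by
      rw [h2 V E p q K univ ∅ ∅, res_univ, sq]
    have e3 : DD p q K univ (symmDiff {o} {g}) (symmDiff {o} {g}) (fun _ => 1) =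
        Y p q K (symmDiff {o} {g}) ^ 2 := by
      rw [h2 V E p q K univ _ _, res_univ, sq]
    have e4 := h3 V E p q K univ (symmDiff {o} {g}) (symmDiff {o} {g}) (fun _ => 1)
    have e5 : symmDiff (symmDiff ({o} : Finset V) {g}) (symmDiff {o} {g}) = ∅ := symmDiff_self _
    have e6 : (fun w : Finset E => ind (∃ c ⊆ w, bdr p q c = symmDiff {o} {g}) * (1 : ℝ)) =
        fun w => ind (con p q w o g) := by
      funext w
      rw [mul_one]
      exact congrArg ind (propext ((h4 V E p q w).1 o g))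
    rw [e5, e6, e3] at e4
    rw [e2, ← e4]
    have e7 : cor p q K (symmDiff {o} {g}) = Y p q K (symmDiff {o} {g}) / Y p q K ∅ := by
      unfold cor
      rw [h1 V E p q K, h1 V E p q K]
      exact mul_div_mul_left _ _ (pow_ne_zero _ two_ne_zero)
    rw [e7]
    field_simp

end Pool.Agent.H903.IS
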