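import Pool.Agent.H960.IS.Stm

/-!
Project IS (helper960), MP_600500_pr: the law of the dynamics given the activities.
-/

open MeasureTheory Filter Topology Finset H960FV H960IS

namespace Pool.Agent.H415.IS

section gen

variable {ι A M : Type} [MeasurableSpace A] [MeasurableSpace M]

theorem split (μ : Measure A) (ν : Measure M) [IsProbabilityMeasure μ] [IsProbabilityMeasure ν] :
    MeasurePreserving (fun (q : (ι → A) × (ι → M)) (i : ι) => (q.1 i, q.2 i))
      ((Measure.infinitePi fun _ : ι => μ).prod (Measure.infinitePi fun _ : ι => ν))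
      (Measure.infinitePi fun _ : ι => μ.prod ν) := by
  classical
  have hm : Measurable (fun (q : (ι → A) × (ι → M)) (i : ι) => (q.1 i, q.2 i)) := by
    refine measurable_pi_iff.2 fun i => ?_
    exact ((measurable_pi_apply i).comp measurable_fst).prodMk
      ((measurable_pi_apply i).comp measurable_snd)
  refine ⟨hm, ?_⟩
  refine Measure.eq_infinitePi _ fun s t ht => ?_
  rw [Measure.map_apply hm (MeasurableSet.pi s.countable_toSet fun i _ => ht i)]
  have hE := (measurePreserving_arrowProdEquivProdArrow A M s (fun _ => μ) (fun _ => ν)).symm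
  have h1 : (fun (q : (ι → A) × (ι → M)) (i : ι) => (q.1 i, q.2 i)) ⁻¹' (Set.pi s t) =
      (Prod.map (s.restrict (π := fun _ => A)) (s.restrict (π := fun _ => M))) ⁻¹'
        ((MeasurableEquiv.arrowProdEquivProdArrow A M s).symm ⁻¹'
          (Set.univ.pi fun i : s => t i)) := by
    ext q
    simp only [Set.mem_preimage, Set.mem_pi, Finset.mem_coe, Set.mem_univ, forall_true_left,
      Subtype.forall]
    rfl
  have ht' : MeasurableSet (Set.univ.pi fun i : s => t i) := MeasurableSet.univ_pi fun i => ht i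
  have hr1 : Measurable (s.restrict (π := fun _ => A)) := Finset.measurable_restrict _
  have hr2 : Measurable (s.restrict (π := fun _ => M)) := Finset.measurable_restrict _
  rw [h1, ← Measure.map_apply (hr1.prodMap hr2)
    ((MeasurableEquiv.arrowProdEquivProdArrow A M s).symm.measurable ht'),
    ← Measure.map_prod_map _ _ hr1 hr2, Measure.infinitePi_map_restrict,
    Measure.infinitePi_map_restrict, hE.measure_preimage ht'.nullMeasurableSet, Measure.pi_pi]
  exact Finset.prod_coe_sort s (fun i => (μ.prod ν) (t i))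

/-- replacement of a time slice by an independent copy -/
theorem slice {X : Type} (n : ℤ) (ν : Measure M) [IsProbabilityMeasure ν] :
    MeasurePreserving (fun (q : (X × ℤ → M) × (X → M)) (i : X × ℤ) =>
        if i.2 = n then q.2 i.1 else q.1 i)
      ((Measure.infinitePi fun _ : X × ℤ => ν).prod (Measure.infinitePi fun _ : X => ν))
      (Measure.infinitePi fun _ : X × ℤ => ν) := by
  classical
  have hm : Measurable (fun (q : (X × ℤ → M) × (X → M)) (i : X × ℤ) =>
      if i.2 = n then q.2 i.1 else q.1 i) := by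
    refine measurable_pi_iff.2 fun i => ?_
    by_cases hi : i.2 = n
    · simp only [hi, if_true]
      exact (measurable_pi_apply i.1).comp measurable_snd
    · simp only [hi, if_false]
      exact (measurable_pi_apply i).comp measurable_fst
  refine ⟨hm, ?_⟩
  refine Measure.eq_infinitePi _ fun s t ht => ?_
  rw [Measure.map_apply hm (MeasurableSet.pi s.countable_toSet fun i _ => ht i)]
  have h1 : (fun (q : (X × ℤ → M) × (X → M)) (i : X × ℤ) =>
      if i.2 = n then q.2 i.1 else q.1 i) ⁻¹' (Set.pi s t) =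
      (Set.pi (s.filter fun i => ¬ i.2 = n : Finset (X × ℤ)) t) ×ˢ
        (Set.pi ((s.filter fun i => i.2 = n).image Prod.fst : Finset X) fun x => t (x, n)) := by
    ext q
    simp only [Set.mem_preimage, Set.mem_pi, Finset.mem_coe, Set.mem_prod, Finset.mem_filter,
      Finset.mem_image]
    constructor
    · intro h
      refine ⟨fun i hi => ?_, ?_⟩
      · have := h i hi.1
        rwa [if_neg hi.2] at this
      · rintro x ⟨i, ⟨hi, hin⟩, rfl⟩
        have := h i hi
        rw [if_pos hin] at this
        rw [← hin]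
        exact this
    · rintro ⟨h1, h2⟩ i hi
      by_cases hin : i.2 = n
      · rw [if_pos hin]
        have := h2 i.1 ⟨i, ⟨hi, hin⟩, rfl⟩
        rw [← hin] at this
        exact this
      · rw [if_neg hin]
        exact h1 i ⟨hi, hin⟩
  rw [h1, Measure.prod_prod, Measure.infinitePi_pi _ (fun i _ => ht i),
    Measure.infinitePi_pi _ (fun i _ => ht (i, n)), Finset.prod_image]
  · rw [mul_comm, ← Finset.prod_filter_mul_prod_filter_not s (fun i => i.2 = n)]
    congr 1
    refine Finset.prod_congr rfl fun i hi => ?_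
    rw [← (Finset.mem_filter.1 hi).2]
  · intro i hi j hj hij
    have hi' := (Finset.mem_filter.1 hi).2
    have hj' := (Finset.mem_filter.1 hj).2
    exact Prod.ext hij (hi'.trans hj'.symm)

end gen

section evo

variable {d : ℕ} {F F' : Finset (Z d)}

theorem evo_congr {S A : Type} (f : (F → S) → (F' → A) → S) (W W' : Z d × ℤ → A) (ξ : Z d → S) :
    ∀ n : ℕ, (∀ (x : Z d) (t : ℕ), t < n → W (x, (t : ℤ)) = W' (x, (t : ℤ))) →
      evo f W ξ 0 n = evo f W' ξ 0 n := by
  intro n
  induction n with
  | zero => intro _; rfl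
  | succ n ih =>
    intro h
    funext v
    rw [evo, evo, ih fun x t ht => h x t (by omega)]
    show f (fun u => evo f W' ξ 0 n (v + u)) (fun u => W (v + u, 0 + (n : ℤ))) =
      f (fun u => evo f W' ξ 0 n (v + u)) (fun u => W' (v + u, 0 + (n : ℤ)))
    congr 1
    funext u
    rw [zero_add]
    exact h _ n (by omega)

theorem meas_evo {A : Type} [Finite A] [MeasurableSpace A] [MeasurableSingletonClass A]
    (f : (F → Bool) → (F' → A) → Bool) (ξ : Z d → Bool) (n : ℕ) (v : Z d) :
    Measurable (fun W : Z d × ℤ → A => evo f W ξ 0 n v) := by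
  induction n generalizing v with
  | zero => exact measurable_const
  | succ n ih =>
    have h1 : Measurable (fun W : Z d × ℤ → A =>
        ((fun u : F => evo f W ξ 0 n (v + u)), (fun u : F' => W (v + u, 0 + n)))) :=
      Measurable.prodMk (measurable_pi_iff.2 fun u => ih _)
        (measurable_pi_iff.2 fun u => measurable_pi_apply _)
    exact (measurable_of_finite (fun q : (F → Bool) × (F' → A) => f q.1 q.2)).comp h1

theorem loc_meas {m : ℕ} {g : (Z d → Bool) → ℝ}
    (hg : ∀ σ σ' : Z d → Bool, (∀ x ∈ bx d m, σ x = σ' x) → g σ = g σ') :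
    Measurable g ∧ ∃ C : ℝ, ∀ σ, |g σ| ≤ C := by
  have he : ∀ σ, g σ = g (gl (bx d m) (fun x : ↥(bx d m) => σ x) (fun _ => true)) := fun σ => by
    apply hg
    intro x hx
    unfold gl
    rw [dif_pos hx]
  constructor
  · have h1 : Measurable fun σ : Z d → Bool => (fun x : ↥(bx d m) => σ x) :=
      measurable_pi_iff.2 fun x => measurable_pi_apply _
    have h2 : Measurable fun τ : ↥(bx d m) → Bool => g (gl (bx d m) τ (fun _ => true)) :=
      measurable_of_finite _
    have h3 := h2.comp h1
    have h4 : g = (fun τ : ↥(bx d m) → Bool => g (gl (bx d m) τ (fun _ => true))) ∘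
        fun σ : Z d → Bool => (fun x : ↥(bx d m) => σ x) := by
      funext σ
      exact he σ
    rw [h4]
    exact h3
  · obtain ⟨C, hC⟩ := (Set.finite_range
      (fun τ : ↥(bx d m) → Bool => |g (gl (bx d m) τ (fun _ => true))|)).bddAbove
    refine ⟨C, fun σ => ?_⟩
    rw [he]
    exact hC ⟨_, rfl⟩

end evo

section loc

variable {d : ℕ}

theorem mem_bw {L : ℕ} {w x : Z d} : x ∈ bw L w ↔ x - w ∈ bx d L := by
  unfold bw
  rw [Finset.mem_image]
  constructor
  · rintro ⟨y, hy, rfl⟩
    rwa [add_sub_cancel_left]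
  · intro h
    exact ⟨x - w, h, by abel⟩

theorem un_mem (i : Fin d) : un i ∈ bx d 1 := by
  rw [mem_bx]
  intro j
  unfold un
  by_cases h : j = i
  · subst h; simp
  · simp [Pi.single_eq_of_ne h]

/-- `h` depends only on the restriction to `T` -/
def LocS (T : Set (Z d)) (h : (Z d → Bool) → ℝ) : Prop :=
  ∀ σ σ' : Z d → Bool, (∀ x ∈ T, σ x = σ' x) → h σ = h σ'

theorem Zn_pos (β : ℝ) (Λ : Finset (Z d)) (η : Z d → Bool) : 0 < Zn β Λ η := by
  unfold Zn
  exact Finset.sum_pos (fun _ _ => Real.exp_pos _) Finset.univ_nonempty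

theorem Kop_loc1 {T : Set (Z d)} {h : (Z d → Bool) → ℝ} (β : ℝ) (L : ℕ) (w : Z d)
    (hT : ∀ x, x - w ∈ bx d (L + 1) → x ∈ T) (hh : LocS T h) : LocS T (Kop β (bw L w) h) := by
  intro σ σ' hσ
  have hgl : ∀ τ : ↥(bw L w) → Bool, ∀ x ∈ T, gl (bw L w) τ σ x = gl (bw L w) τ σ' x := by
    intro τ x hx
    unfold gl
    split_ifs
    · rfl
    · exact hσ x hx
  have hEn : ∀ τ : ↥(bw L w) → Bool, En (bw L w) (gl (bw L w) τ σ) = En (bw L w) (gl (bw L w) τ σ') := by
    intro τ
    unfold En
    refine Finset.sum_congr rfl fun e he => ?_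
    unfold Ed at he
    rw [Finset.mem_union, Finset.mem_image] at he
    have key : e.1 ∈ T ∧ e.1 + un e.2 ∈ T := by
      rcases he with he | ⟨e', he', rfl⟩
      · have h1 := mem_bw.1 (Finset.mem_product.1 he).1
        refine ⟨hT _ (bx_mono (by omega) h1), hT _ ?_⟩
        have := bx_add h1 (un_mem e.2)
        rwa [show e.1 - w + un e.2 = e.1 + un e.2 - w by abel] at this
      · have h1 := mem_bw.1 (Finset.mem_product.1 he').1
        refine ⟨hT _ ?_, hT _ ?_⟩
        · have := bx_sub h1 (un_mem e'.2)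
          rwa [show e'.1 - w - un e'.2 = e'.1 - un e'.2 - w by abel] at this
        · simp only [sub_add_cancel]
          exact bx_mono (by omega) h1
    rw [hgl τ _ key.1, hgl τ _ key.2]
  unfold Kop Zn
  congr 1
  · refine Finset.sum_congr rfl fun τ _ => ?_
    rw [hEn τ, hh _ _ (hgl τ)]
  · refine Finset.sum_congr rfl fun τ _ => ?_
    rw [hEn τ]

theorem Kop_loc2 {T : Set (Z d)} {h : (Z d → Bool) → ℝ} (β : ℝ) (B : Finset (Z d))
    (hT : ∀ x ∈ B, x ∉ T) (hh : LocS T h) : Kop β B h = h := by
  funext η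
  have h1 : ∀ τ : ↥B → Bool, h (gl B τ η) = h η := fun τ => by
    apply hh
    intro x hx
    unfold gl
    rw [dif_neg fun hB => hT x hB hx]
  have hZ := Zn_pos β B η
  unfold Kop
  simp only [h1]
  rw [← Finset.sum_mul]
  unfold Zn at hZ ⊢
  field_simp

/-- the sites on which the updated function depends -/
def TT (L m : ℕ) (a : Z d → Bool) : Set (Z d) :=
  {x | x ∈ bx d m ∨ ∃ w, iso L a w ∧ w ∈ bx d (m + L) ∧ x - w ∈ bx d (L + 1)}

theorem Kop_step {L m : ℕ} {a : Z d → Bool} {h : (Z d → Bool) → ℝ} (β : ℝ) {w : Z d}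
    (hw : iso L a w) (hh : LocS (TT L m a) h) : LocS (TT L m a) (Kop β (bw L w) h) := by
  by_cases hB : ∃ x ∈ bw L w, x ∈ TT L m a
  · obtain ⟨x, hx, hxT⟩ := hB
    rw [mem_bw] at hx
    have hwm : w ∈ bx d (m + L) := by
      rcases hxT with hxm | ⟨w', hw', hwm', hxw'⟩
      · have := bx_sub hxm hx
        rwa [sub_sub_cancel] at this
      · by_cases hww : w' = w
        · rwa [← hww]
        · exfalso
          have h1 : w' - w ∈ bx d (2 * L + 2) := by
            have := bx_sub hx hxw'
            rw [show x - w - (x - w') = w' - w by abel] at this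
            exact bx_mono (by omega) this
          have h2 := hw.2 w' hww h1
          rw [hw'.1] at h2
          exact absurd h2 (by decide)
    exact Kop_loc1 β L w (fun y hy => Or.inr ⟨w, hw, hwm, hy⟩) hh
  · rw [Kop_loc2 β (bw L w) (fun x hx hxT => hB ⟨x, hx, hxT⟩) hh]
    exact hh

theorem Kl_step {L m : ℕ} {a : Z d → Bool} {g : (Z d → Bool) → ℝ} (β : ℝ)
    (hg : LocS (TT L m a) g) : ∀ l : List (Finset (Z d)), (∀ B ∈ l, ∃ w, iso L a w ∧ B = bw L w) →
      LocS (TT L m a) (Kl β l g) := by
  intro l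
  induction l with
  | nil => intro _; exact hg
  | cons B l ih =>
    intro h
    obtain ⟨w, hw, rfl⟩ := h B (List.mem_cons_self ..)
    have h1 := ih fun B' hB' => h B' (List.mem_cons_of_mem _ hB')
    exact Kop_step β hw h1

theorem Kl_loc {L m R : ℕ} {a : Z d → Bool} {g : (Z d → Bool) → ℝ} (β : ℝ)
    (hg : ∀ σ σ' : Z d → Bool, (∀ x ∈ bx d m, σ x = σ' x) → g σ = g σ') :
    ∀ σ σ' : Z d → Bool, (∀ x ∈ bx d (m + (3 * L + 3)), σ x = σ' x) →
      Kl β (ls L R a) g σ = Kl β (ls L R a) g σ' := by
  intro σ σ' h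
  have h1 : LocS (TT L m a) g := fun σ σ' h' => hg σ σ' fun x hx => h' x (Or.inl hx)
  have h2 := Kl_step β h1 (ls L R a) (by
    intro B hB
    unfold ls at hB
    rw [List.mem_map] at hB
    obtain ⟨w, hw, rfl⟩ := hB
    simp only [Finset.mem_toList, Finset.mem_filter] at hw
    exact ⟨w, hw.2, rfl⟩)
  apply h2
  rintro x (hx | ⟨w, -, hw, hx⟩)
  · exact h x (bx_mono (by omega) hx)
  · apply h x
    have := bx_add hx hw
    rw [sub_add_cancel] at this
    exact bx_mono (by omega) this

end loc

theorem prob_ber {θ : ℝ} (h0 : 0 ≤ θ) (h1 : θ ≤ 1) : IsProbabilityMeasure (ber θ) := by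
  constructor
  unfold ber
  rw [Measure.add_apply, Measure.smul_apply, Measure.smul_apply]
  simp only [measure_univ, smul_eq_mul, mul_one]
  rw [← ENNReal.ofReal_add h0 (by linarith)]
  simp

theorem LL_succ {d : ℕ} (L R : ℕ) (a : Z d × ℤ → Bool) (n : ℕ) :
    LL L R a (n + 1) = LL L R a n ++ ls L R (fun x => a (x, (n : ℤ))) := by
  unfold LL
  simp [List.range_succ, List.flatMap_append]

theorem fixed (h1 : S_rule) (h2 : S_rep1) {d L : ℕ} {β : ℝ}
    (ν : Measure ((↥(bx d (L + 1)) → Bool) → (↥(bx d L) → Bool))) [IsProbabilityMeasure ν]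
    (hν : Coup d L β ν) (R : ℕ) (ξ : Z d → Bool) (a : Z d × ℤ → Bool) : ∀ (n m : ℕ)
    (g : (Z d → Bool) → ℝ), (∀ σ σ' : Z d → Bool, (∀ x ∈ bx d m, σ x = σ' x) → g σ = g σ') →
    m + (3 * L + 3) * n ≤ R →
    ∫ κ, g (evo (rule d L) (fun i => (a i, κ i)) ξ 0 n) ∂(Measure.infinitePi fun _ : Z d × ℤ => ν) =
      Kl β (LL L R a n) g ξ := by
  intro n
  induction n with
  | zero =>
    intro m g hg hm
    simp only [evo, integral_const, smul_eq_mul]
    simp [LL, Kl]
  | succ n ih =>
    intro m g hg hm
    obtain ⟨gm, C, hC⟩ := loc_meas hg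
    have hev : Measurable fun κ : Z d × ℤ → ((↥(bx d (L + 1)) → Bool) → (↥(bx d L) → Bool)) =>
        evo (rule d L) (fun i => (a i, κ i)) ξ 0 (n + 1) := by
      refine measurable_pi_iff.2 fun v => ?_
      have hW : Measurable fun κ : Z d × ℤ → ((↥(bx d (L + 1)) → Bool) → (↥(bx d L) → Bool)) =>
          (fun i => (a i, κ i)) := by
        refine measurable_pi_iff.2 fun i => ?_
        exact measurable_const.prodMk (measurable_pi_apply i)
      exact (meas_evo (rule d L) ξ (n + 1) v).comp hW
    have hF : Measurable fun κ : Z d × ℤ → ((↥(bx d (L + 1)) → Bool) → (↥(bx d L) → Bool)) =>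
        g (evo (rule d L) (fun i => (a i, κ i)) ξ 0 (n + 1)) := gm.comp hev
    have hs := slice (X := Z d) (n : ℤ) ν
    rw [← hs.map_eq, integral_map hs.measurable.aemeasurable hF.aestronglyMeasurable,
      integral_prod]
    · have hinner : ∀ κ : Z d × ℤ → ((↥(bx d (L + 1)) → Bool) → (↥(bx d L) → Bool)),
          ∫ κ' : Z d → ((↥(bx d (L + 1)) → Bool) → (↥(bx d L) → Bool)),
            g (evo (rule d L) (fun i => (a i, (fun (q : (Z d × ℤ → ((↥(bx d (L + 1)) → Bool) → (↥(bx d L) → Bool))) ×
              (Z d → ((↥(bx d (L + 1)) → Bool) → (↥(bx d L) → Bool)))) (i : Z d × ℤ) =>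
                if i.2 = (n : ℤ) then q.2 i.1 else q.1 i) (κ, κ') i)) ξ 0 (n + 1))
              ∂(Measure.infinitePi fun _ : Z d => ν) =
          Kl β (ls L R fun x => a (x, (n : ℤ))) g (evo (rule d L) (fun i => (a i, κ i)) ξ 0 n) := by
        intro κ
        rw [← h2 d L β ν hν m R g hg (by nlinarith) (fun x => a (x, (n : ℤ)))
          (evo (rule d L) (fun i => (a i, κ i)) ξ 0 n)]
        congr 1
        funext κ'
        congr 1
        rw [h1 d L _ ξ 0 n]
        congr 1
        · funext x
          simp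
        · apply evo_congr
          intro x t ht
          have : ¬ ((t : ℤ) = (n : ℤ)) := by omega
          simp [this]
      have h3 := ih (m + (3 * L + 3)) (Kl β (ls L R fun x => a (x, (n : ℤ))) g) (Kl_loc β hg)
        (by nlinarith)
      have h4 : Kl β (LL L R a (n + 1)) g ξ =
          Kl β (LL L R a n) (Kl β (ls L R fun x => a (x, (n : ℤ))) g) ξ := by
        rw [LL_succ]
        unfold Kl
        rw [List.foldr_append]
      rw [h4, ← h3]
      exact integral_congr_ae (Filter.Eventually.of_forall hinner)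
    · refine Integrable.of_bound (hF.comp hs.measurable).aestronglyMeasurable C ?_
      exact Filter.Eventually.of_forall fun q => by
        rw [Real.norm_eq_abs]
        exact hC _

theorem rep (h1 : S_rule) (h2 : S_rep1) (_h3 : S_out) : S_rep := by
  intro d L β θ ν _ hν hθ0 hθ1 m n R g hg hm ξ
  have := prob_ber hθ0 hθ1
  obtain ⟨gm, C, hC⟩ := loc_meas hg
  have hev : Measurable fun W : Z d × ℤ → Al d L => evo (rule d L) W ξ 0 n :=
    measurable_pi_iff.2 fun v => meas_evo (rule d L) ξ n v
  have hF : Measurable fun W : Z d × ℤ → Al d L => g (evo (rule d L) W ξ 0 n) := gm.comp hev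
  have hs := split (ι := Z d × ℤ) (ber θ) ν
  rw [← hs.map_eq, integral_map hs.measurable.aemeasurable hF.aestronglyMeasurable,
    integral_prod]
  · refine integral_congr_ae (Filter.Eventually.of_forall fun a => ?_)
    exact fixed h1 h2 ν hν R ξ a n m g hg hm
  · refine Integrable.of_bound (hF.comp hs.measurable).aestronglyMeasurable C ?_
    exact Filter.Eventually.of_forall fun q => by
      rw [Real.norm_eq_abs]
      exact hC _

end Pool.Agent.H415.IS
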