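import Pool.Agent.H960.IS.Stm

/-!
Project IS (helper960), task REP1: one step of the dynamics for a fixed activity field.
-/

set_option autoImplicit false
set_option linter.unusedSectionVars false

open MeasureTheory Filter Topology Finset H960FV H960IS ProbabilityTheory

namespace Pool.Agent.H870.IS

/-! ### Product measures over a finite alphabet -/

section prod

variable {ι K : Type} [Fintype K] [MeasurableSpace K] [MeasurableSingletonClass K]

theorem fac [Nonempty K] (s : Finset ι) (f : (ι → K) → ℝ)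
    (hf : ∀ κ κ', (∀ x ∈ s, κ x = κ' x) → f κ = f κ') :
    ∃ f' : (s → K) → ℝ, ∀ κ, f κ = f' (fun x => κ x) := by
  classical
  obtain ⟨k0⟩ := ‹Nonempty K›
  refine ⟨fun q => f fun x => if h : x ∈ s then q ⟨x, h⟩ else k0, fun κ => hf _ _ ?_⟩
  intro x hx
  simp [hx]

theorem meas_res (s : Finset ι) : Measurable fun (κ : ι → K) (x : s) => κ x := by
  fun_prop

theorem integ [Nonempty K] (μ : Measure (ι → K)) [IsFiniteMeasure μ] (s : Finset ι)
    (f : (ι → K) → ℝ) (hf : ∀ κ κ', (∀ x ∈ s, κ x = κ' x) → f κ = f κ') : Integrable f μ := by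
  obtain ⟨f', hf'⟩ := fac s f hf
  have h1 : f = f' ∘ fun (κ : ι → K) (x : s) => κ x := funext hf'
  rw [h1]
  have h2 : Integrable f' (μ.map fun (κ : ι → K) (x : s) => κ x) := Integrable.of_finite
  exact h2.comp_measurable (meas_res s)

theorem fub [Nonempty K] (ν : Measure K) [IsProbabilityMeasure ν] (w : ι) (s : Finset ι)
    (hw : w ∉ s) (F : K → (ι → K) → ℝ)
    (hF : ∀ k κ κ', (∀ x ∈ s, κ x = κ' x) → F k κ = F k κ') :
    ∫ κ, F (κ w) κ ∂(Measure.infinitePi fun _ : ι => ν) =
      ∫ k, ∫ κ, F k κ ∂(Measure.infinitePi fun _ : ι => ν) ∂ν := by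
  classical
  set P := Measure.infinitePi fun _ : ι => ν with hP
  have h1 : ∀ κ : ι → K, F (κ w) κ = ∑ k, (if κ w = k then (1 : ℝ) else 0) * F k κ := by
    intro κ
    simp
  have hind : ∀ k, Integrable (fun κ : ι → K => (if κ w = k then (1 : ℝ) else 0) * F k κ) P := by
    intro k
    refine integ P (insert w s) _ fun κ κ' h => ?_
    rw [h w (mem_insert_self _ _), hF k κ κ' fun x hx => h x (mem_insert_of_mem hx)]
  have h2 : ∀ k, ∫ κ, (if κ w = k then (1 : ℝ) else 0) * F k κ ∂P = ν.real {k} * ∫ κ, F k κ ∂P := by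
    intro k
    obtain ⟨f', hf'⟩ := fac s (F k) (hF k)
    have hi : IndepFun (fun (κ : ι → K) (x : ({w} : Finset ι)) => κ x)
        (fun (κ : ι → K) (x : s) => κ x) P :=
      (iIndepFun_infinitePi (P := fun _ : ι => ν) (X := fun _ x => x)
        (fun _ => measurable_id)).indepFun_finset {w} s (by simpa using hw)
        (fun i => by fun_prop)
    have hi2 : IndepFun (fun κ : ι → K => if κ w = k then (1 : ℝ) else 0) (F k) P := by
      have h3 : F k = f' ∘ fun (κ : ι → K) (x : s) => κ x := funext hf'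
      have h4 : (fun κ : ι → K => if κ w = k then (1 : ℝ) else 0) =
          (fun q : (({w} : Finset ι) → K) => if q ⟨w, mem_singleton_self w⟩ = k then (1 : ℝ) else 0)
            ∘ fun (κ : ι → K) (x : ({w} : Finset ι)) => κ x := rfl
      rw [h3, h4]
      exact hi.comp (measurable_of_finite _) (measurable_of_finite _)
    rw [hi2.integral_fun_mul_eq_mul_integral
      (integ P {w} _ fun κ κ' h => by rw [h w (mem_singleton_self w)]).aestronglyMeasurable
      (integ P s _ (hF k)).aestronglyMeasurable]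
    congr 1
    have h5 : ∫ κ : ι → K, (if κ w = k then (1 : ℝ) else 0) ∂P =
        ∫ x, (if x = k then (1 : ℝ) else 0) ∂(P.map fun κ => κ w) := by
      rw [integral_map (measurable_pi_apply w).aemeasurable
        (measurable_of_finite _).aestronglyMeasurable]
    rw [h5, hP, Measure.infinitePi_map_eval, integral_fintype Integrable.of_finite]
    simp
  simp_rw [h1]
  rw [integral_finsetSum _ fun k _ => hind k, integral_fintype Integrable.of_finite]
  refine Finset.sum_congr rfl fun k _ => ?_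
  rw [h2 k, smul_eq_mul]

end prod

/-! ### One box -/

section box

variable {d L : ℕ}

theorem mem_Ed {Λ : Finset (Z d)} {e : Z d × Fin d} : e ∈ Ed Λ ↔ e.1 ∈ Λ ∨ e.1 + un e.2 ∈ Λ := by
  classical
  unfold Ed
  rw [mem_union, mem_product, mem_image]
  constructor
  · rintro (h | ⟨e', h, rfl⟩)
    · exact Or.inl h.1
    · right
      rw [mem_product] at h
      simpa using h.1
  · rintro (h | h)
    · exact Or.inl ⟨h, mem_univ _⟩
    · refine Or.inr ⟨(e.1 + un e.2, e.2), mem_product.2 ⟨h, mem_univ _⟩, ?_⟩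
      ext <;> simp

theorem mem_bw {w v : Z d} : v ∈ bw L w ↔ v - w ∈ bx d L := by
  unfold bw
  rw [mem_image]
  constructor
  · rintro ⟨x, hx, rfl⟩
    simpa using hx
  · intro h
    exact ⟨v - w, h, by abel⟩

theorem un_mem (i : Fin d) : (un i : Z d) ∈ bx d 1 := by
  rw [mem_bx]
  intro j
  unfold un
  by_cases h : j = i
  · subst h; simp
  · simp [Pi.single_eq_of_ne h]

theorem Ed_box {e : Z d × Fin d} (he : e ∈ Ed (bx d L)) :
    e.1 ∈ bx d (L + 1) ∧ e.1 + un e.2 ∈ bx d (L + 1) := by
  rw [mem_Ed] at he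
  rcases he with h | h
  · exact ⟨bx_mono (by omega) h, bx_add h (un_mem _)⟩
  · refine ⟨?_, bx_mono (by omega) h⟩
    have := bx_sub h (un_mem e.2)
    rwa [add_sub_cancel_right] at this

/-- `τ` in the box around `w` -/
noncomputable def pl (w : Z d) (τ : ↥(bx d L) → Bool) (ξ : Z d → Bool) : Z d → Bool :=
  fun v => if h : v - w ∈ bx d L then τ ⟨v - w, h⟩ else ξ v

theorem pl_gl (w : Z d) (τ : ↥(bx d L) → Bool) (ξ : Z d → Bool) {x : Z d}
    (hx : x ∈ bx d (L + 1)) : pl w τ ξ (w + x) =
      gl (bx d L) τ (exT (fun y : ↥(bx d (L + 1)) => ξ (w + y))) x := by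
  unfold pl gl
  by_cases h : x ∈ bx d L
  · have h' : w + x - w ∈ bx d L := by simpa using h
    rw [dif_pos h', dif_pos h]
    congr 1
    ext1
    simp
  · have h' : w + x - w ∉ bx d L := by simpa using h
    rw [dif_neg h', dif_neg h]
    unfold exT gl
    rw [dif_pos hx]

theorem En_eq (w : Z d) (τ : ↥(bx d L) → Bool) (ξ : Z d → Bool) : En (bw L w) (pl w τ ξ) =
    En (bx d L) (gl (bx d L) τ (exT (fun y : ↥(bx d (L + 1)) => ξ (w + y)))) := by
  unfold En
  refine Finset.sum_bij' (fun e _ => (e.1 - w, e.2)) (fun e _ => (w + e.1, e.2)) ?_ ?_ ?_ ?_ ?_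
  · intro e he
    rw [mem_Ed, mem_bw, mem_bw] at he
    rw [mem_Ed]
    rcases he with h | h
    · exact Or.inl h
    · right
      have : e.1 - w + un e.2 = e.1 + un e.2 - w := by abel
      simpa only [this] using h
  · intro e he
    rw [mem_Ed] at he
    rw [mem_Ed, mem_bw, mem_bw]
    rcases he with h | h
    · left
      simpa using h
    · right
      have : w + e.1 + un e.2 - w = e.1 + un e.2 := by abel
      simpa only [this] using h
  · intro e _
    ext <;> simp
  · intro e _
    ext <;> simp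
  · intro e he
    have he' : (e.1 - w, e.2) ∈ Ed (bx d L) := by
      rw [mem_Ed, mem_bw, mem_bw] at he
      rw [mem_Ed]
      rcases he with h | h
      · exact Or.inl h
      · right
        have : e.1 - w + un e.2 = e.1 + un e.2 - w := by abel
        simpa only [this] using h
    obtain ⟨h1, h2⟩ := Ed_box he'
    have e1 := pl_gl w τ ξ h1
    have e2 := pl_gl w τ ξ h2
    simp only at e1 e2
    rw [show w + (e.1 - w) = e.1 by abel] at e1
    rw [show w + (e.1 - w + un e.2) = e.1 + un e.2 by abel] at e2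
    rw [e1, e2]

/-- translation of the box -/
noncomputable def te (d L : ℕ) (w : Z d) : ↥(bx d L) ≃ ↥(bw L w) where
  toFun x := ⟨w + x, mem_bw.2 (by simp)⟩
  invFun y := ⟨y - w, mem_bw.1 y.2⟩
  left_inv x := by ext1; simp
  right_inv y := by ext1; simp

theorem gl_te (w : Z d) (τ : ↥(bx d L) → Bool) (ξ : Z d → Bool) :
    gl (bw L w) ((te d L w).arrowCongr (Equiv.refl Bool) τ) ξ = pl w τ ξ := by
  funext v
  unfold gl pl
  by_cases h : v - w ∈ bx d L
  · rw [dif_pos h, dif_pos (mem_bw.2 h)]
    rfl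
  · rw [dif_neg h, dif_neg (fun h' => h (mem_bw.1 h'))]

theorem box {β : ℝ} {ν : Measure ((↥(bx d (L + 1)) → Bool) → (↥(bx d L) → Bool))}
    [IsProbabilityMeasure ν] (hν : Coup d L β ν) (w : Z d) (h : (Z d → Bool) → ℝ)
    (ξ : Z d → Bool) :
    ∫ k, h (pl w (k fun x => ξ (w + x)) ξ) ∂ν = Kop β (bw L w) h ξ := by
  classical
  set ζ : ↥(bx d (L + 1)) → Bool := fun x => ξ (w + x) with hζ
  have h1 : ∫ k, h (pl w (k ζ) ξ) ∂ν = ∫ τ, h (pl w τ ξ) ∂(ν.map fun k => k ζ) := by
    rw [integral_map (measurable_pi_apply ζ).aemeasurable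
      (measurable_of_finite _).aestronglyMeasurable]
  have : IsProbabilityMeasure (ν.map fun k => k ζ) :=
    Measure.isProbabilityMeasure_map (measurable_pi_apply ζ).aemeasurable
  rw [h1, integral_fintype Integrable.of_finite]
  have h2 : ∀ τ : ↥(bx d L) → Bool, (ν.map fun k => k ζ).real {τ} =
      Real.exp (β * En (bx d L) (gl (bx d L) τ (exT ζ))) / Zn β (bx d L) (exT ζ) := by
    intro τ
    rw [← hν.2 ζ τ, map_measureReal_apply (measurable_pi_apply ζ) (measurableSet_singleton τ)]
    rfl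
  have h3 : ∀ τ : ↥(bx d L) → Bool,
      Real.exp (β * En (bw L w) (gl (bw L w) ((te d L w).arrowCongr (Equiv.refl Bool) τ) ξ)) =
      Real.exp (β * En (bx d L) (gl (bx d L) τ (exT ζ))) := by
    intro τ
    rw [gl_te, En_eq]
  have h4 : Zn β (bx d L) (exT ζ) = Zn β (bw L w) ξ := by
    unfold Zn
    refine Fintype.sum_equiv ((te d L w).arrowCongr (Equiv.refl Bool)) _ _ fun τ => ?_
    rw [h3]
  unfold Kop
  rw [← h4, Finset.sum_div]
  refine Fintype.sum_equiv ((te d L w).arrowCongr (Equiv.refl Bool)) _ _ fun τ => ?_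
  rw [h2, h3, gl_te, smul_eq_mul]
  ring

/-- sequential update of the boxes around the points of a list -/
noncomputable def U : List (Z d) → (Z d → ((↥(bx d (L + 1)) → Bool) → (↥(bx d L) → Bool))) →
    (Z d → Bool) → (Z d → Bool)
  | [] => fun _ ξ => ξ
  | w :: l => fun κ ξ => U l κ (pl w (κ w fun x => ξ (w + x)) ξ)

theorem U_congr (l : List (Z d))
    (κ κ' : Z d → ((↥(bx d (L + 1)) → Bool) → (↥(bx d L) → Bool))) (h : ∀ x ∈ l, κ x = κ' x)
    (ξ : Z d → Bool) : U l κ ξ = U l κ' ξ := by
  induction l generalizing ξ with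
  | nil => rfl
  | cons w l ih =>
    show U l κ _ = U l κ' _
    rw [h w List.mem_cons_self]
    exact ih (fun x hx => h x (List.mem_cons_of_mem _ hx)) _

theorem seq {β : ℝ} {ν : Measure ((↥(bx d (L + 1)) → Bool) → (↥(bx d L) → Bool))}
    [IsProbabilityMeasure ν] (hν : Coup d L β ν) (g : (Z d → Bool) → ℝ) (l : List (Z d))
    (hl : l.Nodup) (ξ : Z d → Bool) :
    ∫ κ, g (U l κ ξ) ∂(Measure.infinitePi fun _ : Z d => ν) = Kl β (l.map (bw L)) g ξ := by
  classical
  induction l generalizing ξ with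
  | nil => simp [U, Kl]
  | cons w l ih =>
    rw [List.nodup_cons] at hl
    show ∫ κ, g (U l κ (pl w (κ w fun x => ξ (w + x)) ξ)) ∂(Measure.infinitePi fun _ : Z d => ν) =
      Kop β (bw L w) (Kl β (l.map (bw L)) g) ξ
    rw [fub ν w l.toFinset (by simpa using hl.1)
      (fun k κ => g (U l κ (pl w (k fun x => ξ (w + x)) ξ)))
      (fun k κ κ' h => by rw [U_congr l κ κ' (fun x hx => h x (by simpa using hx))])]
    simp_rw [ih hl.2]
    exact box hν w _ ξ

/-- the boxes around different points of the list do not interact -/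
def Far (L : ℕ) (l : List (Z d)) : Prop := ∀ w ∈ l, ∀ w' ∈ l, w ≠ w' → w' - w ∉ bx d (2 * L + 2)

theorem U_out (l : List (Z d))
    (κ : Z d → ((↥(bx d (L + 1)) → Bool) → (↥(bx d L) → Bool))) (ξ : Z d → Bool) (v : Z d)
    (hv : ∀ w ∈ l, v - w ∉ bx d L) : U l κ ξ v = ξ v := by
  induction l generalizing ξ with
  | nil => rfl
  | cons w l ih =>
    show U l κ _ v = ξ v
    rw [ih _ fun w' hw' => hv w' (List.mem_cons_of_mem _ hw')]
    unfold pl
    rw [dif_neg (hv w List.mem_cons_self)]

theorem U_in (l : List (Z d)) (hl : l.Nodup) (hf : Far L l)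
    (κ : Z d → ((↥(bx d (L + 1)) → Bool) → (↥(bx d L) → Bool))) (ξ : Z d → Bool) (v w : Z d)
    (hw : w ∈ l) (hv : v - w ∈ bx d L) :
    U l κ ξ v = κ w (fun x => ξ (w + x)) ⟨v - w, hv⟩ := by
  induction l generalizing ξ with
  | nil => simp at hw
  | cons w0 l ih =>
    rw [List.nodup_cons] at hl
    have hf' : Far L l := fun a ha b hb =>
      hf a (List.mem_cons_of_mem _ ha) b (List.mem_cons_of_mem _ hb)
    show U l κ _ v = _
    by_cases hww : w = w0
    · subst hww
      rw [U_out l κ _ v ?_]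
      · unfold pl
        rw [dif_pos hv]
      · intro w' hw' hv'
        have hne : w ≠ w' := fun h => hl.1 (h ▸ hw')
        refine hf w List.mem_cons_self w' (List.mem_cons_of_mem _ hw') hne ?_
        exact bx_mono (by omega) (bx_trans (bx_sub_comm hv') hv)
    · have hwl : w ∈ l := by
        rcases List.mem_cons.1 hw with h | h
        · exact absurd h hww
        · exact h
      rw [ih hl.2 hf' _ hwl]
      congr 1
      funext x
      unfold pl
      rw [dif_neg]
      intro hx
      refine hf w0 List.mem_cons_self w hw (Ne.symm hww) ?_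
      have h1 := bx_sub hx x.2
      rw [show w + (x : Z d) - w0 - x = w - w0 by abel] at h1
      exact bx_mono (by omega) h1

end box

theorem rep1 (_ : S_out) : S_rep1 := by
  classical
  intro d L β ν _ hν m R g hg hR a ξ
  unfold ls
  rw [← seq hν g _ (Finset.nodup_toList _) ξ]
  have hmem : ∀ w, w ∈ ((bx d R).filter fun w => iso L a w).toList ↔ w ∈ bx d R ∧ iso L a w := by
    intro w
    rw [Finset.mem_toList, Finset.mem_filter]
  have hfar : Far L ((bx d R).filter fun w => iso L a w).toList := by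
    intro w hw w' hw' hne hmem'
    rw [hmem] at hw hw'
    have h1 := hw.2.2 w' (Ne.symm hne) hmem'
    rw [hw'.2.1] at h1
    exact Bool.noConfusion h1
  refine integral_congr_ae (Eventually.of_forall fun κ => ?_)
  refine hg _ _ fun v hv => ?_
  unfold upd
  split_ifs with h
  · have hc := h.choose_spec
    set w := h.choose with hw
    have hwR : w ∈ bx d R := by
      have h1 := bx_sub hv hc.1
      rw [show v - (v - w) = w by abel] at h1
      exact bx_mono hR h1
    rw [U_in _ (Finset.nodup_toList _) hfar κ ξ v w ((hmem w).2 ⟨hwR, hc.2⟩) hc.1]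
  · rw [U_out _ κ ξ v]
    intro w hw hv'
    exact h ⟨w, hv', ((hmem w).1 hw).2⟩

end Pool.Agent.H870.IS
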