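import Pool.Agent.H960.IS.Stm

open H960FV H960IS

namespace Pool.Agent.H363.IS

theorem upd_of_iso {d L : ℕ} (n : Z d → Al d L) (st : Z d → Bool) (v w : Z d)
    (hw : v - w ∈ bx d L) (hi : iso L (fun x => (n x).1) w) :
    upd n st v = (n w).2 (fun x => st (w + x)) ⟨v - w, hw⟩ := by
  have hex : ∃ w, v - w ∈ bx d L ∧ iso L (fun x => (n x).1) w := ⟨w, hw, hi⟩
  unfold upd
  rw [dif_pos hex]
  have huniq : hex.choose = w := by
    by_contra hne
    obtain ⟨h1, h2⟩ := hex.choose_spec
    have h3 : hex.choose - w ∈ bx d (L + L) := by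
      have h4 : hex.choose - v ∈ bx d L := bx_sub_comm h1
      exact bx_trans h4 hw
    have h5 := hi.2 hex.choose hne (bx_mono (by omega) h3)
    have h6 := h2.1
    simp only at h5 h6
    rw [h6] at h5
    exact Bool.noConfusion h5
  have key : ∀ (w' : Z d) (h' : v - w' ∈ bx d L), w' = w →
      (n w').2 (fun x => st (w' + x)) ⟨v - w', h'⟩ = (n w).2 (fun x => st (w + x)) ⟨v - w, hw⟩ := by
    rintro w' h' rfl
    rfl
  exact key _ _ huniq

theorem upd_of_not {d L : ℕ} (n : Z d → Al d L) (st : Z d → Bool) (v : Z d)
    (h : ¬ ∃ w, v - w ∈ bx d L ∧ iso L (fun x => (n x).1) w) : upd n st v = st v := by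
  unfold upd
  rw [dif_neg h]

theorem rule_eq {d L : ℕ} (n : Z d → Al d L) (st : Z d → Bool) (v : Z d) :
    rule d L (fun u => st (v + u)) (fun u => n (v + u)) = upd n st v := by
  unfold rule
  set N' : Z d → Al d L := fun x => if h : x ∈ bx d (3 * L + 3) then
    (fun u : ↥(bx d (3 * L + 3)) => n (v + u)) ⟨x, h⟩ else (false, fun _ _ => true) with hN'
  set S' : Z d → Bool := fun x => if h : x ∈ bx d (3 * L + 3) then
    (fun u : ↥(bx d (3 * L + 3)) => st (v + u)) ⟨x, h⟩ else true with hS'
  have hNin : ∀ x, x ∈ bx d (3 * L + 3) → N' x = n (v + x) := by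
    intro x hx
    rw [hN']
    simp only
    rw [dif_pos hx]
  have hNout : ∀ x, x ∉ bx d (3 * L + 3) → (N' x).1 = false := by
    intro x hx
    rw [hN']
    simp only
    rw [dif_neg hx]
  have hSin : ∀ x, x ∈ bx d (3 * L + 3) → S' x = st (v + x) := by
    intro x hx
    rw [hS']
    simp only
    rw [dif_pos hx]
  by_cases hex : ∃ w, v - w ∈ bx d L ∧ iso L (fun x => (n x).1) w
  · obtain ⟨w, hw, hi⟩ := hex
    have e1 : v + (w - v) = w := add_sub_cancel v w
    have hw0 : w - v ∈ bx d L := bx_sub_comm hw
    have hw1 : w - v ∈ bx d (3 * L + 3) := bx_mono (by omega) hw0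
    have hz : (0 : Z d) - (w - v) ∈ bx d L := by
      have : (0 : Z d) - (w - v) = v - w := by abel
      rw [this]
      exact hw
    have hi' : iso L (fun x => (N' x).1) (w - v) := by
      refine ⟨?_, ?_⟩
      · show (N' (w - v)).1 = true
        rw [hNin _ hw1, e1]
        exact hi.1
      · intro w' hne hb
        show (N' w').1 = false
        by_cases hin : w' ∈ bx d (3 * L + 3)
        · rw [hNin _ hin]
          refine hi.2 (v + w') ?_ ?_
          · intro he
            apply hne
            rw [← he]
            abel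
          · have : v + w' - w = w' - (w - v) := by abel
            rw [this]
            exact hb
        · exact hNout _ hin
    rw [upd_of_iso N' S' 0 (w - v) hz hi', upd_of_iso n st v w hw hi, hNin _ hw1, e1]
    have e2 : (fun x : ↥(bx d (L + 1)) => S' (w - v + (x : Z d))) =
        fun x : ↥(bx d (L + 1)) => st (w + (x : Z d)) := by
      funext x
      have hx : w - v + (x : Z d) ∈ bx d (3 * L + 3) := bx_mono (by omega) (bx_add hw0 x.2)
      rw [hSin _ hx]
      congr 1
      abel
    have e3 : (⟨0 - (w - v), hz⟩ : ↥(bx d L)) = ⟨v - w, hw⟩ := by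
      apply Subtype.ext
      show (0 : Z d) - (w - v) = v - w
      abel
    rw [e2, e3]
  · have hno : ¬ ∃ w, (0 : Z d) - w ∈ bx d L ∧ iso L (fun x => (N' x).1) w := by
      rintro ⟨w0, hw0, h1, h2⟩
      apply hex
      have hw0' : w0 ∈ bx d L := by
        have := bx_neg hw0
        rwa [zero_sub, neg_neg] at this
      have hw1 : w0 ∈ bx d (3 * L + 3) := bx_mono (by omega) hw0'
      refine ⟨v + w0, ?_, ?_, ?_⟩
      · have : v - (v + w0) = 0 - w0 := by abel
        rw [this]
        exact hw0
      · show (n (v + w0)).1 = true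
        rw [← hNin _ hw1]
        exact h1
      · intro w'' hne hb
        show (n w'').1 = false
        have hb' : (w'' - v) - w0 ∈ bx d (2 * L + 2) := by
          have : (w'' - v) - w0 = w'' - (v + w0) := by abel
          rw [this]
          exact hb
        have hin : w'' - v ∈ bx d (3 * L + 3) := by
          have h3 := bx_add hb' hw0'
          rw [sub_add_cancel] at h3
          exact bx_mono (by omega) h3
        have h4 := h2 (w'' - v) (by
          intro he
          apply hne
          rw [← he]
          abel) hb'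
        have h5 : (N' (w'' - v)).1 = false := h4
        rw [hNin _ hin, add_sub_cancel] at h5
        exact h5
    rw [upd_of_not N' S' 0 hno, upd_of_not n st v hex, hSin 0 zero_mem_bx, add_zero]

theorem rule_upd : S_rule := by
  intro d L W ξ i0 n
  funext v
  exact rule_eq (fun x => W (x, i0 + n)) (evo (rule d L) W ξ i0 n) v

end Pool.Agent.H363.IS
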