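import Pool.Agent.H960.IS.Stm

/-!
# Project IS (helper960): the switching lemma for double currents
-/

set_option autoImplicit false

open MeasureTheory Filter Topology Finset

namespace Pool.Agent.H307.IS

open H960FV H960IS

section

variable {V E : Type} [Fintype V] [DecidableEq V] [Fintype E] [DecidableEq E]

theorem card_symm (s t : Finset E) :
    (symmDiff s t).card + 2 * (s ∩ t).card = s.card + t.card := by
  have h1 : (symmDiff s t).card = (s \ t).card + (t \ s).card := by
    rw [symmDiff_def]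
    apply Finset.card_union_of_disjoint
    exact disjoint_sdiff_sdiff
  have h2 := Finset.card_sdiff_add_card_inter s t
  have h3 := Finset.card_sdiff_add_card_inter t s
  rw [Finset.inter_comm t s] at h3
  omega

theorem filter_symm (s t : Finset E) (P : E → Prop) [DecidablePred P] :
    (symmDiff s t).filter P = symmDiff (s.filter P) (t.filter P) := by
  ext e
  simp only [Finset.mem_filter, Finset.mem_symmDiff]
  tauto

/-- the boundary is additive -/
theorem bdr_symm (p q : E → V) (a c : Finset E) :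
    bdr p q (symmDiff a c) = symmDiff (bdr p q a) (bdr p q c) := by
  ext v
  rw [Finset.mem_symmDiff]
  unfold bdr
  simp only [Finset.mem_filter, Finset.mem_univ, true_and]
  have h1 := card_symm (a.filter fun e => p e = v) (c.filter fun e => p e = v)
  have h2 := card_symm (a.filter fun e => q e = v) (c.filter fun e => q e = v)
  rw [← filter_symm] at h1 h2
  simp only [Nat.odd_iff]
  omega

/-- exchange of the sums -/
theorem DD_eq (p q : E → V) (K : E → ℝ) (E' : Finset E) (A B : Finset V) (F : Finset E → ℝ) :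
    DD p q K E' A B F = ∑ w : Finset E, ∑ x : Finset E × Finset E,
      if (bdr p q x.1 = A ∧ bdr p q x.2 = B ∧ x.1 ∩ E' ⊆ w ∧ x.2 ⊆ w ∧ w ⊆ E') then
        W2 K E' x.1 x.2 w * F w else 0 := by
  rw [Finset.sum_comm, Fintype.sum_prod_type]
  unfold DD
  rw [Finset.sum_filter]
  refine Finset.sum_congr rfl fun a _ => ?_
  by_cases ha : bdr p q a = A
  · rw [if_pos ha, Finset.sum_filter]
    refine Finset.sum_congr rfl fun b _ => ?_
    by_cases hb : bdr p q b = B ∧ b ⊆ E'
    · rw [if_pos hb, Finset.sum_filter]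
      refine Finset.sum_congr rfl fun w _ => ?_
      by_cases hw : a ∩ E' ⊆ w ∧ b ⊆ w ∧ w ⊆ E'
      · rw [if_pos hw, if_pos ⟨ha, hb.1, hw⟩]
      · rw [if_neg hw, if_neg (fun h => hw h.2.2)]
    · rw [if_neg hb]
      symm
      refine Finset.sum_eq_zero fun w _ => ?_
      rw [if_neg]
      rintro ⟨-, h1, -, h2, h3⟩
      exact hb ⟨h1, h2.trans h3⟩
  · rw [if_neg ha]
    symm
    refine Finset.sum_eq_zero fun b _ => Finset.sum_eq_zero fun w _ => ?_
    rw [if_neg (fun h => ha h.1)]

/-- the weight does not change -/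
theorem W2_symm (K : E → ℝ) (E' a b w c : Finset E) (hc : c ⊆ w) (hw : w ⊆ E') :
    W2 K E' (symmDiff a c) (symmDiff b c) w = W2 K E' a b w := by
  unfold W2
  refine Finset.prod_congr rfl fun e _ => ?_
  by_cases he : e ∈ E'
  · rw [if_pos he, if_pos he]
    by_cases hew : e ∈ w
    · rw [if_pos hew, if_pos hew]
      have h : (e ∈ symmDiff a c ↔ e ∈ symmDiff b c) ↔ (e ∈ a ↔ e ∈ b) := by
        simp only [Finset.mem_symmDiff]
        tauto
      by_cases h' : (e ∈ a ↔ e ∈ b)
      · rw [if_pos h', if_pos (h.2 h')]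
      · rw [if_neg h', if_neg (fun h'' => h' (h.1 h''))]
    · rw [if_neg hew, if_neg hew]
  · rw [if_neg he, if_neg he]
    have hec : e ∉ c := fun h => he (hw (hc h))
    have h : e ∈ symmDiff a c ↔ e ∈ a := by
      simp only [Finset.mem_symmDiff]
      tauto
    by_cases h' : e ∈ a
    · rw [if_pos h', if_pos (h.2 h')]
    · rw [if_neg h', if_neg (fun h'' => h' (h.1 h''))]

end

/-- **switching lemma** -/
theorem switch : S_switch := by
  classical
  intro V E _ _ _ _ p q K E' A B F
  rw [DD_eq, DD_eq]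
  refine Finset.sum_congr rfl fun w _ => ?_
  by_cases hw : w ⊆ E'
  · by_cases hc : ∃ c ⊆ w, bdr p q c = B
    · have hind : ind (∃ c ⊆ w, bdr p q c = B) = 1 := by
        unfold ind
        rw [if_pos hc]
      rw [hind, one_mul]
      obtain ⟨c, hcw, hcB⟩ := hc
      have hinv : Function.Involutive (fun x : Finset E × Finset E =>
          ((symmDiff x.1 c, symmDiff x.2 c) : Finset E × Finset E)) := by
        rintro ⟨a, b⟩
        simp only [symmDiff_symmDiff_cancel_right]
      refine Eq.trans ?_ (Equiv.sum_comp hinv.toPerm _)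
      refine Finset.sum_congr rfl ?_
      rintro ⟨a, b⟩ -
      show _ = if (bdr p q (symmDiff a c) = symmDiff A B ∧ bdr p q (symmDiff b c) = ∅ ∧
        (symmDiff a c) ∩ E' ⊆ w ∧ symmDiff b c ⊆ w ∧ w ⊆ E') then
          W2 K E' (symmDiff a c) (symmDiff b c) w * F w else 0
      rw [W2_symm K E' a b w c hcw hw, bdr_symm, bdr_symm, hcB]
      have h1 : symmDiff (bdr p q a) B = symmDiff A B ↔ bdr p q a = A :=
        symmDiff_left_inj
      have h2 : symmDiff (bdr p q b) B = ∅ ↔ bdr p q b = B := by
        rw [← Finset.bot_eq_empty, symmDiff_eq_bot]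
      have h3 : (symmDiff a c) ∩ E' ⊆ w ↔ a ∩ E' ⊆ w := by
        constructor
        · intro h e he
          rw [Finset.mem_inter] at he
          by_cases hec : e ∈ c
          · exact hcw hec
          · exact h (Finset.mem_inter.2 ⟨Finset.mem_symmDiff.2 (Or.inl ⟨he.1, hec⟩), he.2⟩)
        · intro h e he
          rw [Finset.mem_inter, Finset.mem_symmDiff] at he
          rcases he with ⟨⟨h4, -⟩ | ⟨h4, -⟩, h5⟩
          · exact h (Finset.mem_inter.2 ⟨h4, h5⟩)
          · exact hcw h4
      have h4 : symmDiff b c ⊆ w ↔ b ⊆ w := by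
        constructor
        · intro h e he
          by_cases hec : e ∈ c
          · exact hcw hec
          · exact h (Finset.mem_symmDiff.2 (Or.inl ⟨he, hec⟩))
        · intro h e he
          rw [Finset.mem_symmDiff] at he
          rcases he with ⟨h5, -⟩ | ⟨h5, -⟩
          · exact h h5
          · exact hcw h5
      by_cases hh : bdr p q a = A ∧ bdr p q b = B ∧ a ∩ E' ⊆ w ∧ b ⊆ w ∧ w ⊆ E'
      · rw [if_pos hh, if_pos]
        exact ⟨h1.2 hh.1, h2.2 hh.2.1, h3.2 hh.2.2.1, h4.2 hh.2.2.2.1, hh.2.2.2.2⟩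
      · rw [if_neg hh, if_neg]
        rintro ⟨g1, g2, g3, g4, g5⟩
        exact hh ⟨h1.1 g1, h2.1 g2, h3.1 g3, h4.1 g4, g5⟩
    · have hind : ind (∃ c ⊆ w, bdr p q c = B) = 0 := by
        unfold ind
        rw [if_neg hc]
      rw [hind]
      rw [Finset.sum_eq_zero, Finset.sum_eq_zero]
      · intro x _
        rw [zero_mul, mul_zero, ite_self]
      · intro x _
        rw [if_neg]
        rintro ⟨-, g2, -, g4, -⟩
        exact hc ⟨x.2, g4, g2⟩
  · rw [Finset.sum_eq_zero, Finset.sum_eq_zero]
    · intro x _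
      rw [if_neg (fun h => hw h.2.2.2.2)]
    · intro x _
      rw [if_neg (fun h => hw h.2.2.2.2)]

end Pool.Agent.H307.IS
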