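import Pool.Agent.H960.IS.Stm

/-! Project IS (helper960): lower bound of the truncated correlation, assembly. -/

set_option autoImplicit false

open MeasureTheory Filter Topology Finset H960FV H960IS

namespace Pool.Agent.H763.IS

section graph

variable {V E : Type} [Fintype V] [DecidableEq V] [Fintype E] [DecidableEq E]

omit [Fintype V] [DecidableEq V] [Fintype E] [DecidableEq E] in
theorem con_symm {p q : E → V} {w : Finset E} {u v : V} (h : con p q w u v) : con p q w v u := by
  unfold con at h ⊢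
  induction h with
  | refl => exact Relation.ReflTransGen.refl
  | tail _ h2 ih =>
    refine Relation.ReflTransGen.head ?_ ih
    obtain ⟨e, he, h | h⟩ := h2
    · exact ⟨e, he, Or.inr h⟩
    · exact ⟨e, he, Or.inl h⟩

omit [Fintype V] [DecidableEq V] [Fintype E] [DecidableEq E] in
theorem con_trans {p q : E → V} {w : Finset E} {u v z : V} (h : con p q w u v)
    (h' : con p q w v z) : con p q w u z := Relation.ReflTransGen.trans h h'

theorem ind_le (p q : E → V) (w : Finset E) (o g x y : V) :
    ind (con p q w o x ∧ con p q w y g ∧ ¬ con p q w o g) +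
      ind (con p q w o y ∧ con p q w x g ∧ ¬ con p q w o g) ≤ ind (¬ con p q w x y) := by
  unfold ind
  by_cases h1 : con p q w o x ∧ con p q w y g ∧ ¬ con p q w o g
  · have h2 : ¬ (con p q w o y ∧ con p q w x g ∧ ¬ con p q w o g) := fun h =>
      h1.2.2 (con_trans h1.1 h.2.1)
    have h3 : ¬ con p q w x y := fun h =>
      h1.2.2 (con_trans h1.1 (con_trans h h1.2.1))
    rw [if_pos h1, if_neg h2, if_pos h3]
    norm_num
  · rw [if_neg h1]
    by_cases h2 : con p q w o y ∧ con p q w x g ∧ ¬ con p q w o g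
    · have h3 : ¬ con p q w x y := fun h =>
        h2.2.2 (con_trans h2.1 (con_trans (con_symm h) h2.2.1))
      rw [if_pos h2, if_pos h3]
      norm_num
    · rw [if_neg h2]
      split_ifs <;> norm_num

theorem W2_nonneg {K : E → ℝ} (hK : ∀ e, 0 ≤ K e) (E' a b w : Finset E) : 0 ≤ W2 K E' a b w := by
  unfold W2
  refine Finset.prod_nonneg fun e _ => ?_
  have h1 : 0 ≤ Real.sinh (K e) := Real.sinh_nonneg_iff.2 (hK e)
  have h2 : 0 ≤ Real.cosh (K e) := (Real.cosh_pos _).le
  split_ifs <;> positivity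

theorem DD_mono {p q : E → V} {K : E → ℝ} (hK : ∀ e, 0 ≤ K e) (E' : Finset E) (A B : Finset V)
    {F G : Finset E → ℝ} (h : ∀ w, F w ≤ G w) : DD p q K E' A B F ≤ DD p q K E' A B G := by
  unfold DD
  refine Finset.sum_le_sum fun a _ => Finset.sum_le_sum fun b _ => Finset.sum_le_sum fun w _ => ?_
  exact mul_le_mul_of_nonneg_left (h w) (W2_nonneg hK _ _ _ _)

theorem DD_add (p q : E → V) (K : E → ℝ) (E' : Finset E) (A B : Finset V)
    (F G : Finset E → ℝ) : DD p q K E' A B (fun w => F w + G w) =
      DD p q K E' A B F + DD p q K E' A B G := by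
  unfold DD
  simp only [mul_add, Finset.sum_add_distrib]

theorem Y_pos (h1 : S_ht) (p q : E → V) (K : E → ℝ) : 0 < Y p q K ∅ := by
  have h := h1 V E p q K ∅
  have hz : 0 < Zs p q K ∅ := by
    unfold Zs
    refine Finset.sum_pos (fun σ _ => ?_) Finset.univ_nonempty
    rw [Finset.prod_empty, one_mul]
    exact Real.exp_pos _
  rw [h] at hz
  by_contra hc
  have h2 : (0 : ℝ) < 2 ^ Fintype.card V := by positivity
  exact absurd hz (not_lt.2 (mul_nonpos_of_nonneg_of_nonpos h2.le (not_lt.1 hc)))

end graph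

theorem T (h1 : S_ht) (ha : S_Ta) (hb : S_Tb) (hc : S_Tc) (_h4 : S_par) : S_T := by
  classical
  intro V E _ _ _ _ p q K hK o g x y
  have hY := Y_pos h1 p q K
  have hY2 : 0 < (Y p q K ∅) ^ 2 := by positivity
  refine le_of_mul_le_mul_right ?_ hY2
  rw [ha V E p q K hK o g x y]
  have e : symmDiff (symmDiff {o} {g}) (symmDiff {y} {x}) =
      symmDiff (symmDiff {o} {g}) (symmDiff {x} {y} : Finset V) := by
    rw [symmDiff_comm ({y} : Finset V) {x}]
  have b1 := hb V E p q K hK o g x y
  have b2 := hb V E p q K hK o g y x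
  rw [e] at b2
  have c1 := hc V E p q K hK o g x y
  have c2 := hc V E p q K hK o g y x
  have key : (∑ S ∈ univ.filter (fun S : Finset V => o ∈ S ∧ g ∉ S), PS p q K g S *
      (ind (x ∈ S ∧ y ∉ S) * corS p q K S (symmDiff {o} {x}) +
        ind (y ∈ S ∧ x ∉ S) * corS p q K S (symmDiff {o} {y}))) * (Y p q K ∅) ^ 2 =
      DD p q K univ (symmDiff {o} {x}) ∅ (fun w => ind (con p q w y g ∧ ¬ con p q w o g)) +
      DD p q K univ (symmDiff {o} {y}) ∅ (fun w => ind (con p q w x g ∧ ¬ con p q w o g)) := by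
    rw [c1, c2, Finset.sum_mul, Finset.sum_filter, Finset.sum_filter, Finset.sum_filter,
      ← Finset.sum_add_distrib]
    refine Finset.sum_congr rfl fun S _ => ?_
    unfold ind
    by_cases ho : o ∈ S <;> by_cases hg : g ∈ S <;> by_cases hx : x ∈ S <;> by_cases hy : y ∈ S <;>
      simp [ho, hg, hx, hy] <;> ring
  rw [key]
  refine (add_le_add b1 b2).trans ?_
  rw [← DD_add]
  exact DD_mono hK _ _ _ fun w => ind_le p q w o g x y

end Pool.Agent.H763.IS
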