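import Pool.Agent.H960.IS.Stm

/-!
Project IS of helper960, part TA: the truncated correlation as a double current sum.
-/

set_option autoImplicit false

open Finset H960FV H960IS

namespace Pool.Agent.H367.IS

section

variable {V E : Type} [Fintype V] [DecidableEq V] [Fintype E] [DecidableEq E]

theorem res_univ (K : E → ℝ) : res K univ = K := by
  funext e
  unfold res
  rw [if_pos (mem_univ e)]

theorem Zs_pos (p q : E → V) (K : E → ℝ) : 0 < Zs p q K ∅ := by
  unfold Zs
  apply sum_pos
  · intro σ _
    rw [prod_empty, one_mul]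
    exact Real.exp_pos _
  · exact ⟨fun _ => true, mem_univ _⟩

theorem DD_sub (p q : E → V) (K : E → ℝ) (E' : Finset E) (A B : Finset V)
    (F G : Finset E → ℝ) :
    DD p q K E' A B F - DD p q K E' A B G = DD p q K E' A B (fun w => F w - G w) := by
  unfold DD
  rw [← sum_sub_distrib]
  refine sum_congr rfl fun a _ => ?_
  rw [← sum_sub_distrib]
  refine sum_congr rfl fun b _ => ?_
  rw [← sum_sub_distrib]
  refine sum_congr rfl fun w _ => ?_
  rw [mul_sub]

end

theorem Ta (h1 : S_ht) (h2 : S_dd1) (h3 : S_switch) (h4 : S_par) : S_Ta := by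
  intro V E _ _ _ _ p q K _ o g x y
  have hV : (2 : ℝ) ^ Fintype.card V ≠ 0 := by positivity
  have hY : Y p q K ∅ ≠ 0 := by
    intro h
    have h5 := Zs_pos p q K
    rw [h1 V E p q K ∅, h, mul_zero] at h5
    exact lt_irrefl _ h5
  have hcor : ∀ A : Finset V, cor p q K A = Y p q K A / Y p q K ∅ := by
    intro A
    unfold cor
    rw [h1 V E p q K A, h1 V E p q K ∅, mul_div_mul_left _ _ hV]
  set A : Finset V := symmDiff {o} {g} with hA
  set B : Finset V := symmDiff {x} {y} with hB
  have e1 : Y p q K (symmDiff A B) * Y p q K ∅ = DD p q K univ (symmDiff A B) ∅ (fun _ => 1) := by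
    rw [h2 V E p q K univ (symmDiff A B) ∅, res_univ]
  have e2 : Y p q K A * Y p q K B =
      DD p q K univ (symmDiff A B) ∅ (fun w => ind (con p q w x y)) := by
    have e3 := h2 V E p q K univ A B
    rw [res_univ] at e3
    rw [← e3, h3 V E p q K univ A B (fun _ => 1)]
    congr 1
    funext w
    rw [mul_one]
    congr 1
    exact propext ((h4 V E p q w).1 x y)
  have e4 : (cor p q K (symmDiff A B) - cor p q K A * cor p q K B) * Y p q K ∅ ^ 2 =
      Y p q K (symmDiff A B) * Y p q K ∅ - Y p q K A * Y p q K B := by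
    rw [hcor, hcor, hcor]
    field_simp
  rw [e4, e1, e2, DD_sub]
  congr 1
  funext w
  unfold ind
  by_cases h : con p q w x y
  · rw [if_pos h, if_neg (not_not.2 h), sub_self]
  · rw [if_neg h, if_pos h, sub_zero]

end Pool.Agent.H367.IS
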