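import Pool.Agent.H960.IS.Stm

/-!
# Project IS, task TB: cluster comparison for double currents
-/

set_option autoImplicit false
set_option linter.unusedSectionVars false

open Finset H960FV H960IS

namespace Pool.Agent.H396.IS

section

variable {V E : Type} [Fintype V] [DecidableEq V] [Fintype E] [DecidableEq E]

/-- weight of a triple -/
noncomputable def om (K : E → ℝ) (t : Finset E × Finset E × Finset E) : ℝ :=
  ∏ e ∈ t.2.2, if (e ∈ t.1 ↔ e ∈ t.2.1) then Real.sinh (K e) ^ 2
    else Real.sinh (K e) * Real.cosh (K e)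

/-- the triples -/
def TT (p q : E → V) (A B : Finset V) (D : Finset E) :
    Finset (Finset E × Finset E × Finset E) :=
  univ.filter fun t => bdr p q t.1 = A ∧ bdr p q t.2.1 = B ∧ t.1 ⊆ t.2.2 ∧ t.2.1 ⊆ t.2.2 ∧
    t.2.2 ⊆ D

theorem mem_TT {p q : E → V} {A B : Finset V} {D : Finset E}
    {t : Finset E × Finset E × Finset E} : t ∈ TT p q A B D ↔
      bdr p q t.1 = A ∧ bdr p q t.2.1 = B ∧ t.1 ⊆ t.2.2 ∧ t.2.1 ⊆ t.2.2 ∧ t.2.2 ⊆ D := by
  unfold TT
  rw [mem_filter]
  exact and_iff_right (mem_univ t)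

theorem W2_eq (K : E → ℝ) (a b w : Finset E) : W2 K univ a b w = om K (a, b, w) := by
  unfold W2 om
  simp only [mem_univ, if_true]
  rw [Finset.prod_ite_mem, univ_inter]

theorem DD_eq (p q : E → V) (K : E → ℝ) (A B : Finset V) (F : Finset E → ℝ) :
    DD p q K univ A B F = ∑ t ∈ TT p q A B univ, om K t * F t.2.2 := by
  unfold DD TT
  rw [Finset.sum_filter, Finset.sum_filter, Fintype.sum_prod_type]
  refine Finset.sum_congr rfl fun a _ => ?_
  rw [Fintype.sum_prod_type]
  by_cases ha : bdr p q a = A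
  · rw [if_pos ha, Finset.sum_filter]
    refine Finset.sum_congr rfl fun b _ => ?_
    by_cases hb : bdr p q b = B
    · rw [if_pos ⟨hb, subset_univ b⟩, Finset.sum_filter]
      refine Finset.sum_congr rfl fun w _ => ?_
      by_cases h : a ⊆ w ∧ b ⊆ w
      · rw [if_pos ⟨by rw [inter_univ]; exact h.1, h.2, subset_univ w⟩,
          if_pos ⟨ha, hb, h.1, h.2, subset_univ w⟩, W2_eq]
      · rw [if_neg (fun h' => h ⟨by rw [inter_univ] at h'; exact h'.1, h'.2.1⟩),
          if_neg (fun h' => h ⟨h'.2.2.1, h'.2.2.2.1⟩)]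
    · rw [if_neg (fun h' => hb h'.1)]
      symm
      exact Finset.sum_eq_zero fun w _ => if_neg (fun h' => hb h'.2.1)
  · rw [if_neg ha]
    symm
    exact Finset.sum_eq_zero fun b _ => Finset.sum_eq_zero fun w _ => if_neg (fun h' => ha h'.1)

/-- restricted couplings -/
theorem DD_res (p q : E → V) (K : E → ℝ) (D : Finset E) (A B : Finset V)
    (F : Finset E → ℝ) :
    DD p q (res K D) univ A B F = ∑ t ∈ TT p q A B D, om K t * F t.2.2 := by
  rw [DD_eq]
  have hsub : TT p q A B D ⊆ TT p q A B univ := by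
    intro t ht
    rw [mem_TT] at ht ⊢
    exact ⟨ht.1, ht.2.1, ht.2.2.1, ht.2.2.2.1, subset_univ _⟩
  rw [← Finset.sum_subset hsub]
  · refine Finset.sum_congr rfl fun t ht => ?_
    rw [mem_TT] at ht
    congr 1
    unfold om
    refine Finset.prod_congr rfl fun e he => ?_
    have h1 : res K D e = K e := by
      unfold res
      rw [if_pos (ht.2.2.2.2 he)]
    rw [h1]
  · intro t ht htn
    rw [mem_TT] at ht
    have h1 : ¬ t.2.2 ⊆ D := fun h => htn (mem_TT.2 ⟨ht.1, ht.2.1, ht.2.2.1, ht.2.2.2.1, h⟩)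
    rw [Finset.not_subset] at h1
    obtain ⟨e, he, heD⟩ := h1
    have h2 : om (res K D) t = 0 := by
      unfold om
      apply Finset.prod_eq_zero he
      have h3 : res K D e = 0 := by
        unfold res
        rw [if_neg heD]
      rw [h3, Real.sinh_zero]
      by_cases h4 : (e ∈ t.1 ↔ e ∈ t.2.1)
      · rw [if_pos h4]
        norm_num
      · rw [if_neg h4, zero_mul]
    rw [h2, zero_mul]

theorem om_nonneg {K : E → ℝ} (hK : ∀ e, 0 ≤ K e) (t : Finset E × Finset E × Finset E) :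
    0 ≤ om K t := by
  unfold om
  apply Finset.prod_nonneg
  intro e _
  have h1 : 0 ≤ Real.sinh (K e) := Real.sinh_nonneg_iff.2 (hK e)
  have h2 : 0 ≤ Real.cosh (K e) := (Real.cosh_pos _).le
  split_ifs
  · exact pow_nonneg h1 2
  · exact mul_nonneg h1 h2

theorem ind_nonneg (P : Prop) : 0 ≤ ind P := by
  unfold ind
  split_ifs
  · exact zero_le_one
  · exact le_rfl

theorem ind_le_one (P : Prop) : ind P ≤ 1 := by
  unfold ind
  split_ifs
  · exact le_rfl
  · exact zero_le_one

theorem ind_pos {P : Prop} (h : P) : ind P = 1 := by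
  unfold ind
  rw [if_pos h]

theorem ind_neg {P : Prop} (h : ¬ P) : ind P = 0 := by
  unfold ind
  rw [if_neg h]

theorem ind_congr {P Q : Prop} (h : P ↔ Q) : ind P = ind Q := by
  rw [propext h]

/-! ### Boundaries -/

theorem mem_ins {p q : E → V} {S : Finset V} {e : E} : e ∈ ins p q S ↔ p e ∈ S ∧ q e ∈ S := by
  unfold ins
  rw [mem_filter]
  exact and_iff_right (mem_univ e)

theorem mem_bdr {p q : E → V} {a : Finset E} {v : V} : v ∈ bdr p q a ↔
    Odd ((a.filter fun e => p e = v).card + (a.filter fun e => q e = v).card) := by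
  unfold bdr
  rw [mem_filter]
  exact and_iff_right (mem_univ v)

theorem ins_disj (p q : E → V) (C : Finset V) : Disjoint (ins p q C) (ins p q Cᶜ) := by
  rw [Finset.disjoint_left]
  intro e h1 h2
  rw [mem_ins] at h1 h2
  exact (mem_compl.1 h2.1) h1.1

theorem bdr_inter {p q : E → V} {C : Finset V} {a : Finset E}
    (ha : a ⊆ ins p q C ∪ ins p q Cᶜ) : bdr p q (a ∩ ins p q C) = bdr p q a ∩ C := by
  ext v
  rw [mem_inter, mem_bdr, mem_bdr]
  by_cases hv : v ∈ C
  · have key : ∀ e ∈ a, (p e = v ∨ q e = v) → e ∈ ins p q C := by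
      intro e he h
      rcases mem_union.1 (ha he) with h1 | h1
      · exact h1
      · rw [mem_ins] at h1
        rcases h with h | h
        · exact absurd (h ▸ hv) (mem_compl.1 h1.1)
        · exact absurd (h ▸ hv) (mem_compl.1 h1.2)
    have e1 : ((a ∩ ins p q C).filter fun e => p e = v) = a.filter fun e => p e = v := by
      ext e
      rw [mem_filter, mem_filter, mem_inter]
      exact ⟨fun h => ⟨h.1.1, h.2⟩, fun h => ⟨⟨h.1, key e h.1 (Or.inl h.2)⟩, h.2⟩⟩
    have e2 : ((a ∩ ins p q C).filter fun e => q e = v) = a.filter fun e => q e = v := by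
      ext e
      rw [mem_filter, mem_filter, mem_inter]
      exact ⟨fun h => ⟨h.1.1, h.2⟩, fun h => ⟨⟨h.1, key e h.1 (Or.inr h.2)⟩, h.2⟩⟩
    rw [e1, e2]
    exact (and_iff_left hv).symm
  · have e1 : ((a ∩ ins p q C).filter fun e => p e = v) = ∅ := by
      rw [Finset.filter_eq_empty_iff]
      intro e he h
      have h1 := mem_ins.1 (mem_inter.1 he).2
      exact hv (h ▸ h1.1)
    have e2 : ((a ∩ ins p q C).filter fun e => q e = v) = ∅ := by
      rw [Finset.filter_eq_empty_iff]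
      intro e he h
      have h1 := mem_ins.1 (mem_inter.1 he).2
      exact hv (h ▸ h1.2)
    rw [e1, e2, card_empty]
    constructor
    · intro h
      exact absurd h (by decide)
    · intro h
      exact absurd h.2 hv

theorem bdr_inter' {p q : E → V} {C : Finset V} {a : Finset E}
    (ha : a ⊆ ins p q C ∪ ins p q Cᶜ) : bdr p q (a ∩ ins p q Cᶜ) = bdr p q a \ C := by
  rw [bdr_inter (C := Cᶜ) (by rw [compl_compl, union_comm]; exact ha)]
  ext v
  rw [mem_inter, mem_sdiff, mem_compl]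

theorem bdr_iff {p q : E → V} {C : Finset V} {a : Finset E} {A : Finset V}
    (ha : a ⊆ ins p q C ∪ ins p q Cᶜ) : bdr p q a = A ↔
      bdr p q (a ∩ ins p q C) = A ∩ C ∧ bdr p q (a ∩ ins p q Cᶜ) = A \ C := by
  rw [bdr_inter ha, bdr_inter' ha]
  constructor
  · rintro rfl
    exact ⟨rfl, rfl⟩
  · rintro ⟨h1, h2⟩
    ext v
    by_cases hv : v ∈ C
    · have := congrArg (fun S : Finset V => v ∈ S) h1
      simp only [mem_inter, hv, and_true] at this
      exact iff_of_eq this
    · have := congrArg (fun S : Finset V => v ∈ S) h2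
      simp only [mem_sdiff, hv, not_false_eq_true, and_true] at this
      exact iff_of_eq this

/-! ### Factorisation -/

theorem split_union {D1 D2 a : Finset E} (h : a ⊆ D1 ∪ D2) : a ∩ D1 ∪ a ∩ D2 = a := by
  rw [← Finset.inter_union_distrib_left]
  exact Finset.inter_eq_left.2 h

theorem union_inter_left {D1 D2 a b : Finset E} (hd : Disjoint D1 D2) (ha : a ⊆ D1)
    (hb : b ⊆ D2) : (a ∪ b) ∩ D1 = a := by
  ext e
  rw [mem_inter, mem_union]
  constructor
  · rintro ⟨h | h, h1⟩
    · exact h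
    · exact absurd (hb h) (Finset.disjoint_left.1 hd h1)
  · intro h
    exact ⟨Or.inl h, ha h⟩

theorem union_inter_right {D1 D2 a b : Finset E} (hd : Disjoint D1 D2) (ha : a ⊆ D1)
    (hb : b ⊆ D2) : (a ∪ b) ∩ D2 = b := by
  rw [union_comm]
  exact union_inter_left hd.symm hb ha

theorem om_mul (K : E → ℝ) {D1 D2 : Finset E} (hd : Disjoint D1 D2)
    {s t : Finset E × Finset E × Finset E} (hs : s.1 ⊆ s.2.2 ∧ s.2.1 ⊆ s.2.2 ∧ s.2.2 ⊆ D1)
    (ht : t.1 ⊆ t.2.2 ∧ t.2.1 ⊆ t.2.2 ∧ t.2.2 ⊆ D2) :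
    om K (s.1 ∪ t.1, s.2.1 ∪ t.2.1, s.2.2 ∪ t.2.2) = om K s * om K t := by
  have hd' : Disjoint s.2.2 t.2.2 :=
    Finset.disjoint_of_subset_left hs.2.2 (Finset.disjoint_of_subset_right ht.2.2 hd)
  unfold om
  simp only
  rw [Finset.prod_union hd']
  congr 1
  · refine Finset.prod_congr rfl fun e he => ?_
    have h1 : e ∉ t.2.2 := Finset.disjoint_left.1 hd' he
    have h2 : e ∉ t.1 := fun h => h1 (ht.1 h)
    have h3 : e ∉ t.2.1 := fun h => h1 (ht.2.1 h)
    simp only [mem_union, h2, h3, or_false]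
  · refine Finset.prod_congr rfl fun e he => ?_
    have h1 : e ∉ s.2.2 := Finset.disjoint_right.1 hd' he
    have h2 : e ∉ s.1 := fun h => h1 (hs.1 h)
    have h3 : e ∉ s.2.1 := fun h => h1 (hs.2.1 h)
    simp only [mem_union, h2, h3, false_or]

theorem factor (p q : E → V) (K : E → ℝ) (A B C : Finset V) (F1 F2 : Finset E → ℝ) :
    ∑ t ∈ TT p q A B (ins p q C ∪ ins p q Cᶜ),
      om K t * (F1 (t.2.2 ∩ ins p q C) * F2 (t.2.2 ∩ ins p q Cᶜ)) =
    (∑ t ∈ TT p q (A ∩ C) (B ∩ C) (ins p q C), om K t * F1 t.2.2) *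
      ∑ t ∈ TT p q (A \ C) (B \ C) (ins p q Cᶜ), om K t * F2 t.2.2 := by
  have hd := ins_disj p q C
  rw [Finset.sum_mul_sum, ← Finset.sum_product']
  symm
  refine Finset.sum_nbij'
    (fun x : (Finset E × Finset E × Finset E) × (Finset E × Finset E × Finset E) =>
      (x.1.1 ∪ x.2.1, x.1.2.1 ∪ x.2.2.1, x.1.2.2 ∪ x.2.2.2))
    (fun t : Finset E × Finset E × Finset E =>
      ((t.1 ∩ ins p q C, t.2.1 ∩ ins p q C, t.2.2 ∩ ins p q C),
        (t.1 ∩ ins p q Cᶜ, t.2.1 ∩ ins p q Cᶜ, t.2.2 ∩ ins p q Cᶜ))) ?_ ?_ ?_ ?_ ?_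
  · rintro ⟨s, t⟩ hst
    obtain ⟨hs, ht⟩ := mem_product.1 hst
    rw [mem_TT] at hs ht
    simp only at hs ht ⊢
    obtain ⟨s1, s2, s3, s4, s5⟩ := hs
    obtain ⟨t1, t2, t3, t4, t5⟩ := ht
    rw [mem_TT]
    have e1 := union_inter_left hd (s3.trans s5) (t3.trans t5)
    have e2 := union_inter_right hd (s3.trans s5) (t3.trans t5)
    have e3 := union_inter_left hd (s4.trans s5) (t4.trans t5)
    have e4 := union_inter_right hd (s4.trans s5) (t4.trans t5)
    refine ⟨?_, ?_, union_subset_union s3 t3, union_subset_union s4 t4,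
      union_subset_union s5 t5⟩
    · rw [bdr_iff (union_subset_union (s3.trans s5) (t3.trans t5)), e1, e2]
      exact ⟨s1, t1⟩
    · rw [bdr_iff (union_subset_union (s4.trans s5) (t4.trans t5)), e3, e4]
      exact ⟨s2, t2⟩
  · intro t ht
    rw [mem_TT] at ht
    obtain ⟨t1, t2, t3, t4, t5⟩ := ht
    rw [bdr_iff (t3.trans t5)] at t1
    rw [bdr_iff (t4.trans t5)] at t2
    rw [mem_product, mem_TT, mem_TT]
    exact ⟨⟨t1.1, t2.1, inter_subset_inter_right t3, inter_subset_inter_right t4,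
      inter_subset_right⟩, ⟨t1.2, t2.2, inter_subset_inter_right t3, inter_subset_inter_right t4,
      inter_subset_right⟩⟩
  · rintro ⟨s, t⟩ hst
    obtain ⟨hs, ht⟩ := mem_product.1 hst
    rw [mem_TT] at hs ht
    simp only at hs ht ⊢
    obtain ⟨s1, s2, s3, s4, s5⟩ := hs
    obtain ⟨t1, t2, t3, t4, t5⟩ := ht
    rw [union_inter_left hd (s3.trans s5) (t3.trans t5),
      union_inter_right hd (s3.trans s5) (t3.trans t5),
      union_inter_left hd (s4.trans s5) (t4.trans t5),
      union_inter_right hd (s4.trans s5) (t4.trans t5),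
      union_inter_left hd s5 t5, union_inter_right hd s5 t5]
  · intro t ht
    rw [mem_TT] at ht
    obtain ⟨t1, t2, t3, t4, t5⟩ := ht
    simp only
    rw [split_union (t3.trans t5), split_union (t4.trans t5), split_union t5]
  · rintro ⟨s, t⟩ hst
    obtain ⟨hs, ht⟩ := mem_product.1 hst
    rw [mem_TT] at hs ht
    simp only at hs ht ⊢
    obtain ⟨s1, s2, s3, s4, s5⟩ := hs
    obtain ⟨t1, t2, t3, t4, t5⟩ := ht
    rw [om_mul K hd ⟨s3, s4, s5⟩ ⟨t3, t4, t5⟩, union_inter_left hd s5 t5,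
      union_inter_right hd s5 t5]
    ring

/-! ### Connections -/

theorem con_mono {p q : E → V} {w w' : Finset E} (h : w ⊆ w') {u v : V}
    (hc : con p q w u v) : con p q w' u v := by
  unfold con at hc ⊢
  induction hc with
  | refl => exact Relation.ReflTransGen.refl
  | tail _ hbc ih =>
    obtain ⟨e, he, h1⟩ := hbc
    exact ih.tail ⟨e, h he, h1⟩

theorem con_symm {p q : E → V} {w : Finset E} {u v : V} (hc : con p q w u v) :
    con p q w v u := by
  unfold con at hc ⊢
  induction hc with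
  | refl => exact Relation.ReflTransGen.refl
  | tail _ hbc ih =>
    refine Relation.ReflTransGen.head ?_ ih
    obtain ⟨e, he, h | h⟩ := hbc
    · exact ⟨e, he, Or.inr h⟩
    · exact ⟨e, he, Or.inl h⟩

theorem con_trans {p q : E → V} {w : Finset E} {u v x : V} (h1 : con p q w u v)
    (h2 : con p q w v x) : con p q w u x := Relation.ReflTransGen.trans h1 h2

theorem con_in {p q : E → V} {w : Finset E} {C : Finset V}
    (hw : w ⊆ ins p q C ∪ ins p q Cᶜ) {u v : V} (hu : u ∈ C) (h : con p q w u v) :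
    v ∈ C ∧ con p q (w ∩ ins p q C) u v := by
  unfold con at h ⊢
  induction h with
  | refl => exact ⟨hu, Relation.ReflTransGen.refl⟩
  | tail _ hbc ih =>
    obtain ⟨e, he, h⟩ := hbc
    obtain ⟨hb, ih⟩ := ih
    rcases mem_union.1 (hw he) with h1 | h1
    · have h2 := mem_ins.1 h1
      refine ⟨?_, ih.tail ⟨e, mem_inter.2 ⟨he, h1⟩, h⟩⟩
      rcases h with h | h
      · rw [← h.2]; exact h2.2
      · rw [← h.1]; exact h2.1
    · exfalso
      have h2 := mem_ins.1 h1
      rcases h with h | h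
      · exact (mem_compl.1 h2.1) (h.1 ▸ hb)
      · exact (mem_compl.1 h2.2) (h.2 ▸ hb)

theorem con_out {p q : E → V} {w : Finset E} {C : Finset V}
    (hw : w ⊆ ins p q C ∪ ins p q Cᶜ) {u v : V} (hu : u ∉ C) :
    con p q w u v ↔ con p q (w ∩ ins p q Cᶜ) u v :=
  ⟨fun h => (con_in (C := Cᶜ) (by rw [compl_compl, union_comm]; exact hw) (mem_compl.2 hu) h).2,
    fun h => con_mono inter_subset_left h⟩

open Classical in
/-- the cluster -/
noncomputable def cl (p q : E → V) (o : V) (w : Finset E) : Finset V :=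
  univ.filter fun v => con p q w o v

theorem mem_cl {p q : E → V} {o v : V} {w : Finset E} : v ∈ cl p q o w ↔ con p q w o v := by
  simp [cl]

theorem cl_iff {p q : E → V} {o : V} {w : Finset E} {C : Finset V} (ho : o ∈ C) :
    cl p q o w = C ↔ w ⊆ ins p q C ∪ ins p q Cᶜ ∧ ∀ v ∈ C, con p q (w ∩ ins p q C) o v := by
  constructor
  · rintro rfl
    have hw : w ⊆ ins p q (cl p q o w) ∪ ins p q (cl p q o w)ᶜ := by
      intro e he
      have h1 : con p q w (p e) (q e) := Relation.ReflTransGen.single ⟨e, he, Or.inl ⟨rfl, rfl⟩⟩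
      rw [mem_union, mem_ins, mem_ins, mem_compl, mem_compl, mem_cl, mem_cl]
      by_cases h2 : con p q w o (p e)
      · exact Or.inl ⟨h2, con_trans h2 h1⟩
      · exact Or.inr ⟨h2, fun h3 => h2 (con_trans h3 (con_symm h1))⟩
    exact ⟨hw, fun v hv => (con_in hw ho (mem_cl.1 hv)).2⟩
  · rintro ⟨hw, h⟩
    ext v
    rw [mem_cl]
    exact ⟨fun h1 => (con_in hw ho h1).1, fun h1 => con_mono inter_subset_left (h v h1)⟩

/-! ### The decomposition -/

theorem decomp (p q : E → V) (K : E → ℝ) (A B C : Finset V) {o g y : V} (ho : o ∈ C)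
    (hy : y ∉ C) (F : Finset E → ℝ)
    (hF : ∀ w, cl p q o w = C → F w = ind (con p q w y g)) :
    ∑ t ∈ (TT p q A B univ).filter (fun t => cl p q o t.2.2 = C), om K t * F t.2.2 =
    (∑ t ∈ TT p q (A ∩ C) (B ∩ C) (ins p q C), om K t * ind (∀ v ∈ C, con p q t.2.2 o v)) *
      ∑ t ∈ TT p q (A \ C) (B \ C) (ins p q Cᶜ), om K t * ind (con p q t.2.2 y g) := by
  rw [← factor p q K A B C (fun w => ind (∀ v ∈ C, con p q w o v)) (fun w => ind (con p q w y g))]
  have hsub : (TT p q A B univ).filter (fun t => cl p q o t.2.2 = C) ⊆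
      TT p q A B (ins p q C ∪ ins p q Cᶜ) := by
    intro t ht
    obtain ⟨h1, h2⟩ := mem_filter.1 ht
    rw [mem_TT] at h1 ⊢
    exact ⟨h1.1, h1.2.1, h1.2.2.1, h1.2.2.2.1, ((cl_iff ho).1 h2).1⟩
  rw [← Finset.sum_subset hsub]
  · refine Finset.sum_congr rfl fun t ht => ?_
    obtain ⟨h1, h2⟩ := mem_filter.1 ht
    obtain ⟨h3, h4⟩ := (cl_iff ho).1 h2
    rw [hF _ h2, ind_pos h4, one_mul, ind_congr (con_out h3 hy)]
  · intro t ht htn
    rw [mem_TT] at ht
    have h1 : ¬ ∀ v ∈ C, con p q (t.2.2 ∩ ins p q C) o v := by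
      intro h2
      apply htn
      rw [mem_filter, mem_TT]
      exact ⟨⟨ht.1, ht.2.1, ht.2.2.1, ht.2.2.2.1, subset_univ _⟩, (cl_iff ho).2 ⟨ht.2.2.2.2, h2⟩⟩
    rw [ind_neg h1, zero_mul, mul_zero]

/-! ### The outside -/

theorem res_univ (K : E → ℝ) : res K univ = K := by
  funext e
  unfold res
  rw [if_pos (mem_univ e)]

theorem Y_nonneg {p q : E → V} {K : E → ℝ} (hK : ∀ e, 0 ≤ K e) (A : Finset V) :
    0 ≤ Y p q K A := by
  unfold Y
  apply Finset.sum_nonneg
  intro a _
  unfold wt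
  apply Finset.prod_nonneg
  intro e _
  split_ifs
  · exact Real.sinh_nonneg_iff.2 (hK e)
  · exact (Real.cosh_pos _).le

theorem outside (h2 : S_dd1) (h3 : S_switch) (h4 : S_par) (p q : E → V) (K : E → ℝ)
    (hK : ∀ e, 0 ≤ K e) (y g : V) :
    DD p q K univ ∅ ∅ (fun w => ind (con p q w y g)) ≤
      DD p q K univ (symmDiff {g} {y}) ∅ (fun w => ind (con p q w y g)) := by
  have hF : (fun w : Finset E => ind (∃ c ⊆ w, bdr p q c = symmDiff {y} {g}) * 1) =
      fun w => ind (con p q w y g) := by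
    funext w
    rw [mul_one, ind_congr ((h4 V E p q w).1 y g)]
  have e1 := h3 V E p q K univ (symmDiff {y} {g}) (symmDiff {y} {g}) (fun _ => 1)
  rw [hF, symmDiff_self, h2, res_univ, Finset.bot_eq_empty] at e1
  have e2 := h3 V E p q K univ ∅ (symmDiff {y} {g}) (fun _ => 1)
  rw [hF, h2, res_univ, ← Finset.bot_eq_empty, bot_symmDiff, Finset.bot_eq_empty] at e2
  rw [symmDiff_comm ({g} : Finset V) {y}, ← e1, ← e2]
  have hY := Y_nonneg (p := p) (q := q) hK (symmDiff {y} {g})
  have hY0 := Y_nonneg (p := p) (q := q) hK ∅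
  have e3 : DD p q K univ ∅ ∅ (fun w => ind (con p q w y g)) ≤
      DD p q K univ ∅ ∅ (fun _ => 1) := by
    rw [DD_eq, DD_eq]
    exact Finset.sum_le_sum fun t _ => mul_le_mul_of_nonneg_left (ind_le_one _) (om_nonneg hK t)
  rw [h2, res_univ, ← e1] at e3
  have e4 : Y p q K (symmDiff {y} {g}) ≤ Y p q K ∅ := by
    by_contra hcon
    push Not at hcon
    nlinarith
  exact mul_le_mul_of_nonneg_right e4 hY

end

/-- **Tb.** -/
theorem Tb (h2 : S_dd1) (h3 : S_switch) (h4 : S_par) : S_Tb := by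
  intro V E _ _ _ _ p q K hK o g x y
  rw [DD_eq, DD_eq, ← Finset.sum_fiberwise (TT p q (symmDiff {o} {x}) ∅ univ)
    (fun t => cl p q o t.2.2), ← Finset.sum_fiberwise
    (TT p q (symmDiff (symmDiff {o} {g}) (symmDiff {x} {y})) ∅ univ) (fun t => cl p q o t.2.2)]
  refine Finset.sum_le_sum fun C _ => ?_
  have hR0 : 0 ≤ ∑ t ∈ (TT p q (symmDiff (symmDiff {o} {g}) (symmDiff {x} {y})) ∅ univ).filter
      (fun t => cl p q o t.2.2 = C), om K t *
        ind (con p q t.2.2 o x ∧ con p q t.2.2 y g ∧ ¬ con p q t.2.2 o g) :=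
    Finset.sum_nonneg fun t _ => mul_nonneg (om_nonneg hK t) (ind_nonneg _)
  by_cases hgood : o ∈ C ∧ g ∉ C ∧ y ∉ C
  swap
  · refine le_trans (le_of_eq ?_) hR0
    refine Finset.sum_eq_zero fun t ht => ?_
    obtain ⟨-, hC⟩ := mem_filter.1 ht
    rw [ind_neg, mul_zero]
    rintro ⟨h5, h6⟩
    apply hgood
    rw [← hC]
    refine ⟨mem_cl.2 Relation.ReflTransGen.refl, fun h => h6 (mem_cl.1 h), fun h => ?_⟩
    exact h6 (con_trans (mem_cl.1 h) h5)
  obtain ⟨ho, hg, hy⟩ := hgood
  have hFL : ∀ w, cl p q o w = C → ind (con p q w y g ∧ ¬ con p q w o g) =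
      ind (con p q w y g) := by
    intro w hw
    apply ind_congr
    refine and_iff_left fun h => hg ?_
    rw [← hw]
    exact mem_cl.2 h
  have hL := decomp p q K (symmDiff {o} {x}) ∅ C ho hy
    (fun w => ind (con p q w y g ∧ ¬ con p q w o g)) hFL
  refine le_trans (le_of_eq hL) ?_
  by_cases hx : x ∈ C
  · have hFR : ∀ w, cl p q o w = C →
        ind (con p q w o x ∧ con p q w y g ∧ ¬ con p q w o g) = ind (con p q w y g) := by
      intro w hw
      apply ind_congr
      constructor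
      · exact fun h => h.2.1
      · intro h
        refine ⟨?_, h, fun h' => hg ?_⟩
        · rw [← mem_cl, hw]; exact hx
        · rw [← hw]; exact mem_cl.2 h'
    have hR := decomp p q K (symmDiff (symmDiff {o} {g}) (symmDiff {x} {y})) ∅ C ho hy
      (fun w => ind (con p q w o x ∧ con p q w y g ∧ ¬ con p q w o g)) hFR
    refine le_trans ?_ (le_of_eq hR.symm)
    have hne : ∀ v ∈ C, v ≠ g ∧ v ≠ y := fun v hv =>
      ⟨fun h => hg (h ▸ hv), fun h => hy (h ▸ hv)⟩
    have hne' : ∀ v, v ∉ C → v ≠ o ∧ v ≠ x := fun v hv =>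
      ⟨fun h => hv (h ▸ ho), fun h => hv (h ▸ hx)⟩
    have a1 : (symmDiff {o} {x} : Finset V) ∩ C = symmDiff {o} {x} := by
      ext v
      rw [mem_inter]
      refine and_iff_left_of_imp fun h => ?_
      by_contra hv
      obtain ⟨n1, n2⟩ := hne' v hv
      rw [mem_symmDiff, mem_singleton, mem_singleton] at h
      tauto
    have a2 : (symmDiff {o} {x} : Finset V) \ C = ∅ := by
      rw [Finset.sdiff_eq_empty_iff_subset, ← Finset.inter_eq_left]
      exact a1
    have a3 : (symmDiff (symmDiff {o} {g}) (symmDiff {x} {y}) : Finset V) ∩ C =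
        symmDiff {o} {x} := by
      ext v
      rw [mem_inter]
      by_cases hv : v ∈ C
      · obtain ⟨n1, n2⟩ := hne v hv
        simp only [mem_symmDiff, mem_singleton, n1, n2, hv, not_false_eq_true, and_true,
          false_and, or_false]
      · obtain ⟨n1, n2⟩ := hne' v hv
        simp only [mem_symmDiff, mem_singleton, n1, n2, hv, and_false, false_and, or_false]
    have a4 : (symmDiff (symmDiff {o} {g}) (symmDiff {x} {y}) : Finset V) \ C =
        symmDiff {g} {y} := by
      ext v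
      rw [mem_sdiff]
      by_cases hv : v ∈ C
      · obtain ⟨n1, n2⟩ := hne v hv
        simp only [mem_symmDiff, mem_singleton, n1, n2, hv, not_true_eq_false, and_false,
          false_and, or_false]
      · obtain ⟨n1, n2⟩ := hne' v hv
        simp only [mem_symmDiff, mem_singleton, n1, n2, hv, not_false_eq_true, and_true,
          false_and, false_or]
    rw [a1, a2, a3, a4, Finset.empty_inter, Finset.empty_sdiff]
    refine mul_le_mul_of_nonneg_left ?_
      (Finset.sum_nonneg fun t _ => mul_nonneg (om_nonneg hK t) (ind_nonneg _))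
    have h5 := outside h2 h3 h4 p q (res K (ins p q Cᶜ)) (fun e => by
      unfold res
      split_ifs
      · exact hK e
      · exact le_rfl) y g
    rw [DD_res, DD_res] at h5
    exact h5
  · refine le_trans (le_of_eq ?_) hR0
    have h5 : ∑ t ∈ TT p q ((symmDiff {o} {x} : Finset V) ∩ C) (∅ ∩ C) (ins p q C),
        om K t * ind (∀ v ∈ C, con p q t.2.2 o v) = 0 := by
      refine Finset.sum_eq_zero fun t ht => ?_
      exfalso
      have h6 := (mem_TT.1 ht).1
      have h7 := (h4 V E p q t.1).2 t.1 univ (Finset.Subset.refl _)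
        (fun u v _ => ⟨fun _ => mem_univ _, fun _ => mem_univ _⟩)
      rw [Finset.inter_univ, h6] at h7
      have h8 : (symmDiff {o} {x} : Finset V) ∩ C = {o} := by
        ext v
        rw [mem_inter, mem_symmDiff, mem_singleton, mem_singleton]
        constructor
        · rintro ⟨h9 | h9, h10⟩
          · exact h9.1
          · exact absurd (h9.1 ▸ h10) hx
        · rintro rfl
          exact ⟨Or.inl ⟨rfl, fun h => hx (h ▸ ho)⟩, ho⟩
      rw [h8, card_singleton] at h7
      exact absurd h7 (by decide)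
    rw [h5, zero_mul]

end Pool.Agent.H396.IS
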