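import Pool.Agent.H960.IS.Stm

set_option autoImplicit false

/-!
# Decomposition over the set of vertices not connected to the ghost (by helper348)
-/

open MeasureTheory Filter Topology Finset H960FV H960IS

namespace Pool.Agent.H348.IS

section

variable {V E : Type} [Fintype V] [DecidableEq V] [Fintype E] [DecidableEq E]

/-- the weight of an open edge -/
noncomputable def tt (K : E → ℝ) (a b : Finset E) (e : E) : ℝ :=
  if (e ∈ a ↔ e ∈ b) then Real.sinh (K e) ^ 2 else Real.sinh (K e) * Real.cosh (K e)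

theorem W2_univ (K : E → ℝ) (a b w : Finset E) : W2 K univ a b w = ∏ e ∈ w, tt K a b e := by
  unfold W2 tt
  simp only [mem_univ, if_true]
  rw [Finset.prod_ite_mem, Finset.univ_inter]

/-- the sum over the currents for a given set of open edges -/
noncomputable def GG (p q : E → V) (K : E → ℝ) (A B : Finset V) (w : Finset E) : ℝ :=
  ∑ a ∈ w.powerset.filter (fun a => bdr p q a = A),
    ∑ b ∈ w.powerset.filter (fun b => bdr p q b = B), ∏ e ∈ w, tt K a b e

theorem DD_univ (p q : E → V) (K : E → ℝ) (A B : Finset V) (F : Finset E → ℝ) :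
    DD p q K univ A B F = ∑ w : Finset E, F w * GG p q K A B w := by
  unfold DD GG
  have h1 : ∀ a : Finset E, ∑ b ∈ univ.filter (fun b : Finset E => bdr p q b = B ∧ b ⊆ univ),
      ∑ w ∈ univ.filter (fun w : Finset E => a ∩ univ ⊆ w ∧ b ⊆ w ∧ w ⊆ univ),
        W2 K univ a b w * F w =
      ∑ w ∈ univ.filter (fun w : Finset E => a ⊆ w),
        ∑ b ∈ w.powerset.filter (fun b => bdr p q b = B), (∏ e ∈ w, tt K a b e) * F w := by
    intro a
    simp only [W2_univ]
    apply Finset.sum_comm'
    intro b w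
    simp only [mem_filter, mem_univ, true_and, mem_powerset, Finset.inter_univ,
      Finset.subset_univ, and_true]
    tauto
  simp only [h1]
  rw [Finset.sum_comm' (s' := fun w => w.powerset.filter (fun a => bdr p q a = A)) (t' := univ)]
  · refine Finset.sum_congr rfl (fun w _ => ?_)
    rw [Finset.mul_sum]
    refine Finset.sum_congr rfl (fun a _ => ?_)
    rw [Finset.mul_sum]
    exact Finset.sum_congr rfl (fun b _ => mul_comm _ _)
  · intro a w
    simp only [mem_filter, mem_univ, true_and, mem_powerset, and_true]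
    tauto

theorem split0 {I O : Finset E} (hd : Disjoint I O) (f : Finset E → ℝ) :
    ∑ w ∈ (I ∪ O).powerset, f w = ∑ x ∈ I.powerset, ∑ y ∈ O.powerset, f (x ∪ y) := by
  rw [← Finset.sum_product']
  refine Finset.sum_nbij' (fun w => (w ∩ I, w ∩ O)) (fun z => z.1 ∪ z.2) ?_ ?_ ?_ ?_ ?_
  · intro w _
    simp only [mem_product, mem_powerset]
    exact ⟨Finset.inter_subset_right, Finset.inter_subset_right⟩
  · rintro ⟨x, y⟩ h
    simp only [mem_product, mem_powerset] at h ⊢
    exact Finset.union_subset_union h.1 h.2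
  · intro w hw
    show (w ∩ I) ∪ (w ∩ O) = w
    rw [← Finset.inter_union_distrib_left]
    exact Finset.inter_eq_left.2 (mem_powerset.1 hw)
  · rintro ⟨x, y⟩ h
    simp only [mem_product, mem_powerset] at h
    rw [Finset.disjoint_left] at hd
    show ((x ∪ y) ∩ I, (x ∪ y) ∩ O) = (x, y)
    have h1 : (x ∪ y) ∩ I = x := by
      ext e
      simp only [mem_inter, mem_union]
      constructor
      · rintro ⟨h1 | h1, h2⟩
        · exact h1
        · exact absurd (h.2 h1) (hd h2)
      · intro h1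
        exact ⟨Or.inl h1, h.1 h1⟩
    have h2 : (x ∪ y) ∩ O = y := by
      ext e
      simp only [mem_inter, mem_union]
      constructor
      · rintro ⟨h1 | h1, h2⟩
        · exact absurd h2 (hd (h.1 h1))
        · exact h1
      · intro h1
        exact ⟨Or.inr h1, h.2 h1⟩
    rw [h1, h2]
  · intro w hw
    show f w = f ((w ∩ I) ∪ (w ∩ O))
    rw [← Finset.inter_union_distrib_left, Finset.inter_eq_left.2 (mem_powerset.1 hw)]

theorem mem_bdr (p q : E → V) (a : Finset E) (v : V) : v ∈ bdr p q a ↔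
    Odd ((a.filter fun e => p e = v).card + (a.filter fun e => q e = v).card) := by
  unfold bdr
  simp only [mem_filter, mem_univ, true_and]

theorem mem_ins (p q : E → V) (S : Finset V) (e : E) : e ∈ ins p q S ↔ p e ∈ S ∧ q e ∈ S := by
  unfold ins
  simp only [mem_filter, mem_univ, true_and]

theorem bdr_in {p q : E → V} {S : Finset V} {x : Finset E} (hx : x ⊆ ins p q S) :
    bdr p q x ⊆ S := by
  intro v hv
  rw [mem_bdr] at hv
  by_contra hvS
  have h1 : (x.filter fun e => p e = v) = ∅ := by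
    rw [Finset.filter_eq_empty_iff]
    intro e he h
    have := ((mem_ins p q S e).1 (hx he)).1
    rw [h] at this
    exact hvS this
  have h2 : (x.filter fun e => q e = v) = ∅ := by
    rw [Finset.filter_eq_empty_iff]
    intro e he h
    have := ((mem_ins p q S e).1 (hx he)).2
    rw [h] at this
    exact hvS this
  rw [h1, h2] at hv
  simp at hv

theorem filt_left {S : Finset V} {x y : Finset E} (r : E → V) (hy : ∀ e ∈ y, r e ∉ S) {v : V}
    (hv : v ∈ S) : ((x ∪ y).filter fun e => r e = v) = x.filter fun e => r e = v := by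
  ext e
  simp only [mem_filter, mem_union]
  constructor
  · rintro ⟨h1 | h1, h2⟩
    · exact ⟨h1, h2⟩
    · exact absurd hv (h2 ▸ hy e h1)
  · rintro ⟨h1, h2⟩
    exact ⟨Or.inl h1, h2⟩

theorem filt_right {S : Finset V} {x y : Finset E} (r : E → V) (hx : ∀ e ∈ x, r e ∈ S) {v : V}
    (hv : v ∉ S) : ((x ∪ y).filter fun e => r e = v) = y.filter fun e => r e = v := by
  ext e
  simp only [mem_filter, mem_union]
  constructor
  · rintro ⟨h1 | h1, h2⟩
    · exact absurd (h2 ▸ hx e h1) hv
    · exact ⟨h1, h2⟩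
  · rintro ⟨h1, h2⟩
    exact ⟨Or.inr h1, h2⟩

theorem bdr_union {p q : E → V} {S A : Finset V} (hA : A ⊆ S) {x y : Finset E}
    (hx : x ⊆ ins p q S) (hy : y ⊆ ins p q Sᶜ) :
    bdr p q (x ∪ y) = A ↔ bdr p q x = A ∧ bdr p q y = ∅ := by
  have hx1 : ∀ e ∈ x, p e ∈ S := fun e he => ((mem_ins p q S e).1 (hx he)).1
  have hx2 : ∀ e ∈ x, q e ∈ S := fun e he => ((mem_ins p q S e).1 (hx he)).2
  have hy1 : ∀ e ∈ y, p e ∉ S := fun e he => mem_compl.1 ((mem_ins p q Sᶜ e).1 (hy he)).1
  have hy2 : ∀ e ∈ y, q e ∉ S := fun e he => mem_compl.1 ((mem_ins p q Sᶜ e).1 (hy he)).2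
  have key1 : ∀ v ∈ S, (v ∈ bdr p q (x ∪ y) ↔ v ∈ bdr p q x) := by
    intro v hv
    rw [mem_bdr, mem_bdr, filt_left p hy1 hv, filt_left q hy2 hv]
  have key2 : ∀ v ∉ S, (v ∈ bdr p q (x ∪ y) ↔ v ∈ bdr p q y) := by
    intro v hv
    rw [mem_bdr, mem_bdr, filt_right p hx1 hv, filt_right q hx2 hv]
  constructor
  · intro h
    constructor
    · ext v
      by_cases hv : v ∈ S
      · rw [← key1 v hv, h]
      · constructor
        · intro h1
          exact absurd (bdr_in hx h1) hv
        · intro h1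
          exact absurd (hA h1) hv
    · ext v
      constructor
      · intro h1
        have hv : v ∉ S := mem_compl.1 (bdr_in hy h1)
        rw [← key2 v hv, h] at h1
        exact absurd (hA h1) hv
      · intro h1
        exact absurd h1 (Finset.notMem_empty v)
  · rintro ⟨h1, h2⟩
    ext v
    by_cases hv : v ∈ S
    · rw [key1 v hv, h1]
    · rw [key2 v hv, h2]
      constructor
      · intro h3
        exact absurd h3 (Finset.notMem_empty v)
      · intro h3
        exact absurd (hA h3) hv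

theorem disj_IO (p q : E → V) (S : Finset V) : Disjoint (ins p q S) (ins p q Sᶜ) := by
  rw [Finset.disjoint_left]
  intro e h1 h2
  rw [mem_ins] at h1 h2
  exact mem_compl.1 h2.1 h1.1

theorem split1 {p q : E → V} {S A : Finset V} (hA : A ⊆ S) {x y : Finset E}
    (hx : x ⊆ ins p q S) (hy : y ⊆ ins p q Sᶜ) (f : Finset E → ℝ) :
    ∑ a ∈ (x ∪ y).powerset.filter (fun a => bdr p q a = A), f a =
      ∑ a ∈ x.powerset.filter (fun a => bdr p q a = A),
        ∑ a' ∈ y.powerset.filter (fun a => bdr p q a = ∅), f (a ∪ a') := by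
  have hd : Disjoint x y := Finset.disjoint_of_subset_left hx
    (Finset.disjoint_of_subset_right hy (disj_IO p q S))
  rw [Finset.sum_filter, split0 hd, Finset.sum_filter]
  refine Finset.sum_congr rfl (fun a ha => ?_)
  rw [Finset.sum_filter]
  rw [mem_powerset] at ha
  by_cases h1 : bdr p q a = A
  · rw [if_pos h1]
    refine Finset.sum_congr rfl (fun a' ha' => ?_)
    rw [mem_powerset] at ha'
    have h2 := bdr_union hA (ha.trans hx) (ha'.trans hy)
    by_cases h3 : bdr p q a' = ∅
    · rw [if_pos h3, if_pos (h2.2 ⟨h1, h3⟩)]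
    · rw [if_neg h3, if_neg (fun h4 => h3 (h2.1 h4).2)]
  · rw [if_neg h1]
    refine Finset.sum_eq_zero (fun a' ha' => ?_)
    rw [mem_powerset] at ha'
    have h2 := bdr_union hA (ha.trans hx) (ha'.trans hy)
    rw [if_neg (fun h4 => h1 (h2.1 h4).1)]

theorem GG_mul {p q : E → V} (K : E → ℝ) {S A : Finset V} (hA : A ⊆ S) {x y : Finset E}
    (hx : x ⊆ ins p q S) (hy : y ⊆ ins p q Sᶜ) :
    GG p q K A ∅ (x ∪ y) = GG p q K A ∅ x * GG p q K ∅ ∅ y := by
  have hd : Disjoint x y := Finset.disjoint_of_subset_left hx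
    (Finset.disjoint_of_subset_right hy (disj_IO p q S))
  have hd' := Finset.disjoint_left.1 hd
  unfold GG
  rw [split1 hA hx hy, Finset.sum_mul_sum]
  refine Finset.sum_congr rfl (fun a ha => Finset.sum_congr rfl (fun a' ha' => ?_))
  rw [split1 (Finset.empty_subset S) hx hy, Finset.sum_mul_sum]
  refine Finset.sum_congr rfl (fun b hb => Finset.sum_congr rfl (fun b' hb' => ?_))
  rw [mem_filter, mem_powerset] at ha ha' hb hb'
  rw [Finset.prod_union hd]
  congr 1
  · refine Finset.prod_congr rfl (fun e he => ?_)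
    have h1 : e ∉ a' := fun h => hd' he (ha'.1 h)
    have h2 : e ∉ b' := fun h => hd' he (hb'.1 h)
    unfold tt
    simp only [mem_union, h1, h2, or_false]
  · refine Finset.prod_congr rfl (fun e he => ?_)
    have h1 : e ∉ a := fun h => hd' (ha.1 h) he
    have h2 : e ∉ b := fun h => hd' (hb.1 h) he
    unfold tt
    simp only [mem_union, h1, h2, false_or]

/-! ### connections -/

theorem con_mono {p q : E → V} {w w' : Finset E} (h : w ⊆ w') {u v : V} (hc : con p q w u v) :
    con p q w' u v := by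
  unfold con at hc ⊢
  induction hc with
  | refl => exact Relation.ReflTransGen.refl
  | tail _ h2 ih =>
    obtain ⟨e, he, h1⟩ := h2
    exact Relation.ReflTransGen.tail ih ⟨e, h he, h1⟩

theorem ev_sub {p q : E → V} {w : Finset E} {S : Finset V} {g : V}
    (h : ∀ v, v ∈ S ↔ ¬ con p q w v g) : w ⊆ ins p q S ∪ ins p q Sᶜ := by
  intro e he
  rw [mem_union, mem_ins, mem_ins, mem_compl, mem_compl]
  have h1 : con p q w (q e) g → con p q w (p e) g := fun h2 =>
    Relation.ReflTransGen.head ⟨e, he, Or.inl ⟨rfl, rfl⟩⟩ h2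
  have h2 : con p q w (p e) g → con p q w (q e) g := fun h2 =>
    Relation.ReflTransGen.head ⟨e, he, Or.inr ⟨rfl, rfl⟩⟩ h2
  by_cases h3 : p e ∈ S
  · left
    refine ⟨h3, ?_⟩
    rw [h] at h3 ⊢
    exact fun h4 => h3 (h1 h4)
  · right
    refine ⟨h3, ?_⟩
    rw [h] at h3 ⊢
    rw [not_not] at h3 ⊢
    exact h2 h3

theorem ev_iff {p q : E → V} {x y : Finset E} {S : Finset V} {g : V} (hg : g ∉ S)
    (hx : x ⊆ ins p q S) (hy : y ⊆ ins p q Sᶜ) :
    (∀ v, v ∈ S ↔ ¬ con p q (x ∪ y) v g) ↔ ∀ v, v ∉ S → con p q y v g := by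
  constructor
  · intro h v hv
    have h1 : con p q (x ∪ y) v g := by
      by_contra h2
      exact hv ((h v).2 h2)
    refine Relation.ReflTransGen.head_induction_on h1 Relation.ReflTransGen.refl ?_
    rintro a c ⟨e, he, hac⟩ hcg ih
    have ha : a ∉ S := by
      rw [h a, not_not]
      exact Relation.ReflTransGen.head ⟨e, he, hac⟩ hcg
    rcases mem_union.1 he with he | he
    · exfalso
      have h3 := (mem_ins p q S e).1 (hx he)
      rcases hac with ⟨h4, _⟩ | ⟨_, h4⟩
      · exact ha (h4 ▸ h3.1)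
      · exact ha (h4 ▸ h3.2)
    · exact Relation.ReflTransGen.head ⟨e, he, hac⟩ ih
  · intro h v
    constructor
    · intro hv hc
      have h1 : ∀ z, con p q (x ∪ y) v z → z ∈ S := by
        intro z hz
        induction hz with
        | refl => exact hv
        | tail _ hbc ih =>
          obtain ⟨e, he, hbc⟩ := hbc
          rcases mem_union.1 he with he | he
          · have h3 := (mem_ins p q S e).1 (hx he)
            rcases hbc with ⟨_, h4⟩ | ⟨h4, _⟩
            · exact h4 ▸ h3.2
            · exact h4 ▸ h3.1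
          · exfalso
            have h3 := (mem_ins p q Sᶜ e).1 (hy he)
            rw [mem_compl, mem_compl] at h3
            rcases hbc with ⟨h4, _⟩ | ⟨_, h4⟩
            · exact h3.1 (h4 ▸ ih)
            · exact h3.2 (h4 ▸ ih)
      exact hg (h1 g hc)
    · intro hv
      by_contra hvS
      exact hv (con_mono Finset.subset_union_right (h v hvS))

theorem ind_congr {P Q : Prop} (h : P ↔ Q) : ind P = ind Q := by
  unfold ind
  by_cases hP : P
  · rw [if_pos hP, if_pos (h.1 hP)]
  · rw [if_neg hP, if_neg (fun hQ => hP (h.2 hQ))]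

/-- the factorisation -/
theorem DD_S {p q : E → V} (K : E → ℝ) {S A : Finset V} {g : V} (hA : A ⊆ S) (hg : g ∉ S) :
    DD p q K univ A ∅ (fun w => ind (∀ v, v ∈ S ↔ ¬ con p q w v g)) =
      (∑ x ∈ (ins p q S).powerset, GG p q K A ∅ x) *
        ∑ y ∈ (ins p q Sᶜ).powerset, ind (∀ v, v ∉ S → con p q y v g) * GG p q K ∅ ∅ y := by
  rw [DD_univ]
  have h1 : ∑ w : Finset E, ind (∀ v, v ∈ S ↔ ¬ con p q w v g) * GG p q K A ∅ w =
      ∑ w ∈ (ins p q S ∪ ins p q Sᶜ).powerset,
        ind (∀ v, v ∈ S ↔ ¬ con p q w v g) * GG p q K A ∅ w := by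
    symm
    refine Finset.sum_subset (Finset.subset_univ _) (fun w _ hw => ?_)
    have h2 : ¬ ∀ v, v ∈ S ↔ ¬ con p q w v g := fun h3 => hw (mem_powerset.2 (ev_sub h3))
    unfold ind
    rw [if_neg h2, zero_mul]
  rw [h1, split0 (disj_IO p q S), Finset.sum_mul_sum]
  refine Finset.sum_congr rfl (fun x hx => Finset.sum_congr rfl (fun y hy => ?_))
  rw [mem_powerset] at hx hy
  rw [ind_congr (ev_iff hg hx hy), GG_mul K hA hx hy]
  ring

theorem GG_res {p q : E → V} (K : E → ℝ) (I : Finset E) (A B : Finset V) :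
    ∑ x ∈ I.powerset, GG p q K A B x = ∑ w : Finset E, 1 * GG p q (res K I) A B w := by
  have h1 : ∑ w : Finset E, 1 * GG p q (res K I) A B w =
      ∑ w ∈ I.powerset, 1 * GG p q (res K I) A B w := by
    symm
    refine Finset.sum_subset (Finset.subset_univ _) (fun w _ hw => ?_)
    rw [mem_powerset, Finset.not_subset] at hw
    obtain ⟨e, he, heI⟩ := hw
    unfold GG
    rw [one_mul]
    refine Finset.sum_eq_zero (fun a _ => Finset.sum_eq_zero (fun b _ => ?_))
    refine Finset.prod_eq_zero he ?_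
    unfold tt res
    rw [if_neg heI, Real.sinh_zero]
    split_ifs
    · norm_num
    · norm_num
  rw [h1]
  refine Finset.sum_congr rfl (fun w hw => ?_)
  rw [mem_powerset] at hw
  unfold GG
  rw [one_mul]
  refine Finset.sum_congr rfl (fun a _ => Finset.sum_congr rfl (fun b _ =>
    Finset.prod_congr rfl (fun e he => ?_)))
  unfold tt res
  rw [if_pos (hw he)]

theorem Y_pos (h1 : S_ht) (p q : E → V) (K : E → ℝ) : 0 < Y p q K ∅ := by
  have h2 := h1 V E p q K ∅
  have h3 : 0 < Zs p q K ∅ := by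
    unfold Zs
    refine Finset.sum_pos (fun σ _ => ?_) Finset.univ_nonempty
    rw [Finset.prod_empty, one_mul]
    exact Real.exp_pos _
  rw [h2] at h3
  exact (mul_pos_iff_of_pos_left (by positivity)).1 h3

theorem corS_eq (h1 : S_ht) (p q : E → V) (K : E → ℝ) (S A : Finset V) :
    corS p q K S A = Y p q (res K (ins p q S)) A / Y p q (res K (ins p q S)) ∅ := by
  unfold corS cor
  rw [h1 V E, h1 V E, mul_div_mul_left _ _ (by positivity)]

theorem sum_YY (h2 : S_dd1) (p q : E → V) (K : E → ℝ) (I : Finset E) (A : Finset V) :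
    ∑ x ∈ I.powerset, GG p q K A ∅ x = Y p q (res K I) A * Y p q (res K I) ∅ := by
  rw [GG_res, ← DD_univ p q (res K I) A ∅ (fun _ => 1), h2 V E]
  have h3 : res (res K I) (univ : Finset E) = res K I := by
    funext e
    unfold res
    simp only [mem_univ, if_true]
  rw [h3]

open Classical in
theorem ind_sum {p q : E → V} {w : Finset E} {o g x y : V} (hox : con p q w o x) :
    ind (con p q w y g ∧ ¬ con p q w o g) =
      ∑ S ∈ univ.filter (fun S : Finset V => o ∈ S ∧ x ∈ S ∧ y ∉ S ∧ g ∉ S),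
        ind (∀ v, v ∈ S ↔ ¬ con p q w v g) := by
  obtain ⟨S0, hS0⟩ : ∃ S0 : Finset V, S0 = univ.filter (fun v => ¬ con p q w v g) := ⟨_, rfl⟩
  have hm : ∀ v, v ∈ S0 ↔ ¬ con p q w v g := by
    intro v
    rw [hS0]
    simp only [mem_filter, mem_univ, true_and]
  have h1 : ∀ S : Finset V, ind (∀ v, v ∈ S ↔ ¬ con p q w v g) = if S = S0 then (1 : ℝ) else 0 := by
    intro S
    unfold ind
    by_cases hS : S = S0
    · rw [if_pos hS, if_pos (by rw [hS]; exact hm)]
    · rw [if_neg hS, if_neg]
      intro h2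
      apply hS
      ext v
      rw [h2, hm]
  simp only [h1]
  rw [Finset.sum_ite_eq']
  unfold ind
  have hgg : con p q w g g := Relation.ReflTransGen.refl
  by_cases h2 : con p q w y g ∧ ¬ con p q w o g
  · rw [if_pos h2, if_pos]
    simp only [mem_filter, mem_univ, true_and, hm, not_not]
    exact ⟨h2.2, fun h3 => h2.2 (Relation.ReflTransGen.trans hox h3), h2.1, hgg⟩
  · rw [if_neg h2, if_neg]
    simp only [mem_filter, mem_univ, true_and, hm, not_not]
    rintro ⟨h3, _, h4, _⟩
    exact h2 ⟨h4, h3⟩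

end

theorem Tc (h1 : S_ht) (h2 : S_dd1) (h4 : S_par) : S_Tc := by
  intro V E _ _ _ _ p q K _ o g x y
  have hstep1 : DD p q K univ (symmDiff {o} {x}) ∅ (fun w => ind (con p q w y g ∧ ¬ con p q w o g)) =
      ∑ S ∈ univ.filter (fun S : Finset V => o ∈ S ∧ x ∈ S ∧ y ∉ S ∧ g ∉ S),
        DD p q K univ (symmDiff {o} {x}) ∅ (fun w => ind (∀ v, v ∈ S ↔ ¬ con p q w v g)) := by
    simp only [DD_univ]
    rw [Finset.sum_comm]
    refine Finset.sum_congr rfl (fun w _ => ?_)
    rw [← Finset.sum_mul]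
    by_cases hox : con p q w o x
    · rw [ind_sum hox]
    · have h5 : GG p q K (symmDiff {o} {x}) ∅ w = 0 := by
        unfold GG
        refine Finset.sum_eq_zero (fun a ha => ?_)
        rw [mem_filter, mem_powerset] at ha
        exact absurd (((h4 V E p q w).1 o x).1 ⟨a, ha.1, ha.2⟩) hox
      rw [h5, mul_zero, mul_zero]
  rw [hstep1]
  refine Finset.sum_congr rfl (fun S hS => ?_)
  simp only [mem_filter, mem_univ, true_and] at hS
  obtain ⟨ho, hx, _, hg⟩ := hS
  have hA : symmDiff {o} {x} ⊆ S := by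
    intro v hv
    rw [Finset.mem_symmDiff, mem_singleton, mem_singleton] at hv
    rcases hv with ⟨h5, _⟩ | ⟨h5, _⟩
    · rw [h5]
      exact ho
    · rw [h5]
      exact hx
  have hY := Y_pos h1 p q K
  have hYS := Y_pos h1 p q (res K (ins p q S))
  unfold PS
  rw [div_mul_cancel₀ _ (by positivity), DD_S K hA hg, DD_S K (Finset.empty_subset S) hg,
    corS_eq h1, sum_YY h2, sum_YY h2]
  field_simp

end Pool.Agent.H348.IS
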