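import Pool.Agent.H960.IS.Stm

/-!
Project IS (helper960): consistency of the Ising kernels, by helper538.
-/

set_option autoImplicit false

open H960FV H960IS Finset

namespace Pool.Agent.H538.IS

section

variable {d : ℕ} {La De : Finset (Z d)}

/-- exchange of the spins in the smaller set -/
def sw (h : La ⊆ De) (p : (↥De → Bool) × (↥La → Bool)) : (↥De → Bool) × (↥La → Bool) :=
  (fun x => if hx : x.1 ∈ La then p.2 ⟨x.1, hx⟩ else p.1 x, fun y => p.1 ⟨y.1, h y.2⟩)

theorem sw_inv (h : La ⊆ De) : Function.Involutive (sw h) := by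
  intro p
  refine Prod.ext ?_ ?_
  · funext x
    by_cases hx : x.1 ∈ La <;> simp [sw, hx]
  · funext y
    simp [sw]

theorem gl_sw (h : La ⊆ De) (p : (↥De → Bool) × (↥La → Bool)) (et : Z d → Bool) :
    gl De (sw h p).1 et = gl La p.2 (gl De p.1 et) := by
  funext x
  by_cases hx : x ∈ La
  · have h1 := h hx
    simp [gl, sw, hx, h1]
  · by_cases hx' : x ∈ De <;> simp [gl, sw, hx, hx']

theorem gl_congr {s s' : Z d → Bool} (hs : ∀ x ∉ La, s x = s' x) (t : ↥La → Bool) :
    gl La t s = gl La t s' := by
  funext x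
  by_cases hx : x ∈ La
  · simp [gl, hx]
  · simp [gl, hx, hs x hx]

theorem Zn_congr {s s' : Z d → Bool} (hs : ∀ x ∉ La, s x = s' x) (be : ℝ) :
    Zn be La s = Zn be La s' := by
  unfold Zn
  exact Finset.sum_congr rfl fun t _ => by rw [gl_congr hs t]

theorem Zn_pos (be : ℝ) (La : Finset (Z d)) (s : Z d → Bool) : 0 < Zn be La s := by
  unfold Zn
  exact Finset.sum_pos (fun t _ => Real.exp_pos _) Finset.univ_nonempty

theorem Ed_mono (h : La ⊆ De) : Ed La ⊆ Ed De := by
  unfold Ed
  exact Finset.union_subset_union (Finset.product_subset_product_left h)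
    (Finset.image_subset_image (Finset.product_subset_product_left h))

theorem notMem_of_notMem_Ed {e : Z d × Fin d} (h : e ∉ Ed La) :
    e.1 ∉ La ∧ e.1 + un e.2 ∉ La := by
  constructor
  · intro h1
    apply h
    unfold Ed
    exact Finset.mem_union_left _ (Finset.mem_product.2 ⟨h1, Finset.mem_univ _⟩)
  · intro h1
    apply h
    unfold Ed
    refine Finset.mem_union_right _ (Finset.mem_image.2 ⟨(e.1 + un e.2, e.2), ?_, ?_⟩)
    · exact Finset.mem_product.2 ⟨h1, Finset.mem_univ _⟩
    · simp

theorem En_diff (h : La ⊆ De) {s s' : Z d → Bool} (hs : ∀ x ∉ La, s x = s' x) :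
    En De s + En La s' = En De s' + En La s := by
  have h1 : ∀ u : Z d → Bool, ∑ e ∈ Ed De \ Ed La, sp (u e.1) * sp (u (e.1 + un e.2)) + En La u =
      En De u := fun u => Finset.sum_sdiff (Ed_mono h)
  have h2 : ∑ e ∈ Ed De \ Ed La, sp (s e.1) * sp (s (e.1 + un e.2)) =
      ∑ e ∈ Ed De \ Ed La, sp (s' e.1) * sp (s' (e.1 + un e.2)) := by
    refine Finset.sum_congr rfl fun e he => ?_
    obtain ⟨h3, h4⟩ := notMem_of_notMem_Ed (Finset.mem_sdiff.1 he).2
    rw [hs _ h3, hs _ h4]
  have h3 := h1 s
  have h4 := h1 s'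
  linarith

theorem gl_out (t : ↥La → Bool) (s : Z d → Bool) : ∀ x ∉ La, gl La t s x = s x := by
  intro x hx
  simp [gl, hx]

end

theorem tower : S_tower := by
  intro d be La De g h
  funext et
  unfold Kop
  congr 1
  -- the sum over the pairs
  have e1 : ∀ t : ↥De → Bool, Real.exp (be * En De (gl De t et)) *
      ((∑ r : ↥La → Bool, Real.exp (be * En La (gl La r (gl De t et))) *
        g (gl La r (gl De t et))) / Zn be La (gl De t et)) =
      ∑ r : ↥La → Bool, Real.exp (be * En De (gl De t et)) *
        (Real.exp (be * En La (gl La r (gl De t et))) *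
        g (gl La r (gl De t et)) / Zn be La (gl De t et)) := by
    intro t
    rw [Finset.sum_div, Finset.mul_sum]
  rw [Finset.sum_congr rfl fun t _ => e1 t]
  rw [← Fintype.sum_prod_type' (fun (t : ↥De → Bool) (r : ↥La → Bool) =>
    Real.exp (be * En De (gl De t et)) * (Real.exp (be * En La (gl La r (gl De t et))) *
        g (gl La r (gl De t et)) / Zn be La (gl De t et)))]
  rw [← Equiv.sum_comp (Function.Involutive.toPerm (sw h) (sw_inv h))]
  rw [Fintype.sum_prod_type]
  refine Finset.sum_congr rfl fun t _ => ?_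
  have e2 : ∀ r : ↥La → Bool,
      Real.exp (be * En De (gl De (sw h (t, r)).1 et)) *
        (Real.exp (be * En La (gl La (sw h (t, r)).2 (gl De (sw h (t, r)).1 et))) *
        g (gl La (sw h (t, r)).2 (gl De (sw h (t, r)).1 et)) /
          Zn be La (gl De (sw h (t, r)).1 et)) =
      Real.exp (be * En De (gl De t et)) * g (gl De t et) / Zn be La (gl De t et) *
        Real.exp (be * En La (gl La r (gl De t et))) := by
    intro r
    have h1 : gl La (sw h (t, r)).2 (gl De (sw h (t, r)).1 et) = gl De t et := by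
      rw [← gl_sw h (sw h (t, r)) et, sw_inv h (t, r)]
    have h2 : gl De (sw h (t, r)).1 et = gl La r (gl De t et) := gl_sw h (t, r) et
    rw [h1, h2, Zn_congr (gl_out r (gl De t et)) be]
    have h3 := En_diff h (gl_out r (gl De t et))
    have h4 : Real.exp (be * En De (gl La r (gl De t et))) * Real.exp (be * En La (gl De t et)) =
        Real.exp (be * En De (gl De t et)) * Real.exp (be * En La (gl La r (gl De t et))) := by
      rw [← Real.exp_add, ← Real.exp_add, ← mul_add, ← mul_add, h3]
    calc Real.exp (be * En De (gl La r (gl De t et))) *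
        (Real.exp (be * En La (gl De t et)) * g (gl De t et) / Zn be La (gl De t et))
        = (Real.exp (be * En De (gl La r (gl De t et))) * Real.exp (be * En La (gl De t et))) *
          (g (gl De t et) / Zn be La (gl De t et)) := by ring
      _ = _ := by rw [h4]; ring
  have e3 : ∀ r : ↥La → Bool, (Function.Involutive.toPerm (sw h) (sw_inv h)) (t, r) =
      sw h (t, r) := fun r => rfl
  simp only [e3]
  rw [Finset.sum_congr rfl fun r _ => e2 r, ← Finset.mul_sum]
  have h5 := (Zn_pos be La (gl De t et)).ne'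
  change _ / _ * Zn be La (gl De t et) = _
  rw [div_mul_cancel₀ _ h5]

end Pool.Agent.H538.IS
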