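import Pool.Agent.H960.FV.All
import Pool.Agent.H960.IS.B1
import Pool.Agent.H960.IS.B2
import Pool.Agent.H960.IS.B4
import Pool.Agent.H960.IS.CENS
import Pool.Agent.H960.IS.CONV
import Pool.Agent.H960.IS.COUP
import Pool.Agent.H960.IS.CRIT
import Pool.Agent.H960.IS.DD1
import Pool.Agent.H960.IS.DEEP
import Pool.Agent.H960.IS.DIFF
import Pool.Agent.H960.IS.FKG
import Pool.Agent.H960.IS.FLIP
import Pool.Agent.H960.IS.GIBBSK
import Pool.Agent.H960.IS.GKS
import Pool.Agent.H960.IS.GKSMONO
import Pool.Agent.H960.IS.GROWTH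
import Pool.Agent.H960.IS.HT
import Pool.Agent.H960.IS.INV
import Pool.Agent.H960.IS.ISING
import Pool.Agent.H960.IS.LINK1
import Pool.Agent.H960.IS.LINK2
import Pool.Agent.H960.IS.MAGMONO
import Pool.Agent.H960.IS.MAGTRANS
import Pool.Agent.H960.IS.MONO
import Pool.Agent.H960.IS.OUT
import Pool.Agent.H960.IS.PAR
import Pool.Agent.H960.IS.PSUM
import Pool.Agent.H960.IS.REP
import Pool.Agent.H960.IS.REP1
import Pool.Agent.H960.IS.RULE
import Pool.Agent.H960.IS.SHARP
import Pool.Agent.H960.IS.SIMON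
import Pool.Agent.H960.IS.SWITCH
import Pool.Agent.H960.IS.T
import Pool.Agent.H960.IS.TA
import Pool.Agent.H960.IS.TAU
import Pool.Agent.H960.IS.TB
import Pool.Agent.H960.IS.TC
import Pool.Agent.H960.IS.TOWER

/-!
Project IS (helper960): assembly.
-/

namespace H960IS

open Pool.Agent H960FV

theorem a_ht : S_ht := H315.IS.ht
theorem a_dd1 : S_dd1 := H169.IS.dd1
theorem a_switch : S_switch := H307.IS.switch
theorem a_par : S_par := H632.IS.par
theorem a_gks : S_gks := H48.IS.gks a_ht a_dd1 a_switch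
theorem a_diff : S_diff := H782.IS.diff
theorem a_gksmono : S_gksmono := H261.IS.gksmono a_gks a_diff
theorem a_Ta : S_Ta := H367.IS.Ta a_ht a_dd1 a_switch a_par
theorem a_Tb : S_Tb := H396.IS.Tb a_dd1 a_switch a_par
theorem a_Tc : S_Tc := H348.IS.Tc a_ht a_dd1 a_par
theorem a_PS : S_PS := H903.IS.PSum a_ht a_dd1 a_switch a_par
theorem a_T : S_T := H763.IS.T a_ht a_Ta a_Tb a_Tc a_par
theorem a_growth : S_growth := H276.IS.growth a_diff a_T a_PS a_gks
theorem a_simon : S_simon := H21.IS.simon a_ht a_dd1 a_switch a_par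
theorem a_link1 : S_link1 := H229.IS.link1
theorem a_link2 : S_link2 := H195.IS.link2
theorem a_B1 : S_B1 := H684.IS.B1 a_growth a_link1 a_link2
theorem a_B2 : S_B2 := H747.IS.B2 a_gksmono a_link2
theorem a_B4 : S_B4 := H124.IS.B4 a_simon a_link1 a_link2 a_gks
theorem a_fkg : S_fkg := H675.IS.fkg
theorem a_mono : S_mono := H960.ISM.mono a_fkg
theorem a_tower : S_tower := H538.IS.tower
theorem a_out : S_out := H296.IS.out
theorem a_magmono : S_magmono := H155.IS.magmono a_mono a_tower
theorem a_magtrans : S_magtrans := H412.IS.magtrans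
theorem a_sharp : S_sharp :=
  H764.IS.sharp a_B1 a_B2 a_B4 a_magmono a_magtrans a_link1 a_gks
theorem a_cens : S_cens := H252.IS.cens a_fkg a_mono a_tower a_out a_magmono
theorem a_flip : S_flip := H588.IS.flip
theorem a_coup : S_coup := H52.IS.coup a_mono a_tower a_out
theorem a_rule : S_rule := H363.IS.rule_upd
theorem a_rep1 : S_rep1 := H870.IS.rep1 a_out
theorem a_rep : S_rep := H415.IS.rep a_rule a_rep1 a_out
theorem a_gibbsK : S_gibbsK := H280.IS.gibbsK
theorem a_inv : S_inv := H260.IS.inv a_rep a_gibbsK a_out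
theorem a_deep : S_deep := H721.IS.deep
theorem a_tau : S_tau := H650.IS.tau a_rule a_rep a_cens a_flip a_mono a_deep
theorem a_conv : S_conv := H234.IS.conv a_mp a_cftp a_trans a_reidx a_dloc
theorem a_crit : S_crit := H353.IS.crit a_T5 a_phimeas a_phieq a_phitail a_philaw a_pcaloc
  a_pcabad a_pcalaw a_conv
theorem a_ising : S_ising := H333.IS.ising a_sharp a_coup a_inv a_tau a_crit

end H960IS
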