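import Pool.Agent.H960.IS.Stm

/-!
Project IS (helper960), task GROWTH (helper276): integrated differential inequality.
-/

set_option autoImplicit false

open MeasureTheory Filter Topology Finset H960FV H960IS

namespace Pool.Agent.H276.IS

theorem ode (m D : ℝ → ℝ) (c a b : ℝ) (hc : 0 ≤ c) (hab : a ≤ b)
    (hd : ∀ x, HasDerivAt m (D x) x) (hD : ∀ x, a ≤ x → x ≤ b → c * (1 - m x ^ 2) ≤ D x)
    (hm : ∀ x, a ≤ x → x ≤ b → 0 ≤ m x) : Real.tanh (c * (b - a)) ≤ m b := by
  obtain ⟨w, hw⟩ : ∃ w : ℝ → ℝ, w = fun x =>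
      Real.sinh (c * (x - a)) - m x * Real.cosh (c * (x - a)) := ⟨_, rfl⟩
  have hs : ∀ x, HasDerivAt (fun x : ℝ => c * (x - a)) c x := by
    intro x
    have h1 := ((hasDerivAt_id x).sub_const a).const_mul c
    rw [mul_one] at h1
    exact h1
  have hwd : ∀ x, HasDerivAt w (Real.cosh (c * (x - a)) * c -
      (D x * Real.cosh (c * (x - a)) + m x * (Real.sinh (c * (x - a)) * c))) x := by
    intro x
    rw [hw]
    exact ((hs x).sinh).sub ((hd x).mul (hs x).cosh)
  have hwneg : ∀ x, a ≤ x → x ≤ b → 0 < w x → Real.cosh (c * (x - a)) * c -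
      (D x * Real.cosh (c * (x - a)) + m x * (Real.sinh (c * (x - a)) * c)) ≤ 0 := by
    intro x h1 h2 h3
    have h4 := hD x h1 h2
    have h5 := hm x h1 h2
    have hch : 0 < Real.cosh (c * (x - a)) := Real.cosh_pos _
    have h6 : c * (1 - m x ^ 2) * Real.cosh (c * (x - a)) ≤ D x * Real.cosh (c * (x - a)) :=
      mul_le_mul_of_nonneg_right h4 hch.le
    have h7 : 0 ≤ c * m x * w x := mul_nonneg (mul_nonneg hc h5) h3.le
    rw [hw] at h7
    have h8 : 0 ≤ c * m x * (Real.sinh (c * (x - a)) - m x * Real.cosh (c * (x - a))) := h7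
    nlinarith
  have hwa : w a ≤ 0 := by
    rw [hw]
    show Real.sinh (c * (a - a)) - m a * Real.cosh (c * (a - a)) ≤ 0
    rw [sub_self, mul_zero, Real.sinh_zero, Real.cosh_zero, mul_one]
    have := hm a le_rfl hab
    linarith
  have hwb : w b ≤ 0 := by
    refine le_of_forall_pos_le_add fun ε hε => ?_
    rw [zero_add]
    obtain ⟨η, hη⟩ : ∃ η, η = ε / (1 + (b - a)) := ⟨_, rfl⟩
    have hba : 0 < 1 + (b - a) := by linarith
    have hη0 : 0 < η := by
      rw [hη]
      positivity
    have h := image_le_of_deriv_right_lt_deriv_boundary (f := w) (a := a) (b := b)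
      (B := fun x => η * (1 + (x - a))) (B' := fun _ => η)
      (fun x _ => (hwd x).continuousAt.continuousWithinAt)
      (fun x _ => (hwd x).hasDerivWithinAt)
      (by
        show w a ≤ η * (1 + (a - a))
        rw [sub_self, add_zero, mul_one]
        linarith)
      (fun x => by
        have h1 := (((hasDerivAt_id x).sub_const a).const_add 1).const_mul η
        rw [mul_one] at h1
        exact h1)
      (fun x hx hxe => by
        have hx1 : a ≤ x := hx.1
        have hx2 : x ≤ b := hx.2.le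
        have h1 : 0 < w x := by
          rw [hxe]
          have : 0 < 1 + (x - a) := by linarith
          positivity
        exact lt_of_le_of_lt (hwneg x hx1 hx2 h1) hη0)
    have h1 := h (⟨hab, le_rfl⟩ : b ∈ Set.Icc a b)
    have h2 : η * (1 + (b - a)) = ε := by
      rw [hη]
      field_simp
    exact h1.trans (le_of_eq h2)
  rw [Real.tanh_eq_sinh_div_cosh, div_le_iff₀ (Real.cosh_pos _)]
  rw [hw] at hwb
  have h9 : Real.sinh (c * (b - a)) - m b * Real.cosh (c * (b - a)) ≤ 0 := hwb
  linarith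

/-- **Task GROWTH.** -/
theorem growth (h1 : S_diff) (h2 : S_T) (h3 : S_PS) (h4 : S_gks) : S_growth := by
  intro V E _ _ _ _ p q o g c β₁ β₂ hc hβ₁ h12 hS
  have hfun : ∀ β : ℝ, (fun _ : E => (0 : ℝ) + β * 1) = fun _ : E => β := by
    intro β
    funext e
    ring
  have hd : ∀ β : ℝ, HasDerivAt (fun β : ℝ => cor p q (fun _ => β) (symmDiff {o} {g}))
      (∑ e, (1 : ℝ) * (cor p q (fun _ => β) (symmDiff (symmDiff {o} {g}) (symmDiff {p e} {q e})) -
        cor p q (fun _ => β) (symmDiff {o} {g}) *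
          cor p q (fun _ => β) (symmDiff {p e} {q e}))) β := by
    intro β
    have h := h1 V E p q (fun _ => 0) (fun _ => 1) (symmDiff {o} {g}) β
    simp only [hfun] at h
    exact h
  refine ode _ _ c β₁ β₂ hc h12 hd ?_ ?_
  · intro β hb1 hb2
    have hβ0 : 0 ≤ β := hβ₁.trans hb1
    have hK : ∀ e : E, 0 ≤ (fun _ : E => β) e := fun _ => hβ0
    obtain ⟨hP0, hP1⟩ := h3 V E p q (fun _ => β) hK o g
    have e1 : ∑ e, ∑ S ∈ univ.filter (fun S : Finset V => o ∈ S ∧ g ∉ S),
        PS p q (fun _ => β) g S *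
          (ind (p e ∈ S ∧ q e ∉ S) * corS p q (fun _ => β) S (symmDiff {o} {p e}) +
            ind (q e ∈ S ∧ p e ∉ S) * corS p q (fun _ => β) S (symmDiff {o} {q e})) ≤
        ∑ e, (1 : ℝ) * (cor p q (fun _ => β) (symmDiff (symmDiff {o} {g}) (symmDiff {p e} {q e})) -
        cor p q (fun _ => β) (symmDiff {o} {g}) *
          cor p q (fun _ => β) (symmDiff {p e} {q e})) := by
      refine Finset.sum_le_sum fun e _ => ?_
      rw [one_mul]
      exact h2 V E p q (fun _ => β) hK o g (p e) (q e)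
    refine le_trans ?_ e1
    rw [Finset.sum_comm, ← hP1, Finset.mul_sum]
    refine Finset.sum_le_sum fun S hSm => ?_
    rw [Finset.mem_filter] at hSm
    rw [← Finset.mul_sum, mul_comm]
    exact mul_le_mul_of_nonneg_left (hS β hb1 hb2 S hSm.2.1 hSm.2.2) (hP0 S)
  · intro β hb1 _
    exact (h4 V E p q (fun _ => β) (fun _ => hβ₁.trans hb1) (symmDiff {o} {g}) ∅).1

end Pool.Agent.H276.IS

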