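import Pool.Agent.H960.IS.Stm

/-!
Project IS (helper960): the Simon - Lieb inequality by double currents.
-/

open MeasureTheory Filter Topology Finset H960FV H960IS

set_option linter.unusedSectionVars false

namespace Pool.Agent.H21.IS

section graph

variable {V E : Type} [Fintype V] [DecidableEq V] [Fintype E] [DecidableEq E]

theorem wt_nonneg (K : E → ℝ) (hK : ∀ e, 0 ≤ K e) (a : Finset E) : 0 ≤ wt K a := by
  unfold wt
  refine prod_nonneg fun e _ => ?_
  split_ifs
  · exact Real.sinh_nonneg_iff.2 (hK e)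
  · exact (Real.cosh_pos _).le

theorem W2_nonneg (K : E → ℝ) (hK : ∀ e, 0 ≤ K e) (E' a b w : Finset E) : 0 ≤ W2 K E' a b w := by
  unfold W2
  refine prod_nonneg fun e _ => ?_
  have h1 := Real.sinh_nonneg_iff.2 (hK e)
  have h2 := (Real.cosh_pos (K e)).le
  split_ifs <;> positivity

theorem bdr_empty (p q : E → V) : bdr p q ∅ = ∅ := by
  unfold bdr
  ext v
  simp

theorem Y_empty_pos (p q : E → V) (K : E → ℝ) (hK : ∀ e, 0 ≤ K e) : 0 < Y p q K ∅ := by
  unfold Y
  have h1 : 0 < wt K ∅ := by
    unfold wt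
    refine prod_pos fun e _ => ?_
    simp [Real.cosh_pos]
  refine lt_of_lt_of_le h1 ?_
  refine single_le_sum (f := fun a => wt K a) (fun a _ => wt_nonneg K hK a) ?_
  simp [bdr_empty]

theorem ind_true {P : Prop} (h : P) : ind P = 1 := by
  unfold ind; simp [h]

theorem ind_false {P : Prop} (h : ¬ P) : ind P = 0 := by
  unfold ind; simp [h]

theorem ind_nonneg (P : Prop) : 0 ≤ ind P := by
  by_cases h : P
  · rw [ind_true h]; norm_num
  · rw [ind_false h]

theorem ind_mono {P Q : Prop} (h : P → Q) : ind P ≤ ind Q := by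
  by_cases hP : P
  · rw [ind_true hP, ind_true (h hP)]
  · rw [ind_false hP]; exact ind_nonneg Q

theorem con_mono (p q : E → V) {w w' : Finset E} (h : w ⊆ w') {u v : V} (hc : con p q w u v) :
    con p q w' u v := by
  unfold con at *
  induction hc with
  | refl => exact Relation.ReflTransGen.refl
  | tail _ hstep ih =>
    obtain ⟨e, he, h'⟩ := hstep
    exact ih.tail ⟨e, h he, h'⟩

theorem card_filter_erase (a : Finset E) (e : E) (he : e ∈ a) (P : E → Prop) [DecidablePred P] :
    (a.filter P).card = ((a.erase e).filter P).card + (if P e then 1 else 0) := by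
  conv_lhs => rw [← insert_erase he]
  rw [filter_insert]
  split_ifs with h
  · rw [card_insert_of_notMem]
    simp
  · simp

theorem bdr_erase (p q : E → V) (a : Finset E) (e : E) (he : e ∈ a) :
    bdr p q (a.erase e) = symmDiff (bdr p q a) (symmDiff {p e} {q e}) := by
  ext v
  unfold bdr
  rw [mem_symmDiff, mem_symmDiff, mem_filter, mem_filter, mem_singleton, mem_singleton,
    card_filter_erase a e he (fun e => p e = v), card_filter_erase a e he (fun e => q e = v)]
  simp only [mem_univ, true_and]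
  set m := ((a.erase e).filter fun e => p e = v).card
  set n := ((a.erase e).filter fun e => q e = v).card
  simp only [Nat.odd_iff]
  by_cases h1 : p e = v <;> by_cases h2 : q e = v
  · have hx : (v = p e ∧ ¬ v = q e ∨ v = q e ∧ ¬ v = p e) ↔ False := by simp [h1, h2]
    rw [hx, if_pos h1, if_pos h2]
    simp only [not_false_eq_true, and_true, false_and, or_false]
    omega
  · have h2' : v ≠ q e := fun h => h2 h.symm
    have hx : (v = p e ∧ ¬ v = q e ∨ v = q e ∧ ¬ v = p e) ↔ True := by simp [h1, h2']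
    rw [hx, if_pos h1, if_neg h2]
    simp only [not_true_eq_false, and_false, true_and, false_or]
    omega
  · have h1' : v ≠ p e := fun h => h1 h.symm
    have hx : (v = p e ∧ ¬ v = q e ∨ v = q e ∧ ¬ v = p e) ↔ True := by simp [h2, h1']
    rw [hx, if_neg h1, if_pos h2]
    simp only [not_true_eq_false, and_false, true_and, false_or]
    omega
  · have h1' : v ≠ p e := fun h => h1 h.symm
    have h2' : v ≠ q e := fun h => h2 h.symm
    have hx : (v = p e ∧ ¬ v = q e ∨ v = q e ∧ ¬ v = p e) ↔ False := by simp [h1', h2']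
    rw [hx, if_neg h1, if_neg h2]
    simp only [not_false_eq_true, and_true, false_and, or_false]
    omega

theorem wt_erase (K : E → ℝ) (a : Finset E) (e : E) (he : e ∈ a) :
    wt K a = Real.tanh (K e) * wt K (a.erase e) := by
  unfold wt
  rw [← mul_prod_erase univ _ (mem_univ e), ← mul_prod_erase univ (fun e' => if e' ∈ a.erase e then
    Real.sinh (K e') else Real.cosh (K e')) (mem_univ e)]
  have h1 : ∏ x ∈ univ.erase e, (if x ∈ a.erase e then Real.sinh (K x) else Real.cosh (K x)) =
      ∏ x ∈ univ.erase e, (if x ∈ a then Real.sinh (K x) else Real.cosh (K x)) := by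
    refine prod_congr rfl fun x hx => ?_
    have hx' := (mem_erase.1 hx).1
    simp [mem_erase, hx']
  rw [h1]
  simp only [he, if_true, notMem_erase, if_false]
  rw [Real.tanh_eq_sinh_div_cosh]
  have := (Real.cosh_pos (K e)).ne'
  field_simp

/-- pointwise product formula, from the product formula on the free graph -/
theorem W2_sum (h2 : S_dd1) (K : E → ℝ) (E' a b : Finset E) (hb : b ⊆ E') :
    ∑ w ∈ univ.filter (fun w : Finset E => a ∩ E' ⊆ w ∧ b ⊆ w ∧ w ⊆ E'), W2 K E' a b w =
      wt K a * wt (res K E') b := by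
  set p : E → E × Bool := fun e => (e, false) with hp
  set q : E → E × Bool := fun e => (e, true) with hq
  have hbd : ∀ c : Finset E, bdr p q c = c ×ˢ univ := by
    intro c
    ext ⟨e, s⟩
    unfold bdr
    rw [mem_filter, mem_product]
    simp only [mem_univ, true_and, and_true]
    have h3 : (c.filter fun e' => p e' = (e, s)) = if s = false ∧ e ∈ c then {e} else ∅ := by
      ext x
      simp only [hp, mem_filter, Prod.mk.injEq]
      split_ifs with h
      · simp only [mem_singleton]
        constructor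
        · rintro ⟨_, h4, _⟩; exact h4
        · rintro rfl; exact ⟨h.2, rfl, h.1.symm⟩
      · simp only [notMem_empty, iff_false]
        rintro ⟨h4, h5, h6⟩
        exact h ⟨h6.symm, h5 ▸ h4⟩
    have h4 : (c.filter fun e' => q e' = (e, s)) = if s = true ∧ e ∈ c then {e} else ∅ := by
      ext x
      simp only [hq, mem_filter, Prod.mk.injEq]
      split_ifs with h
      · simp only [mem_singleton]
        constructor
        · rintro ⟨_, h4, _⟩; exact h4
        · rintro rfl; exact ⟨h.2, rfl, h.1.symm⟩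
      · simp only [notMem_empty, iff_false]
        rintro ⟨h4, h5, h6⟩
        exact h ⟨h6.symm, h5 ▸ h4⟩
    rw [h3, h4]
    by_cases hec : e ∈ c <;> cases s <;> simp [hec]
  have hinj : ∀ c c' : Finset E, bdr p q c = bdr p q c' ↔ c = c' := by
    intro c c'
    rw [hbd, hbd]
    constructor
    · intro h
      ext x
      have := congrArg (fun t : Finset (E × Bool) => (x, true) ∈ t) h
      simpa using this
    · rintro rfl; rfl
  have h := h2 (E × Bool) E p q K E' (bdr p q a) (bdr p q b)
  unfold DD Y at h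
  have f1 : (univ.filter fun c : Finset E => bdr p q c = bdr p q a) = {a} := by
    ext c; simp [hinj]
  have f2 : (univ.filter fun c : Finset E => bdr p q c = bdr p q b ∧ c ⊆ E') = {b} := by
    ext c
    simp only [hinj, mem_filter, mem_univ, true_and, mem_singleton]
    constructor
    · exact fun h => h.1
    · rintro rfl; exact ⟨rfl, hb⟩
  have f3 : (univ.filter fun c : Finset E => bdr p q c = bdr p q b) = {b} := by
    ext c; simp [hinj]
  rw [f1, f2, f3, sum_singleton, sum_singleton, sum_singleton, sum_singleton] at h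
  simpa using h

theorem wt_res_zero (K : E → ℝ) (E' b : Finset E) (hb : ¬ b ⊆ E') : wt (res K E') b = 0 := by
  obtain ⟨e, he, he'⟩ := not_subset.1 hb
  unfold wt
  refine prod_eq_zero (mem_univ e) ?_
  simp [he, res, he']

theorem Y_res (p q : E → V) (K : E → ℝ) (E' : Finset E) (B : Finset V) :
    Y p q (res K E') B =
      ∑ b ∈ univ.filter (fun b : Finset E => bdr p q b = B ∧ b ⊆ E'), wt (res K E') b := by
  unfold Y
  rw [← filter_filter]
  refine (sum_subset (filter_subset _ _) ?_).symm
  intro b hb hb'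
  refine wt_res_zero K E' b fun h => hb' ?_
  rw [mem_filter]
  exact ⟨hb, h⟩

/-- the comparison with the double current sum -/
theorem le_DD (h2 : S_dd1) (p q : E → V) (K : E → ℝ) (hK : ∀ e, 0 ≤ K e) (E' : Finset E)
    (A : Finset V) (o x : V) :
    (∑ a ∈ univ.filter (fun a : Finset E => bdr p q a = A), wt K a * ind (con p q (a ∩ E') o x)) *
      Y p q (res K E') ∅ ≤ DD p q K E' A ∅ (fun w => ind (con p q w o x)) := by
  rw [Y_res, sum_mul]
  unfold DD
  refine sum_le_sum fun a _ => ?_
  rw [mul_sum]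
  refine sum_le_sum fun b hb => ?_
  have hb' : b ⊆ E' := (mem_filter.1 hb).2.2
  have h3 : wt K a * ind (con p q (a ∩ E') o x) * wt (res K E') b =
      ∑ w ∈ univ.filter (fun w : Finset E => a ∩ E' ⊆ w ∧ b ⊆ w ∧ w ⊆ E'),
        W2 K E' a b w * ind (con p q (a ∩ E') o x) := by
    rw [← sum_mul, W2_sum h2 K E' a b hb']
    ring
  rw [h3]
  refine sum_le_sum fun w hw => ?_
  have hw' := (mem_filter.1 hw).2
  exact mul_le_mul_of_nonneg_left (ind_mono fun h => con_mono p q hw'.1 h)
    (W2_nonneg K hK E' a b w)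

/-- removal of the edge -/
theorem remove_edge (p q : E → V) (K : E → ℝ) (hK : ∀ e, 0 ≤ K e) (E' : Finset E)
    (A : Finset V) (o x : V) (e : E) (he : e ∉ E') :
    ∑ a ∈ univ.filter (fun a : Finset E => bdr p q a = A),
      wt K a * ind (e ∈ a ∧ con p q (a ∩ E') o x) ≤
    Real.tanh (K e) * ∑ a ∈ univ.filter
      (fun a : Finset E => bdr p q a = symmDiff A (symmDiff {p e} {q e})),
        wt K a * ind (con p q (a ∩ E') o x) := by
  have h1 : ∑ a ∈ univ.filter (fun a : Finset E => bdr p q a = A),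
      wt K a * ind (e ∈ a ∧ con p q (a ∩ E') o x) =
      ∑ a ∈ (univ.filter (fun a : Finset E => bdr p q a = A)).filter (fun a => e ∈ a),
        Real.tanh (K e) * (wt K (a.erase e) * ind (con p q ((a.erase e) ∩ E') o x)) := by
    rw [sum_filter (fun a : Finset E => e ∈ a)]
    refine sum_congr rfl fun a _ => ?_
    split_ifs with h
    · have h3 : (a.erase e) ∩ E' = a ∩ E' := by
        ext z
        simp only [mem_inter, mem_erase]
        constructor
        · rintro ⟨⟨_, h4⟩, h5⟩; exact ⟨h4, h5⟩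
        · rintro ⟨h4, h5⟩
          refine ⟨⟨?_, h4⟩, h5⟩
          rintro rfl
          exact he h5
      rw [h3, wt_erase K a e h]
      have h4 : ind (e ∈ a ∧ con p q (a ∩ E') o x) = ind (con p q (a ∩ E') o x) := by
        by_cases h5 : con p q (a ∩ E') o x
        · rw [ind_true ⟨h, h5⟩, ind_true h5]
        · rw [ind_false h5, ind_false fun h6 => h5 h6.2]
      rw [h4]
      ring
    · rw [ind_false fun h6 => h h6.1, mul_zero]
  rw [h1, ← mul_sum]
  have ht : 0 ≤ Real.tanh (K e) := by
    rw [Real.tanh_eq_sinh_div_cosh]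
    exact div_nonneg (Real.sinh_nonneg_iff.2 (hK e)) (Real.cosh_pos _).le
  refine mul_le_mul_of_nonneg_left ?_ ht
  have h5 : ∑ a ∈ (univ.filter (fun a : Finset E => bdr p q a = A)).filter (fun a => e ∈ a),
        (wt K (a.erase e) * ind (con p q ((a.erase e) ∩ E') o x)) =
      ∑ a ∈ ((univ.filter (fun a : Finset E => bdr p q a = A)).filter (fun a => e ∈ a)).image
        (fun a => a.erase e), (wt K a * ind (con p q (a ∩ E') o x)) := by
    rw [sum_image]
    intro a ha b hb hab
    have ha' : e ∈ a := (mem_filter.1 ha).2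
    have hb' : e ∈ b := (mem_filter.1 hb).2
    simp only at hab
    rw [← insert_erase ha', ← insert_erase hb', hab]
  rw [h5]
  refine sum_le_sum_of_subset_of_nonneg ?_ fun a _ _ =>
    mul_nonneg (wt_nonneg K hK a) (ind_nonneg _)
  intro c hc
  obtain ⟨a, ha, rfl⟩ := mem_image.1 hc
  rw [mem_filter, mem_filter] at ha
  rw [mem_filter]
  refine ⟨mem_univ _, ?_⟩
  rw [bdr_erase p q a e ha.2, ha.1.2]

theorem sd (a b c d : Finset V) :
    symmDiff (symmDiff a b) (symmDiff c d) = symmDiff (symmDiff d b) (symmDiff a c) := by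
  rw [symmDiff_symmDiff_symmDiff_comm, symmDiff_comm (symmDiff a c), symmDiff_comm b d]

theorem edge_bound (h2 : S_dd1) (h3 : S_switch) (h4 : S_par) (p q : E → V) (K : E → ℝ)
    (hK : ∀ e, 0 ≤ K e) (o g : V) (S : Finset V) (e : E) (x y : V) (hy : y ∉ S)
    (hxy : (p e = x ∧ q e = y) ∨ (p e = y ∧ q e = x)) :
    (∑ a ∈ univ.filter (fun a : Finset E => bdr p q a = symmDiff {o} {g}),
      wt K a * ind (e ∈ a ∧ con p q (a ∩ ins p q S) o x)) * Y p q (res K (ins p q S)) ∅ ≤
    Real.tanh (K e) * (Y p q (res K (ins p q S)) (symmDiff {o} {x}) *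
      Y p q K (symmDiff {y} {g})) := by
  set E' := ins p q S with hE'
  have he : e ∉ E' := by
    rw [hE']
    unfold ins
    rw [mem_filter]
    rintro ⟨_, h5, h6⟩
    rcases hxy with ⟨_, h8⟩ | ⟨h7, _⟩
    · exact hy (h8 ▸ h6)
    · exact hy (h7 ▸ h5)
  have hRK : ∀ e, 0 ≤ res K E' e := by
    intro e
    unfold res
    split_ifs
    · exact hK e
    · exact le_rfl
  have hY0 := Y_empty_pos p q (res K E') hRK
  have hA : (symmDiff (symmDiff {o} {g}) (symmDiff {p e} {q e}) : Finset V) =
      symmDiff (symmDiff {y} {g}) (symmDiff {o} {x}) := by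
    rcases hxy with ⟨h7, h8⟩ | ⟨h7, h8⟩
    · rw [h7, h8]
      exact sd _ _ _ _
    · rw [h7, h8, symmDiff_comm ({y} : Finset V) {x}]
      exact sd _ _ _ _
  have s1 := remove_edge p q K hK E' (symmDiff {o} {g}) o x e he
  rw [hA] at s1
  have s2 := le_DD h2 p q K hK E' (symmDiff (symmDiff {y} {g}) (symmDiff {o} {x})) o x
  have s3 : DD p q K E' (symmDiff (symmDiff {y} {g}) (symmDiff {o} {x})) ∅
      (fun w => ind (con p q w o x)) =
      Y p q K (symmDiff {y} {g}) * Y p q (res K E') (symmDiff {o} {x}) := by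
    rw [← h2 V E p q K E', h3 V E p q K E' (symmDiff {y} {g}) (symmDiff {o} {x})]
    congr 1
    funext w
    rw [mul_one]
    congr 1
    exact propext ((h4 V E p q w).1 o x).symm
  have ht : 0 ≤ Real.tanh (K e) := by
    rw [Real.tanh_eq_sinh_div_cosh]
    exact div_nonneg (Real.sinh_nonneg_iff.2 (hK e)) (Real.cosh_pos _).le
  calc _ ≤ (Real.tanh (K e) * ∑ a ∈ univ.filter
      (fun a : Finset E => bdr p q a = symmDiff (symmDiff {y} {g}) (symmDiff {o} {x})),
        wt K a * ind (con p q (a ∩ E') o x)) * Y p q (res K E') ∅ :=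
        mul_le_mul_of_nonneg_right s1 hY0.le
    _ = Real.tanh (K e) * ((∑ a ∈ univ.filter
      (fun a : Finset E => bdr p q a = symmDiff (symmDiff {y} {g}) (symmDiff {o} {x})),
        wt K a * ind (con p q (a ∩ E') o x)) * Y p q (res K E') ∅) := by ring
    _ ≤ Real.tanh (K e) * (Y p q K (symmDiff {y} {g}) * Y p q (res K E') (symmDiff {o} {x})) := by
        rw [← s3]
        exact mul_le_mul_of_nonneg_left s2 ht
    _ = _ := by ring

/-- an edge of the current leaves `S` at the cluster of `o` -/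
theorem exists_edge (h4 : S_par) (p q : E → V) (o g : V) (S : Finset V) (ho : o ∈ S) (hg : g ∉ S)
    (a : Finset E) (ha : bdr p q a = symmDiff {o} {g}) :
    ∃ e ∈ a, (p e ∈ S ∧ q e ∉ S ∧ con p q (a ∩ ins p q S) o (p e)) ∨
      (q e ∈ S ∧ p e ∉ S ∧ con p q (a ∩ ins p q S) o (q e)) := by
  classical
  by_contra hcon
  push Not at hcon
  set C : Finset V := univ.filter fun v => con p q (a ∩ ins p q S) o v with hC
  have memC : ∀ v, v ∈ C ↔ con p q (a ∩ ins p q S) o v := by
    intro v; rw [hC, mem_filter]; simp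
  have hCS : ∀ v, con p q (a ∩ ins p q S) o v → v ∈ S := by
    intro v hv
    unfold con at hv
    induction hv with
    | refl => exact ho
    | tail _ hstep ih =>
      obtain ⟨e, he, h5⟩ := hstep
      have he' := (mem_inter.1 he).2
      unfold ins at he'
      rw [mem_filter] at he'
      rcases h5 with ⟨h6, h7⟩ | ⟨h6, h7⟩
      · rw [← h7]; exact he'.2.2
      · rw [← h6]; exact he'.2.1
  have step : ∀ e ∈ a, ∀ u v, ((p e = u ∧ q e = v) ∨ (p e = v ∧ q e = u)) → u ∈ C → v ∈ C := by
    intro e he u v huv hu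
    rw [memC] at hu ⊢
    have huS := hCS u hu
    by_cases hv : v ∈ S
    · refine Relation.ReflTransGen.tail hu ⟨e, ?_, huv⟩
      rw [mem_inter]
      refine ⟨he, ?_⟩
      unfold ins
      rw [mem_filter]
      rcases huv with ⟨h6, h7⟩ | ⟨h6, h7⟩
      · rw [h6, h7]; exact ⟨mem_univ _, huS, hv⟩
      · rw [h6, h7]; exact ⟨mem_univ _, hv, huS⟩
    · exfalso
      rcases huv with ⟨h6, h7⟩ | ⟨h6, h7⟩
      · exact (hcon e he).1 (h6 ▸ huS) (h7 ▸ hv) (h6 ▸ hu)
      · exact (hcon e he).2 (h7 ▸ huS) (h6 ▸ hv) (h7 ▸ hu)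
  have hclosed : ∀ u v, con p q a u v → (u ∈ C ↔ v ∈ C) := by
    intro u v huv
    unfold con at huv
    induction huv with
    | refl => exact Iff.rfl
    | tail _ hstep ih =>
      obtain ⟨e, he, h5⟩ := hstep
      rw [ih]
      constructor
      · exact step e he _ _ h5
      · refine step e he _ _ ?_
        rcases h5 with h5 | h5
        · exact Or.inr h5
        · exact Or.inl h5
  have h6 := (h4 V E p q a).2 a C (Subset.refl a) hclosed
  have hoC : o ∈ C := by rw [memC]; exact Relation.ReflTransGen.refl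
  have hgC : g ∉ C := by rw [memC]; exact fun h => hg (hCS g h)
  have h7 : (bdr p q a) ∩ C = {o} := by
    rw [ha]
    ext v
    simp only [mem_inter, mem_symmDiff, mem_singleton]
    constructor
    · rintro ⟨h8 | h8, h9⟩
      · exact h8.1
      · exact absurd (h8.1 ▸ h9) hgC
    · rintro rfl
      refine ⟨Or.inl ⟨rfl, ?_⟩, hoC⟩
      rintro rfl
      exact hg ho
  rw [h7, card_singleton] at h6
  exact absurd h6 (by decide)

theorem cor_eq (h1 : S_ht) (p q : E → V) (K : E → ℝ) (A : Finset V) :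
    cor p q K A = Y p q K A / Y p q K ∅ := by
  unfold cor
  rw [h1 V E p q K A, h1 V E p q K ∅]
  exact mul_div_mul_left _ _ (by positivity)

end graph

theorem simon (h1 : S_ht) (h2 : S_dd1) (h3 : S_switch) (h4 : S_par) : S_simon := by
  intro V E _ _ _ _ p q K hK o g S ho hg
  set E' := ins p q S with hE'
  have hRK : ∀ e, 0 ≤ res K E' e := by
    intro e
    unfold res
    split_ifs
    · exact hK e
    · exact le_rfl
  have hY0 := Y_empty_pos p q K hK
  have hR0 := Y_empty_pos p q (res K E') hRK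
  have main : Y p q K (symmDiff {o} {g}) * Y p q (res K E') ∅ ≤ ∑ e, Real.tanh (K e) *
      (ind (p e ∈ S ∧ q e ∉ S) * (Y p q (res K E') (symmDiff {o} {p e}) *
        Y p q K (symmDiff {q e} {g})) +
      ind (q e ∈ S ∧ p e ∉ S) * (Y p q (res K E') (symmDiff {o} {q e}) *
        Y p q K (symmDiff {p e} {g}))) := by
    have s1 : Y p q K (symmDiff {o} {g}) ≤
        ∑ a ∈ univ.filter (fun a : Finset E => bdr p q a = symmDiff {o} {g}),
          wt K a * ∑ e, (ind (p e ∈ S ∧ q e ∉ S) * ind (e ∈ a ∧ con p q (a ∩ E') o (p e)) +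
            ind (q e ∈ S ∧ p e ∉ S) * ind (e ∈ a ∧ con p q (a ∩ E') o (q e))) := by
      unfold Y
      refine sum_le_sum fun a ha => ?_
      have h5 : 1 ≤ ∑ e, (ind (p e ∈ S ∧ q e ∉ S) * ind (e ∈ a ∧ con p q (a ∩ E') o (p e)) +
            ind (q e ∈ S ∧ p e ∉ S) * ind (e ∈ a ∧ con p q (a ∩ E') o (q e))) := by
        obtain ⟨e, he, h6⟩ := exists_edge h4 p q o g S ho hg a (mem_filter.1 ha).2
        have hnn : ∀ e : E, 0 ≤ ind (p e ∈ S ∧ q e ∉ S) * ind (e ∈ a ∧ con p q (a ∩ E') o (p e)) +
            ind (q e ∈ S ∧ p e ∉ S) * ind (e ∈ a ∧ con p q (a ∩ E') o (q e)) := fun e =>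
          add_nonneg (mul_nonneg (ind_nonneg _) (ind_nonneg _))
            (mul_nonneg (ind_nonneg _) (ind_nonneg _))
        refine le_trans ?_ (single_le_sum (f := fun e : E => ind (p e ∈ S ∧ q e ∉ S) *
          ind (e ∈ a ∧ con p q (a ∩ E') o (p e)) +
            ind (q e ∈ S ∧ p e ∉ S) * ind (e ∈ a ∧ con p q (a ∩ E') o (q e)))
            (fun e _ => hnn e) (mem_univ e))
        rcases h6 with ⟨h7, h8, h9⟩ | ⟨h7, h8, h9⟩
        · have i1 : ind (p e ∈ S ∧ q e ∉ S) = 1 := ind_true ⟨h7, h8⟩
          have i2 : ind (e ∈ a ∧ con p q (a ∩ E') o (p e)) = 1 := ind_true ⟨he, h9⟩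
          have := mul_nonneg (ind_nonneg (q e ∈ S ∧ p e ∉ S))
            (ind_nonneg (e ∈ a ∧ con p q (a ∩ E') o (q e)))
          rw [i1, i2]
          linarith
        · have i1 : ind (q e ∈ S ∧ p e ∉ S) = 1 := ind_true ⟨h7, h8⟩
          have i2 : ind (e ∈ a ∧ con p q (a ∩ E') o (q e)) = 1 := ind_true ⟨he, h9⟩
          have := mul_nonneg (ind_nonneg (p e ∈ S ∧ q e ∉ S))
            (ind_nonneg (e ∈ a ∧ con p q (a ∩ E') o (p e)))
          rw [i1, i2]
          linarith
      exact le_mul_of_one_le_right (wt_nonneg K hK a) h5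
    have s2 : ∑ a ∈ univ.filter (fun a : Finset E => bdr p q a = symmDiff {o} {g}),
          wt K a * ∑ e, (ind (p e ∈ S ∧ q e ∉ S) * ind (e ∈ a ∧ con p q (a ∩ E') o (p e)) +
            ind (q e ∈ S ∧ p e ∉ S) * ind (e ∈ a ∧ con p q (a ∩ E') o (q e))) =
        ∑ e, (ind (p e ∈ S ∧ q e ∉ S) *
          (∑ a ∈ univ.filter (fun a : Finset E => bdr p q a = symmDiff {o} {g}),
            wt K a * ind (e ∈ a ∧ con p q (a ∩ E') o (p e))) +
          ind (q e ∈ S ∧ p e ∉ S) *
          (∑ a ∈ univ.filter (fun a : Finset E => bdr p q a = symmDiff {o} {g}),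
            wt K a * ind (e ∈ a ∧ con p q (a ∩ E') o (q e)))) := by
      simp only [mul_sum]
      rw [sum_comm]
      refine sum_congr rfl fun e _ => ?_
      rw [← sum_add_distrib]
      refine sum_congr rfl fun a _ => ?_
      ring
    refine (mul_le_mul_of_nonneg_right (s1.trans_eq s2) hR0.le).trans ?_
    rw [sum_mul]
    refine sum_le_sum fun e _ => ?_
    rw [add_mul, mul_add]
    refine add_le_add ?_ ?_
    · by_cases h5 : p e ∈ S ∧ q e ∉ S
      · rw [ind_true h5, one_mul, one_mul]
        exact edge_bound h2 h3 h4 p q K hK o g S e (p e) (q e) h5.2 (Or.inl ⟨rfl, rfl⟩)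
      · rw [ind_false h5]; simp
    · by_cases h5 : q e ∈ S ∧ p e ∉ S
      · rw [ind_true h5, one_mul, one_mul]
        exact edge_bound h2 h3 h4 p q K hK o g S e (q e) (p e) h5.2 (Or.inr ⟨rfl, rfl⟩)
      · rw [ind_false h5]; simp
  have hc : ∀ A, cor p q K A = Y p q K A / Y p q K ∅ := cor_eq h1 p q K
  have hcS : ∀ A, corS p q K S A = Y p q (res K E') A / Y p q (res K E') ∅ := fun A =>
    cor_eq h1 p q (res K E') A
  simp only [hc, hcS]
  have e1 : Y p q K (symmDiff {o} {g}) / Y p q K ∅ =
      (Y p q K (symmDiff {o} {g}) * Y p q (res K E') ∅) / (Y p q K ∅ * Y p q (res K E') ∅) :=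
    (mul_div_mul_right _ _ hR0.ne').symm
  rw [e1]
  refine (div_le_div_of_nonneg_right main (mul_pos hY0 hR0).le).trans_eq ?_
  rw [sum_div]
  refine sum_congr rfl fun e _ => ?_
  field_simp

end Pool.Agent.H21.IS
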