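import Pool.Agent.H960.FV.Bas

/-!
Project IS (helper960), MP_600500_pr: the Ising measure below the critical inverse temperature is a
finitary factor of a finite valued iid process with exponential tails.
Definitions and statements of all steps.
-/

open MeasureTheory Filter Topology Finset H960FV

namespace H960IS

/-- spin value -/
def sp (b : Bool) : ℝ := if b then 1 else -1

/-! ### Part A: Ising models on finite graphs, double currents -/

section graph

variable {V E : Type} [Fintype V] [DecidableEq V] [Fintype E] [DecidableEq E]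

/-- spin sum with the product of the spins of `A`; the edge `e` joins `p e` and `q e` -/
noncomputable def Zs (p q : E → V) (K : E → ℝ) (A : Finset V) : ℝ :=
  ∑ σ : V → Bool, (∏ v ∈ A, sp (σ v)) *
    Real.exp (∑ e, K e * (sp (σ (p e)) * sp (σ (q e))))

/-- correlation -/
noncomputable def cor (p q : E → V) (K : E → ℝ) (A : Finset V) : ℝ :=
  Zs p q K A / Zs p q K ∅

/-- vertices of odd degree of a set of edges -/
def bdr (p q : E → V) (a : Finset E) : Finset V :=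
  univ.filter fun v => Odd ((a.filter fun e => p e = v).card + (a.filter fun e => q e = v).card)

/-- weight of a set of odd edges -/
noncomputable def wt (K : E → ℝ) (a : Finset E) : ℝ :=
  ∏ e, if e ∈ a then Real.sinh (K e) else Real.cosh (K e)

/-- high temperature expansion -/
noncomputable def Y (p q : E → V) (K : E → ℝ) (A : Finset V) : ℝ :=
  ∑ a ∈ univ.filter (fun a : Finset E => bdr p q a = A), wt K a

/-- restricted couplings -/
def res (K : E → ℝ) (E' : Finset E) : E → ℝ := fun e => if e ∈ E' then K e else 0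

/-- weight of a double current, the second one lives on `E'`; `w` is the set of open edges in `E'` -/
noncomputable def W2 (K : E → ℝ) (E' a b w : Finset E) : ℝ :=
  ∏ e, if e ∈ E' then (if e ∈ w then (if (e ∈ a ↔ e ∈ b) then Real.sinh (K e) ^ 2
    else Real.sinh (K e) * Real.cosh (K e)) else 1)
    else (if e ∈ a then Real.sinh (K e) else Real.cosh (K e))

/-- double current sum with sources `A` and `B` -/
noncomputable def DD (p q : E → V) (K : E → ℝ) (E' : Finset E) (A B : Finset V)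
    (F : Finset E → ℝ) : ℝ :=
  ∑ a ∈ univ.filter (fun a : Finset E => bdr p q a = A),
    ∑ b ∈ univ.filter (fun b : Finset E => bdr p q b = B ∧ b ⊆ E'),
      ∑ w ∈ univ.filter (fun w : Finset E => a ∩ E' ⊆ w ∧ b ⊆ w ∧ w ⊆ E'), W2 K E' a b w * F w

/-- connected by the edges of `w` -/
def con (p q : E → V) (w : Finset E) (u v : V) : Prop :=
  Relation.ReflTransGen (fun x y => ∃ e ∈ w, (p e = x ∧ q e = y) ∨ (p e = y ∧ q e = x)) u v

open Classical in
/-- indicator -/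
noncomputable def ind (P : Prop) : ℝ := if P then 1 else 0

/-- edges inside `S` -/
def ins (p q : E → V) (S : Finset V) : Finset E := univ.filter fun e => p e ∈ S ∧ q e ∈ S

/-- correlation of the model restricted to `S` -/
noncomputable def corS (p q : E → V) (K : E → ℝ) (S A : Finset V) : ℝ :=
  cor p q (res K (ins p q S)) A

/-- weight of the event that `S` is the set of the vertices not connected to `g` -/
noncomputable def PS (p q : E → V) (K : E → ℝ) (g : V) (S : Finset V) : ℝ :=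
  DD p q K univ ∅ ∅ (fun w => ind (∀ v, v ∈ S ↔ ¬ con p q w v g)) / (Y p q K ∅) ^ 2

end graph

/-- high temperature expansion -/
def S_ht : Prop := ∀ (V E : Type) [Fintype V] [DecidableEq V] [Fintype E] [DecidableEq E]
  (p q : E → V) (K : E → ℝ) (A : Finset V), Zs p q K A = 2 ^ Fintype.card V * Y p q K A

/-- product formula -/
def S_dd1 : Prop := ∀ (V E : Type) [Fintype V] [DecidableEq V] [Fintype E] [DecidableEq E]
  (p q : E → V) (K : E → ℝ) (E' : Finset E) (A B : Finset V),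
  DD p q K E' A B (fun _ => 1) = Y p q K A * Y p q (res K E') B

/-- switching lemma -/
def S_switch : Prop := ∀ (V E : Type) [Fintype V] [DecidableEq V] [Fintype E] [DecidableEq E]
  (p q : E → V) (K : E → ℝ) (E' : Finset E) (A B : Finset V) (F : Finset E → ℝ),
  DD p q K E' A B F =
    DD p q K E' (symmDiff A B) ∅ (fun w => ind (∃ c ⊆ w, bdr p q c = B) * F w)

/-- parity and connection -/
def S_par : Prop := ∀ (V E : Type) [Fintype V] [DecidableEq V] [Fintype E] [DecidableEq E]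
  (p q : E → V) (w : Finset E),
  (∀ u v, (∃ c ⊆ w, bdr p q c = symmDiff {u} {v}) ↔ con p q w u v) ∧
  ∀ (c : Finset E) (D : Finset V), c ⊆ w → (∀ u v, con p q w u v → (u ∈ D ↔ v ∈ D)) →
    Even ((bdr p q c) ∩ D).card

/-- second Griffiths inequality -/
def S_gks : Prop := ∀ (V E : Type) [Fintype V] [DecidableEq V] [Fintype E] [DecidableEq E]
  (p q : E → V) (K : E → ℝ), (∀ e, 0 ≤ K e) → ∀ (A B : Finset V),
  0 ≤ cor p q K A ∧ cor p q K A ≤ 1 ∧ cor p q K A * cor p q K B ≤ cor p q K (symmDiff A B)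

/-- derivative of correlations in the inverse temperature -/
def S_diff : Prop := ∀ (V E : Type) [Fintype V] [DecidableEq V] [Fintype E] [DecidableEq E]
  (p q : E → V) (K J : E → ℝ) (A : Finset V) (β : ℝ),
  HasDerivAt (fun β : ℝ => cor p q (fun e => K e + β * J e) A)
    (∑ e, J e * (cor p q (fun e => K e + β * J e) (symmDiff A (symmDiff {p e} {q e})) -
      cor p q (fun e => K e + β * J e) A *
        cor p q (fun e => K e + β * J e) (symmDiff {p e} {q e}))) β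

/-- monotonicity in the couplings -/
def S_gksmono : Prop := ∀ (V E : Type) [Fintype V] [DecidableEq V] [Fintype E] [DecidableEq E]
  (p q : E → V) (K K' : E → ℝ), (∀ e, 0 ≤ K e) → (∀ e, K e ≤ K' e) → ∀ (A : Finset V),
  cor p q K A ≤ cor p q K' A

/-- truncated correlation as a double current sum -/
def S_Ta : Prop := ∀ (V E : Type) [Fintype V] [DecidableEq V] [Fintype E] [DecidableEq E]
  (p q : E → V) (K : E → ℝ), (∀ e, 0 ≤ K e) → ∀ (o g x y : V),
  (cor p q K (symmDiff (symmDiff {o} {g}) (symmDiff {x} {y})) -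
    cor p q K (symmDiff {o} {g}) * cor p q K (symmDiff {x} {y})) * (Y p q K ∅) ^ 2 =
  DD p q K univ (symmDiff (symmDiff {o} {g}) (symmDiff {x} {y})) ∅
    (fun w => ind (¬ con p q w x y))

/-- cluster comparison -/
def S_Tb : Prop := ∀ (V E : Type) [Fintype V] [DecidableEq V] [Fintype E] [DecidableEq E]
  (p q : E → V) (K : E → ℝ), (∀ e, 0 ≤ K e) → ∀ (o g x y : V),
  DD p q K univ (symmDiff {o} {x}) ∅ (fun w => ind (con p q w y g ∧ ¬ con p q w o g)) ≤
  DD p q K univ (symmDiff (symmDiff {o} {g}) (symmDiff {x} {y})) ∅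
    (fun w => ind (con p q w o x ∧ con p q w y g ∧ ¬ con p q w o g))

/-- decomposition over the set of vertices not connected to `g` -/
def S_Tc : Prop := ∀ (V E : Type) [Fintype V] [DecidableEq V] [Fintype E] [DecidableEq E]
  (p q : E → V) (K : E → ℝ), (∀ e, 0 ≤ K e) → ∀ (o g x y : V),
  DD p q K univ (symmDiff {o} {x}) ∅ (fun w => ind (con p q w y g ∧ ¬ con p q w o g)) =
  ∑ S ∈ univ.filter (fun S : Finset V => o ∈ S ∧ x ∈ S ∧ y ∉ S ∧ g ∉ S),
    corS p q K S (symmDiff {o} {x}) * (PS p q K g S * (Y p q K ∅) ^ 2)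

/-- total weight -/
def S_PS : Prop := ∀ (V E : Type) [Fintype V] [DecidableEq V] [Fintype E] [DecidableEq E]
  (p q : E → V) (K : E → ℝ), (∀ e, 0 ≤ K e) → ∀ (o g : V),
  (∀ S, 0 ≤ PS p q K g S) ∧
  ∑ S ∈ univ.filter (fun S : Finset V => o ∈ S ∧ g ∉ S), PS p q K g S =
    1 - (cor p q K (symmDiff {o} {g})) ^ 2

/-- lower bound of the truncated correlation -/
def S_T : Prop := ∀ (V E : Type) [Fintype V] [DecidableEq V] [Fintype E] [DecidableEq E]
  (p q : E → V) (K : E → ℝ), (∀ e, 0 ≤ K e) → ∀ (o g x y : V),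
  ∑ S ∈ univ.filter (fun S : Finset V => o ∈ S ∧ g ∉ S), PS p q K g S *
    (ind (x ∈ S ∧ y ∉ S) * corS p q K S (symmDiff {o} {x}) +
      ind (y ∈ S ∧ x ∉ S) * corS p q K S (symmDiff {o} {y})) ≤
  cor p q K (symmDiff (symmDiff {o} {g}) (symmDiff {x} {y})) -
    cor p q K (symmDiff {o} {g}) * cor p q K (symmDiff {x} {y})

/-- integrated differential inequality -/
def S_growth : Prop := ∀ (V E : Type) [Fintype V] [DecidableEq V] [Fintype E] [DecidableEq E]
  (p q : E → V) (o g : V) (c β₁ β₂ : ℝ), 0 ≤ c → 0 ≤ β₁ → β₁ ≤ β₂ →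
  (∀ β, β₁ ≤ β → β ≤ β₂ → ∀ S : Finset V, o ∈ S → g ∉ S →
    c ≤ ∑ e, (ind (p e ∈ S ∧ q e ∉ S) * corS p q (fun _ => β) S (symmDiff {o} {p e}) +
      ind (q e ∈ S ∧ p e ∉ S) * corS p q (fun _ => β) S (symmDiff {o} {q e}))) →
  Real.tanh (c * (β₂ - β₁)) ≤ cor p q (fun _ => β₂) (symmDiff {o} {g})

/-- Simon - Lieb inequality -/
def S_simon : Prop := ∀ (V E : Type) [Fintype V] [DecidableEq V] [Fintype E] [DecidableEq E]
  (p q : E → V) (K : E → ℝ), (∀ e, 0 ≤ K e) → ∀ (o g : V) (S : Finset V), o ∈ S → g ∉ S →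
  cor p q K (symmDiff {o} {g}) ≤ ∑ e, Real.tanh (K e) *
    (ind (p e ∈ S ∧ q e ∉ S) * (corS p q K S (symmDiff {o} {p e}) *
        cor p q K (symmDiff {q e} {g})) +
      ind (q e ∈ S ∧ p e ∉ S) * (corS p q K S (symmDiff {o} {q e}) *
        cor p q K (symmDiff {p e} {g})))

/-! ### Part B: Ising model on the lattice -/

section lattice

variable {d : ℕ}

/-- unit vector -/
def un (i : Fin d) : Z d := Pi.single i 1

/-- the bonds touching `Λ`; the bond `(x, i)` joins `x` and `x + un i` -/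
def Ed (Λ : Finset (Z d)) : Finset (Z d × Fin d) :=
  (Λ ×ˢ univ) ∪ (Λ ×ˢ univ).image fun e => (e.1 - un e.2, e.2)

/-- minus the energy of the bonds touching `Λ` -/
noncomputable def En (Λ : Finset (Z d)) (σ : Z d → Bool) : ℝ :=
  ∑ e ∈ Ed Λ, sp (σ e.1) * sp (σ (e.1 + un e.2))

/-- `τ` inside `Λ`, `η` outside -/
def gl (Λ : Finset (Z d)) (τ : ↥Λ → Bool) (η : Z d → Bool) : Z d → Bool :=
  fun x => if h : x ∈ Λ then τ ⟨x, h⟩ else η x

/-- partition function with boundary condition `η` -/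
noncomputable def Zn (β : ℝ) (Λ : Finset (Z d)) (η : Z d → Bool) : ℝ :=
  ∑ τ : ↥Λ → Bool, Real.exp (β * En Λ (gl Λ τ η))

/-- the Gibbs kernel (expectation of `g` in `Λ` with boundary condition `η`) -/
noncomputable def Kop (β : ℝ) (Λ : Finset (Z d)) (g : (Z d → Bool) → ℝ) (η : Z d → Bool) : ℝ :=
  (∑ τ : ↥Λ → Bool, Real.exp (β * En Λ (gl Λ τ η)) * g (gl Λ τ η)) / Zn β Λ η

/-- magnetisation at `y` with plus boundary condition -/
noncomputable def mag (β : ℝ) (Λ : Finset (Z d)) (y : Z d) : ℝ :=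
  Kop β Λ (fun σ => sp (σ y)) (fun _ => true)

/-- Gibbs measures (DLR equations for cylinders) -/
def IsGibbs (β : ℝ) (μ : Measure (Z d → Bool)) : Prop :=
  ∀ Λ Δ : Finset (Z d), Λ ⊆ Δ → (∀ x ∈ Λ, ∀ i : Fin d, x + un i ∈ Δ ∧ x - un i ∈ Δ) →
    ∀ ξ : Z d → Bool, μ.real {σ | ∀ x ∈ Δ, σ x = ξ x} =
      Real.exp (β * En Λ ξ) / Zn β Λ ξ * μ.real {σ | ∀ x ∈ Δ \ Λ, σ x = ξ x}

/-- the spontaneous magnetisation vanishes at `β` -/
def NoMag (d : ℕ) (β : ℝ) : Prop := ∀ ε : ℝ, 0 < ε → ∃ L : ℕ, mag β (bx d L) 0 < ε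

/-- bonds inside `S` -/
def Ein (S : Finset (Z d)) : Finset (Z d × Fin d) :=
  (S ×ˢ univ).filter fun e => e.1 + un e.2 ∈ S

/-- two point function of the model in `S` with free boundary condition -/
noncomputable def fre (β : ℝ) (S : Finset (Z d)) (x y : Z d) : ℝ :=
  (∑ τ : ↥S → Bool, sp (gl S τ (fun _ => true) x) * sp (gl S τ (fun _ => true) y) *
    Real.exp (β * ∑ e ∈ Ein S, sp (gl S τ (fun _ => true) e.1) *
      sp (gl S τ (fun _ => true) (e.1 + un e.2)))) /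
  ∑ τ : ↥S → Bool, Real.exp (β * ∑ e ∈ Ein S, sp (gl S τ (fun _ => true) e.1) *
      sp (gl S τ (fun _ => true) (e.1 + un e.2)))

/-- boundary sum of the two point function -/
noncomputable def psi (β : ℝ) (S : Finset (Z d)) : ℝ :=
  ∑ e ∈ Ed S, (ind (e.1 ∈ S ∧ e.1 + un e.2 ∉ S) * fre β S 0 e.1 +
    ind (e.1 + un e.2 ∈ S ∧ e.1 ∉ S) * fre β S 0 (e.1 + un e.2))

/-- first end of a bond in the wired graph of `Λ` -/
def pL (Λ : Finset (Z d)) (e : ↥(Ed Λ)) : Option ↥Λ :=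
  if h : e.1.1 ∈ Λ then some ⟨e.1.1, h⟩ else none

/-- second end of a bond in the wired graph of `Λ` -/
def qL (Λ : Finset (Z d)) (e : ↥(Ed Λ)) : Option ↥Λ :=
  if h : e.1.1 + un e.1.2 ∈ Λ then some ⟨e.1.1 + un e.1.2, h⟩ else none

/-- the vertex of a site -/
def vL (Λ : Finset (Z d)) (x : Z d) : Option ↥Λ := if h : x ∈ Λ then some ⟨x, h⟩ else none

end lattice

/-- the magnetisation as a correlation with the ghost -/
def S_link1 : Prop := ∀ (d : ℕ) (β : ℝ) (Λ : Finset (Z d)) (y : Z d),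
  mag β Λ y = cor (pL Λ) (qL Λ) (fun _ => β) (symmDiff {vL Λ y} {none})

/-- the restricted correlations are the free ones -/
def S_link2 : Prop := ∀ (d : ℕ) (β : ℝ) (Λ S : Finset (Z d)), S ⊆ Λ → ∀ x ∈ S, ∀ y ∈ S,
  corS (pL Λ) (qL Λ) (fun _ => β) (S.image (vL Λ)) (symmDiff {vL Λ x} {vL Λ y}) = fre β S x y

/-- growth of the magnetisation -/
def S_B1 : Prop := ∀ (d : ℕ) (β₁ β₂ c : ℝ) (Λ : Finset (Z d)), 0 ≤ c → 0 ≤ β₁ → β₁ ≤ β₂ →
  (0 : Z d) ∈ Λ → (∀ β, β₁ ≤ β → β ≤ β₂ → ∀ S ⊆ Λ, (0 : Z d) ∈ S → c ≤ psi β S) →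
  Real.tanh (c * (β₂ - β₁)) ≤ mag β₂ Λ 0

/-- monotonicity of the boundary sum -/
def S_B2 : Prop := ∀ (d : ℕ) (β β' : ℝ) (S : Finset (Z d)), 0 ≤ β → β ≤ β' → (0 : Z d) ∈ S →
  psi β S ≤ psi β' S

/-- Simon - Lieb inequality on the lattice -/
def S_B4 : Prop := ∀ (d : ℕ) (β M : ℝ) (Λ S : Finset (Z d)), 0 ≤ β → S ⊆ Λ → (0 : Z d) ∈ S →
  (∀ e ∈ Ed S, mag β Λ e.1 ≤ M ∨ e.1 ∈ S) → (∀ e ∈ Ed S, mag β Λ (e.1 + un e.2) ≤ M ∨
    e.1 + un e.2 ∈ S) → 0 ≤ psi β S ∧ mag β Λ 0 ≤ Real.tanh β * psi β S * M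

/-- sharpness: exponential decay of the magnetisation in boxes -/
def S_sharp : Prop := ∀ (d : ℕ) (β β' : ℝ), 0 ≤ β → β < β' → NoMag d β' →
  ∃ C c : ℝ, 0 < c ∧ ∀ L : ℕ, mag β (bx d L) 0 ≤ C * Real.exp (-c * L)

/-! ### Part C: the Gibbs kernels and the dynamics -/

/-- FKG inequality -/
def S_fkg : Prop := ∀ (d : ℕ) (β : ℝ) (Λ : Finset (Z d)) (η : Z d → Bool)
  (f g : (Z d → Bool) → ℝ), 0 ≤ β → Monotone f → Monotone g →
  Kop β Λ f η * Kop β Λ g η ≤ Kop β Λ (fun σ => f σ * g σ) η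

/-- monotonicity of the kernels -/
def S_mono : Prop := ∀ (d : ℕ) (β : ℝ) (Λ : Finset (Z d)) (g : (Z d → Bool) → ℝ), 0 ≤ β →
  Monotone g → Monotone (Kop β Λ g)

/-- consistency of the kernels -/
def S_tower : Prop := ∀ (d : ℕ) (β : ℝ) (Λ Δ : Finset (Z d)) (g : (Z d → Bool) → ℝ), Λ ⊆ Δ →
  Kop β Δ (Kop β Λ g) = Kop β Δ g

/-- functions of the outside can be taken out -/
def S_out : Prop := ∀ (d : ℕ) (β : ℝ) (Λ : Finset (Z d)) (g h : (Z d → Bool) → ℝ),
  (∀ σ σ' : Z d → Bool, (∀ x ∉ Λ, σ x = σ' x) → Kop β Λ g σ = Kop β Λ g σ') ∧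
  ((∀ σ σ' : Z d → Bool, (∀ x ∉ Λ, σ x = σ' x) → h σ = h σ') →
    ∀ η, Kop β Λ (fun σ => h σ * g σ) η = h η * Kop β Λ g η)

/-- the expectation of `g` after heat bath updates of the sets of the list (head first) -/
noncomputable def Kl {d : ℕ} (β : ℝ) (l : List (Finset (Z d))) (g : (Z d → Bool) → ℝ) :
    (Z d → Bool) → ℝ :=
  l.foldr (fun B h => Kop β B h) g

/-- censoring -/
def S_cens : Prop := ∀ (d : ℕ) (β : ℝ) (l : List (Finset (Z d))) (Λ B : Finset (Z d)), 0 ≤ β →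
  B ∈ l → Λ ⊆ B → Kl β l (fun σ => sp (σ 0)) (fun _ => true) ≤ mag β Λ 0

/-- the magnetisation decreases in the volume -/
def S_magmono : Prop := ∀ (d : ℕ) (β : ℝ) (Λ Δ : Finset (Z d)) (y : Z d), 0 ≤ β → Λ ⊆ Δ →
  mag β Δ y ≤ mag β Λ y

/-- translation invariance of the magnetisation -/
def S_magtrans : Prop := ∀ (d : ℕ) (β : ℝ) (Λ : Finset (Z d)) (w y : Z d),
  mag β (Λ.image fun x => x + w) (y + w) = mag β Λ y

/-- spin flip -/
def S_flip : Prop := ∀ (d : ℕ) (β : ℝ) (Λ : Finset (Z d)) (g : (Z d → Bool) → ℝ)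
  (η : Z d → Bool), Kop β Λ (fun σ => g (fun x => !σ x)) η = Kop β Λ g (fun x => !η x)

/-- extension by plus -/
noncomputable def exT {d L : ℕ} (ζ : ↥(bx d L) → Bool) : Z d → Bool := gl (bx d L) ζ (fun _ => true)

/-- monotone coupling of the Gibbs measures in the box for all boundary conditions -/
def S_coup : Prop := ∀ (d L : ℕ) (β : ℝ), 0 ≤ β →
  ∃ ν : Measure ((↥(bx d (L + 1)) → Bool) → (↥(bx d L) → Bool)), IsProbabilityMeasure ν ∧
    (∀ κ, ν {κ} ≠ 0 → Monotone κ) ∧ ∀ (ζ : ↥(bx d (L + 1)) → Bool) (τ : ↥(bx d L) → Bool),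
      ν.real {κ | κ ζ = τ} =
        Real.exp (β * En (bx d L) (gl (bx d L) τ (exT ζ))) / Zn β (bx d L) (exT ζ)

/-- noise alphabet: activity and a random map from boundary conditions to configurations -/
abbrev Al (d L : ℕ) := Bool × ((↥(bx d (L + 1)) → Bool) → (↥(bx d L) → Bool))

/-- isolated active site -/
def iso {d : ℕ} (L : ℕ) (a : Z d → Bool) (w : Z d) : Prop :=
  a w = true ∧ ∀ w', w' ≠ w → w' - w ∈ bx d (2 * L + 2) → a w' = false

open Classical in
/-- one step of the dynamics: the boxes of radius `L` around isolated active sites are updated -/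
noncomputable def upd {d L : ℕ} (n : Z d → Al d L) (st : Z d → Bool) (v : Z d) : Bool :=
  if h : ∃ w, v - w ∈ bx d L ∧ iso L (fun x => (n x).1) w then
    (n h.choose).2 (fun x => st (h.choose + x)) ⟨v - h.choose, h.choose_spec.1⟩
  else st v

/-- the local rule of the dynamics -/
noncomputable def rule (d L : ℕ) (s : ↥(bx d (3 * L + 3)) → Bool)
    (n : ↥(bx d (3 * L + 3)) → Al d L) : Bool :=
  upd (fun x => if h : x ∈ bx d (3 * L + 3) then n ⟨x, h⟩ else (false, fun _ _ => true))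
    (fun x => if h : x ∈ bx d (3 * L + 3) then s ⟨x, h⟩ else true) 0

/-- the automaton of the rule applies `upd` -/
def S_rule : Prop := ∀ (d L : ℕ) (W : Z d × ℤ → Al d L) (ξ : Z d → Bool) (i0 : ℤ) (n : ℕ),
  evo (rule d L) W ξ i0 (n + 1) = upd (fun x => W (x, i0 + n)) (evo (rule d L) W ξ i0 n)

/-- box around `w` -/
noncomputable def bw {d : ℕ} (L : ℕ) (w : Z d) : Finset (Z d) := (bx d L).image fun x => w + x

open Classical in
/-- boxes updated by the activity field `a`, centres in the box of radius `R` -/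
noncomputable def ls {d : ℕ} (L R : ℕ) (a : Z d → Bool) : List (Finset (Z d)) :=
  (((bx d R).filter fun w => iso L a w).toList).map (bw L)

/-- boxes updated in the first `n` steps -/
noncomputable def LL {d : ℕ} (L R : ℕ) (a : Z d × ℤ → Bool) (n : ℕ) : List (Finset (Z d)) :=
  (List.range n).flatMap fun t => ls L R fun x => a (x, (t : ℤ))

/-- Bernoulli measure -/
noncomputable def ber (θ : ℝ) : Measure Bool :=
  ENNReal.ofReal θ • Measure.dirac true + ENNReal.ofReal (1 - θ) • Measure.dirac false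

/-- the coupling property of `ν` -/
def Coup (d L : ℕ) (β : ℝ) (ν : Measure ((↥(bx d (L + 1)) → Bool) → (↥(bx d L) → Bool))) : Prop :=
  (∀ κ, ν {κ} ≠ 0 → Monotone κ) ∧ ∀ (ζ : ↥(bx d (L + 1)) → Bool) (τ : ↥(bx d L) → Bool),
    ν.real {κ | κ ζ = τ} =
      Real.exp (β * En (bx d L) (gl (bx d L) τ (exT ζ))) / Zn β (bx d L) (exT ζ)

/-- one step for a fixed activity field -/
def S_rep1 : Prop := ∀ (d L : ℕ) (β : ℝ)
  (ν : Measure ((↥(bx d (L + 1)) → Bool) → (↥(bx d L) → Bool))) [IsProbabilityMeasure ν],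
  Coup d L β ν → ∀ (m R : ℕ) (g : (Z d → Bool) → ℝ),
  (∀ σ σ' : Z d → Bool, (∀ x ∈ bx d m, σ x = σ' x) → g σ = g σ') → m + L ≤ R →
  ∀ (a : Z d → Bool) (ξ : Z d → Bool),
  ∫ κ, g (upd (fun x => (a x, κ x)) ξ) ∂(Measure.infinitePi fun _ : Z d => ν) =
    Kl β (ls L R a) g ξ

/-- the law of the dynamics given the activities -/
def S_rep : Prop := ∀ (d L : ℕ) (β θ : ℝ)
  (ν : Measure ((↥(bx d (L + 1)) → Bool) → (↥(bx d L) → Bool))) [IsProbabilityMeasure ν],
  Coup d L β ν → 0 ≤ θ → θ ≤ 1 → ∀ (m n R : ℕ) (g : (Z d → Bool) → ℝ),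
  (∀ σ σ' : Z d → Bool, (∀ x ∈ bx d m, σ x = σ' x) → g σ = g σ') → m + (3 * L + 3) * n ≤ R →
  ∀ (ξ : Z d → Bool),
  ∫ W, g (evo (rule d L) W ξ 0 n) ∂(Measure.infinitePi fun _ : Z d × ℤ => (ber θ).prod ν) =
    ∫ a, Kl β (LL L R a n) g ξ ∂(Measure.infinitePi fun _ : Z d × ℤ => ber θ)

/-- Gibbs measures are invariant under the kernels -/
def S_gibbsK : Prop := ∀ (d : ℕ) (β : ℝ) (μ : Measure (Z d → Bool)) [IsProbabilityMeasure μ],
  IsGibbs β μ → ∀ (B : Finset (Z d)) (m : ℕ) (g : (Z d → Bool) → ℝ),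
  (∀ σ σ' : Z d → Bool, (∀ x ∈ bx d m, σ x = σ' x) → g σ = g σ') →
  ∫ σ, Kop β B g σ ∂μ = ∫ σ, g σ ∂μ

/-- Gibbs measures are invariant under the dynamics -/
def S_inv : Prop := ∀ (d L : ℕ) (β θ : ℝ)
  (ν : Measure ((↥(bx d (L + 1)) → Bool) → (↥(bx d L) → Bool))) [IsProbabilityMeasure ν],
  Coup d L β ν → 0 ≤ θ → θ ≤ 1 → ∀ (μ : Measure (Z d → Bool)) [IsProbabilityMeasure μ],
  IsGibbs β μ → ∀ (n : ℕ) (Λ : Finset (Z d)) (η : Z d → Bool),
  ∫ ξ, (Measure.infinitePi fun _ : Z d × ℤ => (ber θ).prod ν).real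
    {W | ∀ v ∈ Λ, evo (rule d L) W ξ 0 n v = η v} ∂μ = μ.real {x | ∀ v ∈ Λ, x v = η v}

/-- deep updates happen soon -/
def S_deep : Prop := ∀ (d l n : ℕ), (Measure.infinitePi fun _ : Z d × ℤ =>
    ber (1 / (8 * (l : ℝ) + 5) ^ d)).real
  {a | ∀ t : ℕ, t < n → ¬ ∃ w ∈ bx d l, iso (2 * l) (fun x => a (x, (t : ℤ))) w} ≤
    (1 - 1 / (4 * 5 ^ d)) ^ n

/-- the coalescence time of the dynamics -/
def S_tau : Prop := ∀ (d l : ℕ) (β : ℝ), 0 ≤ β →
  ∀ (ν : Measure ((↥(bx d (2 * l + 1)) → Bool) → (↥(bx d (2 * l)) → Bool)))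
  [IsProbabilityMeasure ν], Coup d (2 * l) β ν → ∀ n : ℕ,
  (Measure.infinitePi fun _ : Z d × ℤ => (ber (1 / (8 * (l : ℝ) + 5) ^ d)).prod ν).real
    {W | ∀ i : ℕ, i ≤ n → ∃ ξ ξ' : Z d → Bool,
      evo (rule d (2 * l)) W ξ (-(i : ℤ)) i 0 ≠ evo (rule d (2 * l)) W ξ' (-(i : ℤ)) i 0} ≤
    mag β (bx d l) 0 + (1 - 1 / (4 * 5 ^ d)) ^ n

/-! ### Conclusion -/

/-- invariance and the tail imply convergence -/
def S_conv : Prop := ∀ (d : ℕ) [NeZero d] (Sg St : Type) [Finite Sg] [MeasurableSpace Sg]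
  [MeasurableSingletonClass Sg] (ν : Measure Sg) [IsProbabilityMeasure ν]
  [Finite St] [Nonempty St] [MeasurableSpace St] [MeasurableSingletonClass St]
  (G : (Z d → Sg) → (Z d → St) → St) (ρ : ℕ), IsLoc ρ G → Tail d Sg St ν G ρ →
  ∀ (m : Measure (Z d → St)) [IsProbabilityMeasure m],
  (∀ (k : ℕ) (Λ : Finset (Z d)) (η : Z d → St),
    ∫ s, (Measure.infinitePi fun _ : Z d × ℕ => ν).real
      {B | ∀ v ∈ Λ, ev G B s k 0 v = η v} ∂m = m.real {ξ | ∀ v ∈ Λ, ξ v = η v}) →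
  ∀ (s0 : Z d → St) (Λ : Finset (Z d)) (η : Z d → St),
    Tendsto (fun k => (Measure.infinitePi fun _ : Z d × ℕ => ν).real
      {B | ∀ v ∈ Λ, ev G B s0 k 0 v = η v}) atTop (𝓝 (m.real {ξ | ∀ v ∈ Λ, ξ v = η v}))

/-- the coding: finitary factor of a finite valued iid process with exponential tails -/
def Fvff (d : ℕ) (S : Type) [MeasurableSpace S] (μ : Measure (Z d → S)) : Prop :=
  ∃ (T : Type) (_ : Finite T) (_ : MeasurableSpace T) (_ : MeasurableSingletonClass T)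
    (ν : Measure T) (_ : IsProbabilityMeasure ν) (φ : (Z d → T) → Z d → S),
    Measurable φ ∧ (∀ (x : Z d → T) (w v : Z d), φ (fun u => x (u + w)) v = φ x (v + w)) ∧
    (Measure.infinitePi fun _ : Z d => ν).map φ = μ ∧
    ∃ C c : ℝ, 0 < c ∧ ∀ r : ℕ, (Measure.infinitePi fun _ : Z d => ν).real
      {x | ∃ x' : Z d → T, (∀ v : Z d, ∑ i, |v i| ≤ (r : ℤ) → x' v = x v) ∧ φ x' 0 ≠ φ x 0}
        ≤ C * Real.exp (-c * r)

/-- criterion with one scale -/
def S_crit : Prop := ∀ (d : ℕ) [NeZero d], ∃ K D : ℕ, ∀ (S A : Type) [Finite S] [Nonempty S]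
  [MeasurableSpace S] [MeasurableSingletonClass S] [Finite A] [MeasurableSpace A]
  [MeasurableSingletonClass A] (α : Measure A) [IsProbabilityMeasure α] (F F' : Finset (Z d))
  (f : (F → S) → (F' → A) → S) (μ : Measure (Z d → S)) [IsProbabilityMeasure μ] (r N : ℕ),
  1 ≤ r → F ⊆ bx d r → F' ⊆ bx d r →
  (∀ (n : ℕ) (Λ : Finset (Z d)) (η : Z d → S),
    ∫ ξ, (Measure.infinitePi fun _ : Z d × ℤ => α).real
      {W | ∀ v ∈ Λ, evo f W ξ 0 n v = η v} ∂μ = μ.real {x | ∀ v ∈ Λ, x v = η v}) →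
  (Measure.infinitePi fun _ : Z d × ℤ => α).real
    {W | ∀ i : ℕ, i ≤ N + 1 → ∃ ξ ξ' : Z d → S,
      evo f W ξ (-(i : ℤ)) i 0 ≠ evo f W ξ' (-(i : ℤ)) i 0} * K * ((r : ℝ) * (N + 1)) ^ D ≤ 1 →
  Fvff d S μ

/-- the final statement: every Gibbs measure below the critical inverse temperature -/
def S_ising : Prop := ∀ (d : ℕ) [NeZero d] (β β' : ℝ), 0 ≤ β → β < β' → NoMag d β' →
  ∀ (μ : Measure (Z d → Bool)) [IsProbabilityMeasure μ], IsGibbs β μ → Fvff d Bool μ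

end H960IS
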